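import Pool.Agent.Lib.P4a177d.Defs
import Pool.Agent.Lib.P4a177e.AdmE

/-!
# MODULE P4a177d.AdmD: the symbols are admissible and unramified

PROOF (model: `P4a177h.Fam.val_g` in `Lib/P4a177h/Main.lean` and `Lib/P4a177e/AdmE.lean`). `val_entries`:
put `x = φ (cX b N)`, `t = φ (cT b N)`. If `1 < v t`: `(t - 1) / t - 1 = -1 / t` has value `< 1` (first
entry). If `v t ≤ 1` and `1 < v x`: `(x - b_p) / (x - b_0) - 1 = (b_0 - b_p) / (x - b_0)`, value `< 1`
(`P4a177h.val_int_le_one`, `Valuation.map_sub_eq_of_lt_left`): second entry. If `v t ≤ 1` and `v x ≤ 1`: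
all factors of `eqn_cX` (mapped by `φ`) have value `≤ 1` and the product is `1`, so all have value `1`.
Then `admissible_xi`, `unramified_xi` as in `AdmE.lean` (`P4a177h.unramified_symb`,
`P4a177e.AdmEAux.neg_on`, `P4a177h.map_symb`; blocks = single entries).
-/

set_option autoImplicit false

namespace P4a177d

open P4a177h

variable {g : ℕ} (b : Fin (g + 1) → ℤ) (N : ℤ)

namespace AdmDAux

variable {K Γ₀ : Type*} [Field K] [LinearOrderedCommGroupWithZero Γ₀]

/-- the first entry -/
theorem map_t (φ : CoordRing b N →+* K) :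
    φ ((uT1 b N / uT b N : (CoordRing b N)ˣ) : CoordRing b N) =
      (φ (cT b N) - 1) / φ (cT b N) := by
  have h : ((Units.map (φ : CoordRing b N →* K) (uT1 b N / uT b N) : Kˣ) : K) =
      (φ (cT b N) - 1) / φ (cT b N) := by
    rw [map_div, Units.val_div_eq_div_val]
    congr 1
    show φ (uT1 b N : CoordRing b N) = _
    rw [uT1_val, map_sub, map_one]
  exact h

/-- the second entry -/
theorem map_l (φ : CoordRing b N →+* K) (i : Fin (g + 1)) :
    φ ((uL b N i / uL b N 0 : (CoordRing b N)ˣ) : CoordRing b N) =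
      (φ (cX b N) - (b i : K)) / (φ (cX b N) - (b 0 : K)) := by
  have h : ((Units.map (φ : CoordRing b N →* K) (uL b N i / uL b N 0) : Kˣ) : K) =
      (φ (cX b N) - (b i : K)) / (φ (cX b N) - (b 0 : K)) := by
    rw [map_div, Units.val_div_eq_div_val]
    congr 1
    · show φ (uL b N i : CoordRing b N) = _
      rw [uL_val, map_sub, map_intCast]
    · show φ (uL b N 0 : CoordRing b N) = _
      rw [uL_val, map_sub, map_intCast]
  exact h

/-- the equation of the curve -/
theorem map_eqn (φ : CoordRing b N →+* K) :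
    (N : K) * (φ (cT b N) * (φ (cT b N) - 1)) * ∏ i, (φ (cX b N) - (b i : K)) = 1 := by
  have h := congrArg φ (eqn_cX b N)
  simp only [map_mul, map_prod, map_sub, map_one, map_intCast] at h
  exact h

end AdmDAux

theorem val_entries (p : Fin g) {K Γ₀ : Type*} [Field K] [LinearOrderedCommGroupWithZero Γ₀]
    (φ : CoordRing b N →+* K) (v : Valuation K Γ₀) :
    (∀ s, v (φ ((![uT1 b N / uT b N, uL b N p.succ / uL b N 0] : Fin 2 → (CoordRing b N)ˣ) s :
      CoordRing b N)) = 1) ∨
    ∃ s, v (φ ((![uT1 b N / uT b N, uL b N p.succ / uL b N 0] : Fin 2 → (CoordRing b N)ˣ) s :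
      CoordRing b N) - 1) < 1 := by
  have heq := AdmDAux.map_eqn b N φ
  have h1 := AdmDAux.map_t b N φ
  have h2 := AdmDAux.map_l b N φ p.succ
  have key : (v (φ ((uT1 b N / uT b N : (CoordRing b N)ˣ) : CoordRing b N)) = 1 ∧
      v (φ ((uL b N p.succ / uL b N 0 : (CoordRing b N)ˣ) : CoordRing b N)) = 1) ∨
      (v (φ ((uT1 b N / uT b N : (CoordRing b N)ˣ) : CoordRing b N) - 1) < 1 ∨
      v (φ ((uL b N p.succ / uL b N 0 : (CoordRing b N)ˣ) : CoordRing b N) - 1) < 1) := by
    rw [h1, h2]
    set t := φ (cT b N) with ht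
    set x := φ (cX b N) with hx
    have ht0 : t ≠ 0 := by
      intro h
      rw [h] at heq
      simp at heq
    have hne : ∀ i, x - (b i : K) ≠ 0 := by
      intro i h
      rw [Finset.prod_eq_zero (Finset.mem_univ i) h] at heq
      simp at heq
    by_cases h3 : 1 < v t
    · right
      left
      have e : (t - 1) / t - 1 = -(1 / t) := by
        rw [div_sub_one ht0]
        ring
      rw [e, Valuation.map_neg, map_div₀, map_one]
      exact (div_lt_one₀ (zero_lt_one.trans h3)).2 h3
    by_cases h4 : 1 < v x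
    · right
      right
      have e : (x - (b p.succ : K)) / (x - (b 0 : K)) - 1 =
          ((b 0 - b p.succ : ℤ) : K) / (x - (b 0 : K)) := by
        rw [div_sub_one (hne 0)]
        push_cast
        congr 1
        ring
      have e2 : v (x - (b 0 : K)) = v x :=
        Valuation.map_sub_eq_of_lt_left v ((val_int_le_one v _).trans_lt h4)
      rw [e, map_div₀, e2]
      exact (div_lt_one₀ (zero_lt_one.trans h4)).2 ((val_int_le_one v _).trans_lt h4)
    · left
      rw [not_lt] at h3 h4
      have hle : ∀ i, v (x - (b i : K)) ≤ 1 := fun i =>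
        (v.map_sub _ _).trans (max_le h4 (val_int_le_one v _))
      have ht1 : v (t - 1) ≤ 1 := (v.map_sub _ _).trans (max_le h3 (by rw [map_one]))
      have hN : v (N : K) ≤ 1 := val_int_le_one v N
      have hprod : v (N : K) * (v t * v (t - 1)) * ∏ i, v (x - (b i : K)) = 1 := by
        have h' := congrArg v heq
        rw [map_mul, map_mul, map_mul, map_prod, map_one] at h'
        exact h'
      have hP : ∏ i, v (x - (b i : K)) ≤ 1 := Finset.prod_le_one' fun i _ => hle i
      have hone : ∀ i, v (x - (b i : K)) = 1 := by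
        intro i
        refine le_antisymm (hle i) ?_
        have h5 : ∏ i, v (x - (b i : K)) ≤ v (x - (b i : K)) := by
          rw [← Finset.mul_prod_erase _ _ (Finset.mem_univ i)]
          exact mul_le_of_le_one_right' (Finset.prod_le_one' fun j _ => hle j)
        calc (1 : Γ₀) = v (N : K) * (v t * v (t - 1)) * ∏ i, v (x - (b i : K)) := hprod.symm
          _ ≤ ∏ i, v (x - (b i : K)) :=
            mul_le_of_le_one_left' (mul_le_one' hN (mul_le_one' h3 ht1))
          _ ≤ _ := h5
      have hvt : v t = 1 := by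
        refine le_antisymm h3 ?_
        calc (1 : Γ₀) = v (N : K) * (v t * v (t - 1)) * ∏ i, v (x - (b i : K)) := hprod.symm
          _ ≤ v (N : K) * (v t * v (t - 1)) := mul_le_of_le_one_right' hP
          _ ≤ v t * v (t - 1) := mul_le_of_le_one_left' hN
          _ ≤ v t := mul_le_of_le_one_right' ht1
      have hvt1 : v (t - 1) = 1 := by
        refine le_antisymm ht1 ?_
        calc (1 : Γ₀) = v (N : K) * (v t * v (t - 1)) * ∏ i, v (x - (b i : K)) := hprod.symm
          _ ≤ v (N : K) * (v t * v (t - 1)) := mul_le_of_le_one_right' hP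
          _ ≤ v t * v (t - 1) := mul_le_of_le_one_left' hN
          _ ≤ v (t - 1) := mul_le_of_le_one_left' h3
      rw [map_div₀, map_div₀, hvt, hvt1, hone, hone, div_one]
      exact ⟨rfl, rfl⟩
  rcases key with h | h | h
  · left
    intro s
    fin_cases s
    · exact h.1
    · exact h.2
  · right
    exact ⟨0, h⟩
  · right
    exact ⟨1, h⟩

theorem admissible_xi (p : Fin g) : P4a177s.Admissible (xi b N p) := by
  refine ⟨fun s => -(![uT1 b N / uT b N, uL b N p.succ / uL b N 0] : Fin 2 → (CoordRing b N)ˣ) s,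
    fun i => (i : ℕ), ?_, fun K _ φ O => ?_⟩
  · unfold xi
    congr 1
    funext s
    fin_cases s <;> rfl
  rcases val_entries b N p φ O.valuation with h | ⟨s, hs⟩
  · left
    intro i
    rw [Units.val_neg, map_neg, Valuation.map_neg]
    exact h i
  · right
    refine ⟨s, Or.inl ?_⟩
    have e : (Finset.univ.filter fun i : Fin 2 => (i : ℕ) = s) = {s} := by
      ext i
      simp only [Finset.mem_filter, Finset.mem_univ, true_and, Finset.mem_singleton]
      exact ⟨fun h => Fin.ext h, fun h => congrArg _ h⟩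
    rw [e, Finset.sum_singleton, Units.val_neg, map_neg]
    have e2 : ∀ y : K, 1 + -y = -(y - 1) := fun y => by ring
    rw [e2, Valuation.map_neg]
    exact hs

theorem unramified_xi (p : Fin g) : P4a177s.UnramifiedEverywhere (xi b N p) := by
  intro K _ _ _ v
  unfold xi
  rw [map_symb]
  have h := unramified_symb v (fun s => Units.map
    ((algebraMap (CoordRing b N) K : CoordRing b N →+* K) : CoordRing b N →* K)
    ((![uT1 b N / uT b N, uL b N p.succ / uL b N 0] : Fin 2 → (CoordRing b N)ˣ) s))
    (val_entries b N p (algebraMap (CoordRing b N) K) v)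
  rw [← P4a177e.AdmEAux.neg_on v _ Finset.univ] at h
  convert h using 2
  funext s
  rw [if_pos (Finset.mem_univ s)]
  have e3 : (![-(uT1 b N / uT b N), -(uL b N p.succ / uL b N 0)] : Fin 2 → (CoordRing b N)ˣ) s =
      -(![uT1 b N / uT b N, uL b N p.succ / uL b N 0] : Fin 2 → (CoordRing b N)ˣ) s := by
    fin_cases s <;> rfl
  rw [e3]
  apply Units.ext
  simp only [Units.coe_map, MonoidHom.coe_coe, Units.val_neg, map_neg]

end P4a177d
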