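import Pool.Agent.Lib.P4a177d.Defs

/-!
# MODULE P4a177d.BoundA: a type D gap is short (est. 1.5 h; elementary inequalities)

Let `i : Fin g` be a gap, `d = b_{i+1} - b_i ≥ 1`, `mid = (b_i + b_{i+1})/2`; on the gap `-4 < P`. `P(mid) = N ∏ (mid - b_k)`, so
`|N| (d/2)^2 ∏_{k ≠ i, i+1} |mid - b_k| < 4` (`mid_bound`; `P(mid) < 0` is given, so `|P(mid)| < 4`).
For `k < i`: `mid - b_k ≥ d/2 + (i - k)`, for `k > i + 1`: `b_k - mid ≥ d/2 + (k - i - 1)` (`dist_mid`; `b` is strictly increasing with integral values).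
PROOF of `dist_mid`: `b_j - b_k ≥ j - k` for `k ≤ j` (induction, or `StrictMono.add_le_nat`-type lemma).
`others`: (a) `d ≥ 4`: `|P(mid)| ≥ (d/2)^2 ≥ 4`, contradiction. (b) `d = 3`, there is another root: `|P(mid)| ≥ 9/4 * 5/2 > 4`; so there are no other roots and the sum is empty.
(c) `d = 2`: two other roots give `|P(mid)| ≥ 1 * 2 * 2 = 4`; so there is at most one other root; for `x` in the gap `1/|x - b_k| < 1` and
`1/(x - b_i) + 1/(b_{i+1} - x) ≥ 4/d = 2`. (d) `d = 1`: at most four other roots (`card_others`): `1/|x - b_k| < 1` for each, and `1/(x - b_i) + 1/(b_{i+1} - x) ≥ 4`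
(if there is no other root then the sum is zero).
`card_others` (`d = 1`): `g + 1 ≤ 6`. If `g ≥ 6`, choose the other roots: `∏_{k ≠ i,i+1} |mid - b_k| ≥ ∏_{k<i} (i - k + 1/2) * ∏_{k>i+1} (k - i - 1 + 1/2)`, with `i` factors in the first and `g - 1 - i`
in the second product, together `≥ 5` factors. All factors are `≥ 3/2 > 1`. With `≥ 5` factors at least three of them are `≥ 5/2`
(at most two factors, `k = i - 1` and `k = i + 2`, are `< 5/2`) so the product is `≥ (3/2)^2 (5/2)^3 = 35.1 > 16`, `|P(mid)| > 4`: contradiction.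
(`Finset.prod_le_prod`, splitting off `{i-1, i+2}`; or bound each factor below by `3/2` or `5/2` and use `Finset.prod_const` on the subset of the `k` with
`k ≠ i-1, i, i+1, i+2`, of cardinality `≥ g + 1 - 4 ≥ 3`.)
-/

set_option autoImplicit false

namespace P4a177d

variable {g : ℕ} {b : Fin (g + 1) → ℤ} {N : ℤ}

/-- The differences of the roots. -/
theorem sub_ge (hb : StrictMono b) {k j : Fin (g + 1)} (h : k ≤ j) :
    (j : ℤ) - k ≤ b j - b k := by
  have h1 : Monotone fun j : Fin (g + 1) => b j - (j : ℤ) := by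
    rw [Fin.monotone_iff_le_succ]
    intro i
    have h2 : b i.castSucc < b i.succ := hb (Fin.castSucc_lt_succ)
    simp only [Fin.val_castSucc, Fin.val_succ]
    push_cast
    omega
  have h3 := h1 h
  simp only at h3
  omega

namespace BoundAAux

/-- the other roots -/
theorem mem_other {i : Fin g} {k : Fin (g + 1)}
    (hk : k ∈ (Finset.univ.erase i.castSucc).erase i.succ) :
    k ≠ i.castSucc ∧ k ≠ i.succ := by
  rw [Finset.mem_erase, Finset.mem_erase] at hk
  exact ⟨hk.2.1, hk.1⟩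

theorem val_other {i : Fin g} {k : Fin (g + 1)} (h1 : k ≠ i.castSucc) (h2 : k ≠ i.succ) :
    (k : ℕ) < i ∨ (i : ℕ) + 2 ≤ k := by
  have h3 : (k : ℕ) ≠ i := fun h => h1 (Fin.ext h)
  have h4 : (k : ℕ) ≠ i + 1 := fun h => h2 (Fin.ext h)
  omega

theorem card_other (i : Fin g) :
    ((Finset.univ.erase i.castSucc).erase i.succ).card + 1 = g := by
  have hi : 0 < g := lt_of_le_of_lt (Nat.zero_le _) i.2
  have h1 : i.succ ∈ (Finset.univ : Finset (Fin (g + 1))).erase i.castSucc := by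
    rw [Finset.mem_erase]
    exact ⟨(Fin.castSucc_lt_succ).ne', Finset.mem_univ _⟩
  rw [Finset.card_erase_of_mem h1, Finset.card_erase_of_mem (Finset.mem_univ _),
    Finset.card_univ, Fintype.card_fin]
  omega

theorem gap_pos (hb : StrictMono b) (i : Fin g) : (1 : ℝ) ≤ (b i.succ : ℝ) - b i.castSucc := by
  have h1 : b i.castSucc + 1 ≤ b i.succ := hb (Fin.castSucc_lt_succ)
  have h2 : ((b i.castSucc + 1 : ℤ) : ℝ) ≤ (b i.succ : ℝ) := by exact_mod_cast h1
  push_cast at h2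
  linarith

end BoundAAux

open BoundAAux

theorem mid_bound (hb : StrictMono b) (i : Fin g)
    (h : ∀ x ∈ Set.Ioo (b i.castSucc : ℝ) (b i.succ), -4 < (PR b N).eval x ∧ (PR b N).eval x < 0) :
    |(N : ℝ)| * (((b i.succ : ℝ) - b i.castSucc) / 2) ^ 2 *
      ∏ k ∈ (Finset.univ.erase i.castSucc).erase i.succ,
        |((b i.castSucc : ℝ) + b i.succ) / 2 - b k| < 4 := by
  have hd := gap_pos hb i
  obtain ⟨m, hm⟩ : ∃ m : ℝ, m = ((b i.castSucc : ℝ) + b i.succ) / 2 := ⟨_, rfl⟩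
  rw [← hm]
  obtain ⟨h1, h2⟩ := h m ⟨by linarith, by linarith⟩
  have h3 : |(PR b N).eval m| < 4 := abs_lt.2 ⟨h1, by linarith⟩
  have h4 : (PR b N).eval m = (N : ℝ) * ∏ k, (m - b k) := by
    unfold PR
    rw [Polynomial.eval_mul, Polynomial.eval_C, Polynomial.eval_prod]
    simp only [Polynomial.eval_sub, Polynomial.eval_X, Polynomial.eval_C]
  have h5 : i.succ ∈ (Finset.univ : Finset (Fin (g + 1))).erase i.castSucc := by
    rw [Finset.mem_erase]
    exact ⟨(Fin.castSucc_lt_succ).ne', Finset.mem_univ _⟩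
  rw [h4, abs_mul, Finset.abs_prod, ← Finset.mul_prod_erase Finset.univ _
    (Finset.mem_univ i.castSucc), ← Finset.mul_prod_erase _ _ h5] at h3
  have e1 : |m - (b i.castSucc : ℝ)| = ((b i.succ : ℝ) - b i.castSucc) / 2 := by
    rw [abs_of_nonneg (by linarith)]
    rw [hm]
    ring
  have e2 : |m - (b i.succ : ℝ)| = ((b i.succ : ℝ) - b i.castSucc) / 2 := by
    rw [abs_of_nonpos (by linarith)]
    rw [hm]
    ring
  rw [e1, e2] at h3
  calc _ = |(N : ℝ)| * (((b i.succ : ℝ) - b i.castSucc) / 2 *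
        (((b i.succ : ℝ) - b i.castSucc) / 2 *
          ∏ k ∈ (Finset.univ.erase i.castSucc).erase i.succ, |m - (b k : ℝ)|)) := by ring
    _ < 4 := h3

theorem dist_mid (hb : StrictMono b) (i : Fin g) (k : Fin (g + 1)) (h1 : k ≠ i.castSucc)
    (h2 : k ≠ i.succ) :
    ((b i.succ : ℝ) - b i.castSucc) / 2 +
      (if (k : ℕ) < i then ((i : ℕ) : ℝ) - (k : ℕ) else ((k : ℕ) : ℝ) - (i : ℕ) - 1) ≤
      |((b i.castSucc : ℝ) + b i.succ) / 2 - b k| := by
  have hd := gap_pos hb i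
  rcases val_other h1 h2 with hk | hk
  · rw [if_pos hk]
    have h3 := sub_ge hb (k := k) (j := i.castSucc) (Fin.le_def.2 (by
      rw [Fin.val_castSucc]
      exact hk.le))
    have h4 : (((i.castSucc : Fin (g + 1)) : ℕ) : ℝ) - ((k : ℕ) : ℝ) ≤
        (b i.castSucc : ℝ) - b k := by exact_mod_cast h3
    rw [Fin.val_castSucc] at h4
    refine le_trans ?_ (le_abs_self _)
    linarith
  · rw [if_neg (by omega)]
    have h3 := sub_ge hb (k := i.succ) (j := k) (Fin.le_def.2 (by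
      rw [Fin.val_succ]
      omega))
    have h4 : ((k : ℕ) : ℝ) - (((i.succ : Fin (g + 1)) : ℕ) : ℝ) ≤
        (b k : ℝ) - b i.succ := by exact_mod_cast h3
    rw [Fin.val_succ] at h4
    push_cast at h4
    refine le_trans ?_ (neg_le_abs _)
    linarith

namespace BoundAAux

/-- the product of the distances from the other roots -/
theorem prod_ge (hb : StrictMono b) (i : Fin g) :
    (((b i.succ : ℝ) - b i.castSucc) / 2 + 1) ^ (g - 1) ≤
      ∏ k ∈ (Finset.univ.erase i.castSucc).erase i.succ,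
        |((b i.castSucc : ℝ) + b i.succ) / 2 - b k| := by
  have hd := gap_pos hb i
  have hc := card_other i
  have h0 : g - 1 = ((Finset.univ.erase i.castSucc).erase i.succ).card := by omega
  rw [h0, ← Finset.prod_const]
  refine Finset.prod_le_prod (fun k _ => by linarith) fun k hk => ?_
  obtain ⟨h1, h2⟩ := mem_other hk
  refine le_trans ?_ (dist_mid hb i k h1 h2)
  rcases val_other h1 h2 with h3 | h3
  · rw [if_pos h3]
    have h4 : ((k : ℕ) : ℝ) + 1 ≤ ((i : ℕ) : ℝ) := by exact_mod_cast h3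
    linarith
  · rw [if_neg (by omega)]
    have h4 : ((i : ℕ) : ℝ) + 2 ≤ ((k : ℕ) : ℝ) := by exact_mod_cast h3
    linarith

/-- at most two of the other roots are at distance `1` in the numbering -/
theorem card_near (i : Fin g) (s : Finset (Fin (g + 1))) :
    (s.filter fun k : Fin (g + 1) => (k : ℕ) + 1 = i ∨ (k : ℕ) = i + 2).card ≤ 2 := by
  refine (Finset.card_le_card_of_injOn (t := ({(i : ℕ) - 1, (i : ℕ) + 2} : Finset ℕ))
    (fun k : Fin (g + 1) => (k : ℕ)) ?_ ?_).trans Finset.card_le_two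
  · intro k hk
    have h1 := (Finset.mem_filter.1 (Finset.mem_coe.1 hk)).2
    rw [Finset.mem_coe, Finset.mem_insert, Finset.mem_singleton]
    show (k : ℕ) = i - 1 ∨ (k : ℕ) = i + 2
    omega
  · intro k _ k' _ h
    exact Fin.ext h

/-- the product for a gap of length one and many roots -/
theorem prod_ge_one (hb : StrictMono b) (i : Fin g) (hd : b i.succ - b i.castSucc = 1)
    (hg : 6 ≤ g) :
    16 ≤ ∏ k ∈ (Finset.univ.erase i.castSucc).erase i.succ,
        |((b i.castSucc : ℝ) + b i.succ) / 2 - b k| := by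
  obtain ⟨O, hO⟩ : ∃ O : Finset (Fin (g + 1)),
    O = (Finset.univ.erase i.castSucc).erase i.succ := ⟨_, rfl⟩
  have hc := card_other i
  rw [← hO] at hc ⊢
  have hd1 : (b i.succ : ℝ) - b i.castSucc = 1 := by exact_mod_cast hd
  have h1 : ∏ k ∈ O, (if (k : ℕ) + 1 = i ∨ (k : ℕ) = i + 2 then (3 / 2 : ℝ) else 5 / 2) ≤
      ∏ k ∈ O, |((b i.castSucc : ℝ) + b i.succ) / 2 - b k| := by
    refine Finset.prod_le_prod (fun k _ => by split_ifs <;> norm_num) fun k hk => ?_
    obtain ⟨h1, h2⟩ := mem_other (hO ▸ hk)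
    have h3 := dist_mid hb i k h1 h2
    rw [hd1] at h3
    refine le_trans ?_ h3
    rcases val_other h1 h2 with h4 | h4
    · rw [if_pos h4]
      split_ifs with h5
      · have h6 : ((k : ℕ) : ℝ) + 1 ≤ ((i : ℕ) : ℝ) := by exact_mod_cast h4
        linarith
      · have h6 : ((k : ℕ) : ℝ) + 2 ≤ ((i : ℕ) : ℝ) := by
          exact_mod_cast (by omega : (k : ℕ) + 2 ≤ i)
        linarith
    · rw [if_neg (by omega : ¬ (k : ℕ) < i)]
      split_ifs with h5
      · have h6 : ((i : ℕ) : ℝ) + 2 ≤ ((k : ℕ) : ℝ) := by exact_mod_cast h4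
        linarith
      · have h6 : ((i : ℕ) : ℝ) + 3 ≤ ((k : ℕ) : ℝ) := by
          exact_mod_cast (by omega : (i : ℕ) + 3 ≤ k)
        linarith
  refine le_trans ?_ h1
  rw [Finset.prod_ite, Finset.prod_const, Finset.prod_const]
  have h2 := card_near i O
  have h3 := Finset.card_filter_add_card_filter_not (s := O)
    (fun k : Fin (g + 1) => (k : ℕ) + 1 = i ∨ (k : ℕ) = i + 2)
  obtain ⟨c, hc'⟩ : ∃ c, c = (O.filter fun k : Fin (g + 1) =>
    (k : ℕ) + 1 = i ∨ (k : ℕ) = i + 2).card := ⟨_, rfl⟩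
  obtain ⟨e, he⟩ : ∃ e, e = (O.filter fun k : Fin (g + 1) =>
    ¬ ((k : ℕ) + 1 = i ∨ (k : ℕ) = i + 2)).card := ⟨_, rfl⟩
  rw [← hc', ← he] at h3 ⊢
  rw [← hc'] at h2
  obtain ⟨r, hr⟩ : ∃ r, e = r + (5 - c) := ⟨e - (5 - c), by omega⟩
  have h4 : (1 : ℝ) ≤ (5 / 2) ^ r := one_le_pow₀ (by norm_num)
  rw [hr, pow_add]
  have h5 : (16 : ℝ) ≤ (3 / 2) ^ c * (5 / 2) ^ (5 - c) := by
    interval_cases c <;> norm_num
  have h6 : (0 : ℝ) ≤ (3 / 2) ^ c * (5 / 2) ^ (5 - c) := by positivity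
  calc (16 : ℝ) ≤ (3 / 2) ^ c * (5 / 2) ^ (5 - c) := h5
    _ ≤ (3 / 2) ^ c * (5 / 2) ^ (5 - c) * (5 / 2) ^ r := le_mul_of_one_le_right h6 h4
    _ = _ := by ring

end BoundAAux

theorem card_others (hb : StrictMono b) (hN : N ≠ 0) (i : Fin g)
    (h : ∀ x ∈ Set.Ioo (b i.castSucc : ℝ) (b i.succ), -4 < (PR b N).eval x ∧ (PR b N).eval x < 0) :
    g ≤ 5 ∧ (b i.succ - b i.castSucc = 1 ∨ (b i.succ - b i.castSucc = 2 ∧ g ≤ 2) ∨
      (b i.succ - b i.castSucc = 3 ∧ g ≤ 1)) := by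
  have hmid := mid_bound hb i h
  have hgap := gap_pos hb i
  have hd1 : 1 ≤ b i.succ - b i.castSucc := by
    have h1 : b i.castSucc + 1 ≤ b i.succ := hb (Fin.castSucc_lt_succ)
    omega
  obtain ⟨Q, hQ⟩ : ∃ Q : ℝ, Q = ∏ k ∈ (Finset.univ.erase i.castSucc).erase i.succ,
        |((b i.castSucc : ℝ) + b i.succ) / 2 - b k| := ⟨_, rfl⟩
  have hpr := prod_ge hb i
  have hp1 := prod_ge_one hb i
  rw [← hQ] at hmid hpr hp1
  obtain ⟨δ, hδ⟩ : ∃ δ : ℝ, δ = (b i.succ : ℝ) - b i.castSucc := ⟨_, rfl⟩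
  rw [← hδ] at hmid hpr hgap
  have hN1 : (1 : ℝ) ≤ |(N : ℝ)| := by
    have h1 : (1 : ℤ) ≤ |N| := Int.one_le_abs hN
    exact_mod_cast h1
  have hQ1 : (1 : ℝ) ≤ Q := (one_le_pow₀ (by linarith)).trans hpr
  have h4 : (δ / 2) ^ 2 * Q < 4 := by
    refine lt_of_le_of_lt ?_ hmid
    have h5 : 0 ≤ (δ / 2) ^ 2 * Q := by positivity
    calc (δ / 2) ^ 2 * Q ≤ |(N : ℝ)| * ((δ / 2) ^ 2 * Q) := le_mul_of_one_le_left h5 hN1
      _ = _ := by ring
  have h5 : (δ / 2) ^ 2 * (δ / 2 + 1) ^ (g - 1) < 4 :=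
    lt_of_le_of_lt (mul_le_mul_of_nonneg_left hpr (by positivity)) h4
  have hδz : δ = ((b i.succ - b i.castSucc : ℤ) : ℝ) := by
    rw [hδ]
    push_cast
    ring
  obtain ⟨D, hD⟩ : ∃ D : ℤ, D = b i.succ - b i.castSucc := ⟨_, rfl⟩
  rw [← hD] at hδz hd1 hp1 ⊢
  have hD3 : D ≤ 3 := by
    by_contra hcon
    have h6 : (4 : ℝ) ≤ δ := by
      rw [hδz]
      exact_mod_cast (by omega : (4 : ℤ) ≤ D)
    have h7 : (4 : ℝ) ≤ (δ / 2) ^ 2 := by nlinarith
    nlinarith
  have hcase : D = 1 ∨ D = 2 ∨ D = 3 := by omega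
  rcases hcase with rfl | rfl | rfl
  · have hg : g ≤ 5 := by
      by_contra hcon
      have h6 := hp1 rfl (by omega)
      rw [hδz] at h4
      norm_num at h4
      linarith
    exact ⟨hg, Or.inl rfl⟩
  · have hg : g ≤ 2 := by
      by_contra hcon
      rw [hδz] at h5
      norm_num at h5
      have h6 : (2 : ℝ) ^ 2 ≤ 2 ^ (g - 1) := pow_le_pow_right₀ (by norm_num) (by omega)
      linarith
    exact ⟨by omega, Or.inr (Or.inl ⟨rfl, hg⟩)⟩
  · have hg : g ≤ 1 := by
      by_contra hcon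
      rw [hδz] at h5
      norm_num at h5
      have h6 : (5 / 2 : ℝ) ^ 1 ≤ (5 / 2) ^ (g - 1) := pow_le_pow_right₀ (by norm_num) (by omega)
      linarith
    exact ⟨by omega, Or.inr (Or.inr ⟨rfl, hg⟩)⟩

theorem others (hb : StrictMono b) (hN : N ≠ 0) (i : Fin g)
    (h : ∀ x ∈ Set.Ioo (b i.castSucc : ℝ) (b i.succ), -4 < (PR b N).eval x ∧ (PR b N).eval x < 0)
    (x : ℝ) (hx : x ∈ Set.Ioo (b i.castSucc : ℝ) (b i.succ)) :
    ∑ k ∈ (Finset.univ.erase i.castSucc).erase i.succ, 1 / |x - b k| <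
      1 / (x - b i.castSucc) + 1 / ((b i.succ : ℝ) - x) := by
  obtain ⟨hg, hcase⟩ := card_others hb hN i h
  obtain ⟨hx1, hx2⟩ := hx
  obtain ⟨O, hO⟩ : ∃ O : Finset (Fin (g + 1)),
    O = (Finset.univ.erase i.castSucc).erase i.succ := ⟨_, rfl⟩
  have hc := card_other i
  rw [← hO] at hc ⊢
  -- the terms
  have hterm : ∀ k ∈ O, 1 / |x - (b k : ℝ)| < 1 := by
    intro k hk
    obtain ⟨h1, h2⟩ := mem_other (hO ▸ hk)
    have h3 : 1 < |x - (b k : ℝ)| := by
      rcases val_other h1 h2 with h4 | h4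
      · have h5 : b k < b i.castSucc := hb (Fin.lt_def.2 (by rwa [Fin.val_castSucc]))
        have h6 : ((b k + 1 : ℤ) : ℝ) ≤ (b i.castSucc : ℝ) := by exact_mod_cast h5
        push_cast at h6
        refine lt_of_lt_of_le ?_ (le_abs_self _)
        linarith
      · have h5 : b i.succ < b k := hb (Fin.lt_def.2 (by
          rw [Fin.val_succ]
          omega))
        have h6 : ((b i.succ + 1 : ℤ) : ℝ) ≤ (b k : ℝ) := by exact_mod_cast h5
        push_cast at h6
        refine lt_of_lt_of_le ?_ (neg_le_abs _)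
        linarith
    rw [div_lt_one (by linarith)]
    exact h3
  -- the right side
  obtain ⟨u, hu⟩ : ∃ u : ℝ, u = x - b i.castSucc := ⟨_, rfl⟩
  obtain ⟨v, hv⟩ : ∃ v : ℝ, v = (b i.succ : ℝ) - x := ⟨_, rfl⟩
  have hu0 : 0 < u := by linarith
  have hv0 : 0 < v := by linarith
  have huv : u + v = ((b i.succ - b i.castSucc : ℤ) : ℝ) := by
    rw [hu, hv]
    push_cast
    ring
  rw [← hu, ← hv]
  have hR : 4 / (u + v) ≤ 1 / u + 1 / v := by
    rw [div_add_div _ _ hu0.ne' hv0.ne', div_le_div_iff₀ (by linarith) (by positivity)]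
    nlinarith [sq_nonneg (u - v)]
  have hR0 : 0 < 1 / u + 1 / v := by positivity
  rcases O.eq_empty_or_nonempty with hE | hE
  · rw [hE, Finset.sum_empty]
    exact hR0
  · have h1 : ∑ k ∈ O, 1 / |x - (b k : ℝ)| < ∑ _k ∈ O, (1 : ℝ) :=
      Finset.sum_lt_sum_of_nonempty hE hterm
    rw [Finset.sum_const, nsmul_eq_mul, mul_one] at h1
    have hcp : 0 < O.card := Finset.card_pos.2 hE
    refine lt_of_lt_of_le h1 (le_trans ?_ hR)
    rw [huv]
    rcases hcase with hd | ⟨hd, hg2⟩ | ⟨hd, hg2⟩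
    · rw [hd]
      norm_num
      omega
    · rw [hd]
      have h2 : (O.card : ℝ) ≤ 1 := by exact_mod_cast (by omega : O.card ≤ 1)
      norm_num
      linarith
    · exfalso
      omega

end P4a177d
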