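import Pool.Agent.Lib.P4a177d.BoundA

/-!
# MODULE P4a177d.BoundB: there is at most one type D gap

PROOF. Suppose `i < i'` are two gaps with `-4 < P < 0`; they are not adjacent (`hadj`), so `i' ≥ i + 2`, and `g ≥ 3`. By `card_others` both have length `d = 1` and `g ≤ 5`.
So `g ∈ {3, 4, 5}`. Put `L = b_g - b_0 ≥ g`. By `mid_bound` and `dist_mid` (with `d = 1`):
`g = 5`: the gap `i` with `i = 0, 1, 3, 4` is impossible, so `i = i' = 2`: contradiction.
`g = 3`: `i = 0`, `i' = 2`: the first gap gives `|N|/4 * (L - 3/2) * (L - 1/2) < 4`, which contradicts `hex`.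
`g = 4`: one of the gaps is at an end: `|N|/4 * 3/2 * 5/2 * (L - 1/2) < 4`, which contradicts `hex`.
-/

set_option autoImplicit false

namespace P4a177d

variable {g : ℕ} {b : Fin (g + 1) → ℤ} {N : ℤ}

namespace BoundBAux

theorem low (hb : StrictMono b) (i : Fin g) (hd : b i.succ - b i.castSucc = 1)
    (h : ∀ x ∈ Set.Ioo (b i.castSucc : ℝ) (b i.succ), -4 < (PR b N).eval x ∧ (PR b N).eval x < 0) :
    |(N : ℝ)| * ∏ k ∈ (Finset.univ.erase i.castSucc).erase i.succ,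
      |((b i.castSucc : ℝ) + b i.succ) / 2 - b k| < 16 := by
  have h1 := mid_bound hb i h
  have h2 : (b i.succ : ℝ) - b i.castSucc = 1 := by exact_mod_cast hd
  rw [h2] at h1
  linarith

/-- the lower bound for the distances -/
noncomputable def lb (i k : ℕ) : ℝ := 1 / 2 + (if k < i then (i : ℝ) - k else (k : ℝ) - i - 1)

theorem low2 (hb : StrictMono b) (hN : N ≠ 0) (i : Fin g) (hd : b i.succ - b i.castSucc = 1)
    (h : ∀ x ∈ Set.Ioo (b i.castSucc : ℝ) (b i.succ), -4 < (PR b N).eval x ∧ (PR b N).eval x < 0) :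
    ∏ k ∈ (Finset.univ.erase i.castSucc).erase i.succ, lb i k < 16 := by
  have h1 := low hb i hd h
  have h2 : (b i.succ : ℝ) - b i.castSucc = 1 := by exact_mod_cast hd
  have h3 : ∏ k ∈ (Finset.univ.erase i.castSucc).erase i.succ, lb i k ≤
      ∏ k ∈ (Finset.univ.erase i.castSucc).erase i.succ,
        |((b i.castSucc : ℝ) + b i.succ) / 2 - b k| := by
    refine Finset.prod_le_prod ?_ ?_
    · intro k hk
      rw [Finset.mem_erase, Finset.mem_erase] at hk
      have k1 : (k : ℕ) ≠ i + 1 := fun e => hk.1 (Fin.ext (by rw [Fin.val_succ]; exact e))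
      have k2 : (k : ℕ) ≠ i := fun e => hk.2.1 (Fin.ext (by rw [Fin.val_castSucc]; exact e))
      unfold lb
      split_ifs with h4
      · have : ((k : ℕ) : ℝ) < (i : ℕ) := by exact_mod_cast h4
        linarith
      · have : ((i : ℕ) : ℝ) + 1 < (k : ℕ) := by
          have : (i : ℕ) + 1 < k := by omega
          exact_mod_cast this
        linarith
    · intro k hk
      rw [Finset.mem_erase, Finset.mem_erase] at hk
      have h4 := dist_mid hb i k hk.2.1 hk.1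
      rw [h2] at h4
      exact h4
  have h4 : (1 : ℝ) ≤ |(N : ℝ)| := by
    have : (1 : ℤ) ≤ |N| := Int.one_le_abs hN
    exact_mod_cast this
  have h5 : 0 ≤ ∏ k ∈ (Finset.univ.erase i.castSucc).erase i.succ,
      |((b i.castSucc : ℝ) + b i.succ) / 2 - b k| := Finset.prod_nonneg fun _ _ => abs_nonneg _
  nlinarith

theorem g5 {b : Fin (5 + 1) → ℤ} (hb : StrictMono b) (hN : N ≠ 0) (i : Fin 5)
    (hd : b i.succ - b i.castSucc = 1)
    (h : ∀ x ∈ Set.Ioo (b i.castSucc : ℝ) (b i.succ), -4 < (PR b N).eval x ∧ (PR b N).eval x < 0) :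
    (i : ℕ) = 2 := by
  have h1 := low2 hb hN i hd h
  clear h hd
  fin_cases i
  · exfalso
    have hE : ((Finset.univ : Finset (Fin (5 + 1))).erase (Fin.castSucc (0 : Fin 5))).erase
      (Fin.succ (0 : Fin 5)) = {2, 3, 4, 5} := by decide
    simp only [Fin.zero_eta] at h1
    rw [hE, Finset.prod_insert (by decide), Finset.prod_insert (by decide),
      Finset.prod_pair (by decide)] at h1
    norm_num [lb] at h1
  · exfalso
    have hE : ((Finset.univ : Finset (Fin (5 + 1))).erase (Fin.castSucc (1 : Fin 5))).erase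
      (Fin.succ (1 : Fin 5)) = {0, 3, 4, 5} := by decide
    simp only [Fin.mk_one] at h1
    rw [hE, Finset.prod_insert (by decide), Finset.prod_insert (by decide),
      Finset.prod_pair (by decide)] at h1
    norm_num [lb] at h1
  · rfl
  · exfalso
    have hE : ((Finset.univ : Finset (Fin (5 + 1))).erase (Fin.castSucc (3 : Fin 5))).erase
      (Fin.succ (3 : Fin 5)) = {0, 1, 2, 5} := by decide
    simp only [Fin.reduceFinMk] at h1
    rw [hE, Finset.prod_insert (by decide), Finset.prod_insert (by decide),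
      Finset.prod_pair (by decide)] at h1
    norm_num [lb] at h1
  · exfalso
    have hE : ((Finset.univ : Finset (Fin (5 + 1))).erase (Fin.castSucc (4 : Fin 5))).erase
      (Fin.succ (4 : Fin 5)) = {0, 1, 2, 3} := by decide
    simp only [Fin.reduceFinMk] at h1
    rw [hE, Finset.prod_insert (by decide), Finset.prod_insert (by decide),
      Finset.prod_pair (by decide)] at h1
    norm_num [lb] at h1

theorem g3 {b : Fin (3 + 1) → ℤ} (hb : StrictMono b) (hN : N ≠ 0)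
    (hex : 5 ≤ |N| ∨ 6 ≤ b 3 - b 0) (h01 : b 1 - b 0 = 1) (h23 : b 3 - b 2 = 1)
    (h : |(N : ℝ)| * (|((b 0 : ℝ) + b 1) / 2 - b 2| * |((b 0 : ℝ) + b 1) / 2 - b 3|) < 16) :
    False := by
  have h12 : b 1 < b 2 := hb (by decide)
  have e1 : (b 1 : ℝ) = b 0 + 1 := by
    have : b 1 = b 0 + 1 := by omega
    exact_mod_cast this
  have e3 : (b 3 : ℝ) = b 2 + 1 := by
    have : b 3 = b 2 + 1 := by omega
    exact_mod_cast this
  have e2 : (b 0 : ℝ) + 2 ≤ b 2 := by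
    have : b 0 + 2 ≤ b 2 := by omega
    exact_mod_cast this
  have hn : (1 : ℝ) ≤ |(N : ℝ)| := by
    have : (1 : ℤ) ≤ |N| := Int.one_le_abs hN
    exact_mod_cast this
  rw [e1, e3] at h
  set n := |(N : ℝ)| with hnd
  obtain ⟨L, hL⟩ : ∃ L : ℝ, (b 2 : ℝ) = b 0 + L := ⟨b 2 - b 0, by ring⟩
  have a1 : |((b 0 : ℝ) + (b 0 + 1)) / 2 - b 2| = L - 1 / 2 := by
    rw [hL, abs_of_nonpos (by linarith)]
    ring
  have a2 : |((b 0 : ℝ) + (b 0 + 1)) / 2 - (b 2 + 1)| = L + 1 / 2 := by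
    rw [hL, abs_of_nonpos (by linarith)]
    ring
  rw [a1, a2] at h
  have hL2 : 2 ≤ L := by linarith
  rcases hex with h5 | h5
  · have h6 : (5 : ℝ) ≤ n := by
      rw [hnd]
      exact_mod_cast h5
    have h7 : (15 / 4 : ℝ) ≤ (L - 1 / 2) * (L + 1 / 2) := by nlinarith
    nlinarith
  · have h6 : (5 : ℝ) ≤ L := by
      have : b 0 + 5 ≤ b 2 := by omega
      have h7 : (b 0 : ℝ) + 5 ≤ b 2 := by exact_mod_cast this
      linarith
    have h7 : (99 / 4 : ℝ) ≤ (L - 1 / 2) * (L + 1 / 2) := by nlinarith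
    nlinarith

/-- three distances, the largest is `L - 1 / 2` -/
theorem g4num {n x y L : ℝ} (hn : 1 ≤ n) (hx : 3 / 2 ≤ x) (hy : 5 / 2 ≤ y) (hL : 4 ≤ L)
    (hex : 5 ≤ n ∨ 6 ≤ L) : 16 ≤ n * (x * (y * (L - 1 / 2))) := by
  have h1 : 15 / 4 ≤ x * y := by nlinarith
  have h2 : 15 / 4 * (L - 1 / 2) ≤ x * y * (L - 1 / 2) :=
    mul_le_mul_of_nonneg_right h1 (by linarith)
  have e : n * (x * (y * (L - 1 / 2))) = n * (x * y * (L - 1 / 2)) := by ring
  rw [e]
  have h3 : 1 * (x * y * (L - 1 / 2)) ≤ n * (x * y * (L - 1 / 2)) :=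
    mul_le_mul_of_nonneg_right hn (by linarith)
  rcases hex with h | h
  · have h4 : 5 * (x * y * (L - 1 / 2)) ≤ n * (x * y * (L - 1 / 2)) :=
      mul_le_mul_of_nonneg_right h (by linarith)
    linarith
  · linarith

theorem g4 {b : Fin (4 + 1) → ℤ} (hb : StrictMono b) (hN : N ≠ 0)
    (hex : 5 ≤ |N| ∨ 6 ≤ b 4 - b 0) (h01 : b 1 - b 0 = 1)
    (h : |(N : ℝ)| * (|((b 0 : ℝ) + b 1) / 2 - b 2| * (|((b 0 : ℝ) + b 1) / 2 - b 3| *
      |((b 0 : ℝ) + b 1) / 2 - b 4|)) < 16) : False := by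
  have h12 : b 1 < b 2 := hb (by decide)
  have h23 : b 2 < b 3 := hb (by decide)
  have h34 : b 3 < b 4 := hb (by decide)
  have e1 : (b 1 : ℝ) = b 0 + 1 := by
    have : b 1 = b 0 + 1 := by omega
    exact_mod_cast this
  have e2 : (b 0 : ℝ) + 2 ≤ b 2 := by
    have : b 0 + 2 ≤ b 2 := by omega
    exact_mod_cast this
  have e3 : (b 0 : ℝ) + 3 ≤ b 3 := by
    have : b 0 + 3 ≤ b 3 := by omega
    exact_mod_cast this
  have e4 : (b 0 : ℝ) + 4 ≤ b 4 := by
    have : b 0 + 4 ≤ b 4 := by omega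
    exact_mod_cast this
  have hn : (1 : ℝ) ≤ |(N : ℝ)| := by
    have : (1 : ℤ) ≤ |N| := Int.one_le_abs hN
    exact_mod_cast this
  rw [e1] at h
  have a2 : |((b 0 : ℝ) + (b 0 + 1)) / 2 - b 2| = b 2 - b 0 - 1 / 2 := by
    rw [abs_of_nonpos (by linarith)]
    ring
  have a3 : |((b 0 : ℝ) + (b 0 + 1)) / 2 - b 3| = b 3 - b 0 - 1 / 2 := by
    rw [abs_of_nonpos (by linarith)]
    ring
  have a4 : |((b 0 : ℝ) + (b 0 + 1)) / 2 - b 4| = b 4 - b 0 - 1 / 2 := by
    rw [abs_of_nonpos (by linarith)]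
    ring
  rw [a2, a3, a4] at h
  have h5 : 5 ≤ |(N : ℝ)| ∨ 6 ≤ (b 4 : ℝ) - b 0 := by
    rcases hex with h5 | h5
    · left
      exact_mod_cast h5
    · right
      exact_mod_cast h5
  have h6 := g4num hn (x := (b 2 : ℝ) - b 0 - 1 / 2) (y := (b 3 : ℝ) - b 0 - 1 / 2)
    (L := (b 4 : ℝ) - b 0) (by linarith) (by linarith) (by linarith) h5
  linarith

theorem g4' {b : Fin (4 + 1) → ℤ} (hb : StrictMono b) (hN : N ≠ 0)
    (hex : 5 ≤ |N| ∨ 6 ≤ b 4 - b 0) (h34 : b 4 - b 3 = 1)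
    (h : |(N : ℝ)| * (|((b 3 : ℝ) + b 4) / 2 - b 0| * (|((b 3 : ℝ) + b 4) / 2 - b 1| *
      |((b 3 : ℝ) + b 4) / 2 - b 2|)) < 16) : False := by
  have h12 : b 1 < b 2 := hb (by decide)
  have h23 : b 2 < b 3 := hb (by decide)
  have h01 : b 0 < b 1 := hb (by decide)
  have e3 : (b 3 : ℝ) = b 4 - 1 := by
    have : b 3 = b 4 - 1 := by omega
    exact_mod_cast this
  have e2 : (b 2 : ℝ) + 2 ≤ b 4 := by
    have : b 2 + 2 ≤ b 4 := by omega
    exact_mod_cast this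
  have e1 : (b 1 : ℝ) + 3 ≤ b 4 := by
    have : b 1 + 3 ≤ b 4 := by omega
    exact_mod_cast this
  have e4 : (b 0 : ℝ) + 4 ≤ b 4 := by
    have : b 0 + 4 ≤ b 4 := by omega
    exact_mod_cast this
  have hn : (1 : ℝ) ≤ |(N : ℝ)| := by
    have : (1 : ℤ) ≤ |N| := Int.one_le_abs hN
    exact_mod_cast this
  rw [e3] at h
  have a2 : |((b 4 : ℝ) - 1 + b 4) / 2 - b 2| = b 4 - b 2 - 1 / 2 := by
    rw [abs_of_nonneg (by linarith)]
    ring
  have a1 : |((b 4 : ℝ) - 1 + b 4) / 2 - b 1| = b 4 - b 1 - 1 / 2 := by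
    rw [abs_of_nonneg (by linarith)]
    ring
  have a0 : |((b 4 : ℝ) - 1 + b 4) / 2 - b 0| = b 4 - b 0 - 1 / 2 := by
    rw [abs_of_nonneg (by linarith)]
    ring
  rw [a0, a1, a2] at h
  have h5 : 5 ≤ |(N : ℝ)| ∨ 6 ≤ (b 4 : ℝ) - b 0 := by
    rcases hex with h5 | h5
    · left
      exact_mod_cast h5
    · right
      exact_mod_cast h5
  have h6 := g4num hn (x := (b 4 : ℝ) - b 2 - 1 / 2) (y := (b 4 : ℝ) - b 1 - 1 / 2)
    (L := (b 4 : ℝ) - b 0) (by linarith) (by linarith) (by linarith) h5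
  have e : |(N : ℝ)| * (((b 4 : ℝ) - b 2 - 1 / 2) * (((b 4 : ℝ) - b 1 - 1 / 2) *
      ((b 4 : ℝ) - b 0 - 1 / 2))) = |(N : ℝ)| * (((b 4 : ℝ) - b 0 - 1 / 2) *
      (((b 4 : ℝ) - b 1 - 1 / 2) * ((b 4 : ℝ) - b 2 - 1 / 2))) := by ring
  rw [e] at h6
  linarith

theorem two_gaps (hb : StrictMono b) (hN : N ≠ 0)
    (hex : g ≤ 2 ∨ 5 ≤ g ∨ 5 ≤ |N| ∨ 6 ≤ b (Fin.last g) - b 0) (i i' : Fin g)
    (h : ∀ x ∈ Set.Ioo (b i.castSucc : ℝ) (b i.succ), -4 < (PR b N).eval x ∧ (PR b N).eval x < 0)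
    (h' : ∀ x ∈ Set.Ioo (b i'.castSucc : ℝ) (b i'.succ),
      -4 < (PR b N).eval x ∧ (PR b N).eval x < 0)
    (hlt : (i : ℕ) + 2 ≤ i') : False := by
  have hi' := i'.2
  obtain ⟨h5, hd⟩ := card_others hb hN i h
  obtain ⟨-, hd'⟩ := card_others hb hN i' h'
  have hd1 : b i.succ - b i.castSucc = 1 := by omega
  have hd1' : b i'.succ - b i'.castSucc = 1 := by omega
  have m := low hb i hd1 h
  have m' := low hb i' hd1' h'
  obtain rfl | rfl | rfl : g = 3 ∨ g = 4 ∨ g = 5 := by omega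
  · obtain rfl : i = 0 := Fin.ext (by simp; omega)
    obtain rfl : i' = 2 := Fin.ext (by simp; omega)
    have hE : ((Finset.univ : Finset (Fin (3 + 1))).erase (Fin.castSucc (0 : Fin 3))).erase
      (Fin.succ (0 : Fin 3)) = {2, 3} := by decide
    rw [hE, Finset.prod_pair (by decide)] at m
    refine g3 hb hN ?_ hd1 hd1' m
    rcases hex with h6 | h6 | h6 | h6
    · omega
    · omega
    · exact Or.inl h6
    · exact Or.inr h6
  · have hex' : 5 ≤ |N| ∨ 6 ≤ b 4 - b 0 := by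
      rcases hex with h6 | h6 | h6 | h6
      · omega
      · omega
      · exact Or.inl h6
      · exact Or.inr h6
    rcases Nat.eq_zero_or_pos (i : ℕ) with h0 | h0
    · obtain rfl : i = 0 := Fin.ext (by simp; omega)
      have hE : ((Finset.univ : Finset (Fin (4 + 1))).erase (Fin.castSucc (0 : Fin 4))).erase
        (Fin.succ (0 : Fin 4)) = {2, 3, 4} := by decide
      rw [hE, Finset.prod_insert (by decide), Finset.prod_pair (by decide)] at m
      exact g4 hb hN hex' hd1 m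
    · obtain rfl : i' = 3 := Fin.ext (by simp; omega)
      have hE : ((Finset.univ : Finset (Fin (4 + 1))).erase (Fin.castSucc (3 : Fin 4))).erase
        (Fin.succ (3 : Fin 4)) = {0, 1, 2} := by decide
      rw [hE, Finset.prod_insert (by decide), Finset.prod_pair (by decide)] at m'
      exact g4' hb hN hex' hd1' m'
  · have e1 := g5 hb hN i hd1 h
    have e2 := g5 hb hN i' hd1' h'
    omega

end BoundBAux

open BoundBAux

theorem gap_unique (hb : StrictMono b) (hN : N ≠ 0)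
    (hex : g ≤ 2 ∨ 5 ≤ g ∨ 5 ≤ |N| ∨ 6 ≤ b (Fin.last g) - b 0) (i i' : Fin g)
    (h : ∀ x ∈ Set.Ioo (b i.castSucc : ℝ) (b i.succ), -4 < (PR b N).eval x ∧ (PR b N).eval x < 0)
    (h' : ∀ x ∈ Set.Ioo (b i'.castSucc : ℝ) (b i'.succ),
      -4 < (PR b N).eval x ∧ (PR b N).eval x < 0)
    (hadj : (i' : ℕ) ≠ i + 1) (hadj' : (i : ℕ) ≠ i' + 1) : i = i' := by
  by_contra hne
  have hne' : (i : ℕ) ≠ i' := fun e => hne (Fin.ext e)
  rcases lt_or_gt_of_ne hne' with h1 | h1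
  · exact two_gaps hb hN hex i i' h h' (by omega)
  · exact two_gaps hb hN hex i' i h' h (by omega)

end P4a177d
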