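import Pool.Agent.Lib.P4a177d.LimA

/-!
# The second half of the regulator: limits of integrals over circles
-/

set_option autoImplicit false

namespace P4a177d

open Filter Topology MeasureTheory
open scoped Real

theorem integrable_log {p q c : ℝ} (hpq : p < q) (hc : c ∉ Set.Ioo p q) (a a' : ℝ) :
    IntervalIntegrable (fun θ => Real.log |(p + q) / 2 + (q - p) / 2 * Real.cos θ - c|)
      volume a a' := by
  have h : MeromorphicOn (fun θ : ℝ => (p + q) / 2 + (q - p) / 2 * Real.cos θ - c)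
      (Set.uIcc a a') := by
    intro θ _
    apply AnalyticAt.meromorphicAt
    exact (analyticAt_const.add (analyticAt_const.mul Real.analyticAt_cos)).sub analyticAt_const
  exact h.intervalIntegrable_log_norm

theorem norm_ge {p q r θ : ℝ} (hpq : p < q) (hr : 1 ≤ r) :
    |(p + q) / 2 + (q - p) / 2 * Real.cos θ - p| ≤ ‖jk p q (pt r θ) - (p : ℂ)‖ ∧
    |(p + q) / 2 + (q - p) / 2 * Real.cos θ - q| ≤ ‖jk p q (pt r θ) - (q : ℂ)‖ := by
  have hr0 : 0 < r := by linarith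
  have hn : ‖pt r θ‖ = r := norm_pt hr0.le θ
  have hz : pt r θ ≠ 0 := by
    intro h0
    rw [h0, norm_zero] at hn
    linarith
  have hqp : 0 < q - p := by linarith
  have hpt : pt r θ = ⟨r * Real.cos θ, r * Real.sin θ⟩ := by
    unfold pt
    rw [Complex.exp_mul_I]
    apply Complex.ext
    · simp [Complex.cos_ofReal_re, Complex.sin_ofReal_re]
    · simp [Complex.cos_ofReal_re, Complex.sin_ofReal_re]
  have hcs := Real.sin_sq_add_cos_sq θ
  have hc1 := Real.neg_one_le_cos θ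
  have hc2 := Real.cos_le_one θ
  have hsq1 : ‖pt r θ + 1‖ ^ 2 = r ^ 2 + 2 * r * Real.cos θ + 1 := by
    rw [Complex.sq_norm, hpt, Complex.normSq_apply]
    simp only [Complex.add_re, Complex.add_im, Complex.one_re, Complex.one_im]
    linear_combination r ^ 2 * hcs
  have hsq2 : ‖pt r θ - 1‖ ^ 2 = r ^ 2 - 2 * r * Real.cos θ + 1 := by
    rw [Complex.sq_norm, hpt, Complex.normSq_apply]
    simp only [Complex.sub_re, Complex.sub_im, Complex.one_re, Complex.one_im]
    linear_combination r ^ 2 * hcs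
  constructor
  · have h1 : jk p q (pt r θ) - (p : ℂ) =
        (((q - p) / 4 : ℝ) : ℂ) * (pt r θ + 1) ^ 2 / pt r θ := by
      rw [eq_div_iff hz]
      have h7 : (pt r θ)⁻¹ * pt r θ = 1 := inv_mul_cancel₀ hz
      unfold jk
      push_cast
      linear_combination ((q : ℂ) - p) / 4 * h7
    rw [h1, norm_div, norm_mul, norm_pow, hsq1, hn, Complex.norm_real, Real.norm_eq_abs,
      abs_of_pos (show 0 < (q - p) / 4 by linarith),
      abs_of_nonneg (show 0 ≤ (p + q) / 2 + (q - p) / 2 * Real.cos θ - p by nlinarith),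
      le_div_iff₀ hr0]
    nlinarith [mul_nonneg hqp.le (sq_nonneg (r - 1))]
  · have h1 : jk p q (pt r θ) - (q : ℂ) =
        (((q - p) / 4 : ℝ) : ℂ) * (pt r θ - 1) ^ 2 / pt r θ := by
      rw [eq_div_iff hz]
      have h7 : (pt r θ)⁻¹ * pt r θ = 1 := inv_mul_cancel₀ hz
      unfold jk
      push_cast
      linear_combination ((q : ℂ) - p) / 4 * h7
    rw [h1, norm_div, norm_mul, norm_pow, hsq2, hn, Complex.norm_real, Real.norm_eq_abs,
      abs_of_pos (show 0 < (q - p) / 4 by linarith),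
      abs_of_nonpos (show (p + q) / 2 + (q - p) / 2 * Real.cos θ - q ≤ 0 by nlinarith),
      le_div_iff₀ hr0]
    nlinarith [mul_nonneg hqp.le (sq_nonneg (r - 1))]

namespace LimBAux

open LimAAux

theorem sin_ae : ∀ᵐ θ : ℝ, Real.sin θ ≠ 0 := by
  have hcount : ({θ : ℝ | Real.sin θ = 0}).Countable := by
    have : {θ : ℝ | Real.sin θ = 0} ⊆ Set.range (fun n : ℤ => (n : ℝ) * π) := by
      intro θ hθ
      obtain ⟨n, hn⟩ := Real.sin_eq_zero_iff.1 hθ
      exact ⟨n, hn⟩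
    exact (Set.countable_range _).mono this
  exact measure_eq_zero_iff_ae_notMem.1 (hcount.measure_zero volume)

theorem x_ne {p q c θ : ℝ} (hpq : p < q) (hc : c ∉ Set.Ioo p q) (hs : Real.sin θ ≠ 0) :
    (p + q) / 2 + (q - p) / 2 * Real.cos θ - c ≠ 0 := by
  intro h0
  have h6 := Real.sin_sq_add_cos_sq θ
  have h7 : 0 < Real.sin θ ^ 2 := by positivity
  have h8 : |Real.cos θ| < 1 := by
    rw [← sq_lt_one_iff_abs_lt_one]
    linarith
  rw [abs_lt] at h8
  apply hc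
  have hqp : 0 < q - p := by linarith
  constructor
  · nlinarith
  · nlinarith

/-- the lower bound -/
theorem exists_low {p q c : ℝ} (hpq : p < q) (hc : c ∉ Set.Ioo p q) :
    ∃ (L : ℝ → ℝ) (r₁ : ℝ), 1 < r₁ ∧ IntervalIntegrable (fun θ => |Real.log (L θ)|) volume 0 (2 * π) ∧
      ∀ r θ : ℝ, 1 < r → r ≤ r₁ → Real.sin θ ≠ 0 → 0 < L θ ∧ L θ ≤ ‖jk p q (pt r θ) - c‖ := by
  by_cases h1 : c = p ∨ c = q
  · refine ⟨fun θ => |(p + q) / 2 + (q - p) / 2 * Real.cos θ - c|, 2, by norm_num,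
      (integrable_log hpq hc 0 (2 * π)).abs, fun r θ hr _ hs => ?_⟩
    refine ⟨abs_pos.2 (x_ne hpq hc hs), ?_⟩
    rcases h1 with rfl | rfl
    · exact (norm_ge hpq hr.le).1
    · exact (norm_ge hpq hr.le).2
  · obtain ⟨α, hα, hfac⟩ := exists_fac hpq hc
    have hα0 : α ≠ 0 := by
      intro h0
      rw [h0, abs_zero] at hα
      linarith
    have hα1 : 1 < |α| := by
      refine lt_of_le_of_ne hα fun h => h1 ?_
      have h2 := hfac α (by exact_mod_cast hα0)
      rw [sub_self, zero_mul, mul_zero, zero_div] at h2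
      rcases (eq_or_eq_neg_of_abs_eq h.symm) with h3 | h3
      · right
        rw [h3] at h2
        unfold jk at h2
        have h4 : (((p + q) / 2 + (q - p) / 4 * (1 + 1⁻¹) - c : ℝ) : ℂ) = 0 := by
          push_cast
          push_cast at h2
          exact h2
        have h5 := Complex.ofReal_eq_zero.1 h4
        linarith
      · left
        rw [h3] at h2
        unfold jk at h2
        have h4 : (((p + q) / 2 + (q - p) / 4 * (-1 + (-1)⁻¹) - c : ℝ) : ℂ) = 0 := by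
          push_cast
          push_cast at h2
          exact h2
        have h5 := Complex.ofReal_eq_zero.1 h4
        linarith
    have hqp : 0 < q - p := by linarith
    have hinv : |α|⁻¹ < 1 := inv_lt_one_of_one_lt₀ hα1
    refine ⟨fun _ => (q - p) / 4 * (((|α| - 1) / 2) * (1 - |α|⁻¹)) / ((1 + |α|) / 2),
      (1 + |α|) / 2, by linarith, intervalIntegrable_const, fun r θ hr hr' _ => ?_⟩
    have hn : ‖pt r θ‖ = r := norm_pt (by linarith) θ
    have hz : pt r θ ≠ 0 := by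
      intro h0
      rw [h0, norm_zero] at hn
      linarith
    have e1 : (|α| - 1) / 2 ≤ ‖pt r θ - α‖ := by
      have h1 := norm_sub_norm_le (α : ℂ) (pt r θ)
      rw [hn, Complex.norm_real, Real.norm_eq_abs, norm_sub_rev] at h1
      linarith
    have e2 : 1 - |α|⁻¹ ≤ ‖pt r θ - ((α⁻¹ : ℝ) : ℂ)‖ := by
      have h1 := norm_sub_norm_le (pt r θ) ((α⁻¹ : ℝ) : ℂ)
      rw [hn, Complex.norm_real, Real.norm_eq_abs, abs_inv] at h1
      linarith
    have p1 : 0 < (|α| - 1) / 2 := by linarith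
    have p2 : 0 < 1 - |α|⁻¹ := by linarith
    have p3 : 0 < (q - p) / 4 := by linarith
    refine ⟨by positivity, ?_⟩
    rw [hfac _ hz, norm_div, norm_mul, norm_mul, hn, Complex.norm_real, Real.norm_eq_abs,
      abs_of_pos p3]
    refine div_le_div₀ (by positivity) ?_ (by linarith) hr'
    exact mul_le_mul_of_nonneg_left (mul_le_mul e1 e2 p2.le (norm_nonneg _)) p3.le

/-- the upper bound -/
theorem exists_up (p q c : ℝ) : ∃ C : ℝ, ∀ r θ : ℝ, 1 < r → r ≤ 2 →
    ‖jk p q (pt r θ) - c‖ ≤ C := by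
  refine ⟨‖(((p + q) / 2 : ℝ) : ℂ)‖ + ‖(((q - p) / 4 : ℝ) : ℂ)‖ * (2 + 1) + ‖(c : ℂ)‖,
    fun r θ hr hr' => ?_⟩
  have hn : ‖pt r θ‖ = r := norm_pt (by linarith) θ
  unfold jk
  refine (norm_sub_le _ _).trans (add_le_add ((norm_add_le _ _).trans
    (add_le_add le_rfl ?_)) le_rfl)
  rw [norm_mul]
  refine mul_le_mul_of_nonneg_left ((norm_add_le _ _).trans ?_) (norm_nonneg _)
  rw [norm_inv, hn]
  exact add_le_add hr' (inv_le_one_of_one_le₀ hr.le)

theorem abs_log_le {L y C : ℝ} (hL : 0 < L) (h1 : L ≤ y) (h2 : y ≤ C) :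
    |Real.log y| ≤ |Real.log L| + |Real.log C| := by
  have a1 := Real.log_le_log hL h1
  have a2 := Real.log_le_log (hL.trans_le h1) h2
  rw [abs_le]
  constructor
  · have := neg_abs_le (Real.log L)
    have := abs_nonneg (Real.log C)
    linarith
  · have := le_abs_self (Real.log C)
    have := abs_nonneg (Real.log L)
    linarith

theorem exists_bound {R : ℝ} (hR : 1 < R) {φ : ℂ → ℝ} (hφ : ContinuousOn φ (Ann R)) :
    ∃ M : ℝ, 0 ≤ M ∧ ∀ r θ : ℝ, 1 ≤ r → r ≤ (1 + R) / 2 → |φ (pt r θ)| ≤ M := by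
  have hcomp : IsCompact {z : ℂ | 1 ≤ ‖z‖ ∧ ‖z‖ ≤ (1 + R) / 2} := by
    refine Metric.isCompact_of_isClosed_isBounded ?_ ?_
    · exact (isClosed_le continuous_const continuous_norm).inter
        (isClosed_le continuous_norm continuous_const)
    · refine (Metric.isBounded_closedBall (x := (0 : ℂ)) (r := (1 + R) / 2)).subset ?_
      intro z hz
      rw [Metric.mem_closedBall, dist_zero_right]
      exact hz.2
  have hsub : {z : ℂ | 1 ≤ ‖z‖ ∧ ‖z‖ ≤ (1 + R) / 2} ⊆ Ann R := fun z hz =>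
    ⟨lt_of_lt_of_le (inv_lt_one_of_one_lt₀ hR) hz.1, lt_of_le_of_lt hz.2 (by linarith)⟩
  obtain ⟨M, hM⟩ := hcomp.exists_bound_of_continuousOn (hφ.mono hsub)
  refine ⟨max M 0, le_max_right _ _, fun r θ hr hr' => ?_⟩
  have hn : ‖pt r θ‖ = r := norm_pt (by linarith) θ
  have := hM (pt r θ) (by
    show 1 ≤ ‖pt r θ‖ ∧ ‖pt r θ‖ ≤ (1 + R) / 2
    rw [hn]
    exact ⟨hr, hr'⟩)
  exact this.trans (le_max_left _ _)

theorem ev_lt {a : ℝ} (h : 1 < a) : ∀ᶠ r : ℝ in 𝓝[>] 1, 1 < r ∧ r ≤ a := by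
  have e1 : ∀ᶠ r : ℝ in 𝓝[>] 1, 1 < r := self_mem_nhdsWithin
  have e2 : ∀ᶠ r : ℝ in 𝓝[>] 1, r < a := nhdsWithin_le_nhds (Iio_mem_nhds h)
  filter_upwards [e1, e2] with r a b
  exact ⟨a, b.le⟩

theorem tendsto_phi {R : ℝ} (hR : 1 < R) {φ : ℂ → ℝ} (hφ : ContinuousOn φ (Ann R)) (θ : ℝ) :
    Tendsto (fun r : ℝ => φ (pt r θ)) (𝓝[>] 1) (𝓝 (φ (pt 1 θ))) := by
  have hmem : pt 1 θ ∈ Ann R := pt_mem_Ann hR le_rfl hR θ
  have d2 : ContinuousAt φ (pt 1 θ) := hφ.continuousAt ((isOpen_Ann R).mem_nhds hmem)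
  have d3 : ContinuousAt (fun r : ℝ => pt r θ) 1 := (continuous_pt' θ).continuousAt
  have d4 : ContinuousAt (fun r : ℝ => φ (pt r θ)) 1 :=
    ContinuousAt.comp (g := φ) (f := fun r : ℝ => pt r θ) d2 d3
  exact d4.tendsto.mono_left nhdsWithin_le_nhds

theorem tendsto_log {p q c θ : ℝ} (hpq : p < q) (hc : c ∉ Set.Ioo p q) (hs : Real.sin θ ≠ 0) :
    Tendsto (fun r : ℝ => Real.log ‖jk p q (pt r θ) - (c : ℂ)‖) (𝓝[>] 1)
      (𝓝 (Real.log |(p + q) / 2 + (q - p) / 2 * Real.cos θ - c|)) := by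
  have hz : pt 1 θ ≠ 0 := by
    intro h0
    have := norm_pt (r := 1) zero_le_one θ
    rw [h0, norm_zero] at this
    exact zero_ne_one this
  have n1 : {z : ℂ | z ≠ 0} ∈ 𝓝 (pt 1 θ) := isOpen_ne.mem_nhds hz
  have d2 : ContinuousAt (jk p q) (pt 1 θ) := (continuousOn_jk p q).continuousAt n1
  have d3 : ContinuousAt (fun r : ℝ => pt r θ) 1 := (continuous_pt' θ).continuousAt
  have d5 : ContinuousAt (fun r : ℝ => ‖jk p q (pt r θ) - c‖) 1 :=
    ((ContinuousAt.comp (g := jk p q) (f := fun r : ℝ => pt r θ) d2 d3).sub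
      continuousAt_const).norm
  have hval : ‖jk p q (pt 1 θ) - (c : ℂ)‖ = |(p + q) / 2 + (q - p) / 2 * Real.cos θ - c| := by
    rw [jk_pt_one, ← Complex.ofReal_sub, Complex.norm_real, Real.norm_eq_abs]
  have hne : ‖jk p q (pt 1 θ) - (c : ℂ)‖ ≠ 0 := by
    rw [hval]
    exact abs_ne_zero.2 (x_ne hpq hc hs)
  have d6 : ContinuousAt (fun r : ℝ => Real.log ‖jk p q (pt r θ) - c‖) 1 := d5.log hne
  rw [← hval]
  exact d6.tendsto.mono_left nhdsWithin_le_nhds

theorem continuous_phi {R : ℝ} (hR : 1 < R) {φ : ℂ → ℝ} (hφ : ContinuousOn φ (Ann R)) {r : ℝ}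
    (h1 : 1 < r) (h2 : r ≤ (1 + R) / 2) : Continuous fun θ => φ (pt r θ) :=
  hφ.comp_continuous (continuous_pt r) (fun θ => pt_mem_Ann hR h1.le (by linarith) θ)

theorem continuous_jk {p q : ℝ} {r : ℝ} (h1 : 1 < r) : Continuous fun θ => jk p q (pt r θ) :=
  (continuousOn_jk p q).comp_continuous (continuous_pt r) (fun θ => by
    intro h0
    have := norm_pt (r := r) (by linarith) θ
    rw [h0, norm_zero] at this
    linarith)

end LimBAux

open LimBAux

theorem tendsto_B {R : ℝ} (hR : 1 < R) {φ : ℂ → ℝ} (hφ : ContinuousOn φ (Ann R))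
    {p q c : ℝ} (hpq : p < q) (hc : c ∉ Set.Ioo p q) :
    Tendsto (fun r : ℝ => ∫ θ in (0 : ℝ)..(2 * π),
      Real.log ‖jk p q (pt r θ) - (c : ℂ)‖ * φ (pt r θ)) (𝓝[>] 1)
      (𝓝 (∫ θ in (0 : ℝ)..(2 * π),
        Real.log |(p + q) / 2 + (q - p) / 2 * Real.cos θ - c| * φ (pt 1 θ))) := by
  obtain ⟨L, r₁, h1, hLint, hL⟩ := exists_low hpq hc
  obtain ⟨C, hC⟩ := exists_up p q c
  obtain ⟨M, hM0, hM⟩ := exists_bound hR hφ
  refine intervalIntegral.tendsto_integral_filter_of_dominated_convergence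
    (fun θ => (|Real.log (L θ)| + |Real.log C|) * M) ?_ ?_ ?_ ?_
  · filter_upwards [ev_lt (show (1 : ℝ) < (1 + R) / 2 by linarith)] with r hr
    refine AEStronglyMeasurable.mul ?_ ?_
    · exact (Real.measurable_log.comp
        ((continuous_jk hr.1).sub continuous_const).norm.measurable).aestronglyMeasurable
    · exact (continuous_phi hR hφ hr.1 hr.2).aestronglyMeasurable
  · filter_upwards [ev_lt (show (1 : ℝ) < (1 + R) / 2 by linarith), ev_lt h1,
      ev_lt (show (1 : ℝ) < 2 by norm_num)] with r hr hr1 hr2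
    filter_upwards [sin_ae] with θ hθ _
    rw [Real.norm_eq_abs, abs_mul]
    have a1 := hL r θ hr.1 hr1.2 hθ
    exact mul_le_mul (abs_log_le a1.1 a1.2 (hC r θ hr.1 hr2.2)) (hM r θ hr.1.le hr.2)
      (abs_nonneg _) (by positivity)
  · exact (hLint.add intervalIntegrable_const).mul_const M
  · filter_upwards [sin_ae] with θ hθ _
    exact (tendsto_log hpq hc hθ).mul (tendsto_phi hR hφ θ)

theorem tendsto_const {R : ℝ} (hR : 1 < R) {φ : ℂ → ℝ} (hφ : ContinuousOn φ (Ann R)) :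
    Tendsto (fun r : ℝ => ∫ θ in (0 : ℝ)..(2 * π), φ (pt r θ)) (𝓝[>] 1)
      (𝓝 (∫ θ in (0 : ℝ)..(2 * π), φ (pt 1 θ))) := by
  obtain ⟨M, hM0, hM⟩ := exists_bound hR hφ
  refine intervalIntegral.tendsto_integral_filter_of_dominated_convergence
    (fun _ => M) ?_ ?_ ?_ ?_
  · filter_upwards [ev_lt (show (1 : ℝ) < (1 + R) / 2 by linarith)] with r hr
    exact (continuous_phi hR hφ hr.1 hr.2).aestronglyMeasurable
  · filter_upwards [ev_lt (show (1 : ℝ) < (1 + R) / 2 by linarith)] with r hr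
    exact Eventually.of_forall fun θ _ => hM r θ hr.1.le hr.2
  · exact intervalIntegrable_const
  · exact Eventually.of_forall fun θ _ => tendsto_phi hR hφ θ

end P4a177d
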