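import Pool.Agent.Lib.P4a177d.ThetaD
import Pool.Agent.Lib.P4a177d.LimB

/-!
# Integration by parts on a segment between two roots of `P`

Here `P(p) = P(q) = 0` and `c ∉ (p, q)`; `x = S.xr θ`, `Θ = S.th`. From `Θ θ ≤ C θ, C (π - θ)` we
get `Θ ≤ C √|x - c|` and `Θ (q-p)/2 sin θ ≤ C |x - c|`, so that `u = log |x - c| Θ` is continuous
on `[0, π]` with the value `0` at both ends (`by_parts`). In `exists_eval_D` the weight
`Θ (q-p)/2 sin θ` is positive on `(0, π)`, so `∑ a_k / (x - c_k)` cannot have a constant sign.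
-/

set_option autoImplicit false

namespace P4a177d

open Polynomial MeasureTheory Set Filter Topology
open scoped Real

variable {P : Polynomial ℝ} (S : Seg P)

namespace ByPartsDAux

theorem xr_sub_p (θ : ℝ) : S.xr θ - S.p = (S.q - S.p) * Real.cos (θ / 2) ^ 2 := by
  unfold Seg.xr
  have h : Real.cos θ = 2 * Real.cos (θ / 2) ^ 2 - 1 := by
    rw [← Real.cos_two_mul]; congr 1; ring
  rw [h]
  ring

theorem q_sub_xr (θ : ℝ) : S.q - S.xr θ = (S.q - S.p) * Real.sin (θ / 2) ^ 2 := by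
  unfold Seg.xr
  have h : Real.cos θ = 1 - 2 * Real.sin (θ / 2) ^ 2 := by
    have h1 : Real.cos θ = 2 * Real.cos (θ / 2) ^ 2 - 1 := by
      rw [← Real.cos_two_mul]; congr 1; ring
    have h2 := Real.sin_sq_add_cos_sq (θ / 2)
    linarith
  rw [h]
  ring

theorem th_le_sqrt (hp : P.eval S.p = 0) (hq : P.eval S.q = 0) :
    ∃ C : ℝ, 0 ≤ C ∧ ∀ θ : ℝ, 0 ≤ θ → θ ≤ π →
      S.th θ ≤ C * Real.sqrt (S.xr θ - S.p) ∧ S.th θ ≤ C * Real.sqrt (S.q - S.xr θ) := by
  obtain ⟨C, hC, h⟩ := th_le S hp hq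
  have hd : 0 < S.q - S.p := sub_pos.2 S.hpq
  have hs : 0 < Real.sqrt (S.q - S.p) := Real.sqrt_pos.2 hd
  refine ⟨C * π / Real.sqrt (S.q - S.p), by positivity, fun θ h0 h1 => ?_⟩
  obtain ⟨ha, hb⟩ := h θ h0 h1
  have hpi := Real.pi_pos
  constructor
  · have hc : 0 ≤ Real.cos (θ / 2) :=
      Real.cos_nonneg_of_mem_Icc ⟨by linarith, by linarith⟩
    have e1 : Real.sqrt (S.xr θ - S.p) = Real.sqrt (S.q - S.p) * Real.cos (θ / 2) := by
      rw [xr_sub_p, Real.sqrt_mul hd.le, Real.sqrt_sq hc]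
    have e2 : (π - θ) ≤ π * Real.cos (θ / 2) := by
      have e3 := Real.mul_le_sin (x := (π - θ) / 2) (by linarith) (by linarith)
      have e4 : Real.sin ((π - θ) / 2) = Real.cos (θ / 2) := by
        rw [← Real.sin_pi_div_two_sub]; congr 1; ring
      rw [e4] at e3
      have e5 : 2 / π * ((π - θ) / 2) = (π - θ) / π := by field_simp
      rw [e5, div_le_iff₀ hpi] at e3
      linarith
    rw [e1]
    calc S.th θ ≤ C * (π - θ) := hb
      _ ≤ C * (π * Real.cos (θ / 2)) := mul_le_mul_of_nonneg_left e2 hC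
      _ = C * π / Real.sqrt (S.q - S.p) * (Real.sqrt (S.q - S.p) * Real.cos (θ / 2)) := by
        field_simp
  · have hc : 0 ≤ Real.sin (θ / 2) :=
      Real.sin_nonneg_of_mem_Icc ⟨by linarith, by linarith⟩
    have e1 : Real.sqrt (S.q - S.xr θ) = Real.sqrt (S.q - S.p) * Real.sin (θ / 2) := by
      rw [q_sub_xr, Real.sqrt_mul hd.le, Real.sqrt_sq hc]
    have e2 : θ ≤ π * Real.sin (θ / 2) := by
      have e3 := Real.mul_le_sin (x := θ / 2) (by linarith) (by linarith)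
      have e5 : 2 / π * (θ / 2) = θ / π := by field_simp
      rw [e5, div_le_iff₀ hpi] at e3
      linarith
    rw [e1]
    calc S.th θ ≤ C * θ := ha
      _ ≤ C * (π * Real.sin (θ / 2)) := mul_le_mul_of_nonneg_left e2 hC
      _ = C * π / Real.sqrt (S.q - S.p) * (Real.sqrt (S.q - S.p) * Real.sin (θ / 2)) := by
        field_simp

theorem cases_c {c : ℝ} (hc : c ∉ Set.Ioo S.p S.q) : c ≤ S.p ∨ S.q ≤ c := by
  by_contra h
  push Not at h
  exact hc ⟨h.1, h.2⟩

theorem half_sin {θ : ℝ} (h0 : 0 ≤ θ) (h1 : θ ≤ π) :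
    (S.q - S.p) / 2 * Real.sin θ = Real.sqrt (S.xr θ - S.p) * Real.sqrt (S.q - S.xr θ) := by
  have hd : 0 < S.q - S.p := sub_pos.2 S.hpq
  have hpi := Real.pi_pos
  have hc : 0 ≤ Real.cos (θ / 2) := Real.cos_nonneg_of_mem_Icc ⟨by linarith, by linarith⟩
  have hs : 0 ≤ Real.sin (θ / 2) := Real.sin_nonneg_of_mem_Icc ⟨by linarith, by linarith⟩
  rw [xr_sub_p, q_sub_xr, Real.sqrt_mul hd.le, Real.sqrt_mul hd.le, Real.sqrt_sq hc,
    Real.sqrt_sq hs]
  have e1 : Real.sin θ = 2 * Real.sin (θ / 2) * Real.cos (θ / 2) := by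
    rw [← Real.sin_two_mul]; congr 1; ring
  have e2 : Real.sqrt (S.q - S.p) * Real.sqrt (S.q - S.p) = S.q - S.p :=
    Real.mul_self_sqrt hd.le
  rw [e1]
  linear_combination (-(Real.sin (θ / 2) * Real.cos (θ / 2))) * e2

/-- The function `th` is at most a multiple of the square root of `|x - c|`. -/
theorem th_le_abs (hp : P.eval S.p = 0) (hq : P.eval S.q = 0) :
    ∃ C : ℝ, 0 ≤ C ∧ ∀ c : ℝ, c ∉ Set.Ioo S.p S.q → ∀ θ : ℝ, 0 ≤ θ → θ ≤ π →
      S.th θ ≤ C * Real.sqrt |S.xr θ - c| ∧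
      S.th θ * ((S.q - S.p) / 2 * Real.sin θ) ≤ C * Real.sqrt (S.q - S.p) * |S.xr θ - c| := by
  obtain ⟨C, hC, h⟩ := th_le_sqrt S hp hq
  refine ⟨C, hC, fun c hc θ h0 h1 => ?_⟩
  obtain ⟨ha, hb⟩ := h θ h0 h1
  have hx := xr_mem S θ
  have hx1 := hx.1
  have hx2 := hx.2
  have hd := S.hpq
  have hA : Real.sqrt (S.xr θ - S.p) ≤ Real.sqrt (S.q - S.p) := Real.sqrt_le_sqrt (by linarith)
  have hB : Real.sqrt (S.q - S.xr θ) ≤ Real.sqrt (S.q - S.p) := Real.sqrt_le_sqrt (by linarith)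
  have n1 := Real.sqrt_nonneg (S.xr θ - S.p)
  have n2 := Real.sqrt_nonneg (S.q - S.xr θ)
  have n3 := Real.sqrt_nonneg |S.xr θ - c|
  have n4 := Real.sqrt_nonneg (S.q - S.p)
  have hmul : Real.sqrt |S.xr θ - c| * Real.sqrt |S.xr θ - c| = |S.xr θ - c| :=
    Real.mul_self_sqrt (abs_nonneg _)
  have hth := th_nonneg S θ
  rw [half_sin S h0 h1]
  rcases cases_c S hc with hc | hc
  · have h2 : Real.sqrt (S.xr θ - S.p) ≤ Real.sqrt |S.xr θ - c| :=
      Real.sqrt_le_sqrt (by rw [abs_of_nonneg (by linarith)]; linarith)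
    have h3 : S.th θ ≤ C * Real.sqrt |S.xr θ - c| := ha.trans (mul_le_mul_of_nonneg_left h2 hC)
    refine ⟨h3, ?_⟩
    calc S.th θ * (Real.sqrt (S.xr θ - S.p) * Real.sqrt (S.q - S.xr θ))
        ≤ (C * Real.sqrt |S.xr θ - c|) * (Real.sqrt |S.xr θ - c| * Real.sqrt (S.q - S.p)) :=
          mul_le_mul h3 (mul_le_mul h2 hB n2 n3) (by positivity) (by positivity)
      _ = C * Real.sqrt (S.q - S.p) * (Real.sqrt |S.xr θ - c| * Real.sqrt |S.xr θ - c|) := by ring
      _ = C * Real.sqrt (S.q - S.p) * |S.xr θ - c| := by rw [hmul]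
  · have h2 : Real.sqrt (S.q - S.xr θ) ≤ Real.sqrt |S.xr θ - c| :=
      Real.sqrt_le_sqrt (by rw [abs_of_nonpos (by linarith)]; linarith)
    have h3 : S.th θ ≤ C * Real.sqrt |S.xr θ - c| := hb.trans (mul_le_mul_of_nonneg_left h2 hC)
    refine ⟨h3, ?_⟩
    calc S.th θ * (Real.sqrt (S.xr θ - S.p) * Real.sqrt (S.q - S.xr θ))
        ≤ (C * Real.sqrt |S.xr θ - c|) * (Real.sqrt (S.q - S.p) * Real.sqrt |S.xr θ - c|) :=
          mul_le_mul h3 (mul_le_mul hA h2 n2 n4) (by positivity) (by positivity)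
      _ = C * Real.sqrt (S.q - S.p) * (Real.sqrt |S.xr θ - c| * Real.sqrt |S.xr θ - c|) := by ring
      _ = C * Real.sqrt (S.q - S.p) * |S.xr θ - c| := by rw [hmul]

theorem continuous_xr : Continuous S.xr := by
  unfold Seg.xr
  fun_prop

/-- The weight. -/
noncomputable def wt (θ : ℝ) : ℝ := S.th θ * ((S.q - S.p) / 2 * Real.sin θ)

theorem continuous_wt : Continuous (wt S) := by
  unfold wt
  have := continuous_th S
  fun_prop

theorem wt_nonneg {θ : ℝ} (h0 : 0 ≤ θ) (h1 : θ ≤ π) : 0 ≤ wt S θ := by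
  unfold wt
  have h2 := Real.sin_nonneg_of_mem_Icc ⟨h0, h1⟩
  have h3 := sub_pos.2 S.hpq
  have h4 := th_nonneg S θ
  positivity

theorem wt_pos {θ : ℝ} (h0 : 0 < θ) (h1 : θ < π) : 0 < wt S θ := by
  unfold wt
  have h2 := Real.sin_pos_of_mem_Ioo ⟨h0, h1⟩
  have h3 := sub_pos.2 S.hpq
  have h4 := th_pos S h0 h1
  positivity

theorem wt_div_bound (hp : P.eval S.p = 0) (hq : P.eval S.q = 0) :
    ∃ C : ℝ, 0 ≤ C ∧ ∀ c : ℝ, c ∉ Set.Ioo S.p S.q → ∀ θ : ℝ, 0 ≤ θ → θ ≤ π →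
      |wt S θ / (S.xr θ - c)| ≤ C := by
  obtain ⟨C, hC, h⟩ := th_le_abs S hp hq
  refine ⟨C * Real.sqrt (S.q - S.p), by positivity, fun c hc θ h0 h1 => ?_⟩
  have h2 := (h c hc θ h0 h1).2
  rw [abs_div, abs_of_nonneg (wt_nonneg S h0 h1)]
  rcases (abs_nonneg (S.xr θ - c)).eq_or_lt with h3 | h3
  · rw [← h3, div_zero]
    positivity
  · rw [div_le_iff₀ h3]
    exact h2

theorem integrableOn_div (hp : P.eval S.p = 0) (hq : P.eval S.q = 0) {c : ℝ}
    (hc : c ∉ Set.Ioo S.p S.q) :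
    IntegrableOn (fun θ => wt S θ / (S.xr θ - c)) (Ioc 0 π) := by
  obtain ⟨C, _, h⟩ := wt_div_bound S hp hq
  have hm : Measurable (fun θ => wt S θ / (S.xr θ - c)) :=
    (continuous_wt S).measurable.div ((continuous_xr S).measurable.sub_const c)
  refine Integrable.mono' (g := fun _ => C) (integrable_const C) hm.aestronglyMeasurable ?_
  refine (ae_restrict_iff' measurableSet_Ioc).2 (Eventually.of_forall fun θ hθ => ?_)
  rw [Real.norm_eq_abs]
  exact h c hc θ hθ.1.le hθ.2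

theorem cont_u (hp : P.eval S.p = 0) (hq : P.eval S.q = 0) {c : ℝ}
    (hc : c ∉ Set.Ioo S.p S.q) :
    ContinuousOn (fun θ => Real.log (S.xr θ - c) * S.th θ) (Icc 0 π) := by
  obtain ⟨C, hC, h⟩ := th_le_abs S hp hq
  intro θ hθ
  by_cases hx : S.xr θ - c = 0
  · -- squeeze
    have hth : S.th θ = 0 := by
      have h1 := (h c hc θ hθ.1 hθ.2).1
      rw [hx, abs_zero, Real.sqrt_zero, mul_zero] at h1
      exact le_antisymm h1 (th_nonneg S θ)
    have hF : Continuous (fun t => 2 * C * |Real.sqrt |S.xr t - c| *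
        Real.log (Real.sqrt |S.xr t - c|)|) := by
      have h1 : Continuous (fun t => Real.sqrt |S.xr t - c|) :=
        ((continuous_xr S).sub continuous_const).abs.sqrt
      exact continuous_const.mul (Real.continuous_mul_log.comp h1).abs
    have hF0 : 2 * C * |Real.sqrt |S.xr θ - c| * Real.log (Real.sqrt |S.xr θ - c|)| = 0 := by
      rw [hx, abs_zero, Real.sqrt_zero, zero_mul, abs_zero, mul_zero]
    have hbd : ∀ t ∈ Icc 0 π, ‖Real.log (S.xr t - c) * S.th t‖ ≤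
        2 * C * |Real.sqrt |S.xr t - c| * Real.log (Real.sqrt |S.xr t - c|)| := by
      intro t ht
      have h1 := (h c hc t ht.1 ht.2).1
      have h2 : Real.log (Real.sqrt |S.xr t - c|) = Real.log (S.xr t - c) / 2 := by
        rw [Real.log_sqrt (abs_nonneg _), Real.log_abs]
      rw [h2, Real.norm_eq_abs, abs_mul, abs_mul, abs_div, abs_of_nonneg (th_nonneg S t),
        abs_of_nonneg (Real.sqrt_nonneg _), abs_two]
      have h3 := abs_nonneg (Real.log (S.xr t - c))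
      nlinarith [mul_le_mul_of_nonneg_left h1 h3]
    rw [ContinuousWithinAt]
    have h0 : Real.log (S.xr θ - c) * S.th θ = 0 := by rw [hth, mul_zero]
    rw [h0]
    refine squeeze_zero_norm' (eventually_mem_nhdsWithin.mono hbd) ?_
    have h4 := hF.tendsto θ
    rw [hF0] at h4
    exact h4.mono_left nhdsWithin_le_nhds
  · refine ContinuousAt.continuousWithinAt (ContinuousAt.mul ?_ (continuous_th S).continuousAt)
    exact ((continuous_xr S).sub continuous_const).continuousAt.log hx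

theorem deriv_u {c : ℝ} (hc : c ∉ Set.Ioo S.p S.q) {θ : ℝ} (h0 : 0 < θ) (h1 : θ < π) :
    HasDerivAt (fun t => Real.log (S.xr t - c) * S.th t)
      (-(wt S θ / (S.xr θ - c)) + Real.log |S.xr θ - c| * S.dn θ) θ := by
  have hx := xr_mem_Ioo S h0 h1
  have hne : S.xr θ - c ≠ 0 := by
    intro h
    apply hc
    rw [← sub_eq_zero.1 h]
    exact hx
  have hxr : HasDerivAt S.xr ((S.q - S.p) / 2 * (-Real.sin θ)) θ := by
    have := ((Real.hasDerivAt_cos θ).const_mul ((S.q - S.p) / 2)).const_add ((S.p + S.q) / 2)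
    exact this
  have h2 := ((hxr.sub_const c).log hne).mul (hasDerivAt_th S h0 h1)
  refine h2.congr_deriv ?_
  rw [Real.log_abs]
  unfold wt
  ring

theorem intervalIntegrable_log_dn {c : ℝ} (hc : c ∉ Set.Ioo S.p S.q) :
    IntervalIntegrable (fun θ => Real.log |S.xr θ - c| * S.dn θ) volume 0 π := by
  have h1 := integrable_log S.hpq hc 0 π
  exact h1.mul_continuousOn (continuous_dn S).continuousOn

theorem by_parts' (hp : P.eval S.p = 0) (hq : P.eval S.q = 0) {c : ℝ}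
    (hc : c ∉ Set.Ioo S.p S.q) :
    ∫ θ in (0 : ℝ)..π, Real.log |S.xr θ - c| * S.dn θ =
      ∫ θ in (0 : ℝ)..π, wt S θ / (S.xr θ - c) := by
  have hi1 : IntervalIntegrable (fun θ => wt S θ / (S.xr θ - c)) volume 0 π := by
    rw [intervalIntegrable_iff_integrableOn_Ioc_of_le Real.pi_pos.le]
    exact integrableOn_div S hp hq hc
  have hi2 := intervalIntegrable_log_dn S hc
  have h1 := intervalIntegral.integral_eq_sub_of_hasDerivAt_of_le Real.pi_pos.le
    (cont_u S hp hq hc) (fun θ hθ => deriv_u S hc hθ.1 hθ.2) (hi1.neg.add hi2)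
  have h2 : (∫ θ in (0 : ℝ)..π, (-(wt S θ / (S.xr θ - c)) + Real.log |S.xr θ - c| * S.dn θ)) =
      -(∫ θ in (0 : ℝ)..π, wt S θ / (S.xr θ - c)) +
        ∫ θ in (0 : ℝ)..π, Real.log |S.xr θ - c| * S.dn θ := by
    rw [← intervalIntegral.integral_neg]
    exact intervalIntegral.integral_add hi1.neg hi2
  rw [th_pi S hp, th_zero S hq, mul_zero, mul_zero, sub_zero, h2] at h1
  linarith

/-- A continuous function without a zero on an interval has a constant sign. -/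
theorem const_sign {g : ℝ → ℝ} {p q : ℝ} (hg : ContinuousOn g (Set.Ioo p q))
    (h0 : ∀ x ∈ Set.Ioo p q, g x ≠ 0) :
    (∀ x ∈ Set.Ioo p q, 0 < g x) ∨ (∀ x ∈ Set.Ioo p q, 0 < -g x) := by
  by_contra hcon
  push Not at hcon
  obtain ⟨⟨x, hx, hx1⟩, ⟨y, hy, hy1⟩⟩ := hcon
  have h1 : (0 : ℝ) ∈ g '' Set.Ioo p q := by
    refine (isPreconnected_Ioo.image g hg).Icc_subset (mem_image_of_mem g hx)
      (mem_image_of_mem g hy) ⟨hx1, by linarith⟩
  obtain ⟨z, hz, hz1⟩ := h1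
  exact h0 z hz hz1

end ByPartsDAux

open ByPartsDAux

theorem weight_bound (hp : P.eval S.p = 0) (hq : P.eval S.q = 0) {c : ℝ}
    (hc : c ∉ Set.Ioo S.p S.q) : ∃ C : ℝ, ∀ θ : ℝ, 0 < θ → θ < π →
      S.th θ * ((S.q - S.p) / 2 * Real.sin θ) / |S.xr θ - c| ≤ C := by
  obtain ⟨C, _, h⟩ := wt_div_bound S hp hq
  refine ⟨C, fun θ h0 h1 => ?_⟩
  have h2 := h c hc θ h0.le h1.le
  rw [abs_div, abs_of_nonneg (wt_nonneg S h0.le h1.le)] at h2
  exact h2

theorem weight_integrable (hp : P.eval S.p = 0) (hq : P.eval S.q = 0) {c : ℝ}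
    (hc : c ∉ Set.Ioo S.p S.q) : IntervalIntegrable
      (fun θ => S.th θ * ((S.q - S.p) / 2 * Real.sin θ) / (S.xr θ - c)) volume 0 π := by
  rw [intervalIntegrable_iff_integrableOn_Ioc_of_le Real.pi_pos.le]
  exact integrableOn_div S hp hq hc

theorem by_parts (hp : P.eval S.p = 0) (hq : P.eval S.q = 0) {c : ℝ}
    (hc : c ∉ Set.Ioo S.p S.q) :
    S.RR c = 2 * ∫ θ in (0 : ℝ)..π, S.th θ * ((S.q - S.p) / 2 * Real.sin θ) / (S.xr θ - c) := by
  unfold Seg.RR
  rw [by_parts' S hp hq hc]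
  rfl

theorem TT_eq_zero (hp : P.eval S.p = 0) (hq : P.eval S.q = 0) : S.TT = 0 := by
  rw [TT_eq, th_pi S hp, th_zero S hq]
  norm_num

theorem exists_eval_D (hp : P.eval S.p = 0) (hq : P.eval S.q = 0) {m : ℕ} (a c : Fin m → ℝ)
    (hc : ∀ k, c k ∉ Set.Ioo S.p S.q) (h : ∑ k, a k * S.RR (c k) = 0) :
    ∃ x ∈ Set.Ioo S.p S.q, ∑ k, a k / (x - c k) = 0 := by
  by_contra hcon
  push Not at hcon
  have hg : ContinuousOn (fun x => ∑ k, a k / (x - c k)) (Set.Ioo S.p S.q) := by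
    refine continuousOn_finsetSum _ fun k _ => ?_
    refine ContinuousOn.div continuousOn_const (continuousOn_id.sub continuousOn_const) ?_
    intro x hx h1
    apply hc k
    rw [← sub_eq_zero.1 h1]
    exact hx
  -- the integral
  have hint : ∀ k ∈ (Finset.univ : Finset (Fin m)), IntervalIntegrable
      (fun θ => a k * (wt S θ / (S.xr θ - c k))) volume 0 π := fun k _ =>
    (weight_integrable S hp hq (hc k)).const_mul (a k)
  have hI : (∫ θ in (0 : ℝ)..π, ∑ k, a k * (wt S θ / (S.xr θ - c k))) = 0 := by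
    rw [intervalIntegral.integral_finsetSum hint]
    have h1 : ∀ k, a k * S.RR (c k) =
        2 * ∫ θ in (0 : ℝ)..π, a k * (wt S θ / (S.xr θ - c k)) := by
      intro k
      rw [by_parts S hp hq (hc k), intervalIntegral.integral_const_mul]
      unfold wt
      ring
    rw [Finset.sum_congr rfl fun k _ => h1 k, ← Finset.mul_sum] at h
    linarith
  have hInt : IntervalIntegrable
      (fun θ => ∑ k, a k * (wt S θ / (S.xr θ - c k))) volume 0 π := by
    have h1 := IntervalIntegrable.sum _ hint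
    have h2 : (∑ k, fun θ => a k * (wt S θ / (S.xr θ - c k))) =
        fun θ => ∑ k, a k * (wt S θ / (S.xr θ - c k)) := by
      funext θ
      rw [Finset.sum_apply]
    rwa [h2] at h1
  have hfac : ∀ θ, (∑ k, a k * (wt S θ / (S.xr θ - c k))) =
      wt S θ * ∑ k, a k / (S.xr θ - c k) := by
    intro θ
    rw [Finset.mul_sum]
    exact Finset.sum_congr rfl fun k _ => by ring
  rcases const_sign hg hcon with h1 | h1
  · have h2 := intervalIntegral.intervalIntegral_pos_of_pos_on hInt (fun θ hθ => by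
      show 0 < ∑ k, a k * (wt S θ / (S.xr θ - c k))
      rw [hfac]
      exact mul_pos (wt_pos S hθ.1 hθ.2) (h1 _ (xr_mem_Ioo S hθ.1 hθ.2))) Real.pi_pos
    exact absurd hI h2.ne'
  · have h2 := intervalIntegral.intervalIntegral_pos_of_pos_on hInt.neg (fun θ hθ => by
      show 0 < -∑ k, a k * (wt S θ / (S.xr θ - c k))
      rw [hfac, ← mul_neg]
      exact mul_pos (wt_pos S hθ.1 hθ.2) (h1 _ (xr_mem_Ioo S hθ.1 hθ.2))) Real.pi_pos
    have h3 : (∫ θ in (0 : ℝ)..π, -∑ k, a k * (wt S θ / (S.xr θ - c k))) = 0 := by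
      rw [intervalIntegral.integral_neg, hI, neg_zero]
    exact absurd h3 h2.ne'

end P4a177d
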