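import Pool.Agent.Lib.P4a177d.Defs

/-!
# The functions on an annulus around the unit circle: definitions
-/

set_option autoImplicit false

namespace P4a177d

open scoped Real

noncomputable section

/-- The map `ζ ↦ (p + q) / 2 + (q - p) / 4 (ζ + 1 / ζ)`; it maps `e^{iθ}` to
`(p + q) / 2 + (q - p) / 2 cos θ`. -/
def jk (p q : ℝ) (z : ℂ) : ℂ := (((p + q) / 2 : ℝ) : ℂ) + (((q - p) / 4 : ℝ) : ℂ) * (z + z⁻¹)

/-- `ζ` times the derivative of `jk p q`: `(q - p) / 4 (ζ - 1 / ζ)`. -/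
def dk (p q : ℝ) (z : ℂ) : ℂ := (((q - p) / 4 : ℝ) : ℂ) * (z - z⁻¹)

/-- The point `r e^{iθ}`. -/
def pt (r θ : ℝ) : ℂ := (r : ℂ) * Complex.exp (θ * Complex.I)

/-- The open annulus `1 / R < |ζ| < R`. -/
def Ann (R : ℝ) : Set ℂ := {z | R⁻¹ < ‖z‖ ∧ ‖z‖ < R}

theorem isOpen_Ann (R : ℝ) : IsOpen (Ann R) :=
  (isOpen_lt continuous_const continuous_norm).inter (isOpen_lt continuous_norm continuous_const)

theorem norm_pt {r : ℝ} (hr : 0 ≤ r) (θ : ℝ) : ‖pt r θ‖ = r := by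
  unfold pt
  rw [norm_mul, Complex.norm_exp_ofReal_mul_I, mul_one, Complex.norm_real, Real.norm_eq_abs,
    abs_of_nonneg hr]

theorem pt_mem_Ann {R r : ℝ} (hR : 1 < R) (h1 : 1 ≤ r) (h2 : r < R) (θ : ℝ) : pt r θ ∈ Ann R := by
  unfold Ann
  rw [Set.mem_setOf_eq, norm_pt (by linarith)]
  exact ⟨lt_of_lt_of_le (inv_lt_one_of_one_lt₀ hR) h1, h2⟩

theorem ne_zero_of_mem_Ann {R : ℝ} {z : ℂ} (hR : 1 < R) (hz : z ∈ Ann R) : z ≠ 0 := by
  intro h
  have h1 := hz.1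
  rw [h, norm_zero] at h1
  have : 0 < R⁻¹ := inv_pos.2 (by linarith)
  linarith

theorem jk_pt_one (p q θ : ℝ) :
    jk p q (pt 1 θ) = (((p + q) / 2 + (q - p) / 2 * Real.cos θ : ℝ) : ℂ) := by
  unfold jk pt
  rw [Complex.ofReal_one, one_mul, ← Complex.exp_neg]
  have h : Complex.exp (θ * Complex.I) + Complex.exp (-(θ * Complex.I)) = 2 * Complex.cos θ := by
    rw [Complex.cos]
    ring
  rw [h]
  push_cast
  ring

variable {P : Polynomial ℝ} (S : Seg P)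

/-- The function `x` on the annulus. -/
def Seg.xz (z : ℂ) : ℂ := jk S.p S.q z

/-- The square root of `K(x(ζ))` on the annulus. -/
def Seg.sz (z : ℂ) : ℂ := Complex.exp (Complex.log (Polynomial.aeval (S.xz z) S.K) / 2)

/-- The function `w` on the annulus. -/
def Seg.wz (z : ℂ) : ℂ := dk S.p S.q z * S.sz z

/-- The function `f = (P(x) + 2 - w) / 2` on the annulus. -/
def Seg.fz (z : ℂ) : ℂ := (Polynomial.aeval (S.xz z) P + 2 - S.wz z) / 2

/-- The function `t = (1 + w / P(x)) / 2` on the annulus. -/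
def Seg.tz (z : ℂ) : ℂ := (1 + S.wz z / Polynomial.aeval (S.xz z) P) / 2

end

end P4a177d
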