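import Pool.Agent.Lib.P4a177d.Defs

/-!
# MODULE P4a177d.ClosD: smoothness of the closure, and the real condition

PROOF. `smoothClosure`: let `y` be a zero of `homEqn`. If `y (0,1) ≠ 0` and `y (1,1) ≠ 0`: the affine
point `(y (0,0) / y (0,1), y (1,0) / y (1,1))` is on the curve, and by `hs` one of the derivatives by
`X (0,0)`, `X (1,0)` is not zero. If `y (1,1) = 0` (so `y (1,0) ≠ 0`): then
`N y(1,0)^2 ∏ (y(0,0) - b_i y(0,1)) = 0`, so `y(0,0) = b_i y(0,1)` for some `i`, `y(0,1) ≠ 0`, and the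
derivative by `X (0,0)` is `N y(1,0)^2 ∏_{k ≠ i} (b_i - b_k) y(0,1)^g ≠ 0` (`hb`). If `y (0,1) = 0`,
`y (1,1) ≠ 0`: then `y(0,0) ≠ 0`, `y(1,0) = 0` or `y(1,0) = y(1,1)`, and the derivative by `X (1,0)` is
`N (2 y(1,0) - y(1,1)) y(0,0)^(g+1) ≠ 0`.
`deriv_ne_zero`: the point `(x, 1/2)` is on the curve, the derivative by `X 1` is
`N (2 t - 1) ∏ = 0` there, and the derivative by `X 0` is `t (t - 1) P'(x)`; so by `hs`, `P'(x) ≠ 0`.
-/

set_option autoImplicit false

namespace P4a177d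

open P4a177h MvPolynomial

variable {g : ℕ} (b : Fin (g + 1) → ℤ) (N : ℤ)

namespace ClosDAux

theorem der_prod {ι R S : Type*} [DecidableEq ι] [CommSemiring R] [CommSemiring S] [Algebra R S]
    (D : Derivation R S S) (f : ι → S) (T : Finset ι) :
    D (∏ i ∈ T, f i) = ∑ i ∈ T, (∏ j ∈ T.erase i, f j) * D (f i) := by
  induction T using Finset.induction_on with
  | empty => rw [Finset.prod_empty, Derivation.map_one_eq_zero, Finset.sum_empty]
  | insert a T ha ih =>
    rw [Finset.prod_insert ha, Derivation.leibniz, ih, Finset.sum_insert ha,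
      Finset.erase_insert ha, smul_eq_mul, smul_eq_mul, Finset.mul_sum, add_comm]
    congr 1
    refine Finset.sum_congr rfl fun i hi => ?_
    have hia : i ≠ a := fun h => ha (h ▸ hi)
    rw [Finset.erase_insert_of_ne (Ne.symm hia),
      Finset.prod_insert (fun h => ha (Finset.mem_of_mem_erase h)), mul_assoc]

theorem aeval_eqn (x : Fin 2 → ℂ) :
    aeval x (eqn b N) = (N : ℂ) * (x 1 * (x 1 - 1)) * ∏ i, (x 0 - (b i : ℂ)) - 1 := by
  simp [eqn, map_prod]

theorem aeval_d0 (x : Fin 2 → ℂ) :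
    aeval x (pderiv 0 (eqn b N)) = (N : ℂ) * (x 1 * (x 1 - 1)) *
      ∑ i, ∏ j ∈ Finset.univ.erase i, (x 0 - (b j : ℂ)) := by
  have h1 : pderiv (0 : Fin 2) (∏ i, (X 0 - C (b i : ℚ)) : MvPolynomial (Fin 2) ℚ) =
      ∑ i, ∏ j ∈ Finset.univ.erase i, (X 0 - C (b j : ℚ)) := by
    rw [der_prod]
    refine Finset.sum_congr rfl fun i _ => ?_
    simp
  rw [eqn, map_sub, pderiv_one, sub_zero, Derivation.leibniz, h1]
  simp [map_prod, map_sum, Derivation.leibniz]

theorem aeval_d1 (x : Fin 2 → ℂ) :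
    aeval x (pderiv 1 (eqn b N)) = (N : ℂ) * (2 * x 1 - 1) * ∏ i, (x 0 - (b i : ℂ)) := by
  have h1 : pderiv (1 : Fin 2) (∏ i, (X 0 - C (b i : ℚ)) : MvPolynomial (Fin 2) ℚ) = 0 := by
    rw [der_prod]
    refine Finset.sum_eq_zero fun i _ => ?_
    simp
  rw [eqn, map_sub, pderiv_one, sub_zero, Derivation.leibniz, h1]
  simp [map_prod, map_sum, Derivation.leibniz]
  ring

theorem aeval_hom (y : Fin 2 × Fin 2 → ℂ) :
    aeval y (homEqn b N) = (N : ℂ) * (y (1, 0) * (y (1, 0) - y (1, 1))) *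
      ∏ i, (y (0, 0) - (b i : ℂ) * y (0, 1)) - y (0, 1) ^ (g + 1) * y (1, 1) ^ 2 := by
  simp [homEqn, map_prod]

theorem aeval_h00 (y : Fin 2 × Fin 2 → ℂ) :
    aeval y (pderiv (0, 0) (homEqn b N)) = (N : ℂ) * (y (1, 0) * (y (1, 0) - y (1, 1))) *
      ∑ i, ∏ j ∈ Finset.univ.erase i, (y (0, 0) - (b j : ℂ) * y (0, 1)) := by
  have h1 : pderiv ((0, 0) : Fin 2 × Fin 2)
      (∏ i, (X (0, 0) - C (b i : ℚ) * X (0, 1)) : MvPolynomial (Fin 2 × Fin 2) ℚ) =
      ∑ i, ∏ j ∈ Finset.univ.erase i, (X (0, 0) - C (b j : ℚ) * X (0, 1)) := by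
    rw [der_prod]
    refine Finset.sum_congr rfl fun i _ => ?_
    simp [Derivation.leibniz, pderiv_X_of_ne]
  rw [homEqn, map_sub, Derivation.leibniz, h1]
  simp [map_prod, map_sum, Derivation.leibniz, Derivation.leibniz_pow, pderiv_X_of_ne]

theorem aeval_h10 (y : Fin 2 × Fin 2 → ℂ) :
    aeval y (pderiv (1, 0) (homEqn b N)) = (N : ℂ) * (2 * y (1, 0) - y (1, 1)) *
      ∏ i, (y (0, 0) - (b i : ℂ) * y (0, 1)) := by
  have h1 : pderiv ((1, 0) : Fin 2 × Fin 2)
      (∏ i, (X (0, 0) - C (b i : ℚ) * X (0, 1)) : MvPolynomial (Fin 2 × Fin 2) ℚ) = 0 := by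
    rw [der_prod]
    refine Finset.sum_eq_zero fun i _ => ?_
    simp [Derivation.leibniz, pderiv_X_of_ne]
  rw [homEqn, map_sub, Derivation.leibniz, h1]
  simp [map_prod, map_sum, Derivation.leibniz, Derivation.leibniz_pow, pderiv_X_of_ne]
  ring

theorem prod_div (X Z : ℂ) (hZ : Z ≠ 0) (s : Finset (Fin (g + 1))) :
    ∏ i ∈ s, (X - (b i : ℂ) * Z) = Z ^ s.card * ∏ i ∈ s, (X / Z - (b i : ℂ)) := by
  rw [← Finset.prod_const, ← Finset.prod_mul_distrib]
  refine Finset.prod_congr rfl fun i _ => ?_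
  field_simp

end ClosDAux

open ClosDAux

theorem smoothClosure (hb : StrictMono b) (hN : N ≠ 0) (hs : Smooth b N) : SmoothClosure b N := by
  intro y hy h0
  have hNC : (N : ℂ) ≠ 0 := by exact_mod_cast hN
  rw [aeval_hom] at h0
  have hy0 := hy 0
  have hy1 := hy 1
  by_cases hU : y (1, 1) = 0
  · have hT : y (1, 0) ≠ 0 := hy1.resolve_right (fun h => h hU)
    rw [hU] at h0
    have h1 : ∏ i, (y (0, 0) - (b i : ℂ) * y (0, 1)) = 0 := by
      have h2 : (N : ℂ) * (y (1, 0) * (y (1, 0) - 0)) *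
          ∏ i, (y (0, 0) - (b i : ℂ) * y (0, 1)) = 0 := by
        rw [zero_pow two_ne_zero, mul_zero, sub_zero] at h0
        exact h0
      refine (mul_eq_zero.1 h2).resolve_left ?_
      rw [sub_zero]
      exact mul_ne_zero hNC (mul_ne_zero hT hT)
    obtain ⟨i, -, hi⟩ := Finset.prod_eq_zero_iff.1 h1
    have hX : y (0, 0) = (b i : ℂ) * y (0, 1) := sub_eq_zero.1 hi
    have hZ : y (0, 1) ≠ 0 := by
      intro hZ
      rw [hZ, mul_zero] at hX
      exact hy0.elim (fun h => h hX) (fun h => h hZ)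
    refine ⟨(0, 0), ?_⟩
    rw [aeval_h00, hU, sub_zero]
    refine mul_ne_zero (mul_ne_zero hNC (mul_ne_zero hT hT)) ?_
    rw [Finset.sum_eq_single i]
    · refine Finset.prod_ne_zero_iff.2 fun j hj => ?_
      have hji : j ≠ i := (Finset.mem_erase.1 hj).1
      rw [hX, ← sub_mul]
      refine mul_ne_zero (sub_ne_zero.2 ?_) hZ
      intro h
      exact hji (hb.injective (by exact_mod_cast h.symm))
    · intro k _ hk
      exact Finset.prod_eq_zero (Finset.mem_erase.2 ⟨Ne.symm hk, Finset.mem_univ i⟩) hi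
    · intro h
      exact absurd (Finset.mem_univ i) h
  · by_cases hZ : y (0, 1) = 0
    · have hX : y (0, 0) ≠ 0 := hy0.resolve_right (fun h => h hZ)
      have hP : ∏ i, (y (0, 0) - (b i : ℂ) * y (0, 1)) ≠ 0 := by
        refine Finset.prod_ne_zero_iff.2 fun j _ => ?_
        rw [hZ, mul_zero, sub_zero]
        exact hX
      have h2 : (N : ℂ) * (y (1, 0) * (y (1, 0) - y (1, 1))) *
          ∏ i, (y (0, 0) - (b i : ℂ) * y (0, 1)) = 0 := by
        rw [sub_eq_zero.1 h0, hZ, zero_pow (Nat.succ_ne_zero g), zero_mul]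
      have h3 : y (1, 0) * (y (1, 0) - y (1, 1)) = 0 := by
        have h4 := (mul_eq_zero.1 h2).resolve_right hP
        exact (mul_eq_zero.1 h4).resolve_left hNC
      refine ⟨(1, 0), ?_⟩
      rw [aeval_h10]
      refine mul_ne_zero (mul_ne_zero hNC ?_) hP
      rcases mul_eq_zero.1 h3 with h4 | h4
      · rw [h4, mul_zero, zero_sub]
        exact neg_ne_zero.2 hU
      · rw [sub_eq_zero.1 h4, two_mul, add_sub_cancel_right]
        exact hU
    · set x : Fin 2 → ℂ := ![y (0, 0) / y (0, 1), y (1, 0) / y (1, 1)] with hx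
      have e0 : x 0 = y (0, 0) / y (0, 1) := rfl
      have e1 : x 1 = y (1, 0) / y (1, 1) := rfl
      have hprod := prod_div b (y (0, 0)) (y (0, 1)) hZ Finset.univ
      rw [Finset.card_univ, Fintype.card_fin] at hprod
      have hT : y (1, 0) = y (1, 1) * x 1 := by rw [e1]; field_simp
      have haff : aeval x (eqn b N) = 0 := by
        rw [aeval_eqn, e0]
        have h1 : y (0, 1) ^ (g + 1) * y (1, 1) ^ 2 * ((N : ℂ) * (x 1 * (x 1 - 1)) *
            ∏ i, (y (0, 0) / y (0, 1) - (b i : ℂ)) - 1) = 0 := by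
          rw [hprod, hT] at h0
          linear_combination h0
        refine (mul_eq_zero.1 h1).resolve_left ?_
        exact mul_ne_zero (pow_ne_zero _ hZ) (pow_ne_zero _ hU)
      obtain ⟨s, hs'⟩ := hs x haff
      fin_cases s
      · refine ⟨(0, 0), ?_⟩
        have hs0 : aeval x (pderiv 0 (eqn b N)) ≠ 0 := hs'
        rw [aeval_d0, e0] at hs0
        rw [aeval_h00]
        have h1 : ∑ i, ∏ j ∈ Finset.univ.erase i, (y (0, 0) - (b j : ℂ) * y (0, 1)) =
            y (0, 1) ^ g * ∑ i, ∏ j ∈ Finset.univ.erase i, (y (0, 0) / y (0, 1) - (b j : ℂ)) := by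
          rw [Finset.mul_sum]
          refine Finset.sum_congr rfl fun i _ => ?_
          rw [prod_div b _ _ hZ, Finset.card_erase_of_mem (Finset.mem_univ i), Finset.card_univ,
            Fintype.card_fin, Nat.add_sub_cancel]
        rw [h1, hT]
        have h2 : (N : ℂ) * (y (1, 1) * x 1 * (y (1, 1) * x 1 - y (1, 1))) * (y (0, 1) ^ g *
            ∑ i, ∏ j ∈ Finset.univ.erase i, (y (0, 0) / y (0, 1) - (b j : ℂ))) =
            (y (1, 1) ^ 2 * y (0, 1) ^ g) * ((N : ℂ) * (x 1 * (x 1 - 1)) *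
            ∑ i, ∏ j ∈ Finset.univ.erase i, (y (0, 0) / y (0, 1) - (b j : ℂ))) := by ring
        rw [h2]
        exact mul_ne_zero (mul_ne_zero (pow_ne_zero _ hU) (pow_ne_zero _ hZ)) hs0
      · refine ⟨(1, 0), ?_⟩
        have hs1 : aeval x (pderiv 1 (eqn b N)) ≠ 0 := hs'
        rw [aeval_d1, e0] at hs1
        rw [aeval_h10, hprod, hT]
        have h2 : (N : ℂ) * (2 * (y (1, 1) * x 1) - y (1, 1)) * (y (0, 1) ^ (g + 1) *
            ∏ i, (y (0, 0) / y (0, 1) - (b i : ℂ))) =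
            (y (1, 1) * y (0, 1) ^ (g + 1)) * ((N : ℂ) * (2 * x 1 - 1) *
            ∏ i, (y (0, 0) / y (0, 1) - (b i : ℂ))) := by ring
        rw [h2]
        exact mul_ne_zero (mul_ne_zero hU (pow_ne_zero _ hZ)) hs1

theorem deriv_ne_zero (hs : Smooth b N) (x : ℝ) (hx : (PR b N).eval x = -4) :
    (Polynomial.derivative (PR b N)).eval x ≠ 0 := by
  intro h0
  have e1 : (PR b N).eval x = (N : ℝ) * ∏ i, (x - (b i : ℝ)) := by
    unfold PR
    rw [Polynomial.eval_mul, Polynomial.eval_C, Polynomial.eval_prod]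
    simp
  have e2 : (Polynomial.derivative (PR b N)).eval x =
      (N : ℝ) * ∑ i, ∏ j ∈ Finset.univ.erase i, (x - (b j : ℝ)) := by
    unfold PR
    rw [Polynomial.derivative_mul, Polynomial.derivative_C, zero_mul, zero_add,
      Polynomial.eval_mul, Polynomial.eval_C, Polynomial.derivative_prod_finset,
      Polynomial.eval_finsetSum]
    congr 1
    refine Finset.sum_congr rfl fun i _ => ?_
    rw [Polynomial.derivative_X_sub_C, mul_one, Polynomial.eval_prod]
    simp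
  rw [e1] at hx
  rw [e2] at h0
  have hxC : (N : ℂ) * ∏ i, ((x : ℂ) - (b i : ℂ)) = -4 := by
    have := congrArg (fun r : ℝ => (r : ℂ)) hx
    push_cast at this
    exact this
  have h0C : (N : ℂ) * ∑ i, ∏ j ∈ Finset.univ.erase i, ((x : ℂ) - (b j : ℂ)) = 0 := by
    have := congrArg (fun r : ℝ => (r : ℂ)) h0
    push_cast at this
    exact this
  have hcurve : aeval (![(x : ℂ), 1 / 2] : Fin 2 → ℂ) (eqn b N) = 0 := by
    rw [aeval_eqn]
    simp only [Matrix.cons_val_zero, Matrix.cons_val_one]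
    linear_combination (-1 / 4 : ℂ) * hxC
  obtain ⟨s, hs'⟩ := hs _ hcurve
  fin_cases s
  · apply hs'
    show aeval (![(x : ℂ), 1 / 2] : Fin 2 → ℂ) (pderiv 0 (eqn b N)) = 0
    rw [aeval_d0]
    simp only [Matrix.cons_val_zero, Matrix.cons_val_one]
    linear_combination (-1 / 4 : ℂ) * h0C
  · apply hs'
    show aeval (![(x : ℂ), 1 / 2] : Fin 2 → ℂ) (pderiv 1 (eqn b N)) = 0
    rw [aeval_d1]
    simp only [Matrix.cons_val_zero, Matrix.cons_val_one]
    ring

end P4a177d
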