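import Pool.Agent.Lib.P4a177d.CDefs

/-!
# MODULE P4a177d.CurveD: the functions on the annulus (est. 1.3 h)

PROOF. Write `x = S.xz z = jk p q z`, `K = aeval x S.K`, `P = aeval x P`, `d = dk p q z`, `s = S.sz z`, `w = d * s`.
`dk_sq`: `(jk - p) = (q-p)/4 (z+1)^2/z`, `(jk - q) = (q-p)/4 (z-1)^2/z`; their product is `dk^2`.
`sz_sq`: `exp (log K / 2)^2 = exp (log K) = K` for `K ≠ 0`. `wz_sq`: `w^2 = d^2 K = (x-p)(x-q) K = P (P + 4)` (`S.hK`, `map_mul`).
`fz_mul`: `(P+2-w)/2 * (P+2+w)/2 = ((P+2)^2 - w^2)/4 = 1`.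
`exists_ann`: on the circle `x` is a real number of `[p, q]` (`jk_pt_one`; every `z` with `‖z‖ = 1` is `pt 1 (arg z)`), so
`K` is real and positive (`S.Kpos`), in `Complex.slitPlane`; `{z | z ≠ 0 ∧ aeval (jk z) K ∈ slitPlane}` is open
(continuity of `jk` away from `0`; `Complex.isOpen_slitPlane`) and contains the compact unit circle, so it contains `Ann R` for
some `R > 1` (`IsCompact.exists_thickening_subset_open` or a sequence argument or `exists_cthickening..`: `z` in `Ann R` has distance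
`≤ R - 1/R` to `z / ‖z‖`).
`differentiableOn_sz`: `exp`, `log` on the slit plane, polynomials (`Polynomial.differentiable_aeval`), `jk` (`z ≠ 0`).
`dlog_fz`: `z * f'(z) / f(z) = - P'(x) / s`: with `z x' = d`: `2 z f' = P' d - z w'`, and
`s * (z w') = (q-p)/4 (z + 1/z) K + d * z * (s s')`, `2 s s' z = K' d` [`s' = s * K' x' / (2 K)`], so
`s * (z w') = (x - (p+q)/2) K + d^2 K' / 2 = (x - (p+q)/2) K + (x-p)(x-q) K' / 2`, which is half of the derivative of
`(X-p)(X-q)K = P(P+4)`, that is, `(P + 2) P'`. So `2 s z f' = P' d s - (P+2) P' = -P' (P + 2 - w) = -2 P' f`.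
`norm_fz`: for `‖z‖ = 1`, `z = pt 1 θ`: `x = xr θ` real, `s = √K` real, `d = i (q-p)/2 sin θ`, so
`|f|^2 = ((P+2)^2 + |w|^2)/4 = ((P+2)^2 - w^2)/4 = 1`.
`sz_circle`: `exp (log K / 2) = √K` for real `K > 0` (`Complex.ofReal_log`, `Complex.ofReal_exp`, `Real.exp_log`, `Real.sqrt_eq_..`).
`aeval_ne_zero`: for `z ∈ Ann R`, `z ≠ 1, -1`, `K ≠ 0`: `w^2 = P (P+4) ≠ 0`.
`tz_spec`: `w ^ 2 = P (P + 4)`, `P ≠ 0`: `t (t - 1) P = 1` and `(t - 1) / t = f`, `t ≠ 0` (because `t (t-1) P = 1`):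
`t = (P + w)/(2P)`, `t - 1 = (w - P)/(2P)`, `f * t = (P+2-w)(P+w)/(4P) = (P^2 + 2P + 2w - w^2)/(4P) = (2 w - 2 P)/(4P) = t - 1`.
-/

set_option autoImplicit false

namespace P4a177d

open Filter Topology Polynomial
open scoped Real

variable {P : Polynomial ℝ} (S : Seg P)

theorem dk_sq (p q : ℝ) {z : ℂ} (hz : z ≠ 0) :
    dk p q z ^ 2 = (jk p q z - p) * (jk p q z - q) := by
  unfold dk jk
  push_cast
  field_simp
  ring

namespace CurveDAux

theorem sz_sq {z : ℂ} (hK : aeval (S.xz z) S.K ≠ 0) : S.sz z ^ 2 = aeval (S.xz z) S.K := by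
  unfold Seg.sz
  rw [← Complex.exp_nat_mul]
  have h : ((2 : ℕ) : ℂ) * (Complex.log (aeval (S.xz z) S.K) / 2) =
      Complex.log (aeval (S.xz z) S.K) := by
    push_cast
    ring
  rw [h, Complex.exp_log hK]

theorem sz_ne (z : ℂ) : S.sz z ≠ 0 := Complex.exp_ne_zero _

theorem aeval_hK (x : ℂ) :
    aeval x P * (aeval x P + 4) = (x - S.p) * (x - S.q) * aeval x S.K := by
  have h := congrArg (aeval x) S.hK
  rw [map_mul, map_mul, map_mul, map_add, map_sub, map_sub, aeval_X, aeval_C, aeval_C,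
    map_ofNat] at h
  exact h

theorem aeval_dhK (x : ℂ) :
    2 * (aeval x (derivative P) * (aeval x P + 2)) =
      (2 * x - S.p - S.q) * aeval x S.K + (x - S.p) * (x - S.q) * aeval x (derivative S.K) := by
  have h := congrArg (fun Q => aeval x (derivative Q)) S.hK
  simp only [derivative_mul, derivative_add, derivative_sub, derivative_X, derivative_C,
    derivative_ofNat, map_mul, map_add, map_sub, aeval_X, aeval_C, map_one, map_zero, add_zero,
    sub_zero, map_ofNat, one_mul, mul_one, Complex.coe_algebraMap] at h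
  linear_combination h

theorem fz_mul {z : ℂ} (hz : z ≠ 0) (hK : aeval (S.xz z) S.K ≠ 0)
    (hw : S.wz z ^ 2 = aeval (S.xz z) P * (aeval (S.xz z) P + 4)) :
    S.fz z * ((aeval (S.xz z) P + 2 + S.wz z) / 2) = 1 := by
  unfold Seg.fz
  linear_combination (-1 / 4 : ℂ) * hw

end CurveDAux

theorem wz_sq {z : ℂ} (hz : z ≠ 0) (hK : aeval (S.xz z) S.K ≠ 0) :
    S.wz z ^ 2 = aeval (S.xz z) P * (aeval (S.xz z) P + 4) := by
  rw [CurveDAux.aeval_hK S, ← CurveDAux.sz_sq S hK]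
  unfold Seg.wz
  rw [mul_pow, dk_sq _ _ hz]
  rfl

theorem fz_ne_zero {z : ℂ} (hz : z ≠ 0) (hK : aeval (S.xz z) S.K ≠ 0) : S.fz z ≠ 0 := by
  intro h
  have h1 := CurveDAux.fz_mul S hz hK (wz_sq S hz hK)
  rw [h, zero_mul] at h1
  exact zero_ne_one h1

theorem xz_circle (θ : ℝ) : S.xz (pt 1 θ) = ((S.xr θ : ℝ) : ℂ) := jk_pt_one S.p S.q θ

namespace CurveDAux

theorem aeval_real (Q : Polynomial ℝ) (x : ℝ) : aeval (x : ℂ) Q = ((Q.eval x : ℝ) : ℂ) :=
  Polynomial.aeval_algebraMap_apply_eq_algebraMap_eval x Q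

theorem xr_mem (θ : ℝ) : S.xr θ ∈ Set.Icc S.p S.q := by
  have h1 := Real.neg_one_le_cos θ
  have h2 := Real.cos_le_one θ
  have h3 := S.hpq
  unfold Seg.xr
  constructor <;> nlinarith

theorem K_pos (θ : ℝ) : 0 < S.K.eval (S.xr θ) := S.Kpos _ (xr_mem S θ)

theorem pt_arg {z : ℂ} (hz : ‖z‖ = 1) : pt 1 (Complex.arg z) = z := by
  have h := Complex.norm_mul_exp_arg_mul_I z
  rw [hz] at h
  exact h

theorem hasDerivAt_xz {z : ℂ} (hz : z ≠ 0) :
    HasDerivAt S.xz (dk S.p S.q z / z) z := by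
  have h1 : HasDerivAt (fun z : ℂ => z + z⁻¹) (1 + -(z ^ 2)⁻¹) z :=
    (hasDerivAt_id z).add (hasDerivAt_inv hz)
  have h2 := (h1.const_mul (((S.q - S.p) / 4 : ℝ) : ℂ)).const_add (((S.p + S.q) / 2 : ℝ) : ℂ)
  refine h2.congr_deriv ?_
  unfold dk
  field_simp
  ring

theorem hasDerivAt_dk {z : ℂ} (hz : z ≠ 0) :
    HasDerivAt (dk S.p S.q) ((((S.q - S.p) / 4 : ℝ) : ℂ) * (z + z⁻¹) / z) z := by
  have h1 : HasDerivAt (fun z : ℂ => z - z⁻¹) (1 - -(z ^ 2)⁻¹) z :=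
    (hasDerivAt_id z).sub (hasDerivAt_inv hz)
  have h2 := h1.const_mul (((S.q - S.p) / 4 : ℝ) : ℂ)
  refine h2.congr_deriv ?_
  field_simp
  ring

theorem hasDerivAt_aeval' (Q : Polynomial ℝ) {z : ℂ} (hz : z ≠ 0) :
    HasDerivAt (fun z => aeval (S.xz z) Q)
      (aeval (S.xz z) (derivative Q) * (dk S.p S.q z / z)) z := by
  have h1 := Polynomial.hasDerivAt_aeval Q (S.xz z)
  exact h1.comp z (hasDerivAt_xz S hz)

theorem hasDerivAt_sz {z : ℂ} (hz : z ≠ 0) (hK : aeval (S.xz z) S.K ∈ Complex.slitPlane) :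
    HasDerivAt S.sz (S.sz z * (aeval (S.xz z) (derivative S.K) * (dk S.p S.q z / z) /
      aeval (S.xz z) S.K / 2)) z := by
  exact (((hasDerivAt_aeval' S S.K hz).clog hK).div_const 2).cexp

theorem hasDerivAt_wz {z : ℂ} (hz : z ≠ 0) (hK : aeval (S.xz z) S.K ∈ Complex.slitPlane) :
    HasDerivAt S.wz ((((S.q - S.p) / 4 : ℝ) : ℂ) * (z + z⁻¹) / z * S.sz z +
      dk S.p S.q z * (S.sz z * (aeval (S.xz z) (derivative S.K) * (dk S.p S.q z / z) /
      aeval (S.xz z) S.K / 2))) z :=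
  (hasDerivAt_dk S hz).mul (hasDerivAt_sz S hz hK)

theorem hasDerivAt_fz {z : ℂ} (hz : z ≠ 0) (hK : aeval (S.xz z) S.K ∈ Complex.slitPlane) :
    HasDerivAt S.fz ((aeval (S.xz z) (derivative P) * (dk S.p S.q z / z) -
      ((((S.q - S.p) / 4 : ℝ) : ℂ) * (z + z⁻¹) / z * S.sz z +
      dk S.p S.q z * (S.sz z * (aeval (S.xz z) (derivative S.K) * (dk S.p S.q z / z) /
      aeval (S.xz z) S.K / 2)))) / 2) z :=
  (((hasDerivAt_aeval' S P hz).add_const 2).sub (hasDerivAt_wz S hz hK)).div_const 2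

end CurveDAux

theorem exists_ann : ∃ R : ℝ, 1 < R ∧ ∀ z ∈ Ann R, aeval (S.xz z) S.K ∈ Complex.slitPlane := by
  have hopen : IsOpen ({z : ℂ | z ≠ 0} ∩ (fun z => aeval (S.xz z) S.K) ⁻¹' Complex.slitPlane) := by
    apply ContinuousOn.isOpen_inter_preimage _ isOpen_ne Complex.isOpen_slitPlane
    intro z hz
    exact (CurveDAux.hasDerivAt_aeval' S S.K hz).continuousAt.continuousWithinAt
  have hsub : Metric.sphere (0 : ℂ) 1 ⊆
      {z : ℂ | z ≠ 0} ∩ (fun z => aeval (S.xz z) S.K) ⁻¹' Complex.slitPlane := by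
    intro z hz
    have hz1 : ‖z‖ = 1 := by simpa using hz
    refine ⟨?_, ?_⟩
    · rintro rfl
      simp at hz1
    · show aeval (S.xz z) S.K ∈ Complex.slitPlane
      rw [← CurveDAux.pt_arg hz1, xz_circle, CurveDAux.aeval_real]
      rw [Complex.ofReal_mem_slitPlane]
      exact CurveDAux.K_pos S _
  obtain ⟨δ, hδ, hδ2⟩ := (isCompact_sphere (0 : ℂ) 1).exists_thickening_subset_open hopen hsub
  refine ⟨1 + δ, by linarith, ?_⟩
  intro z hz
  have hR : (1 : ℝ) < 1 + δ := by linarith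
  have hz0 := ne_zero_of_mem_Ann hR hz
  have hzn : 0 < ‖z‖ := norm_pos_iff.mpr hz0
  have h1 := hz.1
  have h2 := hz.2
  have h3 : 1 - δ < (1 + δ)⁻¹ := by
    rw [← one_div, lt_div_iff₀ (by linarith : (0 : ℝ) < 1 + δ)]
    nlinarith
  apply (hδ2 _).2
  rw [Metric.mem_thickening_iff]
  refine ⟨z / (‖z‖ : ℂ), ?_, ?_⟩
  · rw [mem_sphere_zero_iff_norm, norm_div, Complex.norm_real, norm_norm, div_self hzn.ne']
  · rw [dist_eq_norm]
    have e : z - z / (‖z‖ : ℂ) = (z / (‖z‖ : ℂ)) * (((‖z‖ - 1 : ℝ)) : ℂ) := by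
      have : (‖z‖ : ℂ) ≠ 0 := by exact_mod_cast hzn.ne'
      push_cast
      field_simp
    rw [e, norm_mul, norm_div, Complex.norm_real, norm_norm, div_self hzn.ne', one_mul,
      Complex.norm_real, Real.norm_eq_abs, abs_lt]
    constructor <;> linarith

theorem differentiableOn_sz {R : ℝ} (hR : 1 < R)
    (h : ∀ z ∈ Ann R, aeval (S.xz z) S.K ∈ Complex.slitPlane) :
    DifferentiableOn ℂ S.xz (Ann R) ∧ DifferentiableOn ℂ S.sz (Ann R) ∧
      DifferentiableOn ℂ S.wz (Ann R) ∧ DifferentiableOn ℂ S.fz (Ann R) := by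
  refine ⟨?_, ?_, ?_, ?_⟩ <;> intro z hz
  · exact (CurveDAux.hasDerivAt_xz S (ne_zero_of_mem_Ann hR hz)).differentiableAt.differentiableWithinAt
  · exact (CurveDAux.hasDerivAt_sz S (ne_zero_of_mem_Ann hR hz)
      (h z hz)).differentiableAt.differentiableWithinAt
  · exact (CurveDAux.hasDerivAt_wz S (ne_zero_of_mem_Ann hR hz)
      (h z hz)).differentiableAt.differentiableWithinAt
  · exact (CurveDAux.hasDerivAt_fz S (ne_zero_of_mem_Ann hR hz)
      (h z hz)).differentiableAt.differentiableWithinAt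

theorem dlog_fz {R : ℝ} (hR : 1 < R)
    (h : ∀ z ∈ Ann R, aeval (S.xz z) S.K ∈ Complex.slitPlane) {z : ℂ} (hz : z ∈ Ann R) :
    z * deriv S.fz z / S.fz z = -(aeval (S.xz z) (derivative P) / S.sz z) := by
  have hz0 := ne_zero_of_mem_Ann hR hz
  have hK := h z hz
  have hK0 : aeval (S.xz z) S.K ≠ 0 := Complex.slitPlane_ne_zero hK
  rw [(CurveDAux.hasDerivAt_fz S hz0 hK).deriv]
  have hs := CurveDAux.sz_sq S hK0
  have hs0 := CurveDAux.sz_ne S z
  have hf0 := fz_ne_zero S hz0 hK0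
  rw [div_eq_iff hf0]
  have hd := dk_sq S.p S.q hz0
  have hD := CurveDAux.aeval_dhK S (S.xz z)
  have hx : S.xz z = (((S.p + S.q) / 2 : ℝ) : ℂ) + (((S.q - S.p) / 4 : ℝ) : ℂ) * (z + z⁻¹) := rfl
  have hx' : (((S.q - S.p) / 4 : ℝ) : ℂ) * (z + z⁻¹) = S.xz z - ((S.p : ℂ) + S.q) / 2 := by
    rw [hx]
    push_cast
    ring
  rw [hx']
  have hdd : dk S.p S.q z ^ 2 = (S.xz z - S.p) * (S.xz z - S.q) := hd
  have hf : S.fz z = (aeval (S.xz z) P + 2 - dk S.p S.q z * S.sz z) / 2 := rfl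
  rw [hf]
  generalize hXe : S.xz z = X at *
  generalize aeval X S.K = K0 at *
  generalize aeval X (derivative S.K) = K1 at *
  generalize aeval X P = P0 at *
  generalize aeval X (derivative P) = P1 at *
  generalize dk S.p S.q z = d at *
  generalize S.sz z = s at *
  subst hs
  field_simp
  linear_combination hD - K1 * hdd

theorem sz_circle (θ : ℝ) : S.sz (pt 1 θ) = ((Real.sqrt (S.K.eval (S.xr θ)) : ℝ) : ℂ) := by
  unfold Seg.sz
  rw [xz_circle, CurveDAux.aeval_real, ← Complex.ofReal_log (CurveDAux.K_pos S θ).le]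
  have h : ((Real.log (S.K.eval (S.xr θ)) : ℝ) : ℂ) / 2 =
      ((Real.log (S.K.eval (S.xr θ)) / 2 : ℝ) : ℂ) := by push_cast; rfl
  rw [h, ← Complex.ofReal_exp, Real.exp_half, Real.exp_log (CurveDAux.K_pos S θ)]

theorem norm_fz {z : ℂ} (hz : ‖z‖ = 1) : ‖S.fz z‖ = 1 := by
  have hz0 : z ≠ 0 := by
    rintro rfl
    simp at hz
  set θ := Complex.arg z with hθ
  have hzt : pt 1 θ = z := CurveDAux.pt_arg hz
  have hx : S.xz z = ((S.xr θ : ℝ) : ℂ) := by rw [← hzt, xz_circle]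
  have hs : S.sz z = ((Real.sqrt (S.K.eval (S.xr θ)) : ℝ) : ℂ) := by rw [← hzt, sz_circle]
  have hP : aeval (S.xz z) P = ((P.eval (S.xr θ) : ℝ) : ℂ) := by
    rw [hx, CurveDAux.aeval_real]
  have hK : aeval (S.xz z) S.K ≠ 0 := by
    rw [hx, CurveDAux.aeval_real]
    exact_mod_cast (CurveDAux.K_pos S θ).ne'
  have hinv : (starRingEnd ℂ) z = z⁻¹ := (Complex.inv_eq_conj hz).symm
  have hd : (starRingEnd ℂ) (dk S.p S.q z) = -dk S.p S.q z := by
    unfold dk
    rw [map_mul, map_sub, Complex.conj_ofReal, map_inv₀, hinv, inv_inv]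
    ring
  have hw : (starRingEnd ℂ) (S.wz z) = -S.wz z := by
    unfold Seg.wz
    rw [map_mul, hd, hs, Complex.conj_ofReal]
    ring
  have hf : (starRingEnd ℂ) (S.fz z) = (aeval (S.xz z) P + 2 + S.wz z) / 2 := by
    unfold Seg.fz
    rw [map_div₀, map_sub, map_add, hw, hP, Complex.conj_ofReal, map_ofNat]
    ring
  have h1 := CurveDAux.fz_mul S hz0 hK (wz_sq S hz0 hK)
  rw [← hf, Complex.mul_conj] at h1
  have h2 : Complex.normSq (S.fz z) = 1 := by exact_mod_cast h1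
  rw [Complex.normSq_eq_norm_sq] at h2
  have h3 := norm_nonneg (S.fz z)
  nlinarith

theorem aeval_ne_zero {z : ℂ} (hz : z ≠ 0) (hz1 : z ≠ 1) (hz2 : z ≠ -1)
    (hK : aeval (S.xz z) S.K ≠ 0) : aeval (S.xz z) P ≠ 0 := by
  intro h0
  have h1 := wz_sq S hz hK
  rw [h0, zero_mul] at h1
  have h2 : S.wz z = 0 := pow_eq_zero_iff (two_ne_zero) |>.mp h1
  unfold Seg.wz at h2
  rcases mul_eq_zero.mp h2 with h3 | h3
  · unfold dk at h3
    have hpq := S.hpq
    have hc : (((S.q - S.p) / 4 : ℝ) : ℂ) ≠ 0 := by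
      have : (S.q - S.p) / 4 ≠ 0 := by
        have : 0 < (S.q - S.p) / 4 := by linarith
        exact this.ne'
      exact_mod_cast this
    have h4 := (mul_eq_zero.mp h3).resolve_left hc
    have h5 : (z - 1) * (z + 1) = 0 := by
      have h6 : z * (z - z⁻¹) = 0 := by rw [h4, mul_zero]
      rw [mul_sub, mul_inv_cancel₀ hz] at h6
      linear_combination h6
    rcases mul_eq_zero.mp h5 with h7 | h7
    · exact hz1 (sub_eq_zero.mp h7)
    · exact hz2 (eq_neg_of_add_eq_zero_left h7)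
  · exact CurveDAux.sz_ne S z h3

theorem tz_spec {z : ℂ} (hz : z ≠ 0) (hK : aeval (S.xz z) S.K ≠ 0) (hP : aeval (S.xz z) P ≠ 0) :
    S.tz z * (S.tz z - 1) * aeval (S.xz z) P = 1 ∧ S.tz z ≠ 0 ∧ (S.tz z - 1) / S.tz z = S.fz z := by
  have hw := wz_sq S hz hK
  have h1 : S.tz z * (S.tz z - 1) * aeval (S.xz z) P = 1 := by
    unfold Seg.tz
    field_simp
    linear_combination hw
  have h2 : S.tz z ≠ 0 := by
    intro h
    rw [h, zero_mul, zero_mul] at h1
    exact zero_ne_one h1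
  refine ⟨h1, h2, ?_⟩
  rw [div_eq_iff h2]
  unfold Seg.tz Seg.fz
  field_simp
  linear_combination hw

end P4a177d
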