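import Pool.Agent.Lib.P4a177h.Main
import Pool.Agent.Lib.P4a177s.Terms
import Pool.Agent.Lib.P4a177s.Adm

/-!
# The curves `N t (t - 1) ∏ (x - b_i) = 1`: definitions
-/

set_option autoImplicit false

namespace P4a177d

open P4a177h MvPolynomial
open scoped Real

noncomputable section

variable {g : ℕ} (b : Fin (g + 1) → ℤ) (N : ℤ)

/-- The equation `N t (t - 1) ∏_i (x - b_i) - 1` in the variables `x = X 0`, `t = X 1`. -/
def eqn : MvPolynomial (Fin 2) ℚ :=
  C (N : ℚ) * (X 1 * (X 1 - 1)) * ∏ i, (X 0 - C (b i : ℚ)) - 1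

/-- The coordinate ring of the affine curve `N t (t - 1) ∏_i (x - b_i) = 1` over `ℚ`. -/
abbrev CoordRing : Type := MvPolynomial (Fin 2) ℚ ⧸ Ideal.span {eqn b N}

/-- The curve is irreducible over the complex numbers. -/
def GeomIrreducible : Prop := Irreducible (MvPolynomial.map (algebraMap ℚ ℂ) (eqn b N))

/-- The affine curve is smooth: at none of its complex points both the partial derivatives of the
equation vanish. -/
def Smooth : Prop :=
  ∀ x : Fin 2 → ℂ, aeval x (eqn b N) = 0 → ∃ s, aeval x (pderiv s (eqn b N)) ≠ 0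

/-- The equation of the closure of the curve in the product of two projective lines with the
homogeneous coordinates `X (s, 0)`, `X (s, 1)`. -/
def homEqn : MvPolynomial (Fin 2 × Fin 2) ℚ :=
  C (N : ℚ) * (X (1, 0) * (X (1, 0) - X (1, 1))) * ∏ i, (X (0, 0) - C (b i : ℚ) * X (0, 1)) -
    X (0, 1) ^ (g + 1) * X (1, 1) ^ 2

/-- The closure of the curve in the product of two projective lines is smooth. -/
def SmoothClosure : Prop :=
  ∀ y : Fin 2 × Fin 2 → ℂ, (∀ s, y (s, 0) ≠ 0 ∨ y (s, 1) ≠ 0) →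
    aeval y (homEqn b N) = 0 → ∃ p, aeval y (pderiv p (homEqn b N)) ≠ 0

/-- The function `x` on the curve. -/
def cX : CoordRing b N := Ideal.Quotient.mk _ (X 0)

/-- The function `t` on the curve. -/
def cT : CoordRing b N := Ideal.Quotient.mk _ (X 1)

theorem eqn_cX : (N : CoordRing b N) * (cT b N * (cT b N - 1)) * ∏ i, (cX b N - (b i : CoordRing b N)) =
    1 := by
  have h : (Ideal.Quotient.mk (Ideal.span {eqn b N}) (eqn b N)) = 0 :=
    Ideal.Quotient.eq_zero_iff_mem.2 (Ideal.subset_span (Set.mem_singleton _))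
  unfold eqn at h
  rw [map_sub, map_one, map_mul, map_mul, map_mul, map_prod, sub_eq_zero] at h
  have hC : ∀ n : ℤ, Ideal.Quotient.mk (Ideal.span {eqn b N}) (C (n : ℚ)) = (n : CoordRing b N) := by
    intro n
    have : (C (n : ℚ) : MvPolynomial (Fin 2) ℚ) = (n : MvPolynomial (Fin 2) ℚ) := by
      rw [map_intCast]
    rw [this, map_intCast]
  simp only [map_sub, map_one] at h
  unfold eqn at hC
  simp only [hC] at h
  exact h

theorem isUnit_cT : IsUnit (cT b N) := by
  have h : cT b N * ((N : CoordRing b N) * (cT b N - 1) *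
      ∏ i, (cX b N - (b i : CoordRing b N))) = 1 := by
    linear_combination eqn_cX b N
  exact (Units.mkOfMulEqOne _ _ h).isUnit

theorem isUnit_cT1 : IsUnit (cT b N - 1) := by
  have h : (cT b N - 1) * ((N : CoordRing b N) * cT b N *
      ∏ i, (cX b N - (b i : CoordRing b N))) = 1 := by
    linear_combination eqn_cX b N
  exact (Units.mkOfMulEqOne _ _ h).isUnit

theorem isUnit_cX (i : Fin (g + 1)) : IsUnit (cX b N - (b i : CoordRing b N)) := by
  refine isUnit_of_dvd_one ?_
  rw [← eqn_cX b N]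
  exact Dvd.dvd.mul_left (Finset.dvd_prod_of_mem _ (Finset.mem_univ i)) _

/-- The unit `t`. -/
def uT : (CoordRing b N)ˣ := (isUnit_cT b N).unit

/-- The unit `t - 1`. -/
def uT1 : (CoordRing b N)ˣ := (isUnit_cT1 b N).unit

/-- The unit `x - b_i`. -/
def uL (i : Fin (g + 1)) : (CoordRing b N)ˣ := (isUnit_cX b N i).unit

theorem uT_val : (uT b N : CoordRing b N) = cT b N := rfl
theorem uT1_val : (uT1 b N : CoordRing b N) = cT b N - 1 := rfl
theorem uL_val (i : Fin (g + 1)) : (uL b N i : CoordRing b N) = cX b N - (b i : CoordRing b N) := rfl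

/-- The unit `f = (t - 1) / t`. -/
def uF : (CoordRing b N)ˣ := uT1 b N / uT b N

/-- The symbols `{-(t - 1) / t, -(x - b_p) / (x - b_0)}`, `p = 1, …, g`. -/
def xi (p : Fin g) : MilnorK 2 (CoordRing b N) :=
  symb ![-(uT1 b N / uT b N), -(uL b N p.succ / uL b N 0)]

/-- The polynomial `P = N ∏_i (X - b_i)` with real coefficients. -/
def PR : Polynomial ℝ := Polynomial.C (N : ℝ) * ∏ i, (Polynomial.X - Polynomial.C (b i : ℝ))

/-- A segment `[p, q]` such that `P (P + 4) = (X - p) (X - q) K` with `K > 0` on `[p, q]`. -/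
structure Seg (P : Polynomial ℝ) where
  /-- the left end -/
  p : ℝ
  /-- the right end -/
  q : ℝ
  hpq : p < q
  /-- the cofactor -/
  K : Polynomial ℝ
  hK : P * (P + 4) = (Polynomial.X - Polynomial.C p) * (Polynomial.X - Polynomial.C q) * K
  Kpos : ∀ x ∈ Set.Icc p q, 0 < K.eval x

variable {P : Polynomial ℝ}

/-- The point `x(θ) = (p + q) / 2 + (q - p) / 2 cos θ` of the segment. -/
def Seg.xr (S : Seg P) (θ : ℝ) : ℝ := (S.p + S.q) / 2 + (S.q - S.p) / 2 * Real.cos θ

/-- The density `P'(x(θ)) / √K(x(θ))`. -/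
def Seg.dn (S : Seg P) (θ : ℝ) : ℝ :=
  (Polynomial.derivative P).eval (S.xr θ) / Real.sqrt (S.K.eval (S.xr θ))

/-- The limit `2 ∫_0^π log |x(θ) - c| P'(x(θ)) / √K(x(θ)) dθ` of the regulators. -/
def Seg.RR (S : Seg P) (c : ℝ) : ℝ :=
  2 * ∫ θ in (0 : ℝ)..π, Real.log |S.xr θ - c| * S.dn θ

/-- The integral `2 ∫_0^π P'(x(θ)) / √K(x(θ)) dθ`. -/
def Seg.TT (S : Seg P) : ℝ := 2 * ∫ θ in (0 : ℝ)..π, S.dn θ

end

end P4a177d
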