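import Mathlib

/-!
# MODULE P4a177d.ElimD: elimination (est. 0.8 h; only Mathlib; finite sums)

`L = log |N| ≥ 0`. PROOF. In both lemmas `0 ≤ n j`, as `n j` is the maximum and `∑ n = 0`. Put `e k = n j - n k ≥ 0`, `e j = 0`.
`unpaired`: `∑_k e k * A k = - n j L ≤ 0`; all terms are `≥ 0` (`e j = 0`), so all are zero, `e k = 0` for `k ≠ j`: all `n k = n j`, and
`∑ n = 0` gives `n = 0`.
`paired`: two rows: with `T = ` the sum over `k ≠ j, j'`: (1) `T A + A j' e j' + n j L = 0`, (2) `T A' + A' j' e j' + n j L = 0`.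
If `A j' ≥ 0`: all the terms of (1) are `≥ 0`, so `e k = 0` for `k ≠ j, j'`, `A j' e j' = 0`, `n j L = 0`. If `A j' > 0` then `e j' = 0`; if `A j' = 0` then `A' j' < 0` (`hβ`)
and (2) gives `A' j' e j' = 0`. If `A j' < 0`: `B = - A' j' > - A j' > 0`; `B * (1) + A j' * (2)`:
`∑ (A k B + A j' A' k) e k + (B + A j') n j L = 0` [the `e j'` terms cancel: `B A j' + A j' A' j' = 0`]; all the coefficients are `> 0` (`hfar`), so `e k = 0` for `k ≠ j, j'`, `n j L = 0`,
and (1) gives `A j' e j' = 0`, `e j' = 0`.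
-/

set_option autoImplicit false

namespace P4a177d

namespace ElimDAux

open Finset

theorem nonneg_max {m : ℕ} (n : Fin m → ℝ) (j : Fin m) (hn : ∑ k, n k = 0)
    (hmax : ∀ k, n k ≤ n j) : 0 ≤ n j := by
  have h1 : ∑ k, n k ≤ ∑ _k : Fin m, n j := Finset.sum_le_sum fun k _ => hmax k
  rw [hn, Finset.sum_const, Finset.card_univ, Fintype.card_fin, nsmul_eq_mul] at h1
  have h2 : (0 : ℝ) < m := by
    exact_mod_cast lt_of_le_of_lt (Nat.zero_le _) j.2
  by_contra h3
  push Not at h3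
  have h4 : (m : ℝ) * n j < 0 := mul_neg_of_pos_of_neg h2 h3
  linarith

theorem all_zero {m : ℕ} (n : Fin m → ℝ) (j : Fin m) (hn : ∑ k, n k = 0)
    (h : ∀ k, k ≠ j → n j - n k = 0) : n = 0 := by
  have h1 : ∀ k, n k = n j := by
    intro k
    by_cases hk : k = j
    · rw [hk]
    · have := h k hk
      linarith
  have h2 : (m : ℝ) * n j = 0 := by
    rw [← hn, Finset.sum_congr rfl fun k _ => h1 k, Finset.sum_const, Finset.card_univ,
      Fintype.card_fin, nsmul_eq_mul]
  have h3 : (m : ℝ) ≠ 0 := by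
    have : 0 < m := lt_of_le_of_lt (Nat.zero_le _) j.2
    exact_mod_cast this.ne'
  funext k
  rw [h1 k]
  exact (mul_eq_zero.1 h2).resolve_left h3

theorem sum_e {m : ℕ} (A n : Fin m → ℝ) (L : ℝ) (j : Fin m)
    (hrow : ∑ k, (n j - n k) * A k = -(n j * L)) : ∑ k, A k * (n j - n k) = -(n j * L) := by
  rw [← hrow]
  exact Finset.sum_congr rfl fun k _ => mul_comm _ _

theorem split_e {m : ℕ} (A n : Fin m → ℝ) (L : ℝ) (j j' : Fin m) (hjj : j ≠ j')
    (hrow : ∑ k, (n j - n k) * A k = -(n j * L)) :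
    ∑ k ∈ (univ.erase j).erase j', A k * (n j - n k) + A j' * (n j - n j') + n j * L = 0 := by
  have h1 := sum_e A n L j hrow
  have h2 : j' ∈ univ.erase j := Finset.mem_erase.2 ⟨hjj.symm, Finset.mem_univ _⟩
  rw [← Finset.sum_erase_add _ _ (Finset.mem_univ j), ← Finset.sum_erase_add _ _ h2, sub_self,
    mul_zero, add_zero] at h1
  linarith

end ElimDAux

open ElimDAux Finset in
theorem unpaired {m : ℕ} (A n : Fin m → ℝ) (L : ℝ) (hL : 0 ≤ L) (j : Fin m)
    (hA : ∀ k, k ≠ j → 0 < A k) (hn : ∑ k, n k = 0)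
    (hmax : ∀ k, n k ≤ n j) (hrow : ∑ k, (n j - n k) * A k = -(n j * L)) : n = 0 := by
  have h0 := nonneg_max n j hn hmax
  have hterm : ∀ k ∈ univ, 0 ≤ A k * (n j - n k) := by
    intro k _
    by_cases hk : k = j
    · rw [hk, sub_self, mul_zero]
    · exact mul_nonneg (hA k hk).le (sub_nonneg.2 (hmax k))
  have h1 := sum_e A n L j hrow
  have h2 : 0 ≤ n j * L := mul_nonneg h0 hL
  have h3 := Finset.sum_nonneg hterm
  have h4 : ∑ k, A k * (n j - n k) = 0 := by linarith
  rw [Finset.sum_eq_zero_iff_of_nonneg hterm] at h4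
  refine all_zero n j hn fun k hk => ?_
  exact (mul_eq_zero.1 (h4 k (Finset.mem_univ k))).resolve_left (hA k hk).ne'

open ElimDAux Finset in
theorem paired {m : ℕ} (A A' n : Fin m → ℝ) (L : ℝ) (hL : 0 ≤ L) (j j' : Fin m) (hjj : j ≠ j')
    (hA : ∀ k, k ≠ j → k ≠ j' → 0 < A k) (hβ : A' j' < A j')
    (hfar : A j' < 0 → ∀ k, k ≠ j → k ≠ j' → 0 < A k * (-A' j') + A j' * A' k)
    (hn : ∑ k, n k = 0) (hmax : ∀ k, n k ≤ n j)
    (hrow : ∑ k, (n j - n k) * A k = -(n j * L))
    (hrow' : ∑ k, (n j - n k) * A' k = -(n j * L)) : n = 0 := by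
  have h0 := nonneg_max n j hn hmax
  have hnL : 0 ≤ n j * L := mul_nonneg h0 hL
  have he : ∀ k, 0 ≤ n j - n k := fun k => sub_nonneg.2 (hmax k)
  have e1 := split_e A n L j j' hjj hrow
  have e2 := split_e A' n L j j' hjj hrow'
  set S := (univ.erase j).erase j' with hS
  have hmem : ∀ k ∈ S, k ≠ j ∧ k ≠ j' := by
    intro k hk
    rw [hS, Finset.mem_erase, Finset.mem_erase] at hk
    exact ⟨hk.2.1, hk.1⟩
  have hmem' : ∀ k, k ≠ j → k ≠ j' → k ∈ S := by
    intro k h1 h2
    rw [hS, Finset.mem_erase, Finset.mem_erase]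
    exact ⟨h2, h1, Finset.mem_univ _⟩
  have key : (∀ k ∈ S, n j - n k = 0) ∧ n j - n j' = 0 := by
    rcases le_or_gt 0 (A j') with hj | hj
    · have hterm : ∀ k ∈ S, 0 ≤ A k * (n j - n k) := fun k hk =>
        mul_nonneg (hA k (hmem k hk).1 (hmem k hk).2).le (he k)
      have h1 := Finset.sum_nonneg hterm
      have h2 : 0 ≤ A j' * (n j - n j') := mul_nonneg hj (he j')
      have h3 : ∑ k ∈ S, A k * (n j - n k) = 0 := by linarith
      have h4 : A j' * (n j - n j') = 0 := by linarith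
      have h5 : n j * L = 0 := by linarith
      rw [Finset.sum_eq_zero_iff_of_nonneg hterm] at h3
      have h6 : ∀ k ∈ S, n j - n k = 0 := fun k hk =>
        (mul_eq_zero.1 (h3 k hk)).resolve_left (hA k (hmem k hk).1 (hmem k hk).2).ne'
      refine ⟨h6, ?_⟩
      rcases hj.lt_or_eq with h7 | h7
      · exact (mul_eq_zero.1 h4).resolve_left h7.ne'
      · have h8 : ∑ k ∈ S, A' k * (n j - n k) = 0 :=
          Finset.sum_eq_zero fun k hk => by rw [h6 k hk, mul_zero]
        rw [h8, h5, zero_add, add_zero] at e2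
        have h9 : A' j' < 0 := by linarith
        exact (mul_eq_zero.1 e2).resolve_left h9.ne
    · have hterm : ∀ k ∈ S, 0 ≤ (A k * (-A' j') + A j' * A' k) * (n j - n k) := fun k hk =>
        mul_nonneg (hfar hj k (hmem k hk).1 (hmem k hk).2).le (he k)
      have h1 := Finset.sum_nonneg hterm
      have hB : 0 < -A' j' + A j' := by linarith
      have h2 : 0 ≤ (-A' j' + A j') * (n j * L) := mul_nonneg hB.le hnL
      have h3 : ∑ k ∈ S, (A k * (-A' j') + A j' * A' k) * (n j - n k)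
          = (-A' j') * ∑ k ∈ S, A k * (n j - n k) + A j' * ∑ k ∈ S, A' k * (n j - n k) := by
        rw [Finset.mul_sum, Finset.mul_sum, ← Finset.sum_add_distrib]
        exact Finset.sum_congr rfl fun k _ => by ring
      have h4 : ∑ k ∈ S, (A k * (-A' j') + A j' * A' k) * (n j - n k)
          + (-A' j' + A j') * (n j * L) = 0 := by
        rw [h3]
        linear_combination (-A' j') * e1 + A j' * e2
      have h5 : ∑ k ∈ S, (A k * (-A' j') + A j' * A' k) * (n j - n k) = 0 := by linarith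
      have h6 : (-A' j' + A j') * (n j * L) = 0 := by linarith
      have h7 : n j * L = 0 := (mul_eq_zero.1 h6).resolve_left hB.ne'
      rw [Finset.sum_eq_zero_iff_of_nonneg hterm] at h5
      have h8 : ∀ k ∈ S, n j - n k = 0 := fun k hk =>
        (mul_eq_zero.1 (h5 k hk)).resolve_left (hfar hj k (hmem k hk).1 (hmem k hk).2).ne'
      refine ⟨h8, ?_⟩
      have h9 : ∑ k ∈ S, A k * (n j - n k) = 0 :=
        Finset.sum_eq_zero fun k hk => by rw [h8 k hk, mul_zero]
      rw [h9, h7, zero_add, add_zero] at e1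
      exact (mul_eq_zero.1 e1).resolve_left hj.ne
  refine all_zero n j hn fun k hk => ?_
  by_cases hk' : k = j'
  · rw [hk']
    exact key.2
  · exact key.1 k (hmem' k hk hk')

end P4a177d
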