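import Pool.Agent.Lib.P4a177d.Defs

/-!
# Signs and derivative of `P = N ∏ (X - b_i)`

PROOF. `eval_PR`: unfold. `ne_zero`: `P(x) = 0` only at the `b_i`. `deriv_root`: `P'(b_j) = N ∏_{k ≠ j} (b_j - b_k) ≠ 0`
(`Polynomial.derivative_prod`, or `Polynomial.eval_derivative..`, or `HasDerivAt.finset_prod`).
`log_deriv`: for `x` not a root, `P'(x) = P(x) ∑ 1/(x - b_i)`.
`GeomAAux.sum_anti`: between two consecutive roots the function `x ↦ ∑ 1/(x - b_i)` is strictly decreasing: every term is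
(`1/(y - b) < 1/(x - b)` for `x < y` on the same side of `b`).
`gap_sign`: on a gap `Ioo (b i.castSucc) (b i.succ)`, `P` has no zero, so it has constant sign (IVT; `Set.Ioo` is preconnected).
`root_cases`: if `P'(b_j) < 0`, then `P < 0` somewhere to the right of `b_j` near `b_j`, so on the whole gap right of `b_j`, or, for `j = last`, on
`(b_j, ∞)`. If `P'(b_j) > 0`, the same on the left.
`gap_unimodal`: on a negative gap there is `c` with `P'(x) < 0` for `b_i ≤ x < c` and `P'(x) > 0` for `c < x ≤ b_{i+1}`: Rolle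
gives `c` in the open gap with `P'(c) = 0`, so `∑ 1/(c - b_i) = 0`; by `GeomAAux.sum_anti` the sum is `> 0` left of `c` and `< 0` right of `c`; multiply with
`P(x) < 0`. At the ends: `P'(b_i) ≠ 0` and `P'(b_i) ≤ 0` (as `P < 0 = P(b_i)` on the right), similarly at `b_{i+1}`.
`outer_deriv_right`: for `x > b_g`: all `x - b_i > 0`, so `∑ 1/(x - b_i) > 0`, `P'(x) < 0` as `P(x) < 0`. At `x = b_g`: as before.
-/

set_option autoImplicit false

namespace P4a177d

open Polynomial Filter Topology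

variable {g : ℕ} {b : Fin (g + 1) → ℤ} {N : ℤ}

theorem eval_PR (x : ℝ) : (PR b N).eval x = N * ∏ i, (x - b i) := by
  unfold PR
  simp [Polynomial.eval_prod]

theorem GeomAAux.eval_dPR (x : ℝ) : (derivative (PR b N)).eval x =
    N * ∑ i, ∏ k ∈ Finset.univ.erase i, (x - b k) := by
  unfold PR
  rw [derivative_mul, derivative_C, zero_mul, zero_add, derivative_prod_finset, eval_mul, eval_C,
    eval_finsetSum]
  congr 1
  refine Finset.sum_congr rfl fun i _ => ?_
  rw [eval_mul, eval_prod, derivative_sub, derivative_X, derivative_C, sub_zero, eval_one, mul_one]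
  simp

theorem PR_ne_zero (hN : N ≠ 0) {x : ℝ} (hx : ∀ i, x ≠ b i) : (PR b N).eval x ≠ 0 := by
  rw [eval_PR]
  exact mul_ne_zero (Int.cast_ne_zero.2 hN)
    (Finset.prod_ne_zero_iff.2 fun i _ => sub_ne_zero.2 (hx i))

theorem GeomAAux.eval_root (j : Fin (g + 1)) : (PR b N).eval (b j : ℝ) = 0 := by
  rw [eval_PR, Finset.prod_eq_zero (Finset.mem_univ j) (sub_self _), mul_zero]

theorem deriv_root (hb : StrictMono b) (hN : N ≠ 0) (j : Fin (g + 1)) :
    (derivative (PR b N)).eval (b j : ℝ) ≠ 0 := by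
  rw [GeomAAux.eval_dPR, Finset.sum_eq_single_of_mem j (Finset.mem_univ j)]
  · refine mul_ne_zero (Int.cast_ne_zero.2 hN) (Finset.prod_ne_zero_iff.2 fun i hi => ?_)
    rw [sub_ne_zero]
    intro h
    exact (Finset.ne_of_mem_erase hi) (hb.injective (by exact_mod_cast h.symm))
  · intro i _ hi
    exact Finset.prod_eq_zero (Finset.mem_erase.2 ⟨Ne.symm hi, Finset.mem_univ j⟩) (sub_self _)

theorem log_deriv {x : ℝ} (hx : ∀ i, x ≠ b i) :
    (derivative (PR b N)).eval x = (PR b N).eval x * ∑ i, 1 / (x - b i) := by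
  rw [GeomAAux.eval_dPR, eval_PR, mul_assoc]
  have key : ∑ i, ∏ k ∈ Finset.univ.erase i, (x - (b k : ℝ)) =
      (∏ i, (x - (b i : ℝ))) * ∑ i, 1 / (x - (b i : ℝ)) := by
    rw [Finset.mul_sum]
    refine Finset.sum_congr rfl fun i _ => ?_
    have h := sub_ne_zero.2 (hx i)
    have h2 := Finset.mul_prod_erase Finset.univ (fun k => x - (b k : ℝ)) (Finset.mem_univ i)
    rw [← h2]
    field_simp
  rw [key]

/-- No root lies in a gap. -/
theorem GeomAAux.gap_ne (hb : StrictMono b) (i : Fin g) {x : ℝ}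
    (hx : x ∈ Set.Ioo (b i.castSucc : ℝ) (b i.succ)) (k : Fin (g + 1)) : x ≠ b k := by
  rintro rfl
  have h1 : b i.castSucc < b k := by exact_mod_cast hx.1
  have h2 : b k < b i.succ := by exact_mod_cast hx.2
  have h3 := hb.lt_iff_lt.1 h1
  have h4 := hb.lt_iff_lt.1 h2
  rw [Fin.lt_def] at h3 h4
  simp at h3 h4
  omega

/-- Constant sign. -/
theorem GeomAAux.sign_const {s : Set ℝ} (hs : IsPreconnected s) (hne : ∀ x ∈ s, (PR b N).eval x ≠ 0)
    {y : ℝ} (hy : y ∈ s) (h : (PR b N).eval y < 0) : ∀ x ∈ s, (PR b N).eval x < 0 := by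
  intro x hx
  by_contra hc
  push Not at hc
  obtain ⟨z, hz, hz0⟩ := hs.intermediate_value hy hx ((PR b N).continuous.continuousOn)
    (show (0 : ℝ) ∈ Set.Icc _ _ from ⟨h.le, hc⟩)
  exact hne z hz hz0

theorem GeomAAux.deriv_eq (x : ℝ) : deriv (fun x => (PR b N).eval x) x = (derivative (PR b N)).eval x :=
  Polynomial.deriv _

theorem GeomAAux.exists_right_neg {j : Fin (g + 1)} (h : (derivative (PR b N)).eval (b j : ℝ) < 0) {e : ℝ}
    (he : (b j : ℝ) < e) : ∃ x ∈ Set.Ioo (b j : ℝ) e, (PR b N).eval x < 0 := by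
  have h1 := eventually_nhdsWithin_sign_eq_of_deriv_neg (f := fun x => (PR b N).eval x)
    (x₀ := (b j : ℝ)) (by rw [GeomAAux.deriv_eq]; exact h) (GeomAAux.eval_root j)
  have h2 : ∀ᶠ x in 𝓝[>] (b j : ℝ), SignType.sign ((PR b N).eval x) = SignType.sign ((b j : ℝ) - x) :=
    h1.filter_mono nhdsWithin_le_nhds
  have h3 : ∀ᶠ x in 𝓝[>] (b j : ℝ), x ∈ Set.Ioo (b j : ℝ) e := Ioo_mem_nhdsGT he
  obtain ⟨x, hx1, hx2⟩ := (h2.and h3).exists
  refine ⟨x, hx2, ?_⟩
  rw [sign_neg (show (b j : ℝ) - x < 0 by linarith [hx2.1])] at hx1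
  exact sign_eq_neg_one_iff.1 hx1

theorem GeomAAux.exists_right_pos {j : Fin (g + 1)} (h : 0 < (derivative (PR b N)).eval (b j : ℝ)) {e : ℝ}
    (he : (b j : ℝ) < e) : ∃ x ∈ Set.Ioo (b j : ℝ) e, 0 < (PR b N).eval x := by
  have h1 := eventually_nhdsWithin_sign_eq_of_deriv_pos (f := fun x => (PR b N).eval x)
    (x₀ := (b j : ℝ)) (by rw [GeomAAux.deriv_eq]; exact h) (GeomAAux.eval_root j)
  have h2 : ∀ᶠ x in 𝓝[>] (b j : ℝ), SignType.sign ((PR b N).eval x) = SignType.sign (x - (b j : ℝ)) :=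
    h1.filter_mono nhdsWithin_le_nhds
  have h3 : ∀ᶠ x in 𝓝[>] (b j : ℝ), x ∈ Set.Ioo (b j : ℝ) e := Ioo_mem_nhdsGT he
  obtain ⟨x, hx1, hx2⟩ := (h2.and h3).exists
  refine ⟨x, hx2, ?_⟩
  rw [sign_pos (show 0 < x - (b j : ℝ) by linarith [hx2.1])] at hx1
  exact sign_eq_one_iff.1 hx1

theorem GeomAAux.exists_left_neg {j : Fin (g + 1)} (h : 0 < (derivative (PR b N)).eval (b j : ℝ)) {e : ℝ}
    (he : e < (b j : ℝ)) : ∃ x ∈ Set.Ioo e (b j : ℝ), (PR b N).eval x < 0 := by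
  have h1 := eventually_nhdsWithin_sign_eq_of_deriv_pos (f := fun x => (PR b N).eval x)
    (x₀ := (b j : ℝ)) (by rw [GeomAAux.deriv_eq]; exact h) (GeomAAux.eval_root j)
  have h2 : ∀ᶠ x in 𝓝[<] (b j : ℝ), SignType.sign ((PR b N).eval x) = SignType.sign (x - (b j : ℝ)) :=
    h1.filter_mono nhdsWithin_le_nhds
  have h3 : ∀ᶠ x in 𝓝[<] (b j : ℝ), x ∈ Set.Ioo e (b j : ℝ) := Ioo_mem_nhdsLT he
  obtain ⟨x, hx1, hx2⟩ := (h2.and h3).exists
  refine ⟨x, hx2, ?_⟩
  rw [sign_neg (show x - (b j : ℝ) < 0 by linarith [hx2.2])] at hx1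
  exact sign_eq_neg_one_iff.1 hx1

theorem GeomAAux.exists_left_pos {j : Fin (g + 1)} (h : (derivative (PR b N)).eval (b j : ℝ) < 0) {e : ℝ}
    (he : e < (b j : ℝ)) : ∃ x ∈ Set.Ioo e (b j : ℝ), 0 < (PR b N).eval x := by
  have h1 := eventually_nhdsWithin_sign_eq_of_deriv_neg (f := fun x => (PR b N).eval x)
    (x₀ := (b j : ℝ)) (by rw [GeomAAux.deriv_eq]; exact h) (GeomAAux.eval_root j)
  have h2 : ∀ᶠ x in 𝓝[<] (b j : ℝ), SignType.sign ((PR b N).eval x) = SignType.sign ((b j : ℝ) - x) :=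
    h1.filter_mono nhdsWithin_le_nhds
  have h3 : ∀ᶠ x in 𝓝[<] (b j : ℝ), x ∈ Set.Ioo e (b j : ℝ) := Ioo_mem_nhdsLT he
  obtain ⟨x, hx1, hx2⟩ := (h2.and h3).exists
  refine ⟨x, hx2, ?_⟩
  rw [sign_pos (show 0 < (b j : ℝ) - x by linarith [hx2.2])] at hx1
  exact sign_eq_one_iff.1 hx1

/-- If `P < 0` to the right of the root `b_j`, then `P'(b_j) < 0`. -/
theorem GeomAAux.deriv_neg_of_right (hb : StrictMono b) (hN : N ≠ 0) {j : Fin (g + 1)} {e : ℝ}
    (he : (b j : ℝ) < e) (h : ∀ x ∈ Set.Ioo (b j : ℝ) e, (PR b N).eval x < 0) :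
    (derivative (PR b N)).eval (b j : ℝ) < 0 := by
  by_contra hc
  push Not at hc
  have h1 := lt_of_le_of_ne hc (Ne.symm (deriv_root hb hN j))
  obtain ⟨x, hx, hx'⟩ := GeomAAux.exists_right_pos h1 he
  exact absurd (h x hx) hx'.le.not_gt

/-- If `P < 0` to the left of the root `b_j`, then `P'(b_j) > 0`. -/
theorem GeomAAux.deriv_pos_of_left (hb : StrictMono b) (hN : N ≠ 0) {j : Fin (g + 1)} {e : ℝ}
    (he : e < (b j : ℝ)) (h : ∀ x ∈ Set.Ioo e (b j : ℝ), (PR b N).eval x < 0) :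
    0 < (derivative (PR b N)).eval (b j : ℝ) := by
  by_contra hc
  push Not at hc
  have h1 := lt_of_le_of_ne hc (deriv_root hb hN j)
  obtain ⟨x, hx, hx'⟩ := GeomAAux.exists_left_pos h1 he
  exact absurd (h x hx) hx'.le.not_gt

theorem GeomAAux.gap_lt (hb : StrictMono b) (i : Fin g) : (b i.castSucc : ℝ) < b i.succ := by
  exact_mod_cast hb (Fin.castSucc_lt_succ)

/-- Every root is an end of a negative gap, or `P` is negative outside. -/
theorem root_cases (hb : StrictMono b) (hN : N ≠ 0) (j : Fin (g + 1)) :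
    (∃ i : Fin g, (j = i.castSucc ∨ j = i.succ) ∧
      ∀ x ∈ Set.Ioo (b i.castSucc : ℝ) (b i.succ), (PR b N).eval x < 0) ∨
    (j = Fin.last g ∧ ∀ x : ℝ, (b j : ℝ) < x → (PR b N).eval x < 0) ∨
    (j = 0 ∧ ∀ x : ℝ, x < (b j : ℝ) → (PR b N).eval x < 0) := by
  rcases lt_or_gt_of_ne (deriv_root hb hN j) with h | h
  · -- negative to the right
    by_cases hj : j = Fin.last g
    · refine Or.inr (Or.inl ⟨hj, ?_⟩)
      have hne : ∀ x ∈ Set.Ioi (b j : ℝ), (PR b N).eval x ≠ 0 := by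
        intro x hx
        refine PR_ne_zero hN fun k hk => ?_
        rw [hk, Set.mem_Ioi] at hx
        have h1 : b j < b k := by exact_mod_cast hx
        have h2 := hb.lt_iff_lt.1 h1
        rw [hj] at h2
        exact absurd h2 (Fin.le_last k).not_gt
      obtain ⟨y, hy, hy'⟩ := GeomAAux.exists_right_neg h (show (b j : ℝ) < b j + 1 by linarith)
      intro x hx
      exact GeomAAux.sign_const isPreconnected_Ioi hne hy.1 hy' x hx
    · left
      obtain ⟨i, rfl⟩ : ∃ i : Fin g, j = i.castSucc := by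
        refine ⟨j.castPred hj, (Fin.castSucc_castPred j hj).symm⟩
      refine ⟨i, Or.inl rfl, ?_⟩
      obtain ⟨y, hy, hy'⟩ := GeomAAux.exists_right_neg h (GeomAAux.gap_lt hb i)
      exact GeomAAux.sign_const isPreconnected_Ioo (fun x hx => PR_ne_zero hN (GeomAAux.gap_ne hb i hx)) hy hy'
  · by_cases hj : j = 0
    · refine Or.inr (Or.inr ⟨hj, ?_⟩)
      have hne : ∀ x ∈ Set.Iio (b j : ℝ), (PR b N).eval x ≠ 0 := by
        intro x hx
        refine PR_ne_zero hN fun k hk => ?_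
        rw [hk, Set.mem_Iio] at hx
        have h1 : b k < b j := by exact_mod_cast hx
        have h2 := hb.lt_iff_lt.1 h1
        rw [hj] at h2
        exact absurd h2 (Fin.zero_le k).not_gt
      obtain ⟨y, hy, hy'⟩ := GeomAAux.exists_left_neg h (show (b j : ℝ) - 1 < b j by linarith)
      intro x hx
      exact GeomAAux.sign_const isPreconnected_Iio hne hy.2 hy' x hx
    · left
      obtain ⟨i, rfl⟩ : ∃ i : Fin g, j = i.succ := ⟨j.pred hj, (Fin.succ_pred j hj).symm⟩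
      refine ⟨i, Or.inr rfl, ?_⟩
      obtain ⟨y, hy, hy'⟩ := GeomAAux.exists_left_neg h (GeomAAux.gap_lt hb i)
      exact GeomAAux.sign_const isPreconnected_Ioo (fun x hx => PR_ne_zero hN (GeomAAux.gap_ne hb i hx)) hy hy'

/-- Negative gaps are not adjacent. -/
theorem gap_not_adjacent (hb : StrictMono b) (hN : N ≠ 0) {i i' : Fin g}
    (h : ∀ x ∈ Set.Ioo (b i.castSucc : ℝ) (b i.succ), (PR b N).eval x < 0)
    (h' : ∀ x ∈ Set.Ioo (b i'.castSucc : ℝ) (b i'.succ), (PR b N).eval x < 0) :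
    (i' : ℕ) ≠ i + 1 := by
  intro hi
  have e : i'.castSucc = i.succ := by
    ext
    simp [hi]
  have h1 := GeomAAux.deriv_pos_of_left hb hN (GeomAAux.gap_lt hb i) h
  have h2 := GeomAAux.deriv_neg_of_right hb hN (GeomAAux.gap_lt hb i') h'
  rw [e] at h2
  linarith

/-- The sum `∑ 1 / (x - b_i)` is strictly decreasing on a gap. -/
theorem GeomAAux.sum_anti (hb : StrictMono b) (i : Fin g) {x y : ℝ}
    (hx : x ∈ Set.Ioo (b i.castSucc : ℝ) (b i.succ)) (hy : y ∈ Set.Ioo (b i.castSucc : ℝ) (b i.succ))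
    (hxy : x < y) : ∑ k, 1 / (y - b k) < ∑ k, 1 / (x - b k) := by
  refine Finset.sum_lt_sum_of_nonempty Finset.univ_nonempty fun k _ => ?_
  rcases le_or_gt k i.castSucc with hk | hk
  · have h1 : (b k : ℝ) ≤ b i.castSucc := by exact_mod_cast hb.monotone hk
    exact one_div_lt_one_div_of_lt (by linarith [hx.1]) (by linarith)
  · have h2 : i.succ ≤ k := Fin.castSucc_lt_iff_succ_le.1 hk
    have h1 : (b i.succ : ℝ) ≤ b k := by exact_mod_cast hb.monotone h2
    exact one_div_lt_one_div_of_neg_of_lt (by linarith [hy.2]) (by linarith)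

theorem gap_unimodal (hb : StrictMono b) (hN : N ≠ 0) (i : Fin g)
    (h : ∀ x ∈ Set.Ioo (b i.castSucc : ℝ) (b i.succ), (PR b N).eval x < 0) :
    ∃ c : ℝ, (b i.castSucc : ℝ) < c ∧ c < b i.succ ∧
      (∀ x : ℝ, (b i.castSucc : ℝ) ≤ x → x < c → (derivative (PR b N)).eval x < 0) ∧
      (∀ x : ℝ, c < x → x ≤ b i.succ → 0 < (derivative (PR b N)).eval x) ∧
      (derivative (PR b N)).eval c = 0 := by
  obtain ⟨c, hc, hc0⟩ := exists_deriv_eq_zero (f := fun x => (PR b N).eval x) (GeomAAux.gap_lt hb i)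
    (PR b N).continuous.continuousOn (by rw [GeomAAux.eval_root, GeomAAux.eval_root])
  rw [GeomAAux.deriv_eq] at hc0
  have hs : ∑ k, 1 / (c - (b k : ℝ)) = 0 := by
    have h1 := log_deriv (N := N) (GeomAAux.gap_ne hb i hc)
    rw [hc0] at h1
    rcases mul_eq_zero.1 h1.symm with h2 | h2
    · exact absurd h2 (PR_ne_zero hN (GeomAAux.gap_ne hb i hc))
    · exact h2
  refine ⟨c, hc.1, hc.2, ?_, ?_, hc0⟩
  · intro x hx hxc
    rcases eq_or_lt_of_le hx with h1 | h1
    · rw [← h1]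
      exact GeomAAux.deriv_neg_of_right hb hN (GeomAAux.gap_lt hb i) h
    · have hx' : x ∈ Set.Ioo (b i.castSucc : ℝ) (b i.succ) := ⟨h1, hxc.trans hc.2⟩
      rw [log_deriv (GeomAAux.gap_ne hb i hx')]
      have h2 := GeomAAux.sum_anti hb i hx' hc hxc
      rw [hs] at h2
      exact mul_neg_of_neg_of_pos (h x hx') h2
  · intro x hxc hx
    rcases eq_or_lt_of_le hx with h1 | h1
    · rw [h1]
      exact GeomAAux.deriv_pos_of_left hb hN (GeomAAux.gap_lt hb i) h
    · have hx' : x ∈ Set.Ioo (b i.castSucc : ℝ) (b i.succ) := ⟨hc.1.trans hxc, h1⟩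
      rw [log_deriv (GeomAAux.gap_ne hb i hx')]
      have h2 := GeomAAux.sum_anti hb i hc hx' hxc
      rw [hs] at h2
      exact mul_pos_of_neg_of_neg (h x hx') h2

theorem outer_deriv_right (hb : StrictMono b) (hN : N ≠ 0)
    (h : ∀ x : ℝ, (b (Fin.last g) : ℝ) < x → (PR b N).eval x < 0) (x : ℝ)
    (hx : (b (Fin.last g) : ℝ) ≤ x) : (derivative (PR b N)).eval x < 0 := by
  rcases eq_or_lt_of_le hx with h1 | h1
  · rw [← h1]
    exact GeomAAux.deriv_neg_of_right hb hN (show (b (Fin.last g) : ℝ) < b (Fin.last g) + 1 by linarith)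
      fun y hy => h y hy.1
  · have h2 : ∀ k, (b k : ℝ) < x := fun k => by
      have : (b k : ℝ) ≤ b (Fin.last g) := by exact_mod_cast hb.monotone (Fin.le_last k)
      linarith
    rw [log_deriv fun k => (h2 k).ne']
    refine mul_neg_of_neg_of_pos (h x h1) (Finset.sum_pos (fun k _ => ?_) Finset.univ_nonempty)
    exact one_div_pos.2 (sub_pos.2 (h2 k))

theorem outer_deriv_left (hb : StrictMono b) (hN : N ≠ 0)
    (h : ∀ x : ℝ, x < (b 0 : ℝ) → (PR b N).eval x < 0) (x : ℝ)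
    (hx : x ≤ (b 0 : ℝ)) : 0 < (derivative (PR b N)).eval x := by
  rcases eq_or_lt_of_le hx with h1 | h1
  · rw [h1]
    exact GeomAAux.deriv_pos_of_left hb hN (show (b 0 : ℝ) - 1 < b 0 by linarith) fun y hy => h y hy.2
  · have h2 : ∀ k, x < (b k : ℝ) := fun k => by
      have : (b 0 : ℝ) ≤ b k := by exact_mod_cast hb.monotone (Fin.zero_le k)
      linarith
    rw [log_deriv fun k => (h2 k).ne]
    refine mul_pos_of_neg_of_neg (h x h1) ?_
    have : 0 < ∑ k, -(1 / (x - (b k : ℝ))) :=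
      Finset.sum_pos (fun k _ => neg_pos.2 (one_div_neg.2 (sub_neg.2 (h2 k)))) Finset.univ_nonempty
    rw [Finset.sum_neg_distrib] at this
    linarith

end P4a177d
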