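import Pool.Agent.Lib.P4a177d.Defs

/-!
# MODULE P4a177d.SegD: existence of segments (est. 0.8 h; real polynomials)

PROOF. Let `Q = P * (P + 4)`. `Q.eval p = 0`, `Q.eval q = 0`, so `Q = (X - p) Q₁` (`Polynomial.dvd_iff_isRoot`), `Q₁.eval q = 0`
(as `q ≠ p`), `Q₁ = (X - q) K`. For `x` in `Ioo p q`: `Q(x) < 0` and `(x-p)(x-q) < 0`, so `K(x) > 0`. At `x = p`:
`Q'(p) = (2 P(p) + 4) P'(p) ≠ 0` and `Q'(p) = (p - q) K(p)`, so `K(p) ≠ 0`; `K` is continuous and `> 0` to the right of `p`,
so `K(p) ≥ 0` (`ge_of_tendsto`, or closure of `Ioo`). The same for `q`.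
-/

set_option autoImplicit false

namespace P4a177d

open Polynomial

namespace SegDAux

/-- A polynomial nonnegative on an open interval is nonnegative on the closed interval. -/
theorem nonneg_Icc {K : Polynomial ℝ} {p q : ℝ} (hpq : p < q)
    (h : ∀ x ∈ Set.Ioo p q, 0 < K.eval x) : ∀ x ∈ Set.Icc p q, 0 ≤ K.eval x := by
  intro x hx
  have hcl : Set.Icc p q = closure (Set.Ioo p q) := (closure_Ioo hpq.ne).symm
  rw [hcl] at hx
  have hsub : closure (Set.Ioo p q) ⊆ {y | 0 ≤ K.eval y} := by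
    apply closure_minimal
    · intro y hy
      exact (h y hy).le
    · exact isClosed_le continuous_const K.continuous
  exact hsub hx

end SegDAux

open SegDAux in
theorem seg_of {P : Polynomial ℝ} {p q : ℝ} (hpq : p < q)
    (hp : P.eval p = 0 ∨ P.eval p = -4) (hq : P.eval q = 0 ∨ P.eval q = -4)
    (hdp : (derivative P).eval p ≠ 0) (hdq : (derivative P).eval q ≠ 0)
    (h : ∀ x ∈ Set.Ioo p q, -4 < P.eval x ∧ P.eval x < 0) :
    ∃ S : Seg P, S.p = p ∧ S.q = q := by
  have ev4 : ∀ x : ℝ, (P * (P + 4)).eval x = P.eval x * (P.eval x + 4) := by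
    intro x
    rw [eval_mul, eval_add, show (4 : Polynomial ℝ) = C (4 : ℝ) from rfl, eval_C]
  have hQp : (P * (P + 4)).eval p = 0 := by
    rw [ev4]
    rcases hp with hp | hp <;> rw [hp] <;> norm_num
  have hQq : (P * (P + 4)).eval q = 0 := by
    rw [ev4]
    rcases hq with hq | hq <;> rw [hq] <;> norm_num
  obtain ⟨Q₁, hQ₁⟩ : (X - C p) ∣ P * (P + 4) := dvd_iff_isRoot.2 hQp
  have hq1 : Q₁.eval q = 0 := by
    have h1 := hQq
    rw [hQ₁, eval_mul, eval_sub, eval_X, eval_C] at h1
    rcases mul_eq_zero.1 h1 with h2 | h2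
    · exact absurd h2 (by linarith)
    · exact h2
  obtain ⟨K, hK⟩ : (X - C q) ∣ Q₁ := dvd_iff_isRoot.2 hq1
  have hfac : P * (P + 4) = (X - C p) * (X - C q) * K := by
    rw [hQ₁, hK, mul_assoc]
  have hev : ∀ x : ℝ, P.eval x * (P.eval x + 4) = (x - p) * (x - q) * K.eval x := by
    intro x
    rw [← ev4, hfac]
    simp only [eval_mul, eval_sub, eval_X, eval_C]
  have hIoo : ∀ x ∈ Set.Ioo p q, 0 < K.eval x := by
    intro x hx
    obtain ⟨h1, h2⟩ := h x hx
    have h3 := hev x
    have h4 : P.eval x * (P.eval x + 4) < 0 := mul_neg_of_neg_of_pos h2 (by linarith)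
    have h5 : (x - p) * (x - q) < 0 :=
      mul_neg_of_pos_of_neg (sub_pos.2 hx.1) (sub_neg.2 hx.2)
    rw [h3] at h4
    by_contra h6
    push Not at h6
    have := mul_nonneg_of_nonpos_of_nonpos h5.le h6
    linarith
  have hnn := nonneg_Icc hpq hIoo
  -- derivatives
  have hder : ∀ x : ℝ, (2 * P.eval x + 4) * (derivative P).eval x =
      ((x - q) + (x - p)) * K.eval x + (x - p) * (x - q) * (derivative K).eval x := by
    intro x
    have h1 : (derivative (P * (P + 4))).eval x =
        (derivative ((X - C p) * (X - C q) * K)).eval x := by rw [hfac]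
    rw [show (4 : Polynomial ℝ) = C (4 : ℝ) from rfl] at h1
    simp only [derivative_mul, derivative_add, derivative_C, derivative_sub, derivative_X,
      eval_add, eval_mul, eval_sub, eval_X, eval_C, eval_one, add_zero, sub_zero] at h1
    linarith
  have hKp : K.eval p ≠ 0 := by
    intro h0
    have h1 := hder p
    rw [h0] at h1
    have h2 : (2 * P.eval p + 4) * (derivative P).eval p = 0 := by
      rw [h1]; ring
    rcases mul_eq_zero.1 h2 with h3 | h3
    · rcases hp with hp | hp <;> rw [hp] at h3 <;> norm_num at h3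
    · exact hdp h3
  have hKq : K.eval q ≠ 0 := by
    intro h0
    have h1 := hder q
    rw [h0] at h1
    have h2 : (2 * P.eval q + 4) * (derivative P).eval q = 0 := by
      rw [h1]; ring
    rcases mul_eq_zero.1 h2 with h3 | h3
    · rcases hq with hq | hq <;> rw [hq] at h3 <;> norm_num at h3
    · exact hdq h3
  have hpos : ∀ x ∈ Set.Icc p q, 0 < K.eval x := by
    intro x hx
    rcases eq_or_lt_of_le hx.1 with h1 | h1
    · subst h1
      exact lt_of_le_of_ne (hnn _ hx) (Ne.symm hKp)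
    · rcases eq_or_lt_of_le hx.2 with h2 | h2
      · subst h2
        exact lt_of_le_of_ne (hnn _ hx) (Ne.symm hKq)
      · exact hIoo x ⟨h1, h2⟩
  exact ⟨{ p := p, q := q, hpq := hpq, K := K, hK := hfac, Kpos := hpos }, rfl, rfl⟩

end P4a177d
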