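import Pool.Agent.Lib.P4a177d.GeomA
import Pool.Agent.Lib.P4a177d.SegD

/-!
# MODULE P4a177d.GeomB: the segments of the curve (est. 1 h; real analysis)

PROOF. `gap_cases`: take `c` from `gap_unimodal`. `P` is strictly decreasing on `[b_i, c]` (`strictAntiOn_of_deriv_neg`),
strictly increasing on `[c, b_{i+1}]`, so `P(x) ≥ P(c)` on the gap. `P(c) ≠ -4` by `hs` (as `P'(c) = 0`). If `P(c) > -4`: the first case (a segment
by `seg_of`, `deriv_root`). If `P(c) < -4`: by the intermediate value theorem there are `e` in `(b_i, c)`, `e'` in `(c, b_{i+1})`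
with `P(e) = P(e') = -4`; by monotonicity `-4 < P < 0` on `(b_i, e)` and `(e', b_{i+1})`; `seg_of`.
`right_case`: `P` is strictly decreasing on `[b_g, ∞)` and tends to `-∞` (or: `P(x) ≤ ...`: for `x = b_g + 4`:
`|P(x)| = |N| ∏ (x - b_i) ≥ 4 * 1 ...`; `|P(b_g + 4)| ≥ 4` as all factors are `≥ 4`), so `e` exists with `b_g < e ≤ b_g + 4`. `left_case`: the same.
-/

set_option autoImplicit false

namespace P4a177d

open Polynomial

variable {g : ℕ} {b : Fin (g + 1) → ℤ} {N : ℤ}

namespace GeomBAux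

lemma eval_root (j : Fin (g + 1)) : (PR b N).eval (b j : ℝ) = 0 := by
  rw [eval_PR, Finset.prod_eq_zero (Finset.mem_univ j) (sub_self _), mul_zero]

lemma anti {P : Polynomial ℝ} {u v : ℝ}
    (h : ∀ x, u < x → x < v → (derivative P).eval x < 0) :
    StrictAntiOn (fun x => P.eval x) (Set.Icc u v) := by
  refine strictAntiOn_of_deriv_neg (convex_Icc u v) P.continuous.continuousOn ?_
  intro x hx
  rw [interior_Icc] at hx
  rw [Polynomial.deriv]
  exact h x hx.1 hx.2

lemma mono {P : Polynomial ℝ} {u v : ℝ}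
    (h : ∀ x, u < x → x < v → 0 < (derivative P).eval x) :
    StrictMonoOn (fun x => P.eval x) (Set.Icc u v) := by
  refine strictMonoOn_of_deriv_pos (convex_Icc u v) P.continuous.continuousOn ?_
  intro x hx
  rw [interior_Icc] at hx
  rw [Polynomial.deriv]
  exact h x hx.1 hx.2

lemma prod_ge_four {f : Fin (g + 1) → ℝ} (h : ∀ i, 4 ≤ f i) : 4 ≤ ∏ i, f i := by
  have h1 : ∏ _i : Fin (g + 1), (4 : ℝ) ≤ ∏ i, f i :=
    Finset.prod_le_prod (fun _ _ => by norm_num) fun i _ => h i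
  rw [Finset.prod_const, Finset.card_univ, Fintype.card_fin] at h1
  have h2 : (4 : ℝ) ≤ 4 ^ (g + 1) := by
    calc (4 : ℝ) = 4 ^ 1 := by norm_num
      _ ≤ 4 ^ (g + 1) := pow_le_pow_right₀ (by norm_num) (by omega)
  linarith

lemma abs_eval_ge (hN : N ≠ 0) {x : ℝ} (h : ∀ i, 4 ≤ |x - b i|) : 4 ≤ |(PR b N).eval x| := by
  rw [eval_PR, abs_mul, Finset.abs_prod]
  have h1 : (1 : ℝ) ≤ |(N : ℝ)| := by
    have := Int.one_le_abs hN
    exact_mod_cast this
  have h2 := prod_ge_four h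
  nlinarith

end GeomBAux

open GeomBAux

theorem gap_cases (hb : StrictMono b) (hN : N ≠ 0)
    (hs : ∀ x : ℝ, (PR b N).eval x = -4 → (derivative (PR b N)).eval x ≠ 0) (i : Fin g)
    (h : ∀ x ∈ Set.Ioo (b i.castSucc : ℝ) (b i.succ), (PR b N).eval x < 0) :
    ((∀ x ∈ Set.Ioo (b i.castSucc : ℝ) (b i.succ), -4 < (PR b N).eval x) ∧
      ∃ S : Seg (PR b N), S.p = b i.castSucc ∧ S.q = b i.succ) ∨
    (∃ (c : ℝ) (S S' : Seg (PR b N)), S.p = b i.castSucc ∧ S.q < c ∧ c < S'.p ∧
      S'.q = b i.succ ∧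
      (∀ x ∈ Set.Icc S.p S.q, (derivative (PR b N)).eval x ≠ 0) ∧
      (∀ x ∈ Set.Icc S'.p S'.q, (derivative (PR b N)).eval x ≠ 0)) := by
  obtain ⟨c, hc1, hc2, hneg, hpos, hc0⟩ := gap_unimodal hb hN i h
  have hA := anti (P := PR b N) (u := (b i.castSucc : ℝ)) (v := c) fun x h1 h2 => hneg x h1.le h2
  have hM := mono (P := PR b N) (u := c) (v := (b i.succ : ℝ)) fun x h1 h2 => hpos x h1 h2.le
  have hcu : c ∈ Set.Icc (b i.castSucc : ℝ) c := ⟨hc1.le, le_rfl⟩
  have hcv : c ∈ Set.Icc c (b i.succ : ℝ) := ⟨le_rfl, hc2.le⟩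
  have hmin : ∀ x ∈ Set.Ioo (b i.castSucc : ℝ) (b i.succ), (PR b N).eval c ≤ (PR b N).eval x := by
    intro x hx
    rcases le_total x c with h1 | h1
    · rcases eq_or_lt_of_le h1 with h2 | h2
      · rw [h2]
      · exact (hA ⟨hx.1.le, h1⟩ hcu h2).le
    · rcases eq_or_lt_of_le h1 with h2 | h2
      · rw [h2]
      · exact (hM hcv ⟨h1, hx.2.le⟩ h2).le
  rcases lt_trichotomy ((PR b N).eval c) (-4) with hlt | heq | hgt
  · right
    have e0 := eval_root (b := b) (N := N) i.castSucc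
    have e1 := eval_root (b := b) (N := N) i.succ
    obtain ⟨e, he, hev⟩ := intermediate_value_Icc' hc1.le (f := fun x => (PR b N).eval x)
      (PR b N).continuous.continuousOn (show (-4 : ℝ) ∈ Set.Icc ((PR b N).eval c)
        ((PR b N).eval (b i.castSucc : ℝ)) from ⟨hlt.le, by rw [e0]; norm_num⟩)
    obtain ⟨e', he', hev'⟩ := intermediate_value_Icc hc2.le (f := fun x => (PR b N).eval x)
      (PR b N).continuous.continuousOn (show (-4 : ℝ) ∈ Set.Icc ((PR b N).eval c)
        ((PR b N).eval (b i.succ : ℝ)) from ⟨hlt.le, by rw [e1]; norm_num⟩)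
    beta_reduce at hev hev'
    have k1 : (b i.castSucc : ℝ) < e := by
      rcases eq_or_lt_of_le he.1 with h2 | h2
      · rw [← h2, e0] at hev
        norm_num at hev
      · exact h2
    have k2 : e < c := by
      rcases eq_or_lt_of_le he.2 with h2 | h2
      · rw [h2] at hev
        linarith
      · exact h2
    have k3 : c < e' := by
      rcases eq_or_lt_of_le he'.1 with h2 | h2
      · rw [← h2] at hev'
        linarith
      · exact h2
    have k4 : e' < (b i.succ : ℝ) := by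
      rcases eq_or_lt_of_le he'.2 with h2 | h2
      · rw [h2, e1] at hev'
        norm_num at hev'
      · exact h2
    obtain ⟨S, hS1, hS2⟩ := seg_of (P := PR b N) k1 (Or.inl e0) (Or.inr hev)
      (deriv_root hb hN i.castSucc) (hs e hev) (fun x hx => by
        refine ⟨?_, h x ⟨hx.1, hx.2.trans (k2.trans hc2)⟩⟩
        rw [← hev]
        exact hA ⟨hx.1.le, (hx.2.trans k2).le⟩ ⟨k1.le, k2.le⟩ hx.2)
    obtain ⟨S', hS1', hS2'⟩ := seg_of (P := PR b N) k4 (Or.inr hev') (Or.inl e1)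
      (hs e' hev') (deriv_root hb hN i.succ) (fun x hx => by
        refine ⟨?_, h x ⟨(hc1.trans k3).trans hx.1, hx.2⟩⟩
        rw [← hev']
        exact hM ⟨k3.le, k4.le⟩ ⟨(k3.trans hx.1).le, hx.2.le⟩ hx.1)
    refine ⟨c, S, S', hS1, by rw [hS2]; exact k2, by rw [hS1']; exact k3, hS2', ?_, ?_⟩
    · intro x hx
      rw [hS1, hS2] at hx
      exact (hneg x hx.1 (lt_of_le_of_lt hx.2 k2)).ne
    · intro x hx
      rw [hS1', hS2'] at hx
      exact (hpos x (lt_of_lt_of_le k3 hx.1) hx.2).ne'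
  · exact absurd hc0 (hs c heq)
  · left
    have hall : ∀ x ∈ Set.Ioo (b i.castSucc : ℝ) (b i.succ), -4 < (PR b N).eval x :=
      fun x hx => lt_of_lt_of_le hgt (hmin x hx)
    refine ⟨hall, ?_⟩
    exact seg_of (P := PR b N) (hc1.trans hc2) (Or.inl (eval_root _)) (Or.inl (eval_root _))
      (deriv_root hb hN i.castSucc) (deriv_root hb hN i.succ) fun x hx => ⟨hall x hx, h x hx⟩

theorem right_case (hb : StrictMono b) (hN : N ≠ 0)
    (hs : ∀ x : ℝ, (PR b N).eval x = -4 → (derivative (PR b N)).eval x ≠ 0)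
    (h : ∀ x : ℝ, (b (Fin.last g) : ℝ) < x → (PR b N).eval x < 0) :
    ∃ S : Seg (PR b N), S.p = b (Fin.last g) ∧
      ∀ x ∈ Set.Icc S.p S.q, (derivative (PR b N)).eval x ≠ 0 := by
  set u : ℝ := (b (Fin.last g) : ℝ) with hu
  have e0 : (PR b N).eval u = 0 := eval_root (Fin.last g)
  have hA := anti (P := PR b N) (u := u) (v := u + 4) fun x h1 _ =>
    outer_deriv_right hb hN h x h1.le
  have hbig : (PR b N).eval (u + 4) ≤ -4 := by
    have h1 : 4 ≤ |(PR b N).eval (u + 4)| := by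
      refine abs_eval_ge hN fun i => ?_
      have h2 : (b i : ℝ) ≤ u := by
        rw [hu]
        exact_mod_cast hb.monotone (Fin.le_last i)
      rw [abs_of_nonneg (by linarith)]
      linarith
    have h3 := h (u + 4) (by linarith)
    rw [abs_of_neg h3] at h1
    linarith
  obtain ⟨e, he, hev⟩ := intermediate_value_Icc' (show u ≤ u + 4 by linarith)
    (f := fun x => (PR b N).eval x) (PR b N).continuous.continuousOn
    (show (-4 : ℝ) ∈ Set.Icc ((PR b N).eval (u + 4)) ((PR b N).eval u) from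
      ⟨hbig, by rw [e0]; norm_num⟩)
  beta_reduce at hev
  have k1 : u < e := by
    rcases eq_or_lt_of_le he.1 with h2 | h2
    · rw [← h2, e0] at hev
      norm_num at hev
    · exact h2
  obtain ⟨S, hS1, hS2⟩ := seg_of (P := PR b N) k1 (Or.inl e0) (Or.inr hev)
    (deriv_root hb hN (Fin.last g)) (hs e hev) (fun x hx => by
      refine ⟨?_, h x hx.1⟩
      rw [← hev]
      exact hA ⟨hx.1.le, (hx.2.le).trans he.2⟩ ⟨k1.le, he.2⟩ hx.2)
  refine ⟨S, hS1, fun x hx => ?_⟩
  rw [hS1] at hx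
  exact (outer_deriv_right hb hN h x hx.1).ne

theorem left_case (hb : StrictMono b) (hN : N ≠ 0)
    (hs : ∀ x : ℝ, (PR b N).eval x = -4 → (derivative (PR b N)).eval x ≠ 0)
    (h : ∀ x : ℝ, x < (b 0 : ℝ) → (PR b N).eval x < 0) :
    ∃ S : Seg (PR b N), S.q = b 0 ∧
      ∀ x ∈ Set.Icc S.p S.q, (derivative (PR b N)).eval x ≠ 0 := by
  set u : ℝ := (b 0 : ℝ) with hu
  have e0 : (PR b N).eval u = 0 := eval_root 0
  have hM := mono (P := PR b N) (u := u - 4) (v := u) fun x _ h2 =>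
    outer_deriv_left hb hN h x h2.le
  have hbig : (PR b N).eval (u - 4) ≤ -4 := by
    have h1 : 4 ≤ |(PR b N).eval (u - 4)| := by
      refine abs_eval_ge hN fun i => ?_
      have h2 : u ≤ (b i : ℝ) := by
        rw [hu]
        exact_mod_cast hb.monotone (Fin.zero_le i)
      rw [abs_of_nonpos (by linarith)]
      linarith
    have h3 := h (u - 4) (by linarith)
    rw [abs_of_neg h3] at h1
    linarith
  obtain ⟨e, he, hev⟩ := intermediate_value_Icc (show u - 4 ≤ u by linarith)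
    (f := fun x => (PR b N).eval x) (PR b N).continuous.continuousOn
    (show (-4 : ℝ) ∈ Set.Icc ((PR b N).eval (u - 4)) ((PR b N).eval u) from
      ⟨hbig, by rw [e0]; norm_num⟩)
  beta_reduce at hev
  have k1 : e < u := by
    rcases eq_or_lt_of_le he.2 with h2 | h2
    · rw [h2, e0] at hev
      norm_num at hev
    · exact h2
  obtain ⟨S, hS1, hS2⟩ := seg_of (P := PR b N) k1 (Or.inr hev) (Or.inl e0)
    (hs e hev) (deriv_root hb hN 0) (fun x hx => by
      refine ⟨?_, h x hx.2⟩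
      rw [← hev]
      exact hM ⟨he.1, k1.le⟩ ⟨he.1.trans hx.1.le, hx.2.le⟩ hx.1)
  refine ⟨S, hS2, fun x hx => ?_⟩
  rw [hS2] at hx
  exact (outer_deriv_left hb hN h x hx.2).ne'

end P4a177d
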