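import Pool.Agent.Lib.P4a177d.Defs

/-!
# Geometric irreducibility of the curves `N t (t - 1) ∏ (x - b_i) = 1`

A factor `G` of the equation is constant on the lines `t = 0`, `t = 1`, `x = b_0`, so that
`t (t - 1)` divides `G - g` for a constant `g`. As the degree of the equation in `t` is two, one of
the two factors of a factorization is constant.
-/

set_option autoImplicit false

namespace P4a177d

open P4a177h MvPolynomial

variable {g : ℕ} (b : Fin (g + 1) → ℤ) (N : ℤ)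

namespace IrrDAux

/-- The equation over the complex numbers. -/
noncomputable def eqnC : MvPolynomial (Fin 2) ℂ :=
  C (N : ℂ) * (X 1 * (X 1 - 1)) * ∏ i, (X 0 - C (b i : ℂ)) - 1

/-- The substitution `x_s ↦ c`. -/
noncomputable def rho (s : Fin 2) (c : ℂ) :
    MvPolynomial (Fin 2) ℂ →ₐ[ℂ] MvPolynomial (Fin 2) ℂ :=
  aeval (Function.update X s (C c))

theorem rho_X_self (s : Fin 2) (c : ℂ) : rho s c (X s) = C c := by
  simp [rho]

theorem rho_X_ne (s t : Fin 2) (h : t ≠ s) (c : ℂ) : rho s c (X t) = X t := by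
  simp [rho, Function.update_of_ne h]

theorem rho_C (s : Fin 2) (c r : ℂ) : rho s c (C r) = C r := by
  have := (rho s c).commutes r
  simpa using this

theorem dvd_sub_rho (s : Fin 2) (c : ℂ) (p : MvPolynomial (Fin 2) ℂ) :
    (X s - C c : MvPolynomial (Fin 2) ℂ) ∣ p - rho s c p := by
  let I : Ideal (MvPolynomial (Fin 2) ℂ) := Ideal.span {X s - C c}
  have hφ : (Ideal.Quotient.mkₐ ℂ I).comp (rho s c) = Ideal.Quotient.mkₐ ℂ I := by
    apply MvPolynomial.algHom_ext
    intro k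
    rw [AlgHom.comp_apply]
    by_cases hk : k = s
    · subst hk
      rw [rho_X_self, Ideal.Quotient.mkₐ_eq_mk, Ideal.Quotient.eq, Ideal.mem_span_singleton]
      exact ⟨-1, by ring⟩
    · rw [rho_X_ne s k hk]
  have h1 := DFunLike.congr_fun hφ p
  rw [AlgHom.comp_apply, Ideal.Quotient.mkₐ_eq_mk] at h1
  rw [← Ideal.mem_span_singleton, ← Ideal.Quotient.eq]
  exact h1.symm

theorem rho_t (c : ℂ) (hc : c = 0 ∨ c = 1) : rho 1 c (eqnC b N) = -1 := by
  have h : rho 1 c (X 1 * (X 1 - 1)) = 0 := by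
    rw [map_mul, map_sub, map_one, rho_X_self]
    rcases hc with rfl | rfl
    · simp
    · simp
  unfold eqnC
  rw [map_sub, map_mul, map_mul, h, map_one]
  simp

theorem rho_x : rho 0 (b 0 : ℂ) (eqnC b N) = -1 := by
  have h : rho 0 (b 0 : ℂ) (∏ i, (X 0 - C (b i : ℂ))) = 0 := by
    rw [map_prod]
    refine Finset.prod_eq_zero (Finset.mem_univ 0) ?_
    rw [map_sub, rho_X_self, rho_C, sub_self]
  unfold eqnC
  rw [map_sub, map_mul, h, map_one]
  simp

/-- A factor is constant on a line on which the equation is `-1`. -/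
theorem factor_const {G H : MvPolynomial (Fin 2) ℂ} (hGH : eqnC b N = G * H) (s : Fin 2) (c : ℂ)
    (h : rho s c (eqnC b N) = -1) : ∃ u : ℂ, (X s - C c : MvPolynomial (Fin 2) ℂ) ∣ G - C u := by
  have h1 : rho s c G * rho s c H = -1 := by
    rw [← map_mul, ← hGH, h]
  have hu : IsUnit (rho s c G) := by
    apply IsUnit.of_mul_eq_one (-(rho s c H))
    rw [mul_neg, h1, neg_neg]
  rw [isUnit_iff_eq_C_of_isReduced] at hu
  obtain ⟨u, -, hu⟩ := hu
  refine ⟨u, ?_⟩
  rw [← hu]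
  exact dvd_sub_rho s c G

theorem eval_eq_of_dvd (s : Fin 2) (c : ℂ) (G : MvPolynomial (Fin 2) ℂ) (u : ℂ)
    (h : (X s - C c : MvPolynomial (Fin 2) ℂ) ∣ G - C u) (x : Fin 2 → ℂ)
    (hx : x s = c) : aeval x G = u := by
  obtain ⟨f, hf⟩ := h
  have h1 := congrArg (aeval x) hf
  rw [map_sub, map_mul] at h1
  have h2 : aeval x (X s - C c : MvPolynomial (Fin 2) ℂ) = 0 := by
    simp [hx]
  rw [h2, zero_mul] at h1
  have h4 : aeval x (C u : MvPolynomial (Fin 2) ℂ) = u := by simp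
  rw [h4] at h1
  exact sub_eq_zero.1 h1

/-- For a factor `G` there is a constant `u` such that `t (t - 1)` divides `G - u`. -/
theorem factor_dvd {G H : MvPolynomial (Fin 2) ℂ} (hGH : eqnC b N = G * H) :
    ∃ u : ℂ, (X 1 * (X 1 - 1) : MvPolynomial (Fin 2) ℂ) ∣ G - C u := by
  obtain ⟨u0, h0⟩ := factor_const b N hGH 1 0 (rho_t b N 0 (Or.inl rfl))
  obtain ⟨u1, h1⟩ := factor_const b N hGH 1 1 (rho_t b N 1 (Or.inr rfl))
  obtain ⟨v, hv⟩ := factor_const b N hGH 0 (b 0 : ℂ) (rho_x b N)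
  have e0 : u0 = v := by
    rw [← eval_eq_of_dvd 1 0 G u0 h0 ![(b 0 : ℂ), 0] (by simp),
      ← eval_eq_of_dvd 0 (b 0 : ℂ) G v hv ![(b 0 : ℂ), 0] (by simp)]
  have e1 : u1 = v := by
    rw [← eval_eq_of_dvd 1 1 G u1 h1 ![(b 0 : ℂ), 1] (by simp),
      ← eval_eq_of_dvd 0 (b 0 : ℂ) G v hv ![(b 0 : ℂ), 1] (by simp)]
  subst e0
  subst e1
  refine ⟨u1, ?_⟩
  rw [C_0, sub_zero] at h0
  rw [C_1] at h1
  refine IsCoprime.mul_dvd ?_ h0 h1
  exact ⟨1, -1, by ring⟩

theorem two_le_degreeOf {G : MvPolynomial (Fin 2) ℂ} {u : ℂ}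
    (h : (X 1 * (X 1 - 1) : MvPolynomial (Fin 2) ℂ) ∣ G - C u) (h0 : G - C u ≠ 0) :
    2 ≤ degreeOf 1 G := by
  obtain ⟨q, hq⟩ := h
  have hq0 : q ≠ 0 := by
    rintro rfl
    rw [mul_zero] at hq
    exact h0 hq
  have hX : (X 1 : MvPolynomial (Fin 2) ℂ) ≠ 0 := X_ne_zero 1
  have hX1 : (X 1 - 1 : MvPolynomial (Fin 2) ℂ) ≠ 0 := by
    intro h
    have := congrArg (aeval (0 : Fin 2 → ℂ)) h
    simp at this
  have hd1 : 1 ≤ degreeOf 1 (X 1 - 1 : MvPolynomial (Fin 2) ℂ) := by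
    by_contra hlt
    have hz : degreeOf 1 (X 1 - 1 : MvPolynomial (Fin 2) ℂ) = 0 := by omega
    have h2 : degreeOf 1 (X 1 : MvPolynomial (Fin 2) ℂ) ≤ 0 := by
      have h3 := degreeOf_add_le 1 (X 1 - 1 : MvPolynomial (Fin 2) ℂ) 1
      rw [sub_add_cancel, hz, degreeOf_one] at h3
      simpa using h3
    rw [degreeOf_X_self] at h2
    omega
  have h1 : degreeOf 1 (G - C u) = degreeOf 1 (X 1 : MvPolynomial (Fin 2) ℂ) +
      degreeOf 1 (X 1 - 1 : MvPolynomial (Fin 2) ℂ) + degreeOf 1 q := by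
    rw [hq, degreeOf_mul_eq (mul_ne_zero hX hX1) hq0, degreeOf_mul_eq hX hX1]
  rw [degreeOf_X_self] at h1
  have h2 := degreeOf_sub_le 1 G (C u)
  rw [degreeOf_C] at h2
  have h3 : max (degreeOf 1 G) 0 = degreeOf 1 G := max_eq_left (Nat.zero_le _)
  rw [h3] at h2
  omega

theorem degreeOf_eqnC : degreeOf 1 (eqnC b N) ≤ 2 := by
  unfold eqnC
  refine (degreeOf_sub_le _ _ _).trans (max_le ?_ (by simp))
  refine (degreeOf_mul_le _ _ _).trans ?_
  have h1 : degreeOf 1 (C (N : ℂ) * (X 1 * (X 1 - 1)) : MvPolynomial (Fin 2) ℂ) ≤ 2 := by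
    refine (degreeOf_C_mul_le _ _ _).trans ?_
    refine (degreeOf_mul_le _ _ _).trans ?_
    have h2 : degreeOf 1 (X 1 - 1 : MvPolynomial (Fin 2) ℂ) ≤ 1 := by
      refine (degreeOf_sub_le _ _ _).trans (max_le ?_ (by simp))
      rw [degreeOf_X_self]
    rw [degreeOf_X_self]
    omega
  have h3 : degreeOf 1 (∏ i, (X 0 - C (b i : ℂ)) : MvPolynomial (Fin 2) ℂ) ≤ 0 := by
    refine (degreeOf_prod_le _ _ _).trans ?_
    refine (Finset.sum_eq_zero fun i _ => ?_).le
    have : degreeOf 1 (X 0 - C (b i : ℂ) : MvPolynomial (Fin 2) ℂ) ≤ 0 := by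
      refine (degreeOf_sub_le _ _ _).trans (max_le ?_ ?_)
      · rw [degreeOf_X_of_ne (by decide)]
      · rw [degreeOf_C]
    exact Nat.le_zero.1 this
  omega

theorem isUnit_of_eq_C {G : MvPolynomial (Fin 2) ℂ} (hG : G ≠ 0) {u : ℂ} (h : G - C u = 0) :
    IsUnit G := by
  rw [isUnit_iff_eq_C_of_isReduced]
  refine ⟨u, ?_, sub_eq_zero.1 h⟩
  rw [isUnit_iff_ne_zero]
  rintro rfl
  rw [C_0, sub_zero] at h
  exact hG h

theorem irreducible_eqnC (hN : N ≠ 0) : Irreducible (eqnC b N) := by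
  have hne : eqnC b N ≠ 0 := by
    intro h
    have := rho_x b N
    rw [h, map_zero] at this
    exact one_ne_zero (neg_eq_zero.1 this.symm)
  constructor
  · intro hu
    rw [isUnit_iff_eq_C_of_isReduced] at hu
    obtain ⟨r, -, hr⟩ := hu
    have h1 := rho_x b N
    rw [hr, rho_C] at h1
    have h4 : C (N : ℂ) * (X 1 * (X 1 - 1)) * ∏ i, (X 0 - C (b i : ℂ)) =
        (0 : MvPolynomial (Fin 2) ℂ) := by
      have h5 : eqnC b N = -1 := by rw [hr, h1]
      unfold eqnC at h5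
      linear_combination h5
    have h6 := congrArg (aeval (![(∑ i, (|b i| : ℤ) + 1 : ℤ), 2] : Fin 2 → ℂ)) h4
    rw [map_mul, map_mul, map_mul, map_sub, map_prod, map_zero, map_one] at h6
    simp only [map_sub, aeval_X, aeval_C, Matrix.cons_val_zero, Matrix.cons_val_one,
      Algebra.algebraMap_self, RingHom.id_apply] at h6
    rcases mul_eq_zero.1 h6 with h7 | h7
    · rcases mul_eq_zero.1 h7 with h8 | h8
      · exact hN (by exact_mod_cast h8)
      · norm_num at h8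
    · rw [Finset.prod_eq_zero_iff] at h7
      obtain ⟨i, -, hi⟩ := h7
      have h9 : (∑ i, (|b i| : ℤ) + 1 : ℤ) = b i := by exact_mod_cast sub_eq_zero.1 hi
      have h10 : |b i| ≤ ∑ i, (|b i| : ℤ) :=
        Finset.single_le_sum (f := fun i => |b i|) (fun i _ => abs_nonneg _) (Finset.mem_univ i)
      have h11 := le_abs_self (b i)
      omega
  · intro G H hGH
    have hG : G ≠ 0 := by
      rintro rfl
      rw [zero_mul] at hGH
      exact hne hGH
    have hH : H ≠ 0 := by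
      rintro rfl
      rw [mul_zero] at hGH
      exact hne hGH
    obtain ⟨u, hu⟩ := factor_dvd b N hGH
    obtain ⟨v, hv⟩ := factor_dvd b N (hGH.trans (mul_comm G H))
    by_cases h0 : G - C u = 0
    · exact Or.inl (isUnit_of_eq_C hG h0)
    by_cases h1 : H - C v = 0
    · exact Or.inr (isUnit_of_eq_C hH h1)
    exfalso
    have h2 := two_le_degreeOf hu h0
    have h3 := two_le_degreeOf hv h1
    have h4 := degreeOf_eqnC b N
    rw [hGH, degreeOf_mul_eq hG hH] at h4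
    omega

end IrrDAux

theorem geomIrreducible (hN : N ≠ 0) : GeomIrreducible b N := by
  have h : MvPolynomial.map (algebraMap ℚ ℂ) (eqn b N) = IrrDAux.eqnC b N := by
    unfold eqn IrrDAux.eqnC
    rw [map_sub, map_mul, map_mul, map_mul, map_prod, map_one, map_sub, map_one,
      MvPolynomial.map_X, MvPolynomial.map_C]
    congr 2
    · refine Finset.prod_congr rfl fun i _ => ?_
      rw [map_sub, MvPolynomial.map_X, MvPolynomial.map_C]
      simp
  unfold GeomIrreducible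
  rw [h]
  exact IrrDAux.irreducible_eqnC b N hN

end P4a177d
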