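import Pool.Agent.Lib.P4a177d.CDefs

/-!
# MODULE P4a177d.LimA: the first half of the regulator tends to zero

Here `c` is real and not in the open interval `(p, q)`.

PROOF. `log_norm_le`: mean value inequality in `r` for `Real.log ‖f (pt r θ)‖` on a compact annulus.
`kernel_bound`: `jk p q ζ - c = (q - p) / 4 (ζ - α) (ζ - 1 / α) / ζ` with `α` real, `|α| ≥ 1`, so
`dk / (jk - c) = ζ / (ζ - α) + ζ / (ζ - 1 / α) - 1`, and `|ζ - α|`, `|ζ - 1 / α|` are at least `r - 1`.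
`tendsto_A`: dominated convergence.
-/

set_option autoImplicit false

namespace P4a177d

open Filter Topology MeasureTheory
open scoped Real

namespace LimAAux

theorem continuous_pt (r : ℝ) : Continuous (pt r) := by
  unfold pt
  fun_prop

theorem continuous_pt' (θ : ℝ) : Continuous fun r : ℝ => pt r θ := by
  unfold pt
  fun_prop

theorem continuousOn_jk (p q : ℝ) : ContinuousOn (jk p q) {z | z ≠ 0} := by
  unfold jk
  have : ContinuousOn (fun z : ℂ => z⁻¹) {z | z ≠ 0} := continuousOn_inv₀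
  fun_prop

theorem continuousOn_dk (p q : ℝ) : ContinuousOn (dk p q) {z | z ≠ 0} := by
  unfold dk
  have : ContinuousOn (fun z : ℂ => z⁻¹) {z | z ≠ 0} := continuousOn_inv₀
  fun_prop

/-- the real parameter `α` with `α + 1 / α = 2 κ` -/
theorem exists_alpha {κ : ℝ} (h : 1 ≤ |κ|) : ∃ α : ℝ, 1 ≤ |α| ∧ α + α⁻¹ = 2 * κ := by
  have h2 : 0 ≤ κ ^ 2 - 1 := by
    have : 1 ≤ |κ| ^ 2 := one_le_pow₀ h
    rw [sq_abs] at this
    linarith
  have hs := Real.sq_sqrt h2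
  have hs0 := Real.sqrt_nonneg (κ ^ 2 - 1)
  set s := Real.sqrt (κ ^ 2 - 1) with hsd
  rcases le_total 0 κ with h0 | h0
  · rw [abs_of_nonneg h0] at h
    refine ⟨κ + s, ?_, ?_⟩
    · rw [abs_of_nonneg (by linarith)]
      linarith
    · have h3 : (κ + s)⁻¹ = κ - s := by
        refine inv_eq_of_mul_eq_one_right ?_
        nlinarith
      rw [h3]
      ring
  · rw [abs_of_nonpos h0] at h
    refine ⟨κ - s, ?_, ?_⟩
    · rw [abs_of_nonpos (by linarith)]
      linarith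
    · have h3 : (κ - s)⁻¹ = κ + s := by
        refine inv_eq_of_mul_eq_one_right ?_
        nlinarith
      rw [h3]
      ring

end LimAAux

open LimAAux

theorem log_norm_le {R : ℝ} (hR : 1 < R) {f : ℂ → ℂ} (hf : DifferentiableOn ℂ f (Ann R))
    (hf0 : ∀ z ∈ Ann R, f z ≠ 0) (hf1 : ∀ z : ℂ, ‖z‖ = 1 → ‖f z‖ = 1) :
    ∃ C r₀ : ℝ, 0 ≤ C ∧ 1 < r₀ ∧ r₀ < R ∧
      ∀ r θ : ℝ, 1 ≤ r → r ≤ r₀ → |Real.log ‖f (pt r θ)‖| ≤ C * (r - 1) := by
  set r₀ := (1 + R) / 2 with hr0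
  have h1 : 1 < r₀ := by linarith
  have h2 : r₀ < R := by linarith
  have hcomp : IsCompact {z : ℂ | 1 ≤ ‖z‖ ∧ ‖z‖ ≤ r₀} := by
    refine Metric.isCompact_of_isClosed_isBounded ?_ ?_
    · exact (isClosed_le continuous_const continuous_norm).inter
        (isClosed_le continuous_norm continuous_const)
    · refine (Metric.isBounded_closedBall (x := (0 : ℂ)) (r := r₀)).subset ?_
      intro z hz
      rw [Metric.mem_closedBall, dist_zero_right]
      exact hz.2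
  have hsub : {z : ℂ | 1 ≤ ‖z‖ ∧ ‖z‖ ≤ r₀} ⊆ Ann R := fun z hz =>
    ⟨lt_of_lt_of_le (inv_lt_one_of_one_lt₀ hR) hz.1, lt_of_le_of_lt hz.2 h2⟩
  have hcont : ContinuousOn (fun z => deriv f z / f z) {z : ℂ | 1 ≤ ‖z‖ ∧ ‖z‖ ≤ r₀} := by
    have h3 : ContinuousOn (fun z => deriv f z / f z) (Ann R) :=
      (hf.deriv (isOpen_Ann R)).continuousOn.div hf.continuousOn hf0
    exact h3.mono hsub
  obtain ⟨C, hC⟩ := hcomp.exists_bound_of_continuousOn hcont
  refine ⟨max C 0, r₀, le_max_right _ _, h1, h2, ?_⟩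
  intro r θ hr hr'
  have hder : ∀ x ∈ Set.Icc (1 : ℝ) r, HasDerivWithinAt (fun s : ℝ => Real.log ‖f (pt s θ)‖)
      ((Complex.exp (θ * Complex.I) * deriv f (pt x θ)) / f (pt x θ)).re (Set.Icc 1 r) x := by
    intro x hx
    have hmem : pt x θ ∈ Ann R := pt_mem_Ann hR hx.1 (by linarith [hx.2]) θ
    have e1 : HasDerivAt (fun s : ℝ => pt s θ) (Complex.exp (θ * Complex.I)) x := by
      unfold pt
      have := (Complex.ofRealCLM.hasDerivAt (x := x)).mul_const (Complex.exp (θ * Complex.I))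
      simpa using this
    have e2 : HasDerivAt f (deriv f (pt x θ)) (pt x θ) :=
      (hf.differentiableAt ((isOpen_Ann R).mem_nhds hmem)).hasDerivAt
    have e3 : HasDerivAt (fun s : ℝ => f (pt s θ))
        (Complex.exp (θ * Complex.I) * deriv f (pt x θ)) x := by
      have := e2.scomp x e1
      simpa [Function.comp_def, smul_eq_mul] using this
    exact (P4a177b.hasDerivAt_log_norm e3 (hf0 _ hmem)).hasDerivWithinAt
  have hb : ∀ x ∈ Set.Ico (1 : ℝ) r,
      ‖((Complex.exp (θ * Complex.I) * deriv f (pt x θ)) / f (pt x θ)).re‖ ≤ max C 0 := by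
    intro x hx
    have hn : ‖pt x θ‖ = x := norm_pt (by linarith [hx.1]) θ
    have h3 := hC (pt x θ) (by
      show 1 ≤ ‖pt x θ‖ ∧ ‖pt x θ‖ ≤ r₀
      rw [hn]
      exact ⟨hx.1, by linarith [hx.2]⟩)
    rw [Real.norm_eq_abs]
    refine (Complex.abs_re_le_norm _).trans (le_trans ?_ (le_max_left _ _))
    rw [mul_div_assoc, norm_mul, Complex.norm_exp_ofReal_mul_I, one_mul]
    exact h3
  have h4 := norm_image_sub_le_of_norm_deriv_le_segment' hder hb r
    (Set.right_mem_Icc.2 hr)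
  have h5 : Real.log ‖f (pt 1 θ)‖ = 0 := by
    rw [hf1 _ (norm_pt zero_le_one θ), Real.log_one]
  simp only [h5, sub_zero, Real.norm_eq_abs] at h4
  exact h4

namespace LimAAux

/-- partial fractions -/
theorem part_frac {k z a b : ℂ} (hk : k ≠ 0) (hz : z ≠ 0) (ha : z - a ≠ 0) (hb : z - b ≠ 0)
    (hab : a * b = 1) :
    k * (z - z⁻¹) / (k * ((z - a) * (z - b)) / z) = z / (z - a) + z / (z - b) - 1 := by
  field_simp
  linear_combination hab

/-- the factorization of `jk p q ζ - c` -/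
theorem exists_fac {p q c : ℝ} (hpq : p < q) (hc : c ∉ Set.Ioo p q) : ∃ α : ℝ, 1 ≤ |α| ∧
    ∀ z : ℂ, z ≠ 0 → jk p q z - c =
      (((q - p) / 4 : ℝ) : ℂ) * ((z - α) * (z - (α⁻¹ : ℝ))) / z := by
  set κ := (2 * c - (p + q)) / (q - p) with hκ
  have hqp : 0 < q - p := by linarith
  have h1 : 1 ≤ |κ| := by
    rcases le_or_gt c p with h | h
    · have : κ ≤ -1 := by
        rw [hκ, div_le_iff₀ hqp]
        linarith
      rw [abs_of_nonpos (by linarith)]
      linarith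
    · have h' : q ≤ c := by
        by_contra h2
        exact hc ⟨h, not_le.1 h2⟩
      have : 1 ≤ κ := by
        rw [hκ, le_div_iff₀ hqp]
        linarith
      exact this.trans (le_abs_self _)
  obtain ⟨α, h2, h3⟩ := exists_alpha h1
  refine ⟨α, h2, fun z hz => ?_⟩
  have hα : α ≠ 0 := by
    intro h0
    rw [h0, abs_zero] at h2
    linarith
  have h4 : (α : ℂ) + ((α⁻¹ : ℝ) : ℂ) = 2 * (κ : ℂ) := by exact_mod_cast h3
  have h5 : (α : ℂ) * ((α⁻¹ : ℝ) : ℂ) = 1 := by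
    rw [← Complex.ofReal_mul, mul_inv_cancel₀ hα, Complex.ofReal_one]
  have h6 : (c : ℂ) = (((p + q) / 2 : ℝ) : ℂ) + (((q - p) / 4 : ℝ) : ℂ) * (2 * (κ : ℂ)) := by
    have : c = (p + q) / 2 + (q - p) / 4 * (2 * κ) := by
      rw [hκ]
      field_simp
      ring
    exact_mod_cast this
  rw [h6, ← h4]
  unfold jk
  rw [eq_div_iff hz]
  have h7 : z⁻¹ * z = 1 := inv_mul_cancel₀ hz
  linear_combination (((q - p) / 4 : ℝ) : ℂ) * h7 - (((q - p) / 4 : ℝ) : ℂ) * h5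

end LimAAux

theorem kernel_bound {p q c : ℝ} (hpq : p < q) (hc : c ∉ Set.Ioo p q) :
    ∃ D r₁ : ℝ, 0 ≤ D ∧ 1 < r₁ ∧ ∀ r θ : ℝ, 1 < r → r ≤ r₁ →
      jk p q (pt r θ) - c ≠ 0 ∧
      (r - 1) * |(dk p q (pt r θ) / (jk p q (pt r θ) - c)).re| ≤ D := by
  obtain ⟨α, hα, hfac⟩ := exists_fac hpq hc
  have hα0 : α ≠ 0 := by
    intro h0
    rw [h0, abs_zero] at hα
    linarith
  obtain ⟨r₁, hr1, hr2⟩ : ∃ r₁ : ℝ, 1 < r₁ ∧ ∀ r θ : ℝ, 1 < r → r ≤ r₁ →
      r - 1 ≤ ‖pt r θ - α‖ := by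
    rcases eq_or_lt_of_le hα with h | h
    · refine ⟨2, by norm_num, fun r θ hr _ => ?_⟩
      have h1 := norm_sub_norm_le (pt r θ) (α : ℂ)
      rw [norm_pt (by linarith), Complex.norm_real, Real.norm_eq_abs, ← h] at h1
      exact h1
    · refine ⟨(1 + |α|) / 2, by linarith, fun r θ hr hr' => ?_⟩
      have h1 := norm_sub_norm_le (α : ℂ) (pt r θ)
      rw [norm_pt (by linarith), Complex.norm_real, Real.norm_eq_abs, norm_sub_rev] at h1
      linarith
  have hr3 : ∀ r θ : ℝ, 1 < r → r - 1 ≤ ‖pt r θ - (α⁻¹ : ℝ)‖ := by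
    intro r θ hr
    have h1 := norm_sub_norm_le (pt r θ) ((α⁻¹ : ℝ) : ℂ)
    rw [norm_pt (by linarith), Complex.norm_real, Real.norm_eq_abs, abs_inv] at h1
    have h2 : |α|⁻¹ ≤ 1 := inv_le_one_of_one_le₀ hα
    linarith
  refine ⟨3 * r₁, r₁, by linarith, hr1, fun r θ hr hr' => ?_⟩
  have hz0 : pt r θ ≠ 0 := by
    intro h0
    have := norm_pt (r := r) (by linarith) θ
    rw [h0, norm_zero] at this
    linarith
  set z := pt r θ with hz
  have hzn : ‖z‖ = r := norm_pt (by linarith) θ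
  have h1 : 0 < ‖z - α‖ := lt_of_lt_of_le (by linarith) (hr2 r θ hr hr')
  have h2 : 0 < ‖z - (α⁻¹ : ℝ)‖ := lt_of_lt_of_le (by linarith) (hr3 r θ hr)
  have h1' : z - α ≠ 0 := norm_pos_iff.1 h1
  have h2' : z - ((α⁻¹ : ℝ) : ℂ) ≠ 0 := norm_pos_iff.1 h2
  have hqp : (((q - p) / 4 : ℝ) : ℂ) ≠ 0 := by
    rw [Ne, Complex.ofReal_eq_zero]
    have : 0 < q - p := by linarith
    positivity
  have hJ : jk p q z - c ≠ 0 := by
    rw [hfac z hz0]
    exact div_ne_zero (mul_ne_zero hqp (mul_ne_zero h1' h2')) hz0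
  refine ⟨hJ, ?_⟩
  have hαc : (α : ℂ) * ((α⁻¹ : ℝ) : ℂ) = 1 := by
    rw [← Complex.ofReal_mul, mul_inv_cancel₀ hα0, Complex.ofReal_one]
  have hid : dk p q z / (jk p q z - c) = z / (z - α) + z / (z - ((α⁻¹ : ℝ) : ℂ)) - 1 := by
    rw [hfac z hz0]
    exact part_frac hqp hz0 h1' h2' hαc
  rw [hid]
  have h3 : |(z / (z - α) + z / (z - ((α⁻¹ : ℝ) : ℂ)) - 1).re| ≤
      r / ‖z - α‖ + r / ‖z - ((α⁻¹ : ℝ) : ℂ)‖ + 1 := by
    refine (Complex.abs_re_le_norm _).trans ((norm_sub_le _ _).trans ?_)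
    rw [norm_one]
    refine add_le_add ((norm_add_le _ _).trans (le_of_eq ?_)) le_rfl
    rw [norm_div, norm_div, hzn]
  have h4 : (r - 1) * (r / ‖z - α‖) ≤ r := by
    rw [← mul_div_assoc, div_le_iff₀ h1, mul_comm]
    exact mul_le_mul_of_nonneg_left (hr2 r θ hr hr') (by linarith)
  have h5 : (r - 1) * (r / ‖z - ((α⁻¹ : ℝ) : ℂ)‖) ≤ r := by
    rw [← mul_div_assoc, div_le_iff₀ h2, mul_comm]
    exact mul_le_mul_of_nonneg_left (hr3 r θ hr) (by linarith)
  calc (r - 1) * |(z / (z - α) + z / (z - ((α⁻¹ : ℝ) : ℂ)) - 1).re| ≤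
        (r - 1) * (r / ‖z - α‖ + r / ‖z - ((α⁻¹ : ℝ) : ℂ)‖ + 1) :=
        mul_le_mul_of_nonneg_left h3 (by linarith)
    _ = (r - 1) * (r / ‖z - α‖) + (r - 1) * (r / ‖z - ((α⁻¹ : ℝ) : ℂ)‖) + (r - 1) := by ring
    _ ≤ 3 * r₁ := by linarith

theorem tendsto_A {R : ℝ} (hR : 1 < R) {f : ℂ → ℂ} (hf : DifferentiableOn ℂ f (Ann R))
    (hf0 : ∀ z ∈ Ann R, f z ≠ 0) (hf1 : ∀ z : ℂ, ‖z‖ = 1 → ‖f z‖ = 1)
    {p q c : ℝ} (hpq : p < q) (hc : c ∉ Set.Ioo p q) :
    Tendsto (fun r : ℝ => ∫ θ in (0 : ℝ)..(2 * π),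
      Real.log ‖f (pt r θ)‖ * (dk p q (pt r θ) / (jk p q (pt r θ) - c)).re) (𝓝[>] 1) (𝓝 0) := by
  obtain ⟨C, r₀, hC, h1, h2, h3⟩ := log_norm_le hR hf hf0 hf1
  obtain ⟨D, r₁, hD, h4, h5⟩ := kernel_bound hpq hc
  have hev : ∀ᶠ r : ℝ in 𝓝[>] 1, 1 < r ∧ r ≤ r₀ ∧ r ≤ r₁ := by
    have e1 : ∀ᶠ r : ℝ in 𝓝[>] 1, 1 < r := self_mem_nhdsWithin
    have e2 : ∀ᶠ r : ℝ in 𝓝[>] 1, r < r₀ := nhdsWithin_le_nhds (Iio_mem_nhds h1)
    have e3 : ∀ᶠ r : ℝ in 𝓝[>] 1, r < r₁ := nhdsWithin_le_nhds (Iio_mem_nhds h4)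
    filter_upwards [e1, e2, e3] with r a b c
    exact ⟨a, b.le, c.le⟩
  have hne : ∀ r θ : ℝ, 1 ≤ r → pt r θ ≠ 0 := by
    intro r θ hr h0
    have := norm_pt (r := r) (by linarith) θ
    rw [h0, norm_zero] at this
    linarith
  have key := intervalIntegral.tendsto_integral_filter_of_dominated_convergence
    (l := 𝓝[>] (1 : ℝ)) (μ := volume) (a := 0) (b := 2 * π)
    (F := fun (r θ : ℝ) => Real.log ‖f (pt r θ)‖ *
      (dk p q (pt r θ) / (jk p q (pt r θ) - c)).re)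
    (f := fun _ => (0 : ℝ)) (fun _ => C * D) ?_ ?_ ?_ ?_
  · simpa using key
  · filter_upwards [hev] with r hr
    obtain ⟨hr1, hr2, hr3⟩ := hr
    refine Continuous.aestronglyMeasurable ?_
    have c1 : Continuous fun θ => f (pt r θ) :=
      hf.continuousOn.comp_continuous (continuous_pt r)
        (fun θ => pt_mem_Ann hR hr1.le (by linarith) θ)
    have c2 : Continuous fun θ => Real.log ‖f (pt r θ)‖ :=
      c1.norm.log (fun θ => norm_ne_zero_iff.2 (hf0 _ (pt_mem_Ann hR hr1.le (by linarith) θ)))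
    have c3 : Continuous fun θ => dk p q (pt r θ) :=
      (continuousOn_dk p q).comp_continuous (continuous_pt r) (fun θ => hne r θ hr1.le)
    have c4 : Continuous fun θ => jk p q (pt r θ) :=
      (continuousOn_jk p q).comp_continuous (continuous_pt r) (fun θ => hne r θ hr1.le)
    exact c2.mul (Complex.continuous_re.comp
      (c3.div (c4.sub continuous_const) (fun θ => (h5 r θ hr1 hr3).1)))
  · filter_upwards [hev] with r hr
    obtain ⟨hr1, hr2, hr3⟩ := hr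
    refine Eventually.of_forall fun θ _ => ?_
    have e1 := h3 r θ hr1.le hr2
    have e2 := (h5 r θ hr1 hr3).2
    rw [Real.norm_eq_abs, abs_mul]
    calc |Real.log ‖f (pt r θ)‖| * |(dk p q (pt r θ) / (jk p q (pt r θ) - c)).re| ≤
          (C * (r - 1)) * |(dk p q (pt r θ) / (jk p q (pt r θ) - c)).re| :=
          mul_le_mul_of_nonneg_right e1 (abs_nonneg _)
      _ = C * ((r - 1) * |(dk p q (pt r θ) / (jk p q (pt r θ) - c)).re|) := by ring
      _ ≤ C * D := mul_le_mul_of_nonneg_left e2 hC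
  · exact intervalIntegrable_const
  · -- the pointwise limit
    have hcount : ({θ : ℝ | Real.sin θ = 0}).Countable := by
      have : {θ : ℝ | Real.sin θ = 0} ⊆ Set.range (fun n : ℤ => (n : ℝ) * π) := by
        intro θ hθ
        obtain ⟨n, hn⟩ := Real.sin_eq_zero_iff.1 hθ
        exact ⟨n, hn⟩
      exact (Set.countable_range _).mono this
    have hae : ∀ᵐ θ : ℝ, θ ∉ {θ : ℝ | Real.sin θ = 0} :=
      measure_eq_zero_iff_ae_notMem.1 (hcount.measure_zero volume)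
    filter_upwards [hae] with θ hθ _
    have hJ : jk p q (pt 1 θ) - c ≠ 0 := by
      rw [jk_pt_one, ← Complex.ofReal_sub, Ne, Complex.ofReal_eq_zero]
      intro h0
      have hs : Real.sin θ ≠ 0 := hθ
      have h6 := Real.sin_sq_add_cos_sq θ
      have h7 : 0 < Real.sin θ ^ 2 := by positivity
      have h8 : |Real.cos θ| < 1 := by
        rw [← sq_lt_one_iff_abs_lt_one]
        linarith
      rw [abs_lt] at h8
      apply hc
      have hqp : 0 < q - p := by linarith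
      constructor
      · nlinarith
      · nlinarith
    have hlog : Tendsto (fun r : ℝ => Real.log ‖f (pt r θ)‖) (𝓝[>] 1) (𝓝 0) := by
      have hb : Tendsto (fun r : ℝ => C * (r - 1)) (𝓝[>] 1) (𝓝 0) := by
        have : Tendsto (fun r : ℝ => C * (r - 1)) (𝓝 1) (𝓝 (C * (1 - 1))) :=
          Continuous.tendsto (by fun_prop) 1
        rw [sub_self, mul_zero] at this
        exact this.mono_left nhdsWithin_le_nhds
      refine squeeze_zero_norm' ?_ hb
      filter_upwards [hev] with r hr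
      exact h3 r θ hr.1.le hr.2.1
    have hker : Tendsto (fun r : ℝ => (dk p q (pt r θ) / (jk p q (pt r θ) - c)).re) (𝓝[>] 1)
        (𝓝 (dk p q (pt 1 θ) / (jk p q (pt 1 θ) - c)).re) := by
      have hz : pt 1 θ ≠ 0 := hne 1 θ le_rfl
      have n1 : {z : ℂ | z ≠ 0} ∈ 𝓝 (pt 1 θ) := isOpen_ne.mem_nhds hz
      have d1 : ContinuousAt (dk p q) (pt 1 θ) := (continuousOn_dk p q).continuousAt n1
      have d2 : ContinuousAt (jk p q) (pt 1 θ) := (continuousOn_jk p q).continuousAt n1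
      have d3 : ContinuousAt (fun r : ℝ => pt r θ) 1 := (continuous_pt' θ).continuousAt
      have d4 : ContinuousAt (fun r : ℝ => dk p q (pt r θ)) 1 :=
        ContinuousAt.comp (g := dk p q) (f := fun r : ℝ => pt r θ) d1 d3
      have d5 : ContinuousAt (fun r : ℝ => jk p q (pt r θ) - c) 1 :=
        (ContinuousAt.comp (g := jk p q) (f := fun r : ℝ => pt r θ) d2 d3).sub continuousAt_const
      have d6 : ContinuousAt (fun r : ℝ => (dk p q (pt r θ) / (jk p q (pt r θ) - c)).re) 1 :=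
        Complex.continuous_re.continuousAt.comp (d4.div d5 hJ)
      exact d6.tendsto.mono_left nhdsWithin_le_nhds
    have := hlog.mul hker
    rw [zero_mul] at this
    exact this

end P4a177d
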