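import Pool.Agent.Lib.P4a177d.Defs

/-!
# The regulator on a loop as an interval integral, and the sum rule
-/

set_option autoImplicit false

namespace P4a177d

open P4a177h MeasureTheory
open scoped Real

namespace Reg1DAux

theorem differentiable_of_emb {R : Type} [CommRing R] (γ : Torus 1 R) (f : R) (F : ℝ → ℂ)
    (hF : ∀ θ : Fin 1 → ℝ, γ.emb θ f = F (θ 0)) : Differentiable ℝ F := by
  have h1 : F = fun t => γ.emb (fun _ => t) f := by
    funext t
    rw [hF]
  rw [h1]
  have h2 : Differentiable ℝ fun θ : Fin 1 → ℝ => γ.emb θ f :=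
    (γ.contDiff f).differentiable (by norm_num)
  have h3 : Differentiable ℝ fun t : ℝ => (fun _ : Fin 1 => t) :=
    differentiable_pi.2 fun _ => differentiable_id
  exact h2.comp h3

theorem dlogRow_one {R : Type} [CommRing R] (γ : Torus 1 R) (a : Rˣ) (F : ℝ → ℂ)
    (hF : ∀ θ : Fin 1 → ℝ, γ.emb θ (a : R) = F (θ 0)) (θ : Fin 1 → ℝ) :
    dlogRow γ a θ 0 = -Complex.I * (deriv F (θ 0) / F (θ 0)) := by
  have hd := differentiable_of_emb γ (a : R) F hF
  unfold dlogRow
  rw [hF θ]
  have h1 : (fun θ => γ.emb θ (a : R)) = F ∘ fun θ : Fin 1 → ℝ => θ 0 := by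
    funext θ
    exact hF θ
  have h2 : HasFDerivAt (fun θ : Fin 1 → ℝ => θ 0)
      (ContinuousLinearMap.proj (R := ℝ) (φ := fun _ : Fin 1 => ℝ) 0) θ :=
    (ContinuousLinearMap.proj (R := ℝ) (φ := fun _ : Fin 1 => ℝ) 0).hasFDerivAt
  have h3 := ((hd (θ 0)).hasFDerivAt.comp θ h2).fderiv
  rw [h1, h3]
  have h4 : ((fderiv ℝ F (θ 0)).comp (ContinuousLinearMap.proj (R := ℝ)
      (φ := fun _ : Fin 1 => ℝ) 0)) (Pi.single 0 1) = deriv F (θ 0) := by
    rw [ContinuousLinearMap.comp_apply, ContinuousLinearMap.proj_apply, Pi.single_eq_same]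
    rfl
  rw [h4]

theorem neg_I_mul_re (z : ℂ) : (-Complex.I * z).re = z.im := by simp

theorem box_one : box 1 = MeasurableEquiv.funUnique (Fin 1) ℝ ⁻¹' Set.Icc 0 (2 * π) := by
  ext θ
  simp only [box, Set.mem_Icc, Set.mem_preimage, Pi.le_def]
  constructor
  · rintro ⟨h1, h2⟩
    exact ⟨h1 0, h2 0⟩
  · rintro ⟨h1, h2⟩
    refine ⟨fun i => ?_, fun i => ?_⟩
    · have : i = default := Subsingleton.elim _ _
      rw [this]
      exact h1
    · have : i = default := Subsingleton.elim _ _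
      rw [this]
      exact h2

theorem integral_box_one (Φ : ℝ → ℝ) :
    ∫ θ in box 1, Φ (θ 0) = ∫ t in (0 : ℝ)..(2 * π), Φ t := by
  have h := (MeasureTheory.volume_preserving_funUnique (Fin 1) ℝ).setIntegral_preimage_emb
    (MeasurableEquiv.measurableEmbedding _) Φ (Set.Icc 0 (2 * π))
  rw [← box_one] at h
  rw [intervalIntegral.integral_of_le (by positivity), ← MeasureTheory.integral_Icc_eq_integral_Ioc,
    ← h]
  rfl

end Reg1DAux

open Reg1DAux

theorem regFun_one {R : Type} [CommRing R] (γ : Torus 1 R) (u : Fin 2 → Rˣ) (F G : ℝ → ℂ)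
    (hF : ∀ θ : Fin 1 → ℝ, γ.emb θ (u 0 : R) = F (θ 0))
    (hG : ∀ θ : Fin 1 → ℝ, γ.emb θ (u 1 : R) = G (θ 0)) :
    regFun γ u = ∫ θ in (0 : ℝ)..(2 * π), (Real.log ‖F θ‖ * (deriv G θ / G θ).im -
      Real.log ‖G θ‖ * (deriv F θ / F θ).im) := by
  rw [← integral_box_one]
  unfold regFun
  congr 1
  funext θ
  unfold regForm
  rw [Fin.sum_univ_two]
  have e0 : (regMatrix γ u 0 θ).det.re = (deriv G (θ 0) / G (θ 0)).im := by
    have h1 : (regMatrix γ u 0 θ).det = dlogRow γ (u 1) θ 0 := by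
      rw [Matrix.det_fin_one]
      rfl
    rw [h1, dlogRow_one γ (u 1) G hG θ, neg_I_mul_re]
  have e1 : (regMatrix γ u 1 θ).det.re = (deriv F (θ 0) / F (θ 0)).im := by
    have h1 : (regMatrix γ u 1 θ).det = ((dlogRow γ (u 0) θ 0).re : ℂ) := by
      rw [Matrix.det_fin_one]
      rfl
    rw [h1, Complex.ofReal_re, dlogRow_one γ (u 0) F hF θ, neg_I_mul_re]
  rw [e0, e1, hF θ, hG θ]
  simp only [Fin.val_zero, pow_zero, Fin.val_one, pow_one, one_mul]
  ring

theorem regFun_self {R : Type} [CommRing R] (γ : Torus 1 R) (a : Rˣ) : regFun γ ![a, a] = 0 := by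
  have hF : ∀ θ : Fin 1 → ℝ, γ.emb θ (a : R) = (fun t : ℝ => γ.emb (fun _ => t) (a : R)) (θ 0) := by
    intro θ
    have : θ = fun _ => θ 0 := by
      funext i
      rw [Subsingleton.elim i 0]
    exact congrArg (fun η => γ.emb η (a : R)) this
  have h := regFun_one γ ![a, a] (fun t : ℝ => γ.emb (fun _ => t) (a : R))
    (fun t : ℝ => γ.emb (fun _ => t) (a : R)) hF hF
  rw [h]
  simp

namespace Reg1DAux

variable {R : Type} [CommRing R] (γ : Torus 1 R)

theorem mul_right (x y z : Rˣ) :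
    regFun γ ![x, y * z] = regFun γ ![x, y] + regFun γ ![x, z] := by
  have h := regFun_mul γ ![x, 1] 1 y z
  have e : ∀ w : Rˣ, Function.update ![x, 1] 1 w = ![x, w] := by
    intro w
    funext i
    fin_cases i <;> rfl
  rw [e, e, e] at h
  exact h

theorem mul_left (x y z : Rˣ) :
    regFun γ ![x * y, z] = regFun γ ![x, z] + regFun γ ![y, z] := by
  have h := regFun_mul γ ![1, z] 0 x y
  have e : ∀ w : Rˣ, Function.update ![1, z] 0 w = ![w, z] := by
    intro w
    funext i
    fin_cases i <;> rfl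
  rw [e, e, e] at h
  exact h

theorem one_right (x : Rˣ) : regFun γ ![x, 1] = 0 := by
  have h := mul_right γ x 1 1
  rw [one_mul] at h
  linarith

theorem inv_right (x y : Rˣ) : regFun γ ![x, y⁻¹] = -regFun γ ![x, y] := by
  have h := mul_right γ x y y⁻¹
  rw [mul_inv_cancel, one_right] at h
  linarith

theorem div_right (x y z : Rˣ) :
    regFun γ ![x, y / z] = regFun γ ![x, y] - regFun γ ![x, z] := by
  rw [div_eq_mul_inv, mul_right, inv_right]
  ring

theorem prod_right {ι : Type} (x : Rˣ) (s : Finset ι) (y : ι → Rˣ) :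
    regFun γ ![x, ∏ k ∈ s, y k] = ∑ k ∈ s, regFun γ ![x, y k] := by
  classical
  induction s using Finset.induction_on with
  | empty => rw [Finset.prod_empty, Finset.sum_empty, one_right]
  | insert a s ha ih => rw [Finset.prod_insert ha, Finset.sum_insert ha, mul_right, ih]

theorem neg_left (x y : Rˣ) : regFun γ ![-x, y] = regFun γ ![x, y] := by
  have h1 := mul_left γ (-x) (-x) y
  have h2 := mul_left γ x x y
  rw [neg_mul_neg] at h1
  linarith

theorem neg_right (x y : Rˣ) : regFun γ ![x, -y] = regFun γ ![x, y] := by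
  have h1 := mul_right γ x (-y) (-y)
  have h2 := mul_right γ x y y
  rw [neg_mul_neg] at h1
  linarith

end Reg1DAux

variable {g : ℕ} (b : Fin (g + 1) → ℤ) (N : ℤ)

theorem sum_reg (hN : N ≠ 0) (γ : Torus 1 (CoordRing b N)) :
    ∑ k, regFun γ ![uF b N, uL b N k] +
      regFun γ ![uF b N, P4a177s.intUnit (CoordRing b N) N hN] = 0 := by
  rw [← prod_right, add_comm, ← mul_right]
  have hU : P4a177s.intUnit (CoordRing b N) N hN * ∏ k, uL b N k =
      (uF b N * (uT b N * uT b N))⁻¹ := by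
    rw [eq_inv_iff_mul_eq_one]
    have h1 : uF b N * (uT b N * uT b N) = uT1 b N * uT b N := by
      unfold uF
      rw [← mul_assoc, div_mul_cancel]
    rw [h1]
    refine Units.ext ?_
    rw [Units.val_mul, Units.val_mul, Units.val_mul, Units.val_one, P4a177s.intUnit_val,
      Units.coe_prod, uT1_val, uT_val]
    simp only [uL_val]
    linear_combination eqn_cX b N
  have hst : regFun γ ![uF b N, (uT b N)⁻¹] = 0 := by
    refine regFun_steinberg γ _ 0 1 rfl ?_
    show (uF b N : CoordRing b N) + ((uT b N)⁻¹ : (CoordRing b N)ˣ) = 1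
    unfold uF
    rw [div_eq_mul_inv, Units.val_mul, uT1_val]
    have h2 : (uT b N : CoordRing b N) * ((uT b N)⁻¹ : (CoordRing b N)ˣ) = 1 :=
      Units.mul_inv _
    rw [uT_val] at h2
    linear_combination h2
  rw [hU, inv_right, mul_right, mul_right, regFun_self]
  rw [inv_right] at hst
  linarith

theorem reg_xi (γ : Torus 1 (CoordRing b N)) (p : Fin g) :
    reg γ (xi b N p) = regFun γ ![uF b N, uL b N p.succ] - regFun γ ![uF b N, uL b N 0] := by
  unfold xi
  rw [reg_symb, neg_left, neg_right, div_right]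
  rfl

end P4a177d
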