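import Pool.Agent.Lib.P4a177d.Defs

/-!
# MODULE P4a177d.TorD: loops on the curve
-/

set_option autoImplicit false

namespace P4a177d

open P4a177h MvPolynomial
open scoped Real

variable {g : ℕ} (b : Fin (g + 1) → ℤ) (N : ℤ)

namespace TorDAux

theorem aeval_eqn {x t : ℂ} (h : (N : ℂ) * (t * (t - 1)) * ∏ i, (x - (b i : ℂ)) = 1) :
    aeval (R := ℚ) ![x, t] (eqn b N) = 0 := by
  have h0 : (aeval (R := ℚ) ![x, t]) (X 0 : MvPolynomial (Fin 2) ℚ) = x := by
    rw [aeval_X]; rfl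
  have h1 : (aeval (R := ℚ) ![x, t]) (X 1 : MvPolynomial (Fin 2) ℚ) = t := by
    rw [aeval_X]; rfl
  have hC : ∀ n : ℤ, (aeval (R := ℚ) ![x, t]) (C (n : ℚ) : MvPolynomial (Fin 2) ℚ) = (n : ℂ) := by
    intro n
    rw [aeval_C]
    simp
  unfold eqn
  have h2 : ∀ i, (aeval (R := ℚ) ![x, t]) (X 0 - C ((b i : ℤ) : ℚ) : MvPolynomial (Fin 2) ℚ) =
      x - (b i : ℂ) := by
    intro i
    rw [map_sub, h0, hC]
  rw [map_sub, map_one, map_mul, map_mul, map_mul, map_prod, map_sub, map_one, h1, hC,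
    Finset.prod_congr rfl fun i _ => h2 i, h, sub_self]

/-- The evaluation at a point of the curve. -/
noncomputable def ev (x t : ℂ) (h : (N : ℂ) * (t * (t - 1)) * ∏ i, (x - (b i : ℂ)) = 1) :
    CoordRing b N →+* ℂ :=
  Ideal.Quotient.lift _ (aeval (R := ℚ) ![x, t]).toRingHom (by
    intro f hf
    rw [Ideal.mem_span_singleton] at hf
    obtain ⟨r, rfl⟩ := hf
    show aeval (R := ℚ) ![x, t] (eqn b N * r) = 0
    rw [map_mul, aeval_eqn b N h, zero_mul])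

theorem ev_mk {x t : ℂ} (h : (N : ℂ) * (t * (t - 1)) * ∏ i, (x - (b i : ℂ)) = 1)
    (f : MvPolynomial (Fin 2) ℚ) :
    ev b N x t h (Ideal.Quotient.mk _ f) = aeval (R := ℚ) ![x, t] f := rfl

end TorDAux

open TorDAux in
theorem exists_torus {X T : ℝ → ℂ} (hX : ContDiff ℝ 2 X) (hT : ContDiff ℝ 2 T)
    (hXp : ∀ θ, X (θ + 2 * π) = X θ) (hTp : ∀ θ, T (θ + 2 * π) = T θ)
    (h : ∀ θ, (N : ℂ) * (T θ * (T θ - 1)) * ∏ i, (X θ - (b i : ℂ)) = 1) :
    ∃ γ : Torus 1 (CoordRing b N), (∀ θ : Fin 1 → ℝ, γ.emb θ (cX b N) = X (θ 0)) ∧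
      ∀ θ : Fin 1 → ℝ, γ.emb θ (cT b N) = T (θ 0) := by
  have hX' : ContDiff ℝ 2 fun θ : Fin 1 → ℝ => X (θ 0) := hX.comp (contDiff_apply ℝ ℝ (0 : Fin 1))
  have hT' : ContDiff ℝ 2 fun θ : Fin 1 → ℝ => T (θ 0) := hT.comp (contDiff_apply ℝ ℝ (0 : Fin 1))
  refine ⟨{ emb := fun θ => ev b N (X (θ 0)) (T (θ 0)) (h (θ 0))
            contDiff := ?_
            periodic := ?_ }, ?_, ?_⟩
  · intro f
    obtain ⟨P, rfl⟩ := Ideal.Quotient.mk_surjective f
    simp only [ev_mk]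
    induction P using MvPolynomial.induction_on with
    | C a => simp only [MvPolynomial.aeval_C]; exact contDiff_const
    | add P Q hP hQ => simp only [map_add]; exact hP.add hQ
    | mul_X P s hP =>
      simp only [map_mul, MvPolynomial.aeval_X]
      refine hP.mul ?_
      fin_cases s
      · exact hX'
      · exact hT'
  · intro f θ l
    obtain ⟨P, rfl⟩ := Ideal.Quotient.mk_surjective f
    have hl : l = 0 := Subsingleton.elim _ _
    subst hl
    rw [ev_mk, ev_mk, Function.update_self, hXp, hTp]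
  · intro θ
    show ev b N _ _ (h (θ 0)) (Ideal.Quotient.mk _ (MvPolynomial.X 0)) = _
    rw [ev_mk, aeval_X]
    rfl
  · intro θ
    show ev b N _ _ (h (θ 0)) (Ideal.Quotient.mk _ (MvPolynomial.X 1)) = _
    rw [ev_mk, aeval_X]
    rfl

end P4a177d
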