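import Pool.Agent.Lib.P4a177d.LimA
import Pool.Agent.Lib.P4a177d.LimB
import Pool.Agent.Lib.P4a177d.CurveD
import Pool.Agent.Lib.P4a177d.TorD
import Pool.Agent.Lib.P4a177d.Reg1D

/-!
# MODULE P4a177d.LoopD: the loops of a segment and their regulators (est. 1.5 h; assembly)

PROOF. Take `R` from `exists_ann`. For `1 < r < R` let `X θ = S.xz (pt r θ)`, `T θ = S.tz (pt r θ)`; `pt r θ ∈ Ann R`,
`pt r θ ≠ 1, -1` (norm `r`), so `aeval_ne_zero`, and `tz_spec` gives the equation
(`aeval x (PR b N) = N ∏ (x - b_i)`: `Polynomial.aeval_prod`, `map_mul`; note `algebraMap ℝ ℂ`). `X`, `T` are `C²`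
in `θ`: `S.xz`, `S.tz` are complex differentiable on the open set `{z ∈ Ann R | aeval (S.xz z) (PR b N) ≠ 0}`, so
`ContDiffOn ℂ n`, `restrict_scalars ℝ`, composed with the smooth function `pt r` (`DifferentiableOn.contDiffOn`). Periodicity: `pt r (θ + 2π) = pt r θ`.
`exists_torus` gives the torus `γ_r`; the values: `emb uF = (T - 1)/T = S.fz (pt r θ)`, `emb (uL k) = X θ - b_k`.
`regFun_one` with `F θ = S.fz (pt r θ)`, `G θ = jk p q (pt r θ) - b_k`: `deriv F θ = I * z * deriv S.fz z`, `z = pt r θ`, so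
`(deriv F θ / F θ).im = (z * deriv S.fz z / S.fz z).re`, and `(deriv G θ / G θ).im = (dk z / (jk z - b_k)).re`. So
`regFun γ_r ![uF, uL k] = ∫ log ‖f‖ * (dk / (jk - b_k)).re - ∫ log ‖jk - b_k‖ * (z f' / f).re` (both continuous, so integrable, for `r` near `1`:
`kernel_bound` gives `jk - b_k ≠ 0`, or: `P(x) ≠ 0`). The limit for `r → 1+`: `tendsto_A` and `tendsto_B` with
`φ z = (z * deriv S.fz z / S.fz z).re` (continuous on `Ann R`; by `dlog_fz` it is `-(P'(x)/s).re`): the limit is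
`∫_0^{2π} log |xr θ - b_k| * dn θ` (`φ (pt 1 θ) = - dn θ` by `xz_circle`, `sz_circle`), `= 2 ∫_0^π` since `cos (2π - θ) = cos θ`
(`intervalIntegral.integral_comp_sub_left`, `integral_add_adjacent_intervals`). Here `b_k ∉ Ioo p q`: there `P (P + 4) < 0`
by `hK`, but `P (b_k) = 0`: `not_mem_Ioo`.
The same for the constant `N` (`tendsto_const`): `G` constant, `regFun = - log |N| ∫ (z f'/f).re → log |N| * TT`.
Then take the sequence `r_n = 1 + (R' - 1)/(n + 2)`; `Tendsto .. (𝓝[>] 1)`.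
`sum_RR`: from `sum_reg` and uniqueness of limits.
`exists_loop`: if `∑ n_k RR (b_k) ≠ 0` then for some `m` the sum of the regulators is not zero.
-/

set_option autoImplicit false

namespace P4a177d

open P4a177h Filter Topology MeasureTheory
open scoped Real

variable {g : ℕ} {b : Fin (g + 1) → ℤ} {N : ℤ}

namespace LoopDAux

theorem aeval_PR (x : ℂ) :
    Polynomial.aeval x (PR b N) = (N : ℂ) * ∏ i, (x - (b i : ℂ)) := by
  unfold PR
  rw [map_mul, map_prod, Polynomial.aeval_C]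
  refine congrArg₂ (· * ·) (by simp) (Finset.prod_congr rfl fun i _ => ?_)
  rw [map_sub, Polynomial.aeval_X, Polynomial.aeval_C]
  simp

theorem eval_PR (x : ℝ) : (PR b N).eval x = (N : ℝ) * ∏ i, (x - (b i : ℝ)) := by
  unfold PR
  rw [Polynomial.eval_mul, Polynomial.eval_C, Polynomial.eval_prod]
  congr 1
  refine Finset.prod_congr rfl fun i _ => ?_
  rw [Polynomial.eval_sub, Polynomial.eval_X, Polynomial.eval_C]

theorem hasDerivAt_pt (r θ : ℝ) : HasDerivAt (fun t : ℝ => pt r t) (Complex.I * pt r θ) θ := by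
  unfold pt
  have h1 : HasDerivAt (fun t : ℝ => (t : ℂ) * Complex.I) Complex.I θ := by
    simpa using (Complex.ofRealCLM.hasDerivAt (x := θ)).mul_const Complex.I
  have h2 := (h1.cexp).const_mul (r : ℂ)
  refine h2.congr_deriv ?_
  ring

theorem contDiff_pt (r : ℝ) : ContDiff ℝ 2 (fun t : ℝ => pt r t) := by
  unfold pt
  have h1 : ContDiff ℝ 2 (fun t : ℝ => (t : ℂ) * Complex.I) :=
    Complex.ofRealCLM.contDiff.mul contDiff_const
  exact contDiff_const.mul (h1.cexp)

theorem pt_add (r θ : ℝ) : pt r (θ + 2 * π) = pt r θ := by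
  unfold pt
  congr 1
  push_cast
  rw [add_mul]
  exact Complex.exp_periodic (θ * Complex.I)

theorem contDiff_comp {U : Set ℂ} (hU : IsOpen U) {f : ℂ → ℂ} (hf : DifferentiableOn ℂ f U)
    {r : ℝ} (hr : ∀ θ, pt r θ ∈ U) : ContDiff ℝ 2 (fun θ => f (pt r θ)) := by
  have h1 : ContDiffOn ℝ 2 f U := (hf.contDiffOn hU).restrict_scalars ℝ
  exact h1.comp_contDiff (contDiff_pt r) hr

theorem deriv_comp_pt {f : ℂ → ℂ} {r θ : ℝ} {f' : ℂ} (hf : HasDerivAt f f' (pt r θ)) :
    deriv (fun θ => f (pt r θ)) θ = Complex.I * (pt r θ * f') := by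
  have h := hf.scomp θ (hasDerivAt_pt r θ)
  have h' : deriv (f ∘ fun t => pt r t) θ = _ := h.deriv
  rw [show (fun θ => f (pt r θ)) = f ∘ fun t => pt r t from rfl, h', smul_eq_mul]
  ring

theorem I_mul_im (z : ℂ) : (Complex.I * z).im = z.re := by simp

theorem continuous_pt (r : ℝ) : Continuous (pt r) := by
  unfold pt
  fun_prop

/-- The real part of the logarithmic derivative of `f`. -/
noncomputable def ph (S : Seg (PR b N)) (z : ℂ) : ℝ :=
  (-(Polynomial.aeval (S.xz z) (Polynomial.derivative (PR b N)) / S.sz z)).re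

theorem ph_circle (S : Seg (PR b N)) (θ : ℝ) : ph S (pt 1 θ) = -S.dn θ := by
  unfold ph Seg.dn
  rw [sz_circle, xz_circle, CurveDAux.aeval_real, ← Complex.ofReal_div, ← Complex.ofReal_neg,
    Complex.ofReal_re]

theorem continuous_dn (S : Seg (PR b N)) : Continuous S.dn := by
  unfold Seg.dn
  have hx : Continuous S.xr := by
    unfold Seg.xr
    fun_prop
  refine Continuous.div ((Polynomial.continuous _).comp hx)
    (((Polynomial.continuous _).comp hx).sqrt) fun θ => ?_
  exact (Real.sqrt_pos.2 (CurveDAux.K_pos S θ)).ne'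

theorem xr_sub (S : Seg (PR b N)) (θ : ℝ) : S.xr (2 * π - θ) = S.xr θ := by
  unfold Seg.xr
  rw [Real.cos_two_pi_sub]

theorem dn_sub (S : Seg (PR b N)) (θ : ℝ) : S.dn (2 * π - θ) = S.dn θ := by
  unfold Seg.dn
  rw [xr_sub]

theorem fold_integral {h : ℝ → ℝ} (hs : ∀ θ, h (2 * π - θ) = h θ)
    (hi : ∀ a a', IntervalIntegrable h volume a a') :
    ∫ θ in (0 : ℝ)..(2 * π), h θ = 2 * ∫ θ in (0 : ℝ)..π, h θ := by
  rw [← intervalIntegral.integral_add_adjacent_intervals (hi 0 π) (hi π (2 * π))]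
  have h1 : ∫ θ in (0 : ℝ)..π, h (2 * π - θ) = ∫ θ in π..(2 * π), h θ := by
    rw [intervalIntegral.integral_comp_sub_left]
    congr 1 <;> ring
  have h2 : ∫ θ in (0 : ℝ)..π, h (2 * π - θ) = ∫ θ in (0 : ℝ)..π, h θ :=
    intervalIntegral.integral_congr fun θ _ => hs θ
  rw [← h1, h2]
  ring

end LoopDAux

open LoopDAux

/-- No root lies in the interior of a segment. -/
theorem not_mem_Ioo (S : Seg (PR b N)) (k : Fin (g + 1)) : (b k : ℝ) ∉ Set.Ioo S.p S.q := by
  intro h
  have h0 : (PR b N).eval (b k : ℝ) = 0 := by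
    rw [eval_PR, Finset.prod_eq_zero (Finset.mem_univ k) (sub_self _), mul_zero]
  have h1 := congrArg (Polynomial.eval (b k : ℝ)) S.hK
  rw [Polynomial.eval_mul, h0, zero_mul, Polynomial.eval_mul, Polynomial.eval_mul,
    Polynomial.eval_sub, Polynomial.eval_sub, Polynomial.eval_X, Polynomial.eval_C,
    Polynomial.eval_C] at h1
  have h2 := S.Kpos (b k : ℝ) ⟨h.1.le, h.2.le⟩
  have h3 : 0 < (b k : ℝ) - S.p := by linarith [h.1]
  have h4 : (b k : ℝ) - S.q < 0 := by linarith [h.2]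
  have h5 := mul_neg_of_neg_of_pos (mul_neg_of_pos_of_neg h3 h4) h2
  linarith

namespace LoopDAux

theorem exists_gamma (hN : N ≠ 0) (S : Seg (PR b N)) {R : ℝ} (hR : 1 < R)
    (hs : ∀ z ∈ Ann R, Polynomial.aeval (S.xz z) S.K ∈ Complex.slitPlane) {r : ℝ} (h1r : 1 < r)
    (hrR : r < R) : ∃ γ : Torus 1 (CoordRing b N),
      (∀ k, regFun γ ![uF b N, uL b N k] =
        (∫ θ in (0 : ℝ)..(2 * π), Real.log ‖S.fz (pt r θ)‖ *
          (dk S.p S.q (pt r θ) / (jk S.p S.q (pt r θ) - (b k : ℝ))).re) -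
        ∫ θ in (0 : ℝ)..(2 * π), Real.log ‖jk S.p S.q (pt r θ) - ((b k : ℝ) : ℂ)‖ *
          ph S (pt r θ)) ∧
      regFun γ ![uF b N, P4a177s.intUnit (CoordRing b N) N hN] =
        -(Real.log |(N : ℝ)| * ∫ θ in (0 : ℝ)..(2 * π), ph S (pt r θ)) := by
  obtain ⟨hxd, hsd, hwd, hfd⟩ := differentiableOn_sz S hR hs
  have hmem : ∀ θ, pt r θ ∈ Ann R := pt_mem_Ann hR h1r.le hrR
  have hz0 : ∀ θ, pt r θ ≠ 0 := fun θ => ne_zero_of_mem_Ann hR (hmem θ)
  have hK0 : ∀ θ, Polynomial.aeval (S.xz (pt r θ)) S.K ≠ 0 := fun θ =>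
    Complex.slitPlane_ne_zero (hs _ (hmem θ))
  have hnorm : ∀ θ, ‖pt r θ‖ = r := norm_pt (by linarith)
  have hP0 : ∀ θ, Polynomial.aeval (S.xz (pt r θ)) (PR b N) ≠ 0 := by
    intro θ
    refine aeval_ne_zero S (hz0 θ) ?_ ?_ (hK0 θ)
    · intro h
      have := hnorm θ
      rw [h, norm_one] at this
      linarith
    · intro h
      have := hnorm θ
      rw [h, norm_neg, norm_one] at this
      linarith
  -- the open set
  have hPd : DifferentiableOn ℂ (fun z => Polynomial.aeval (S.xz z) (PR b N)) (Ann R) :=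
    fun z hz => (CurveDAux.hasDerivAt_aeval' S (PR b N)
      (ne_zero_of_mem_Ann hR hz)).differentiableAt.differentiableWithinAt
  have hU : IsOpen (Ann R ∩ (fun z => Polynomial.aeval (S.xz z) (PR b N)) ⁻¹' {0}ᶜ) :=
    hPd.continuousOn.isOpen_inter_preimage (isOpen_Ann R) isOpen_compl_singleton
  have hUm : ∀ θ, pt r θ ∈ Ann R ∩ (fun z => Polynomial.aeval (S.xz z) (PR b N)) ⁻¹' {0}ᶜ :=
    fun θ => ⟨hmem θ, hP0 θ⟩
  have htd : DifferentiableOn ℂ S.tz
      (Ann R ∩ (fun z => Polynomial.aeval (S.xz z) (PR b N)) ⁻¹' {0}ᶜ) := by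
    have h := ((hwd.mono Set.inter_subset_left).div (hPd.mono Set.inter_subset_left)
      (fun z hz => hz.2)).const_add 1 |>.div_const 2
    exact h
  have hX : ContDiff ℝ 2 fun θ => S.xz (pt r θ) := contDiff_comp (isOpen_Ann R) hxd hmem
  have hT : ContDiff ℝ 2 fun θ => S.tz (pt r θ) := contDiff_comp hU htd hUm
  have hF : ContDiff ℝ 2 fun θ => S.fz (pt r θ) := contDiff_comp (isOpen_Ann R) hfd hmem
  have hts := fun θ => tz_spec S (hz0 θ) (hK0 θ) (hP0 θ)
  obtain ⟨γ, hγX, hγT⟩ := exists_torus (b := b) (N := N) hX hT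
    (fun θ => by simp only [pt_add]) (fun θ => by simp only [pt_add])
    (fun θ => by
      have h := (hts θ).1
      rw [aeval_PR] at h
      linear_combination h)
  have hγF : ∀ θ : Fin 1 → ℝ, γ.emb θ (uF b N : CoordRing b N) = S.fz (pt r (θ 0)) := by
    intro θ
    have h1 : (uF b N : CoordRing b N) * (uT b N : CoordRing b N) = (uT1 b N : CoordRing b N) := by
      rw [← Units.val_mul]
      unfold uF
      rw [div_mul_cancel]
    have h2 := congrArg (γ.emb θ) h1
    rw [map_mul, uT_val, uT1_val, map_sub, map_one, hγT] at h2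
    rw [← (hts (θ 0)).2.2, eq_div_iff (hts (θ 0)).2.1, h2]
  have hγL : ∀ (k : Fin (g + 1)) (θ : Fin 1 → ℝ), γ.emb θ (uL b N k : CoordRing b N) =
      (fun t : ℝ => jk S.p S.q (pt r t) - ((b k : ℝ) : ℂ)) (θ 0) := by
    intro k θ
    rw [uL_val, map_sub, hγX, map_intCast]
    simp [Seg.xz]
  have hf0 : ∀ θ, S.fz (pt r θ) ≠ 0 := fun θ => fz_ne_zero S (hz0 θ) (hK0 θ)
  have hdF : ∀ θ, (deriv (fun t => S.fz (pt r t)) θ / S.fz (pt r θ)).im = ph S (pt r θ) := by
    intro θ
    have h1 := (hfd.differentiableAt ((isOpen_Ann R).mem_nhds (hmem θ))).hasDerivAt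
    rw [deriv_comp_pt h1, mul_div_assoc, I_mul_im, dlog_fz S hR hs (hmem θ)]
    rfl
  have hj0 : ∀ k θ, jk S.p S.q (pt r θ) - ((b k : ℝ) : ℂ) ≠ 0 := by
    intro k θ h
    refine hP0 θ ?_
    rw [aeval_PR, Finset.prod_eq_zero (Finset.mem_univ k), mul_zero]
    have h2 : S.xz (pt r θ) = ((b k : ℝ) : ℂ) := sub_eq_zero.1 h
    rw [h2]
    simp
  have hdG : ∀ k θ, (deriv (fun t => jk S.p S.q (pt r t) - ((b k : ℝ) : ℂ)) θ /
      (jk S.p S.q (pt r θ) - ((b k : ℝ) : ℂ))).im =
      (dk S.p S.q (pt r θ) / (jk S.p S.q (pt r θ) - ((b k : ℝ) : ℂ))).re := by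
    intro k θ
    have h1 : HasDerivAt (fun z => jk S.p S.q z - ((b k : ℝ) : ℂ))
        (dk S.p S.q (pt r θ) / pt r θ) (pt r θ) :=
      (CurveDAux.hasDerivAt_xz S (hz0 θ)).sub_const _
    rw [deriv_comp_pt (f := fun z => jk S.p S.q z - ((b k : ℝ) : ℂ)) h1, mul_div_assoc, I_mul_im,
      mul_div_cancel₀ _ (hz0 θ)]
  have hcF : Continuous fun θ => Real.log ‖S.fz (pt r θ)‖ :=
    (hF.continuous.norm).log fun θ => norm_ne_zero_iff.2 (hf0 θ)
  have hcx : Continuous fun θ => jk S.p S.q (pt r θ) := hX.continuous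
  have hcs : Continuous fun θ => S.sz (pt r θ) :=
    (contDiff_comp (isOpen_Ann R) hsd hmem).continuous
  have hcph : Continuous fun θ => ph S (pt r θ) := by
    unfold ph
    have h1 : Continuous fun θ => Polynomial.aeval (S.xz (pt r θ)) (Polynomial.derivative (PR b N)) :=
      (Polynomial.continuous_aeval _).comp hX.continuous
    exact Complex.continuous_re.comp ((h1.div hcs fun θ => CurveDAux.sz_ne S _).neg)
  have hcd : Continuous fun θ => dk S.p S.q (pt r θ) := by
    unfold dk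
    exact continuous_const.mul ((continuous_pt r).sub ((continuous_pt r).inv₀ hz0))
  refine ⟨γ, fun k => ?_, ?_⟩
  · rw [regFun_one γ ![uF b N, uL b N k] (fun t => S.fz (pt r t))
      (fun t => jk S.p S.q (pt r t) - ((b k : ℝ) : ℂ)) hγF (hγL k),
      ← intervalIntegral.integral_sub]
    · refine intervalIntegral.integral_congr fun θ _ => ?_
      simp only [hdF, hdG]
    · refine Continuous.intervalIntegrable ?_ _ _
      exact hcF.mul (Complex.continuous_re.comp (hcd.div (hcx.sub continuous_const) (hj0 k)))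
    · refine Continuous.intervalIntegrable ?_ _ _
      exact (((hcx.sub continuous_const).norm).log fun θ => norm_ne_zero_iff.2 (hj0 k θ)).mul hcph
  · rw [regFun_one γ ![uF b N, P4a177s.intUnit (CoordRing b N) N hN] (fun t => S.fz (pt r t))
      (fun _ => (N : ℂ)) hγF (fun θ => ?_), ← intervalIntegral.integral_const_mul,
      ← intervalIntegral.integral_neg]
    · refine intervalIntegral.integral_congr fun θ _ => ?_
      simp only [hdF, deriv_const, zero_div, Complex.zero_im, mul_zero, zero_sub]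
      rw [Complex.norm_intCast]
    · show γ.emb θ (P4a177s.intUnit (CoordRing b N) N hN : CoordRing b N) = (N : ℂ)
      rw [P4a177s.intUnit_val, map_intCast]

theorem tendsto_seq {R : ℝ} (hR : 1 < R) :
    Tendsto (fun n : ℕ => 1 + (R - 1) / ((n : ℝ) + 2)) atTop (𝓝[>] 1) := by
  refine tendsto_nhdsWithin_iff.2 ⟨?_, ?_⟩
  · have h1 : Tendsto (fun n : ℕ => (R - 1) / ((n : ℝ) + 2)) atTop (𝓝 0) := by
      refine Tendsto.div_atTop tendsto_const_nhds ?_
      exact tendsto_atTop_add_const_right _ _ tendsto_natCast_atTop_atTop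
    simpa using h1.const_add 1
  · refine Eventually.of_forall fun n => ?_
    have : 0 < (R - 1) / ((n : ℝ) + 2) := div_pos (by linarith) (by positivity)
    show 1 < 1 + (R - 1) / ((n : ℝ) + 2)
    linarith

theorem seq_lt {R : ℝ} (hR : 1 < R) (n : ℕ) : 1 + (R - 1) / ((n : ℝ) + 2) < R := by
  have h1 : (R - 1) / ((n : ℝ) + 2) < R - 1 := by
    rw [div_lt_iff₀ (by positivity)]
    have : 0 ≤ (n : ℝ) := Nat.cast_nonneg n
    nlinarith
  linarith

end LoopDAux

theorem exists_loops (hN : N ≠ 0) (S : Seg (PR b N)) :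
    ∃ γ : ℕ → Torus 1 (CoordRing b N),
      (∀ k, Tendsto (fun n => regFun (γ n) ![uF b N, uL b N k]) atTop (𝓝 (S.RR (b k)))) ∧
      Tendsto (fun n => regFun (γ n) ![uF b N, P4a177s.intUnit (CoordRing b N) N hN]) atTop
        (𝓝 (Real.log |(N : ℝ)| * S.TT)) := by
  obtain ⟨R, hR, hs⟩ := exists_ann S
  obtain ⟨hxd, hsd, hwd, hfd⟩ := differentiableOn_sz S hR hs
  have hphc : ContinuousOn (ph S) (Ann R) := by
    unfold ph
    have h1 : ContinuousOn (fun z => Polynomial.aeval (S.xz z) (Polynomial.derivative (PR b N)))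
        (Ann R) := (Polynomial.continuous_aeval _).comp_continuousOn hxd.continuousOn
    exact Complex.continuous_re.comp_continuousOn
      ((h1.div hsd.continuousOn fun z _ => CurveDAux.sz_ne S z).neg)
  have hseq : ∀ n : ℕ, 1 < 1 + (R - 1) / ((n : ℝ) + 2) := fun n => by
    have : 0 < (R - 1) / ((n : ℝ) + 2) := div_pos (by linarith) (by positivity)
    linarith
  choose γ hγ1 hγ2 using fun n : ℕ => exists_gamma hN S hR hs (hseq n) (seq_lt hR n)
  have hf0 : ∀ z ∈ Ann R, S.fz z ≠ 0 := fun z hz =>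
    fz_ne_zero S (ne_zero_of_mem_Ann hR hz) (Complex.slitPlane_ne_zero (hs z hz))
  refine ⟨γ, fun k => ?_, ?_⟩
  · have hc := not_mem_Ioo S k
    have hA := (tendsto_A hR hfd hf0 (fun z hz => norm_fz S hz) S.hpq hc).comp (tendsto_seq hR)
    have hB := (tendsto_B hR hphc S.hpq hc).comp (tendsto_seq hR)
    have h := hA.sub hB
    have e1 : (0 : ℝ) - ∫ θ in (0 : ℝ)..(2 * π),
        Real.log |(S.p + S.q) / 2 + (S.q - S.p) / 2 * Real.cos θ - (b k : ℝ)| * ph S (pt 1 θ) =
        S.RR (b k) := by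
      unfold Seg.RR
      rw [← fold_integral (h := fun θ => Real.log |S.xr θ - (b k : ℝ)| * S.dn θ), zero_sub,
        ← intervalIntegral.integral_neg]
      · refine intervalIntegral.integral_congr fun θ _ => ?_
        simp only [ph_circle]
        unfold Seg.xr
        ring
      · intro θ
        simp only [xr_sub, dn_sub]
      · intro a a'
        exact (integrable_log S.hpq hc a a').mul_continuousOn (continuous_dn S).continuousOn
    rw [e1] at h
    refine h.congr fun n => ?_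
    rw [hγ1 n k]
    rfl
  · have hC := (tendsto_const hR hphc).comp (tendsto_seq hR)
    have h := (hC.const_mul (Real.log |(N : ℝ)|)).neg
    have e1 : -(Real.log |(N : ℝ)| * ∫ θ in (0 : ℝ)..(2 * π), ph S (pt 1 θ)) =
        Real.log |(N : ℝ)| * S.TT := by
      unfold Seg.TT
      rw [← fold_integral (h := S.dn), ← mul_neg, ← intervalIntegral.integral_neg]
      · congr 1
        refine intervalIntegral.integral_congr fun θ _ => ?_
        simp only [ph_circle, neg_neg]
      · exact dn_sub S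
      · intro a a'
        exact (continuous_dn S).intervalIntegrable _ _
    rw [e1] at h
    refine h.congr fun n => ?_
    rw [hγ2 n]
    rfl

theorem sum_RR (hN : N ≠ 0) (S : Seg (PR b N)) :
    ∑ k, S.RR (b k) = -(Real.log |(N : ℝ)| * S.TT) := by
  obtain ⟨γ, h1, h2⟩ := exists_loops hN S
  have h3 : Tendsto (fun n => ∑ k, regFun (γ n) ![uF b N, uL b N k] +
      regFun (γ n) ![uF b N, P4a177s.intUnit (CoordRing b N) N hN]) atTop
      (𝓝 (∑ k, S.RR (b k) + Real.log |(N : ℝ)| * S.TT)) :=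
    (tendsto_finsetSum _ fun k _ => h1 k).add h2
  have h4 : Tendsto (fun n => ∑ k, regFun (γ n) ![uF b N, uL b N k] +
      regFun (γ n) ![uF b N, P4a177s.intUnit (CoordRing b N) N hN]) atTop (𝓝 0) := by
    refine tendsto_const_nhds.congr fun n => ?_
    exact (sum_reg b N hN (γ n)).symm
  have h5 := tendsto_nhds_unique h3 h4
  linarith

theorem exists_loop (hN : N ≠ 0) (S : Seg (PR b N)) (n : Fin (g + 1) → ℝ)
    (h : ∑ k, n k * S.RR (b k) ≠ 0) :
    ∃ γ : Torus 1 (CoordRing b N), ∑ k, n k * regFun γ ![uF b N, uL b N k] ≠ 0 := by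
  obtain ⟨γ, h1, -⟩ := exists_loops hN S
  have h3 : Tendsto (fun m => ∑ k, n k * regFun (γ m) ![uF b N, uL b N k]) atTop
      (𝓝 (∑ k, n k * S.RR (b k))) := tendsto_finsetSum _ fun k _ => (h1 k).const_mul _
  obtain ⟨m, hm⟩ := (h3.eventually_ne h).exists
  exact ⟨γ m, hm⟩

end P4a177d
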