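import Mathlib

/-!
# A nonzero minor
-/

set_option autoImplicit false

namespace P4a177d

theorem exists_minor {P : Type} {Q : Type*} [Fintype P] [DecidableEq P] (M : Q → P → ℝ)
    (hM : ∀ v : P → ℝ, v ≠ 0 → ∃ q, ∑ p, v p * M q p ≠ 0) :
    ∃ e : P → Q, (Matrix.of fun p p' => M (e p') p).det ≠ 0 := by
  classical
  have hspan : ⊤ ≤ Submodule.span ℝ (Set.range M) := by
    by_contra hlt
    have hlt' : Submodule.span ℝ (Set.range M) < ⊤ :=
      lt_of_le_of_ne le_top fun h => hlt (le_of_eq h.symm)
    obtain ⟨f, hf0, hf⟩ := Submodule.exists_le_ker_of_lt_top _ hlt'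
    have hfx : ∀ x : P → ℝ, f x = ∑ p, f (Pi.single p 1) * x p := by
      intro x
      conv_lhs => rw [← Finset.univ_sum_single x]
      rw [map_sum]
      refine Finset.sum_congr rfl fun p _ => ?_
      have : (Pi.single p (x p) : P → ℝ) = x p • Pi.single p (1 : ℝ) := by
        ext j
        by_cases hj : j = p
        · subst hj; simp
        · simp [Pi.single_eq_of_ne hj]
      rw [this, map_smul, smul_eq_mul, mul_comm]
    have hv : (fun p => f (Pi.single p 1)) ≠ 0 := by
      intro h0
      apply hf0
      refine LinearMap.ext fun x => ?_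
      rw [LinearMap.zero_apply, hfx]
      refine Finset.sum_eq_zero fun p _ => ?_
      have : f (Pi.single p 1) = 0 := congrFun h0 p
      rw [this, zero_mul]
    obtain ⟨q, hq⟩ := hM _ hv
    apply hq
    rw [← hfx (M q)]
    exact LinearMap.mem_ker.1 (hf (Submodule.subset_span ⟨q, rfl⟩))
  let B := Module.Basis.ofSpan hspan
  let E : P ≃ _ := (Pi.basisFun ℝ P).indexEquiv B
  have hmem : ∀ p, B (E p) ∈ Set.range M := fun p => Module.Basis.ofSpan_subset hspan ⟨_, rfl⟩
  choose e he using hmem
  refine ⟨e, ?_⟩
  have hli : LinearIndependent ℝ fun p => B (E p) :=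
    B.linearIndependent.comp _ E.injective
  have hli' : LinearIndependent ℝ (Matrix.of fun p' p => M (e p') p).row := by
    have : (Matrix.of fun p' p => M (e p') p).row = fun p => B (E p) := by
      funext p
      exact he p
    rw [this]
    exact hli
  have hu := Matrix.linearIndependent_rows_iff_isUnit.1 hli'
  have hd := (Matrix.isUnit_iff_isUnit_det _).1 hu
  have ht : (Matrix.of fun p p' => M (e p') p) = (Matrix.of fun p' p => M (e p') p).transpose := by
    ext; rfl
  rw [ht, Matrix.det_transpose]
  exact hd.ne_zero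

end P4a177d
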