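import Pool.Agent.Lib.P4a177d.XEnd
import Pool.Agent.Lib.P4a177d.AdmD
import Pool.Agent.Lib.P4a177d.IrrD
import Pool.Agent.Lib.P4a177d.ClosD
import Pool.Agent.Lib.P4a177d.MinorD

/-!
# Assembly
-/

set_option autoImplicit false

namespace P4a177d

open P4a177h

variable {g : ℕ} {b : Fin (g + 1) → ℤ} {N : ℤ}

/-- The coefficients `n_0 = -∑ v`, `n_{p+1} = v_p`. -/
def ext (v : Fin g → ℝ) : Fin (g + 1) → ℝ := Fin.cons (-∑ p, v p) v

theorem sum_ext (v : Fin g → ℝ) : ∑ k, ext v k = 0 := by
  unfold ext
  rw [Fin.sum_univ_succ, Fin.cons_zero]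
  simp

theorem sum_reg_xi (γ : Torus 1 (CoordRing b N)) (v : Fin g → ℝ) :
    ∑ p, v p * reg γ (xi b N p) = ∑ k, ext v k * regFun γ ![uF b N, uL b N k] := by
  simp only [reg_xi, mul_sub, Finset.sum_sub_distrib]
  unfold ext
  rw [Fin.sum_univ_succ]
  simp only [Fin.cons_zero, Fin.cons_succ]
  rw [← Finset.sum_mul]
  ring

/-- The regulator matrix is nonsingular for suitable loops, on every smooth curve of the family. -/
theorem exists_loops_det (hb : StrictMono b) (hN : N ≠ 0) (hs : Smooth b N) :
    ∃ γ : Fin g → Torus 1 (CoordRing b N), (P4a177s.regulatorMatrix (xi b N) γ).det ≠ 0 := by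
  obtain ⟨e, he⟩ := exists_minor (P := Fin g) (Q := Torus 1 (CoordRing b N))
    (fun γ p => reg γ (xi b N p)) (by
      intro v hv
      by_contra hcon
      push Not at hcon
      apply hv
      have hz : ext v = 0 := by
        refine ker_all hb hN (deriv_ne_zero b N hs) (ext v) (sum_ext v) fun γ => ?_
        rw [← sum_reg_xi]
        exact hcon γ
      funext p
      have := congrFun hz p.succ
      unfold ext at this
      rw [Fin.cons_succ] at this
      exact this)
  exact ⟨e, he⟩

end P4a177d
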