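import Pool.Agent.Lib.P4a177d.LimB

/-!
# MODULE P4a177d.MeasE: a segment on which `P'` does not vanish (est. 0.8 h; calculus)

PROOF. `dn` is continuous on `ℝ` (`xr θ ∈ [p, q]`, `K > 0` there) and does not vanish, so it has constant sign (IVT), `TT ≠ 0`.
`exists_eval`: `2 ∫_0^π (∑ a_k log |xr θ - c_k| - L) dn θ dθ = 0` (`integrable_log` and linearity). Let
`h x = ∑ a_k log |x - c_k| - L`, continuous on `Ioo p q` (no `c_k` there). If `h` has no zero in `Ioo p q`, then it has constant sign there (`IsPreconnected`/IVT),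
so the integrand `h (xr θ) dn θ` has constant sign on `Ioo 0 π` (there `xr θ ∈ Ioo p q`, as `-1 < cos θ < 1`) and is interval integrable: the integral is not zero
(`intervalIntegral.intervalIntegral_pos_of_pos_on`; it needs `IntervalIntegrable`, positivity on `Ioo`): contradiction.
-/

set_option autoImplicit false

namespace P4a177d

open Polynomial MeasureTheory
open scoped Real

variable {P : Polynomial ℝ}

namespace MeasEAux

theorem xr_mem (S : Seg P) (θ : ℝ) : S.xr θ ∈ Set.Icc S.p S.q := by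
  have h1 := Real.neg_one_le_cos θ
  have h2 := Real.cos_le_one θ
  have h3 := S.hpq
  unfold Seg.xr
  constructor <;> nlinarith

theorem xr_mem_Ioo (S : Seg P) {θ : ℝ} (h : θ ∈ Set.Ioo 0 π) : S.xr θ ∈ Set.Ioo S.p S.q := by
  have h1 : -1 < Real.cos θ := by
    have h4 := Real.cos_lt_cos_of_nonneg_of_le_pi h.1.le le_rfl h.2
    rwa [Real.cos_pi] at h4
  have h2 : Real.cos θ < 1 := by
    have h4 := Real.cos_lt_cos_of_nonneg_of_le_pi le_rfl h.2.le h.1
    rwa [Real.cos_zero] at h4
  have h3 := S.hpq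
  unfold Seg.xr
  constructor <;> nlinarith

theorem continuous_xr (S : Seg P) : Continuous S.xr := by
  unfold Seg.xr
  fun_prop

theorem sqrt_pos (S : Seg P) (θ : ℝ) : 0 < Real.sqrt (S.K.eval (S.xr θ)) :=
  Real.sqrt_pos.2 (S.Kpos _ (xr_mem S θ))

theorem continuous_dn (S : Seg P) : Continuous S.dn := by
  unfold Seg.dn
  exact ((derivative P).continuous.comp (continuous_xr S)).div
    ((S.K.continuous.comp (continuous_xr S)).sqrt) fun θ => (sqrt_pos S θ).ne'

/-- the density has constant sign -/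
theorem exists_sign {f : ℝ → ℝ} (hf : Continuous f) (h0 : ∀ x, f x ≠ 0) :
    ∃ σ : ℝ, σ * σ = 1 ∧ ∀ x, 0 < σ * f x := by
  rcases lt_or_gt_of_ne (h0 0) with h | h
  · refine ⟨-1, by norm_num, fun x => ?_⟩
    by_contra hx
    have h1 : 0 ≤ f x := by linarith
    obtain ⟨y, hy⟩ := mem_range_of_exists_le_of_exists_ge hf ⟨0, h.le⟩ ⟨x, h1⟩
    exact h0 y hy
  · refine ⟨1, by norm_num, fun x => ?_⟩
    by_contra hx
    have h1 : f x ≤ 0 := by linarith
    obtain ⟨y, hy⟩ := mem_range_of_exists_le_of_exists_ge hf ⟨x, h1⟩ ⟨0, h.le⟩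
    exact h0 y hy

end MeasEAux

open MeasEAux

theorem exists_eval (S : Seg P)
    (hd : ∀ x ∈ Set.Icc S.p S.q, (derivative P).eval x ≠ 0) {m : ℕ} (a c : Fin m → ℝ)
    (hc : ∀ k, c k ∉ Set.Ioo S.p S.q) (L : ℝ) (h : ∑ k, a k * S.RR (c k) = L * S.TT) :
    ∃ x ∈ Set.Ioo S.p S.q, ∑ k, a k * Real.log |x - c k| = L := by
  by_contra hno
  push Not at hno
  have hcd := continuous_dn S
  have hne : ∀ θ, S.dn θ ≠ 0 := fun θ =>
    div_ne_zero (hd _ (xr_mem S θ)) (sqrt_pos S θ).ne'
  obtain ⟨σ, hσ, hs⟩ := exists_sign hcd hne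
  obtain ⟨f, hf⟩ : ∃ f : ℝ → ℝ, ∀ x, f x = ∑ k, a k * Real.log |x - c k| - L :=
    ⟨_, fun _ => rfl⟩
  have hfc : ContinuousOn f (Set.Ioo S.p S.q) := by
    have e : f = fun x => ∑ k, a k * Real.log |x - c k| - L := funext hf
    rw [e]
    refine (continuousOn_finsetSum _ fun k _ => ?_).sub continuousOn_const
    refine continuousOn_const.mul (ContinuousOn.log ?_ ?_)
    · exact (continuous_id.sub continuous_const).abs.continuousOn
    · intro x hx h0
      exact hc k ((sub_eq_zero.1 (abs_eq_zero.1 h0)) ▸ hx)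
  have hf0 : ∀ x ∈ Set.Ioo S.p S.q, f x ≠ 0 := fun x hx h0 => hno x hx (by
    rw [hf] at h0
    linarith)
  -- the function `f` has a constant sign
  obtain ⟨τ, hτ, ht⟩ : ∃ τ : ℝ, τ * τ = 1 ∧ ∀ x ∈ Set.Ioo S.p S.q, 0 < τ * f x := by
    have hmid : (S.p + S.q) / 2 ∈ Set.Ioo S.p S.q := by
      have := S.hpq
      constructor <;> linarith
    have hpc : IsPreconnected (Set.Ioo S.p S.q) := isPreconnected_Ioo
    rcases lt_or_gt_of_ne (hf0 _ hmid) with h1 | h1
    · refine ⟨-1, by norm_num, fun x hx => ?_⟩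
      by_contra hx0
      have h2 : 0 ≤ f x := by linarith
      obtain ⟨y, hy, hy0⟩ := hpc.intermediate_value hmid hx hfc ⟨h1.le, h2⟩
      exact hf0 y hy hy0
    · refine ⟨1, by norm_num, fun x hx => ?_⟩
      by_contra hx0
      have h2 : f x ≤ 0 := by linarith
      obtain ⟨y, hy, hy0⟩ := hpc.intermediate_value hx hmid hfc ⟨h2, h1.le⟩
      exact hf0 y hy hy0
  -- integrability
  have hi : ∀ k, IntervalIntegrable (fun θ => a k * (Real.log |S.xr θ - c k| * S.dn θ))
      volume 0 π := fun k =>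
    ((integrable_log S.hpq (hc k) 0 π).mul_continuousOn hcd.continuousOn).const_mul (a k)
  have hi0 : IntervalIntegrable (fun θ => L * S.dn θ) volume 0 π :=
    (continuous_const.mul hcd).intervalIntegrable _ _
  have hsum : ∫ θ in (0 : ℝ)..π, f (S.xr θ) * S.dn θ = 0 := by
    have e1 : (fun θ => f (S.xr θ) * S.dn θ) = fun θ =>
        (∑ k, a k * (Real.log |S.xr θ - c k| * S.dn θ)) - L * S.dn θ := by
      funext θ
      rw [hf, sub_mul, Finset.sum_mul]
      congr 1
      exact Finset.sum_congr rfl fun k _ => by ring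
    have hi1 : IntervalIntegrable
        (fun θ => ∑ k, a k * (Real.log |S.xr θ - c k| * S.dn θ)) volume 0 π := by
      have := IntervalIntegrable.sum Finset.univ
        (f := fun k θ => a k * (Real.log |S.xr θ - c k| * S.dn θ)) fun k _ => hi k
      refine this.congr ?_
      intro θ _
      simp [Finset.sum_apply]
    rw [e1, intervalIntegral.integral_sub hi1 hi0,
      intervalIntegral.integral_finsetSum fun k _ => hi k, intervalIntegral.integral_const_mul]
    have e2 : ∑ k, a k * S.RR (c k) =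
        2 * ∑ k, ∫ θ in (0 : ℝ)..π, a k * (Real.log |S.xr θ - c k| * S.dn θ) := by
      rw [Finset.mul_sum]
      refine Finset.sum_congr rfl fun k _ => ?_
      rw [intervalIntegral.integral_const_mul]
      unfold Seg.RR
      ring
    rw [e2] at h
    unfold Seg.TT at h
    linarith
  have hpos : 0 < ∫ θ in (0 : ℝ)..π, (τ * σ) * (f (S.xr θ) * S.dn θ) := by
    refine intervalIntegral.intervalIntegral_pos_of_pos_on ?_ ?_ Real.pi_pos
    · have e1 : (fun θ => (τ * σ) * (f (S.xr θ) * S.dn θ)) = fun θ =>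
          (τ * σ) * ((∑ k, a k * (Real.log |S.xr θ - c k| * S.dn θ)) - L * S.dn θ) := by
        funext θ
        rw [hf, sub_mul, Finset.sum_mul]
        congr 2
        exact Finset.sum_congr rfl fun k _ => by ring
      rw [e1]
      refine IntervalIntegrable.const_mul (IntervalIntegrable.sub ?_ hi0) _
      have := IntervalIntegrable.sum Finset.univ
        (f := fun k θ => a k * (Real.log |S.xr θ - c k| * S.dn θ)) fun k _ => hi k
      refine this.congr ?_
      intro θ _
      simp [Finset.sum_apply]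
    · intro θ hθ
      have h1 := ht _ (xr_mem_Ioo S hθ)
      have h2 := hs θ
      have h3 : (τ * σ) * (f (S.xr θ) * S.dn θ) = (τ * f (S.xr θ)) * (σ * S.dn θ) := by ring
      rw [h3]
      exact mul_pos h1 h2
  rw [intervalIntegral.integral_const_mul, hsum, mul_zero] at hpos
  exact lt_irrefl _ hpos

end P4a177d
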