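import Mathlib

/-!
# MODULE P4a177d.PairD: the pair inequality (est. 0.7 h; only Mathlib; concave functions)

PROOF. `pair_beta`: `v < d - c < d - u`.
`pair_far`: `log (d - u) < 0` gives `d - u < 1`, so `s = d - c < 1`. Let `ρ = - log s / log (l + c) > 0` (`l + c > 1`),
`G x = log (d - x) + ρ log (l + x)` for `0 ≤ x < d`: strictly concave (`strictConcaveOn_log_Ioi`, composed with affine maps), `G 0 = log d + ρ log l ≥ 0`, `G c = 0`.
So `G > 0` on `(0, c)` and `G < 0` on `(c, d)` [strict concavity at the three points `0 < c < x`]: `G u > 0`, `G (d - v) < 0`. With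
`A = log (d - u)`, `a = log (l + u) > 0`, `B = - log v`, `a' = log (l + d - v) > 0`:
`A + ρ a > 0` and `- B + ρ a' < 0`; so `a B > a ρ a' > - A a'`.
`pair_near`: `a = log (l + d - u) ≥ a' = log (l + v) > 0`, and `B > - A > 0` by `pair_beta`: `a B ≥ a' B > a' (- A)`.
-/

set_option autoImplicit false

namespace P4a177d

variable {u v c d l : ℝ}

private theorem strict_log {a b t : ℝ} (ha : 0 < a) (hb : 0 < b) (hab : a ≠ b) (h0 : 0 < t)
    (h1 : t < 1) : (1 - t) * Real.log a + t * Real.log b < Real.log ((1 - t) * a + t * b) := by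
  have h := strictConcaveOn_log_Ioi.2 (Set.mem_Ioi.2 ha) (Set.mem_Ioi.2 hb) hab (sub_pos.2 h1) h0
    (by ring)
  simpa [smul_eq_mul] using h

theorem pair_beta (huc : u < c) (hv : 0 < v) (hvc : v < d - c) :
    Real.log v < Real.log (d - u) :=
  Real.log_lt_log hv (by linarith)

theorem pair_far (hc : 0 < c) (hcd : c < d) (hd : 1 ≤ d) (hl : 1 ≤ l) (hu : 0 < u) (huc : u < c)
    (hv : 0 < v) (hvc : v < d - c) (hneg : Real.log (d - u) < 0) :
    0 < Real.log (l + u) * (-Real.log v) + Real.log (d - u) * Real.log (l + d - v) := by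
  have hs : 0 < d - c := by linarith
  have hlog : Real.log (d - c) < 0 := lt_trans (Real.log_lt_log hs (by linarith)) hneg
  have hlc : 0 < Real.log (l + c) := Real.log_pos (by linarith)
  set ρ : ℝ := -Real.log (d - c) / Real.log (l + c) with hρ
  have hρ0 : 0 < ρ := div_pos (by linarith) hlc
  have hGc : Real.log (d - c) + ρ * Real.log (l + c) = 0 := by
    rw [hρ, div_mul_cancel₀ _ hlc.ne']
    ring
  have hG0 : 0 ≤ Real.log d + ρ * Real.log l := by
    have h1 : 0 ≤ Real.log d := Real.log_nonneg hd
    have h2 : 0 ≤ Real.log l := Real.log_nonneg hl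
    positivity
  have hA : 0 < Real.log (d - u) + ρ * Real.log (l + u) := by
    set t := u / c with ht
    have ht0 : 0 < t := div_pos hu hc
    have ht1 : t < 1 := by rw [ht, div_lt_one hc]; exact huc
    have htc : t * c = u := by rw [ht]; field_simp
    have e1 := strict_log (a := d) (b := d - c) (by linarith) hs (by linarith) ht0 ht1
    have e2 := strict_log (a := l) (b := l + c) (by linarith) (by linarith) (by linarith) ht0 ht1
    rw [show (1 - t) * d + t * (d - c) = d - u by linear_combination -htc] at e1
    rw [show (1 - t) * l + t * (l + c) = l + u by linear_combination htc] at e2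
    have e3 : ρ * ((1 - t) * Real.log l + t * Real.log (l + c)) < ρ * Real.log (l + u) :=
      mul_lt_mul_of_pos_left e2 hρ0
    have e4 : 0 ≤ (1 - t) * (Real.log d + ρ * Real.log l) :=
      mul_nonneg (by linarith) hG0
    have e5 : t * (Real.log (d - c) + ρ * Real.log (l + c)) = 0 := by rw [hGc, mul_zero]
    nlinarith
  have hB : Real.log v + ρ * Real.log (l + d - v) < 0 := by
    have hx : 0 < d - v := by linarith
    set t := c / (d - v) with ht
    have ht0 : 0 < t := div_pos hc hx
    have ht1 : t < 1 := by rw [ht, div_lt_one hx]; linarith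
    have htc : t * (d - v) = c := by rw [ht]; field_simp
    have e1 := strict_log (a := d) (b := v) (by linarith) hv (by linarith) ht0 ht1
    have e2 := strict_log (a := l) (b := l + d - v) (by linarith) (by linarith) (by linarith) ht0 ht1
    rw [show (1 - t) * d + t * v = d - c by linear_combination -htc] at e1
    rw [show (1 - t) * l + t * (l + d - v) = l + c by linear_combination htc] at e2
    have e3 : ρ * ((1 - t) * Real.log l + t * Real.log (l + d - v)) < ρ * Real.log (l + c) :=
      mul_lt_mul_of_pos_left e2 hρ0
    have e4 : 0 ≤ (1 - t) * (Real.log d + ρ * Real.log l) :=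
      mul_nonneg (by linarith) hG0
    have e5 : t * (Real.log v + ρ * Real.log (l + d - v)) < 0 := by nlinarith
    by_contra hcon
    push Not at hcon
    have := mul_nonneg ht0.le hcon
    linarith
  have ha : 0 < Real.log (l + u) := Real.log_pos (by linarith)
  have ha' : 0 < Real.log (l + d - v) := Real.log_pos (by linarith)
  have f1 : Real.log (l + u) * (ρ * Real.log (l + d - v)) < Real.log (l + u) * (-Real.log v) :=
    mul_lt_mul_of_pos_left (by linarith) ha
  have f2 : (-Real.log (d - u)) * Real.log (l + d - v) <
      (ρ * Real.log (l + u)) * Real.log (l + d - v) := mul_lt_mul_of_pos_right (by linarith) ha'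
  linarith

theorem pair_near (hc : 0 < c) (hcd : c < d) (hl : 1 ≤ l) (hu : 0 < u) (huc : u < c)
    (hv : 0 < v) (hvc : v < d - c) (hneg : Real.log (d - u) < 0) :
    0 < Real.log (l + d - u) * (-Real.log v) + Real.log (d - u) * Real.log (l + v) := by
  have _ := hc
  have _ := hcd
  have _ := hu
  have h12 : Real.log (l + v) < Real.log (l + d - u) := Real.log_lt_log (by linarith) (by linarith)
  have ha' : 0 < Real.log (l + v) := Real.log_pos (by linarith)
  have hb := pair_beta (d := d) huc hv hvc
  have f1 : Real.log (l + v) * (-Real.log v) < Real.log (l + d - u) * (-Real.log v) :=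
    mul_lt_mul_of_pos_right h12 (by linarith)
  have f2 : Real.log (l + v) * (-Real.log (d - u)) < Real.log (l + v) * (-Real.log v) :=
    mul_lt_mul_of_pos_left (by linarith) ha'
  linarith

end P4a177d
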