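import Pool.Agent.Lib.P4a177d.RowsD
import Pool.Agent.Lib.P4a177d.ByPartsD
import Pool.Agent.Lib.P4a177d.BoundB

/-!
# MODULE P4a177d.RealD: the kernel is zero (est. 1.2 h; assembly)

PROOF. `typeD`: let `S = [b_i, b_{i+1}]` be a type D gap, `lam = (n_i + n_{i+1})/2`,
`h = (n_i - n_{i+1})/2`, suppose `h ≠ 0`. `∑ RR (b k) = - log|N| TT = 0` (`sum_RR`, `TT_eq_zero`; `P(b_i) = 0`). So
`∑ (n k - lam) RR (b k) = 0` and `exists_eval_D` gives `x` in the gap with `∑ (n k - lam)/(x - b k) = 0`. But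
`∑_k (n k - lam)/(x - b k) = h (1/(x - b_i) + 1/(b_{i+1} - x)) + ∑_{k ≠ i, i+1} (n k - lam)/(x - b k)`, where `|n k - lam| ≤ |h|`: by `others` it is not zero: contradiction.
`ker_eq_zero`: if `n ≠ 0`: let `j`, `j'` be indices where `n` is maximal, minimal (`Finite.exists_max`); `n j ≠ n j'` (else constant, so zero).
`max_mem` for `n`, `j` and for `-n`, `j'`: type D gaps `i`, `i'`; `gap_unique` (with `gap_not_adjacent`) gives `i = i'`; so `{j, j'} = {i.castSucc, i.succ}`; `typeD`.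
-/

set_option autoImplicit false

namespace P4a177d

open Polynomial MeasureTheory

variable {g : ℕ} {b : Fin (g + 1) → ℤ} {N : ℤ}

namespace RealDAux

theorem eval_root (k : Fin (g + 1)) : (PR b N).eval (b k : ℝ) = 0 := by
  rw [eval_PR, Finset.prod_eq_zero (Finset.mem_univ k) (sub_self _), mul_zero]

end RealDAux

open RealDAux

theorem typeD (hb : StrictMono b) (hN : N ≠ 0) (i : Fin g)
    (h : ∀ x ∈ Set.Ioo (b i.castSucc : ℝ) (b i.succ), -4 < (PR b N).eval x ∧ (PR b N).eval x < 0)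
    (S : Seg (PR b N)) (h1 : S.p = b i.castSucc) (h2 : S.q = b i.succ)
    (n : Fin (g + 1) → ℝ) (hk : ∑ k, n k * S.RR (b k) = 0)
    (hlam : ∀ k, |n k - (n i.castSucc + n i.succ) / 2| ≤ |n i.castSucc - n i.succ| / 2) :
    n i.castSucc = n i.succ := by
  by_contra hne
  have hp : (PR b N).eval S.p = 0 := by
    rw [h1]
    exact eval_root _
  have hq : (PR b N).eval S.q = 0 := by
    rw [h2]
    exact eval_root _
  have hR := sum_RR hN S
  rw [TT_eq_zero S hp hq, mul_zero, neg_zero] at hR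
  obtain ⟨lam, hl⟩ : ∃ lam : ℝ, lam = (n i.castSucc + n i.succ) / 2 := ⟨_, rfl⟩
  rw [← hl] at hlam
  obtain ⟨x, hx, hx0⟩ := exists_eval_D S hp hq (fun k => n k - lam) (fun k => (b k : ℝ))
    (fun k => not_mem_Ioo S k) (by
      simp only [sub_mul]
      rw [Finset.sum_sub_distrib, ← Finset.mul_sum, hk, hR, mul_zero, sub_zero])
  rw [h1, h2] at hx
  have ho := others hb hN i h x hx
  have hx1 : 0 < x - b i.castSucc := sub_pos.2 hx.1
  have hx2 : 0 < (b i.succ : ℝ) - x := sub_pos.2 hx.2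
  obtain ⟨W, hW⟩ : ∃ W : ℝ, W = 1 / (x - b i.castSucc) + 1 / ((b i.succ : ℝ) - x) := ⟨_, rfl⟩
  rw [← hW] at ho
  have hW0 : 0 < W := by
    rw [hW]
    positivity
  have hcs : i.succ ≠ i.castSucc := (Fin.castSucc_lt_succ (i := i)).ne'
  have hmem : i.succ ∈ Finset.univ.erase i.castSucc :=
    Finset.mem_erase.2 ⟨hcs, Finset.mem_univ _⟩
  rw [← Finset.add_sum_erase Finset.univ _ (Finset.mem_univ i.castSucc),
    ← Finset.add_sum_erase _ _ hmem] at hx0
  obtain ⟨hh, hhd⟩ : ∃ hh : ℝ, hh = (n i.castSucc - n i.succ) / 2 := ⟨_, rfl⟩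
  have hh0 : 0 < |hh| := by
    rw [hhd]
    exact abs_pos.2 (div_ne_zero (sub_ne_zero.2 hne) two_ne_zero)
  have e1 : n i.castSucc - lam = hh := by rw [hl, hhd]; ring
  have e2 : n i.succ - lam = -hh := by rw [hl, hhd]; ring
  have e3 : |n i.castSucc - n i.succ| / 2 = |hh| := by
    rw [hhd, abs_div, abs_of_pos (two_pos : (0 : ℝ) < 2)]
  rw [e3] at hlam
  simp only [e1, e2] at hx0
  have e4 : hh / (x - b i.castSucc) + -hh / (x - b i.succ) = hh * W := by
    have h3 : x - (b i.succ : ℝ) = -((b i.succ : ℝ) - x) := by ring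
    rw [hW, h3, neg_div_neg_eq]
    ring
  have hsum : |∑ k ∈ (Finset.univ.erase i.castSucc).erase i.succ, (n k - lam) / (x - b k)| ≤
      |hh| * ∑ k ∈ (Finset.univ.erase i.castSucc).erase i.succ, 1 / |x - b k| := by
    refine (Finset.abs_sum_le_sum_abs _ _).trans ?_
    rw [Finset.mul_sum]
    refine Finset.sum_le_sum fun k _ => ?_
    rw [abs_div, mul_one_div]
    exact div_le_div_of_nonneg_right (hlam k) (abs_nonneg _)
  have e5 : ∑ k ∈ (Finset.univ.erase i.castSucc).erase i.succ, (n k - lam) / (x - b k) =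
      -(hh * W) := by
    linear_combination hx0 - e4
  rw [e5, abs_neg, abs_mul, abs_of_pos hW0] at hsum
  exact absurd (mul_lt_mul_of_pos_left ho hh0) (not_lt.2 hsum)

theorem ker_eq_zero (hb : StrictMono b) (hN : N ≠ 0)
    (hs : ∀ x : ℝ, (PR b N).eval x = -4 → (derivative (PR b N)).eval x ≠ 0)
    (hex : g ≤ 2 ∨ 5 ≤ g ∨ 5 ≤ |N| ∨ 6 ≤ b (Fin.last g) - b 0)
    (n : Fin (g + 1) → ℝ) (hn : ∑ k, n k = 0)
    (hk : ∀ S : Seg (PR b N), ∑ k, n k * S.RR (b k) = 0) : n = 0 := by
  by_contra hn0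
  obtain ⟨j, hj⟩ := Finite.exists_max n
  obtain ⟨j', hj'⟩ := Finite.exists_min n
  obtain ⟨i, hi, hP, S, hS1, hS2⟩ := max_mem hb hN hs n hn hk hn0 j hj
  obtain ⟨i', hi', hP', -⟩ := max_mem hb hN hs (fun k => -n k)
    (by rw [Finset.sum_neg_distrib, hn, neg_zero])
    (fun S => by simp only [neg_mul]; rw [Finset.sum_neg_distrib, hk S, neg_zero])
    (fun h0 => hn0 (by
      funext k
      have := congrFun h0 k
      simpa using this)) j' (fun k => neg_le_neg (hj' k))
  have hii : i = i' := gap_unique hb hN hex i i' hP hP'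
    (gap_not_adjacent hb hN (fun x hx => (hP x hx).2) fun x hx => (hP' x hx).2)
    (gap_not_adjacent hb hN (fun x hx => (hP' x hx).2) fun x hx => (hP x hx).2)
  subst hii
  have hjj : n j ≠ n j' := by
    intro h0
    have hc : ∀ k, n k = n j := fun k => le_antisymm (hj k) (h0 ▸ hj' k)
    have h1 : ∑ k, n k = (g + 1 : ℕ) * n j := by
      rw [Finset.sum_congr rfl fun k _ => hc k, Finset.sum_const, Finset.card_univ,
        Fintype.card_fin, nsmul_eq_mul]
    rw [hn] at h1
    have h2 : n j = 0 := by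
      rcases mul_eq_zero.1 h1.symm with h3 | h3
      · exact absurd h3 (by positivity)
      · exact h3
    exact hn0 (funext fun k => (hc k).trans h2)
  have hlam : ∀ k, |n k - (n i.castSucc + n i.succ) / 2| ≤ |n i.castSucc - n i.succ| / 2 := by
    intro k
    have a1 := hj k
    have a2 := hj' k
    rcases hi with hi | hi <;> rcases hi' with hi' | hi'
    · exact absurd (by rw [hi, hi']) hjj
    · rw [← hi, ← hi', abs_of_nonneg (sub_nonneg.2 (hj' j)), abs_le]
      constructor <;> linarith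
    · rw [← hi, ← hi', abs_sub_comm (n j'), abs_of_nonneg (sub_nonneg.2 (hj' j)), abs_le]
      constructor <;> linarith
    · exact absurd (by rw [hi, hi']) hjj
  have ht := typeD hb hN i hP S hS1 hS2 n (hk S) hlam
  rcases hi with hi | hi <;> rcases hi' with hi' | hi'
  · exact hjj (by rw [hi, hi'])
  · exact hjj (by rw [hi, hi']; exact ht)
  · exact hjj (by rw [hi, hi']; exact ht.symm)
  · exact hjj (by rw [hi, hi'])

end P4a177d
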