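import Pool.Agent.Lib.P4a177d.GeomB
import Pool.Agent.Lib.P4a177d.MeasE
import Pool.Agent.Lib.P4a177d.PairD
import Pool.Agent.Lib.P4a177d.ElimD
import Pool.Agent.Lib.P4a177d.LoopD

/-!
# MODULE P4a177d.RowsD: the maximum of an element of the kernel is attained only at type D gaps (est. 1.5 h; assembly)

PROOF. `row_eval`: for a segment `S` with nonvanishing `P'` and any real `lam`: `exists_eval` with `a k = n k - lam`, `c k = b k` (`not_mem_Ioo`), `L = lam log |N|`
[`∑ (n k - lam) RR (b k) = 0 - lam ∑ RR (b k) = lam log |N| TT`: `hk`, `sum_RR`] gives `x ∈ Ioo S.p S.q` with `∑ (n k - lam) log |x - b k| = lam log |N|`. With `lam = n j` this is the row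
`∑ (n j - n k) A k = - n j L`, `A k = log |x - b k|`, `L = log |N| ≥ 0`.
`rows_right`: `S` from `right_case`: `x > b_g`, so for `k ≠ last`: `|x - b k| > 1` (`b k ≤ b_g - 1` by `hb`, integers), `A k > 0`:
`unpaired` gives `n = 0`. `rows_left`: the same.
`rows_gap`: two segments `S = [b_i, e]`, `S' = [e', b_{i+1}]`, `e < c < e'`; points `x ∈ S`, `y ∈ S'` from `row_eval`, both with `lam = n j`. For `x` in the gap and `k ≠ i, i+1`: `|x - b k| > 1`, so `A k > 0`.
If the maximum is at `j = i.castSucc`: `paired` with `A k = log |x - b k|`, `A' k = log |y - b k|`, `j' = i.succ`: use `PairD` with `u = x - b_i ∈ (0, c₀)`, `c₀ = c - b_i`,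
`v = b_{i+1} - y ∈ (0, d - c₀)`, `d = b_{i+1} - b_i ≥ 1`: `A j' = log (d - u)`, `A' j' = log v`; for `k > i + 1`, `b k = b_{i+1} + l`, `l ≥ 1`:
`|x - b k| = l + d - u`, `|y - b k| = l + v`: `pair_near`; for `k < i`, `b k = b_i - l`: `|x - b k| = l + u`, `|y - b k| = l + d - v`: `pair_far`.
If the maximum is at `j = i.succ`: the same with the roles exchanged (`A k = log |y - b k|`, `u = b_{i+1} - y`, `c₀ = b_{i+1} - c`, `v = x - b_i`).
`max_mem`: `root_cases` and `gap_cases`.
-/

set_option autoImplicit false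

namespace P4a177d

open Polynomial MeasureTheory

variable {g : ℕ} {b : Fin (g + 1) → ℤ} {N : ℤ}

namespace RowsDAux

theorem log_abs_nonneg (hN : N ≠ 0) : 0 ≤ Real.log |(N : ℝ)| := by
  apply Real.log_nonneg
  have := Int.one_le_abs hN
  exact_mod_cast this

theorem lt_gap (hb : StrictMono b) {k j : Fin (g + 1)} (h : k < j) : (b k : ℝ) + 1 ≤ b j := by
  have := Int.add_one_le_of_lt (hb h)
  exact_mod_cast this

theorem log_pos_left {x y : ℝ} (h : y + 1 < x) : 0 < Real.log |x - y| := by
  rw [abs_of_pos (by linarith)]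
  exact Real.log_pos (by linarith)

theorem log_pos_right {x y : ℝ} (h : x + 1 < y) : 0 < Real.log |x - y| := by
  rw [abs_of_neg (by linarith)]
  exact Real.log_pos (by linarith)

theorem log_left {x y z : ℝ} (h : y < x) (hz : z = x - y) : Real.log |x - y| = Real.log z := by
  rw [abs_of_pos (by linarith), hz]

theorem log_right {x y z : ℝ} (h : x < y) (hz : z = y - x) : Real.log |x - y| = Real.log z := by
  rw [abs_of_neg (by linarith), hz]
  congr 1
  ring

/-- the other indices of a gap -/
theorem other (i : Fin g) {k : Fin (g + 1)} (h1 : k ≠ i.castSucc) (h2 : k ≠ i.succ) :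
    k < i.castSucc ∨ i.succ < k := by
  rw [Ne, Fin.ext_iff] at h1 h2
  rw [Fin.lt_def, Fin.lt_def]
  simp only [Fin.val_castSucc, Fin.val_succ] at h1 h2 ⊢
  omega

end RowsDAux

open RowsDAux

theorem row_eval (hN : N ≠ 0) (S : Seg (PR b N))
    (hd : ∀ x ∈ Set.Icc S.p S.q, (derivative (PR b N)).eval x ≠ 0)
    (n : Fin (g + 1) → ℝ) (hk : ∑ k, n k * S.RR (b k) = 0) (lam : ℝ) :
    ∃ x ∈ Set.Ioo S.p S.q,
      ∑ k, (lam - n k) * Real.log |x - b k| = -(lam * Real.log |(N : ℝ)|) := by
  have h : ∑ k, (n k - lam) * S.RR (b k) = (lam * Real.log |(N : ℝ)|) * S.TT := by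
    have h1 : ∑ k, (n k - lam) * S.RR (b k) =
        ∑ k, n k * S.RR (b k) - lam * ∑ k, S.RR (b k) := by
      rw [Finset.mul_sum, ← Finset.sum_sub_distrib]
      exact Finset.sum_congr rfl fun k _ => by ring
    rw [h1, hk, sum_RR hN S]
    ring
  obtain ⟨x, hx, hx2⟩ := exists_eval S hd (fun k => n k - lam) (fun k => (b k : ℝ))
    (not_mem_Ioo S) (lam * Real.log |(N : ℝ)|) h
  refine ⟨x, hx, ?_⟩
  rw [← hx2, ← Finset.sum_neg_distrib]
  exact Finset.sum_congr rfl fun k _ => by ring

theorem rows_right (hb : StrictMono b) (hN : N ≠ 0)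
    (hs : ∀ x : ℝ, (PR b N).eval x = -4 → (derivative (PR b N)).eval x ≠ 0)
    (h : ∀ x : ℝ, (b (Fin.last g) : ℝ) < x → (PR b N).eval x < 0)
    (n : Fin (g + 1) → ℝ) (hn : ∑ k, n k = 0)
    (hk : ∀ S : Seg (PR b N), ∑ k, n k * S.RR (b k) = 0)
    (hmax : ∀ k, n k ≤ n (Fin.last g)) : n = 0 := by
  obtain ⟨S, hS, hd⟩ := right_case hb hN hs h
  obtain ⟨x, hx, hrow⟩ := row_eval hN S hd n (hk S) (n (Fin.last g))
  rw [hS] at hx
  refine unpaired (fun k => Real.log |x - b k|) n (Real.log |(N : ℝ)|) (log_abs_nonneg hN)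
    (Fin.last g) (fun k hkl => ?_) hn hmax hrow
  have h1 := lt_gap hb (Fin.lt_last_iff_ne_last.2 hkl)
  exact log_pos_left (by linarith [hx.1])

theorem rows_left (hb : StrictMono b) (hN : N ≠ 0)
    (hs : ∀ x : ℝ, (PR b N).eval x = -4 → (derivative (PR b N)).eval x ≠ 0)
    (h : ∀ x : ℝ, x < (b 0 : ℝ) → (PR b N).eval x < 0)
    (n : Fin (g + 1) → ℝ) (hn : ∑ k, n k = 0)
    (hk : ∀ S : Seg (PR b N), ∑ k, n k * S.RR (b k) = 0)
    (hmax : ∀ k, n k ≤ n 0) : n = 0 := by
  obtain ⟨S, hS, hd⟩ := left_case hb hN hs h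
  obtain ⟨x, hx, hrow⟩ := row_eval hN S hd n (hk S) (n 0)
  rw [hS] at hx
  refine unpaired (fun k => Real.log |x - b k|) n (Real.log |(N : ℝ)|) (log_abs_nonneg hN)
    0 (fun k hkl => ?_) hn hmax hrow
  have h1 := lt_gap hb (Fin.pos_iff_ne_zero.2 hkl)
  exact log_pos_right (by linarith [hx.2])

theorem rows_gap (hb : StrictMono b) (hN : N ≠ 0) (i : Fin g) (c : ℝ) (S S' : Seg (PR b N))
    (h1 : S.p = b i.castSucc) (h2 : S.q < c) (h3 : c < S'.p) (h4 : S'.q = b i.succ)
    (hd : ∀ x ∈ Set.Icc S.p S.q, (derivative (PR b N)).eval x ≠ 0)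
    (hd' : ∀ x ∈ Set.Icc S'.p S'.q, (derivative (PR b N)).eval x ≠ 0)
    (n : Fin (g + 1) → ℝ) (hn : ∑ k, n k = 0)
    (hk : ∀ S : Seg (PR b N), ∑ k, n k * S.RR (b k) = 0) (j : Fin (g + 1))
    (hj : j = i.castSucc ∨ j = i.succ) (hmax : ∀ k, n k ≤ n j) : n = 0 := by
  obtain ⟨x, hx, hrow⟩ := row_eval hN S hd n (hk S) (n j)
  obtain ⟨y, hy, hrow'⟩ := row_eval hN S' hd' n (hk S') (n j)
  rw [h1] at hx
  rw [h4] at hy
  have hne : i.castSucc ≠ i.succ := (Fin.castSucc_lt_succ (i := i)).ne
  have hd1 := lt_gap hb (Fin.castSucc_lt_succ (i := i))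
  have x1 := hx.1
  have x2 : x < c := hx.2.trans h2
  have y1 : c < y := h3.trans hy.1
  have y2 := hy.2
  rcases hj with rfl | rfl
  · refine paired (fun k => Real.log |x - b k|) (fun k => Real.log |y - b k|) n
      (Real.log |(N : ℝ)|) (log_abs_nonneg hN) i.castSucc i.succ hne ?_ ?_ ?_ hn hmax hrow hrow'
    · intro k k1 k2
      rcases other i k1 k2 with h | h
      · have := lt_gap hb h
        exact log_pos_left (by linarith)
      · have := lt_gap hb h
        exact log_pos_right (by linarith)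
    · rw [log_right (x := y) (z := (b i.succ : ℝ) - y) y2 rfl,
        log_right (x := x) (y := (b i.succ : ℝ))
          (z := ((b i.succ : ℝ) - b i.castSucc) - (x - b i.castSucc))
          (by linarith) (by ring)]
      exact pair_beta (c := c - b i.castSucc) (by linarith) (by linarith) (by linarith)
    · intro hneg k k1 k2
      rw [log_right (x := x) (y := (b i.succ : ℝ))
          (z := ((b i.succ : ℝ) - b i.castSucc) - (x - b i.castSucc))
          (by linarith) (by ring)] at hneg ⊢
      rw [log_right (x := y) (y := (b i.succ : ℝ)) (z := (b i.succ : ℝ) - y) y2 rfl]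
      rcases other i k1 k2 with h | h
      · have hl := lt_gap hb h
        rw [log_left (x := x) (y := (b k : ℝ))
            (z := ((b i.castSucc : ℝ) - b k) + (x - b i.castSucc)) (by linarith) (by ring),
          log_left (x := y) (y := (b k : ℝ))
            (z := ((b i.castSucc : ℝ) - b k) + ((b i.succ : ℝ) - b i.castSucc) -
              ((b i.succ : ℝ) - y)) (by linarith) (by ring)]
        exact pair_far (c := c - b i.castSucc) (by linarith) (by linarith) (by linarith)
          (by linarith) (by linarith) (by linarith) (by linarith) (by linarith) hneg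
      · have hl := lt_gap hb h
        rw [log_right (x := x) (y := (b k : ℝ))
            (z := ((b k : ℝ) - b i.succ) + ((b i.succ : ℝ) - b i.castSucc) -
              (x - b i.castSucc)) (by linarith) (by ring),
          log_right (x := y) (y := (b k : ℝ))
            (z := ((b k : ℝ) - b i.succ) + ((b i.succ : ℝ) - y)) (by linarith) (by ring)]
        exact pair_near (c := c - b i.castSucc) (by linarith) (by linarith) (by linarith)
          (by linarith) (by linarith) (by linarith) (by linarith) hneg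
  · refine paired (fun k => Real.log |y - b k|) (fun k => Real.log |x - b k|) n
      (Real.log |(N : ℝ)|) (log_abs_nonneg hN) i.succ i.castSucc hne.symm ?_ ?_ ?_ hn hmax
      hrow' hrow
    · intro k k1 k2
      rcases other i k2 k1 with h | h
      · have := lt_gap hb h
        exact log_pos_left (by linarith)
      · have := lt_gap hb h
        exact log_pos_right (by linarith)
    · rw [log_left (x := x) (z := x - (b i.castSucc : ℝ)) x1 rfl,
        log_left (x := y) (y := (b i.castSucc : ℝ))
          (z := ((b i.succ : ℝ) - b i.castSucc) - ((b i.succ : ℝ) - y))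
          (by linarith) (by ring)]
      exact pair_beta (c := (b i.succ : ℝ) - c) (by linarith) (by linarith) (by linarith)
    · intro hneg k k1 k2
      rw [log_left (x := y) (y := (b i.castSucc : ℝ))
          (z := ((b i.succ : ℝ) - b i.castSucc) - ((b i.succ : ℝ) - y))
          (by linarith) (by ring)] at hneg ⊢
      rw [log_left (x := x) (y := (b i.castSucc : ℝ)) (z := x - (b i.castSucc : ℝ)) x1 rfl]
      rcases other i k2 k1 with h | h
      · have hl := lt_gap hb h
        rw [log_left (x := y) (y := (b k : ℝ))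
            (z := ((b i.castSucc : ℝ) - b k) + ((b i.succ : ℝ) - b i.castSucc) -
              ((b i.succ : ℝ) - y)) (by linarith) (by ring),
          log_left (x := x) (y := (b k : ℝ))
            (z := ((b i.castSucc : ℝ) - b k) + (x - b i.castSucc)) (by linarith) (by ring)]
        exact pair_near (c := (b i.succ : ℝ) - c) (by linarith) (by linarith) (by linarith)
          (by linarith) (by linarith) (by linarith) (by linarith) hneg
      · have hl := lt_gap hb h
        rw [log_right (x := y) (y := (b k : ℝ))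
            (z := ((b k : ℝ) - b i.succ) + ((b i.succ : ℝ) - y)) (by linarith) (by ring),
          log_right (x := x) (y := (b k : ℝ))
            (z := ((b k : ℝ) - b i.succ) + ((b i.succ : ℝ) - b i.castSucc) -
              (x - b i.castSucc)) (by linarith) (by ring)]
        exact pair_far (c := (b i.succ : ℝ) - c) (by linarith) (by linarith) (by linarith)
          (by linarith) (by linarith) (by linarith) (by linarith) (by linarith) hneg

/-- If `n ≠ 0` is in the kernel, a maximum of `n` is attained only at the ends of a type D gap. -/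
theorem max_mem (hb : StrictMono b) (hN : N ≠ 0)
    (hs : ∀ x : ℝ, (PR b N).eval x = -4 → (derivative (PR b N)).eval x ≠ 0)
    (n : Fin (g + 1) → ℝ) (hn : ∑ k, n k = 0)
    (hk : ∀ S : Seg (PR b N), ∑ k, n k * S.RR (b k) = 0) (hn0 : n ≠ 0)
    (j : Fin (g + 1)) (hmax : ∀ k, n k ≤ n j) :
    ∃ i : Fin g, (j = i.castSucc ∨ j = i.succ) ∧
      (∀ x ∈ Set.Ioo (b i.castSucc : ℝ) (b i.succ), -4 < (PR b N).eval x ∧ (PR b N).eval x < 0) ∧
      ∃ S : Seg (PR b N), S.p = b i.castSucc ∧ S.q = b i.succ := by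
  rcases root_cases hb hN j with ⟨i, hj, hneg⟩ | ⟨hj, hneg⟩ | ⟨hj, hneg⟩
  · rcases gap_cases hb hN hs i hneg with ⟨h4, hS⟩ | ⟨c, S, S', e1, e2, e3, e4, e5, e6⟩
    · exact ⟨i, hj, fun x hx => ⟨h4 x hx, hneg x hx⟩, hS⟩
    · exact absurd (rows_gap hb hN i c S S' e1 e2 e3 e4 e5 e6 n hn hk j hj hmax) hn0
  · subst hj
    exact absurd (rows_right hb hN hs hneg n hn hk hmax) hn0
  · subst hj
    exact absurd (rows_left hb hN hs hneg n hn hk hmax) hn0

end P4a177d
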