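import Pool.Agent.Lib.P4a177d.Defs

/-!
# MODULE P4a177d.ThetaD: the angle function of a segment (est. 1.2 h; calculus)

`th θ = arccos ((P(x(θ)) + 2) / 2)`.

PROOF. `sq_id`: `-P(x)(P(x)+4) = (x - p)(q - x) K(x)` (from `S.hK`) and `(x - p)(q - x) = ((q-p)/2)^2 sin^2 θ` for `x = xr θ`.
So `-4 ≤ P(x) ≤ 0` on the segment and `-4 < P(x) < 0` for `θ ∈ (0, π)`.
`hasDerivAt_th`: for `0 < θ < π`, `y = (P(x)+2)/2 ∈ (-1, 1)`, `1 - y^2 = -P(P+4)/4 = ((q-p)/4 sin θ)^2 K(x)`, so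
`√(1 - y^2) = (q-p)/4 sin θ √K`, and `arccos' = -1/√(1-y^2)` (`Real.hasDerivAt_arccos`), `x' = -(q-p)/2 sin θ`: the derivative is
`-(1/√(1-y^2)) * P'(x)/2 * x' = P'(x)/√K(x) = dn θ`.
`continuous_dn`: `dn` is continuous on `[0, π]` (even on `ℝ`: `xr θ ∈ [p, q]` for every `θ`).
`integral_dn`: the fundamental theorem (`intervalIntegral.integral_eq_sub_of_hasDerivAt_of_le`): `th` is continuous on `[0, π]`.
`th_le`: if `P(p) = 0` then `th π = 0` and `|th θ| = |th θ - th π| ≤ C (π - θ)` for `0 ≤ θ ≤ π` (`|dn| ≤ C` on the compact interval; from the fundamental theorem or the mean value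
inequality). If `P(q) = 0`, `th 0 = 0` and `|th θ| ≤ C θ`.
-/

set_option autoImplicit false

namespace P4a177d

open Polynomial MeasureTheory
open scoped Real

variable {P : Polynomial ℝ} (S : Seg P)

/-- The angle `arccos ((P(x(θ)) + 2) / 2)`. -/
noncomputable def Seg.th (θ : ℝ) : ℝ := Real.arccos ((P.eval (S.xr θ) + 2) / 2)

theorem xr_mem (θ : ℝ) : S.xr θ ∈ Set.Icc S.p S.q := by
  have h1 := Real.neg_one_le_cos θ
  have h2 := Real.cos_le_one θ
  have h3 : 0 < S.q - S.p := sub_pos.2 S.hpq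
  unfold Seg.xr
  constructor
  · nlinarith
  · nlinarith

theorem xr_mem_Ioo {θ : ℝ} (h0 : 0 < θ) (h1 : θ < π) : S.xr θ ∈ Set.Ioo S.p S.q := by
  have hc : Real.cos θ < 1 := by
    have h := Real.strictAntiOn_cos (Set.left_mem_Icc.2 Real.pi_pos.le) ⟨h0.le, h1.le⟩ h0
    rwa [Real.cos_zero] at h
  have hc' : -1 < Real.cos θ := by
    have h := Real.strictAntiOn_cos ⟨h0.le, h1.le⟩ (Set.right_mem_Icc.2 Real.pi_pos.le) h1
    rwa [Real.cos_pi] at h
  have h3 : 0 < S.q - S.p := sub_pos.2 S.hpq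
  unfold Seg.xr
  constructor
  · nlinarith [mul_pos h3 (by linarith : 0 < 1 + Real.cos θ)]
  · nlinarith [mul_pos h3 (by linarith : 0 < 1 - Real.cos θ)]

theorem sq_id (θ : ℝ) : -(P.eval (S.xr θ) * (P.eval (S.xr θ) + 4)) =
    ((S.q - S.p) / 2 * Real.sin θ) ^ 2 * S.K.eval (S.xr θ) := by
  have h := congrArg (Polynomial.eval (S.xr θ)) S.hK
  have h4 : Polynomial.eval (S.xr θ) (4 : Polynomial ℝ) = 4 := by
    have : (4 : Polynomial ℝ) = Polynomial.C 4 := rfl
    rw [this, Polynomial.eval_C]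
  simp only [Polynomial.eval_mul, Polynomial.eval_add, Polynomial.eval_sub, Polynomial.eval_X,
    Polynomial.eval_C, h4] at h
  rw [h]
  have hs : Real.sin θ ^ 2 = 1 - Real.cos θ ^ 2 := by
    have := Real.sin_sq_add_cos_sq θ
    linarith
  have hx : -((S.xr θ - S.p) * (S.xr θ - S.q)) = ((S.q - S.p) / 2 * Real.sin θ) ^ 2 := by
    rw [mul_pow, hs]
    unfold Seg.xr
    ring
  rw [← hx]
  ring

namespace ThetaDAux

theorem K_pos (θ : ℝ) : 0 < S.K.eval (S.xr θ) := S.Kpos _ (xr_mem S θ)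

theorem continuous_xr : Continuous S.xr := by
  unfold Seg.xr
  fun_prop

theorem P_le (θ : ℝ) : P.eval (S.xr θ) ≤ 0 ∧ -4 ≤ P.eval (S.xr θ) := by
  have h := sq_id S θ
  have h2 : 0 ≤ ((S.q - S.p) / 2 * Real.sin θ) ^ 2 * S.K.eval (S.xr θ) :=
    mul_nonneg (sq_nonneg _) (K_pos S θ).le
  rw [← h] at h2
  constructor
  · by_contra hc
    push Not at hc
    nlinarith
  · by_contra hc
    push Not at hc
    nlinarith

theorem P_lt {θ : ℝ} (h0 : 0 < θ) (h1 : θ < π) :
    P.eval (S.xr θ) < 0 ∧ -4 < P.eval (S.xr θ) := by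
  have h := sq_id S θ
  have hs : 0 < Real.sin θ := Real.sin_pos_of_pos_of_lt_pi h0 h1
  have h3 : 0 < S.q - S.p := sub_pos.2 S.hpq
  have h2 : 0 < ((S.q - S.p) / 2 * Real.sin θ) ^ 2 * S.K.eval (S.xr θ) :=
    mul_pos (pow_pos (mul_pos (by linarith) hs) 2) (K_pos S θ)
  rw [← h] at h2
  constructor
  · by_contra hc
    push Not at hc
    nlinarith
  · by_contra hc
    push Not at hc
    nlinarith

theorem hasDerivAt_xr (θ : ℝ) :
    HasDerivAt S.xr ((S.q - S.p) / 2 * (-Real.sin θ)) θ := by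
  unfold Seg.xr
  exact ((Real.hasDerivAt_cos θ).const_mul _).const_add _

theorem xr_zero : S.xr 0 = S.q := by
  unfold Seg.xr
  rw [Real.cos_zero]
  ring

theorem xr_pi : S.xr π = S.p := by
  unfold Seg.xr
  rw [Real.cos_pi]
  ring

end ThetaDAux

open ThetaDAux

theorem continuous_dn : Continuous S.dn := by
  unfold Seg.dn
  refine Continuous.div ?_ ?_ ?_
  · exact (Polynomial.continuous _).comp (continuous_xr S)
  · exact Real.continuous_sqrt.comp ((Polynomial.continuous _).comp (continuous_xr S))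
  · intro θ
    exact (Real.sqrt_pos.2 (K_pos S θ)).ne'

theorem continuous_th : Continuous S.th := by
  unfold Seg.th
  refine Real.continuous_arccos.comp ?_
  exact (((Polynomial.continuous _).comp (continuous_xr S)).add continuous_const).div_const _

theorem hasDerivAt_th {θ : ℝ} (h0 : 0 < θ) (h1 : θ < π) : HasDerivAt S.th (S.dn θ) θ := by
  obtain ⟨hl, hr⟩ := P_lt S h0 h1
  have hs : 0 < Real.sin θ := Real.sin_pos_of_pos_of_lt_pi h0 h1
  have h3 : 0 < S.q - S.p := sub_pos.2 S.hpq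
  have hK : 0 < Real.sqrt (S.K.eval (S.xr θ)) := Real.sqrt_pos.2 (K_pos S θ)
  have hy : HasDerivAt (fun θ => (P.eval (S.xr θ) + 2) / 2)
      (((Polynomial.derivative P).eval (S.xr θ) * ((S.q - S.p) / 2 * (-Real.sin θ))) / 2) θ :=
    (((P.hasDerivAt (S.xr θ)).comp θ (hasDerivAt_xr S θ)).add_const 2).div_const 2
  have hn1 : (P.eval (S.xr θ) + 2) / 2 ≠ -1 := by
    intro h
    linarith
  have hn2 : (P.eval (S.xr θ) + 2) / 2 ≠ 1 := by
    intro h
    linarith
  have ha := Real.hasDerivAt_arccos hn1 hn2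
  have hroot : Real.sqrt (1 - ((P.eval (S.xr θ) + 2) / 2) ^ 2) =
      (S.q - S.p) / 4 * Real.sin θ * Real.sqrt (S.K.eval (S.xr θ)) := by
    have hsq := sq_id S θ
    have h1 : 1 - ((P.eval (S.xr θ) + 2) / 2) ^ 2 =
        ((S.q - S.p) / 4 * Real.sin θ) ^ 2 * S.K.eval (S.xr θ) := by
      linear_combination (1 / 4) * hsq
    rw [h1, Real.sqrt_mul (sq_nonneg _), Real.sqrt_sq (mul_nonneg (by linarith) hs.le)]
  have hcomp := ha.comp θ hy
  rw [hroot] at hcomp
  have hval : -(1 / ((S.q - S.p) / 4 * Real.sin θ * Real.sqrt (S.K.eval (S.xr θ)))) *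
      ((Polynomial.derivative P).eval (S.xr θ) * ((S.q - S.p) / 2 * (-Real.sin θ)) / 2) =
      S.dn θ := by
    unfold Seg.dn
    have hs' := hs.ne'
    have h3' := h3.ne'
    have hK' := hK.ne'
    field_simp
    ring
  rw [hval] at hcomp
  exact hcomp

theorem th_nonneg (θ : ℝ) : 0 ≤ S.th θ := Real.arccos_nonneg _

theorem th_pos {θ : ℝ} (h0 : 0 < θ) (h1 : θ < π) : 0 < S.th θ := by
  unfold Seg.th
  rw [Real.arccos_pos]
  have := (P_lt S h0 h1).1
  linarith

theorem th_zero (hq : P.eval S.q = 0) : S.th 0 = 0 := by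
  unfold Seg.th
  rw [xr_zero, hq]
  norm_num

theorem th_pi (hp : P.eval S.p = 0) : S.th π = 0 := by
  unfold Seg.th
  rw [xr_pi, hp]
  norm_num

theorem TT_eq : S.TT = 2 * (S.th π - S.th 0) := by
  unfold Seg.TT
  congr 1
  exact intervalIntegral.integral_eq_sub_of_hasDerivAt_of_le Real.pi_pos.le
    (continuous_th S).continuousOn (fun θ hθ => hasDerivAt_th S hθ.1 hθ.2)
    ((continuous_dn S).intervalIntegrable _ _)

theorem th_le (hp : P.eval S.p = 0) (hq : P.eval S.q = 0) :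
    ∃ C : ℝ, 0 ≤ C ∧ ∀ θ : ℝ, 0 ≤ θ → θ ≤ π → S.th θ ≤ C * θ ∧ S.th θ ≤ C * (π - θ) := by
  obtain ⟨C, hC⟩ := (isCompact_Icc (a := (0 : ℝ)) (b := π)).exists_bound_of_continuousOn
    (continuous_dn S).continuousOn
  have hC0 : 0 ≤ C := le_trans (norm_nonneg _) (hC 0 (Set.left_mem_Icc.2 Real.pi_pos.le))
  have key : ∀ a b : ℝ, 0 ≤ a → a ≤ b → b ≤ π → |S.th b - S.th a| ≤ C * (b - a) := by
    intro a b ha hab hb
    have hI : ∫ θ in a..b, S.dn θ = S.th b - S.th a :=
      intervalIntegral.integral_eq_sub_of_hasDerivAt_of_le hab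
        (continuous_th S).continuousOn
        (fun θ hθ => hasDerivAt_th S (lt_of_le_of_lt ha hθ.1) (lt_of_lt_of_le hθ.2 hb))
        ((continuous_dn S).intervalIntegrable _ _)
    rw [← hI]
    have h := intervalIntegral.norm_integral_le_of_norm_le_const (a := a) (b := b) (C := C)
      (f := S.dn) (fun x hx => by
        rw [Set.uIoc_of_le hab] at hx
        exact hC x ⟨ha.trans hx.1.le, hx.2.trans hb⟩)
    rw [abs_of_nonneg (sub_nonneg.2 hab)] at h
    exact h
  refine ⟨C, hC0, fun θ h0 h1 => ⟨?_, ?_⟩⟩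
  · have h := key 0 θ le_rfl h0 h1
    rw [th_zero S hq, sub_zero, sub_zero] at h
    exact (le_abs_self _).trans h
  · have h := key θ π h0 h1 le_rfl
    rw [th_pi S hp, zero_sub, abs_neg] at h
    exact (le_abs_self _).trans h

end P4a177d
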