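import Pool.Agent.Lib.P4a177d.BoundA

/-!
# The classification of the curves with two type D gaps
-/

set_option autoImplicit false

namespace P4a177d

open Polynomial

namespace XClassAux

variable {g : ℕ} {b : Fin (g + 1) → ℤ} {N : ℤ}

theorem eval_PR (b : Fin (g + 1) → ℤ) (N : ℤ) (x : ℝ) :
    (PR b N).eval x = (N : ℝ) * ∏ k, (x - b k) := by
  unfold PR
  rw [Polynomial.eval_mul, Polynomial.eval_C, Polynomial.eval_prod]
  simp only [Polynomial.eval_sub, Polynomial.eval_X, Polynomial.eval_C]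

/-- the value at the middle of the gap -/
theorem at_mid (i : Fin g)
    (h : ∀ x ∈ Set.Ioo (b i.castSucc : ℝ) (b i.succ), -4 < (PR b N).eval x ∧ (PR b N).eval x < 0)
    (hd : b i.succ = b i.castSucc + 1) :
    -4 < (N : ℝ) * ∏ k, ((b i.castSucc : ℝ) + 1 / 2 - b k) ∧
      (N : ℝ) * ∏ k, ((b i.castSucc : ℝ) + 1 / 2 - b k) < 0 := by
  have h1 : ((b i.succ : ℤ) : ℝ) = b i.castSucc + 1 := by
    rw [hd]
    push_cast
    ring
  have h2 := h ((b i.castSucc : ℝ) + 1 / 2) ⟨by linarith, by linarith⟩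
  rw [eval_PR] at h2
  exact h2

theorem len_one (hb : StrictMono b) (hN : N ≠ 0) (hg : 3 ≤ g) (i : Fin g)
    (h : ∀ x ∈ Set.Ioo (b i.castSucc : ℝ) (b i.succ),
      -4 < (PR b N).eval x ∧ (PR b N).eval x < 0) : b i.succ = b i.castSucc + 1 := by
  obtain ⟨h1, h2 | h2 | h2⟩ := card_others hb hN i h
  · omega
  · omega
  · omega

/-- double root of `P + 4` -/
theorem no_double (b : Fin (g + 1) → ℤ) (N : ℤ)
    (hs : ∀ x : ℝ, (PR b N).eval x = -4 → (derivative (PR b N)).eval x ≠ 0)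
    (Q : Polynomial ℝ) (hQ : PR b N + 4 = Q ^ 2) (x : ℝ) (hx : Q.eval x = 0) : False := by
  have h1 : PR b N = Q ^ 2 - 4 := by
    rw [← hQ]
    ring
  refine hs x ?_ ?_
  · rw [h1]
    simp [hx]
  · rw [h1]
    simp [Polynomial.derivative_pow, hx]

theorem four (b : Fin (3 + 1) → ℤ) (N : ℤ) (hb : StrictMono b)
    (hs : ∀ x : ℝ, (PR b N).eval x = -4 → (derivative (PR b N)).eval x ≠ 0)
    (h01 : b 1 = b 0 + 1) (h23 : b 3 = b 2 + 1)
    (h : -4 < (N : ℝ) * ∏ k, ((b 0 : ℝ) + 1 / 2 - b k) ∧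
      (N : ℝ) * ∏ k, ((b 0 : ℝ) + 1 / 2 - b k) < 0) :
    ((∀ k : Fin 4, b k = b 0 + (k : ℕ)) ∧ (N = 1 ∨ N = 2 ∨ N = 3)) ∨
      (N = 1 ∧ b 1 = b 0 + 1 ∧ b 2 = b 0 + 3 ∧ b 3 = b 0 + 4) := by
  obtain ⟨m, hm⟩ : ∃ m : ℤ, m = b 2 - b 0 := ⟨_, rfl⟩
  have hm2 : 2 ≤ m := by
    have h1 : b 1 < b 2 := hb (by decide)
    omega
  have hb2 : b 2 = b 0 + m := by omega
  have hb3 : b 3 = b 0 + m + 1 := by omega
  rw [Fin.prod_univ_four] at h
  rw [h01, hb2, hb3] at h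
  push_cast at h
  have h1 : (0 : ℝ) < N * (4 * m ^ 2 - 1) := by nlinarith [h.2]
  have h2 : (N : ℝ) * (4 * m ^ 2 - 1) < 64 := by nlinarith [h.1]
  have h1' : 0 < N * (4 * m ^ 2 - 1) := by exact_mod_cast h1
  have h2' : N * (4 * m ^ 2 - 1) < 64 := by exact_mod_cast h2
  have hq : 15 ≤ 4 * m ^ 2 - 1 := by nlinarith
  have hN : 1 ≤ N := by
    by_contra hcon
    push Not at hcon
    have h3 : N ≤ 0 := by omega
    have h4 := mul_nonpos_of_nonpos_of_nonneg h3 (show (0 : ℤ) ≤ 4 * m ^ 2 - 1 by omega)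
    omega
  have hm4 : m ≤ 4 := by
    by_contra hcon
    push Not at hcon
    have h3 : 99 ≤ 4 * m ^ 2 - 1 := by nlinarith
    have h4 : 1 * (4 * m ^ 2 - 1) ≤ N * (4 * m ^ 2 - 1) :=
      mul_le_mul_of_nonneg_right hN (by omega)
    omega
  have hN4 : N ≤ 4 := by
    by_contra hcon
    push Not at hcon
    have h4 : 5 * (4 * m ^ 2 - 1) ≤ N * (4 * m ^ 2 - 1) :=
      mul_le_mul_of_nonneg_right (by omega) (by omega)
    omega
  have hPR : PR b N = C (N : ℝ) * ((X - C (b 0 : ℝ)) * (X - C ((b 0 : ℝ) + 1)) *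
      (X - C ((b 0 : ℝ) + m)) * (X - C ((b 0 : ℝ) + m + 1))) := by
    unfold PR
    rw [Fin.prod_univ_four, h01, hb2, hb3]
    push_cast
    rfl
  interval_cases m
  · -- m = 2
    have hall : ∀ k : Fin 4, b k = b 0 + (k : ℕ) := by
      intro k
      fin_cases k
      · simp
      · simpa using h01
      · simpa using hb2
      · simp
        omega
    interval_cases N
    · exact Or.inl ⟨hall, Or.inl rfl⟩
    · exact Or.inl ⟨hall, Or.inr (Or.inl rfl)⟩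
    · exact Or.inl ⟨hall, Or.inr (Or.inr rfl)⟩
    · exfalso
      refine no_double b 4 hs (C 2 * ((X - C (b 0 : ℝ)) ^ 2 - C 3 * (X - C (b 0 : ℝ)) + C 1)) ?_
        ((b 0 : ℝ) + (3 + Real.sqrt 5) / 2) ?_
      · rw [hPR]
        push_cast
        simp only [map_add, map_one, map_ofNat]
        ring
      · have h5 : Real.sqrt 5 ^ 2 = 5 := Real.sq_sqrt (by norm_num)
        simp only [eval_mul, eval_add, eval_sub, eval_pow, eval_X, eval_C]
        nlinarith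
  · -- m = 3
    have hN1 : N = 1 := by omega
    exact Or.inr ⟨hN1, h01, hb2, by omega⟩
  · -- m = 4
    have hN1 : N = 1 := by omega
    subst hN1
    exfalso
    refine no_double b 1 hs ((X - C (b 0 : ℝ)) ^ 2 - C 5 * (X - C (b 0 : ℝ)) + C 2) ?_
      ((b 0 : ℝ) + (5 + Real.sqrt 17) / 2) ?_
    · rw [hPR]
      push_cast
      simp only [map_add, map_one, map_ofNat]
      ring
    · have h5 : Real.sqrt 17 ^ 2 = 17 := Real.sq_sqrt (by norm_num)
      simp only [eval_mul, eval_add, eval_sub, eval_pow, eval_X, eval_C]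
      nlinarith

theorem mul_ge {a b A B : ℤ} (h1 : A ≤ a) (h2 : B ≤ b) (hA : 0 ≤ A) (hB : 0 ≤ B) :
    A * B ≤ a * b := mul_le_mul h1 h2 hB (le_trans hA h1)

/-- if `0 < N Q < c` and `Q > 0` then `N ≥ 1` and `Q < c` -/
theorem bd {N Q c : ℤ} (hQ : 0 < Q) (h1 : 0 < N * Q) (h2 : N * Q < c) : 1 ≤ N ∧ Q < c := by
  have hN : 1 ≤ N := by
    by_contra hcon
    push Not at hcon
    have h4 := mul_nonpos_of_nonpos_of_nonneg (show N ≤ 0 by omega) hQ.le
    omega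
  refine ⟨hN, ?_⟩
  have h4 : 1 * Q ≤ N * Q := mul_le_mul_of_nonneg_right hN hQ.le
  omega

theorem five_left (b : Fin (4 + 1) → ℤ) (N : ℤ) (hb : StrictMono b) (h01 : b 1 = b 0 + 1)
    (h : -4 < (N : ℝ) * ∏ k, ((b 0 : ℝ) + 1 / 2 - b k) ∧
      (N : ℝ) * ∏ k, ((b 0 : ℝ) + 1 / 2 - b k) < 0) :
    (∀ k : Fin 5, b k = b 0 + (k : ℕ)) ∧ N = -1 := by
  obtain ⟨m, hm⟩ : ∃ m : ℤ, m = b 2 - b 0 := ⟨_, rfl⟩
  obtain ⟨p, hp⟩ : ∃ p : ℤ, p = b 3 - b 0 := ⟨_, rfl⟩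
  obtain ⟨q, hq⟩ : ∃ q : ℤ, q = b 4 - b 0 := ⟨_, rfl⟩
  have h12 : b 1 < b 2 := hb (by decide)
  have h23 : b 2 < b 3 := hb (by decide)
  have h34 : b 3 < b 4 := hb (by decide)
  have hb2 : b 2 = b 0 + m := by omega
  have hb3 : b 3 = b 0 + p := by omega
  have hb4 : b 4 = b 0 + q := by omega
  rw [Fin.prod_univ_five, h01, hb2, hb3, hb4] at h
  push_cast at h
  have h1 : (0 : ℝ) < -N * ((2 * m - 1) * ((2 * p - 1) * (2 * q - 1))) := by nlinarith [h.2]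
  have h2 : -(N : ℝ) * ((2 * m - 1) * ((2 * p - 1) * (2 * q - 1))) < 128 := by nlinarith [h.1]
  have h1' : 0 < -N * ((2 * m - 1) * ((2 * p - 1) * (2 * q - 1))) := by exact_mod_cast h1
  have h2' : -N * ((2 * m - 1) * ((2 * p - 1) * (2 * q - 1))) < 128 := by exact_mod_cast h2
  have hQ : 105 ≤ (2 * m - 1) * ((2 * p - 1) * (2 * q - 1)) :=
    le_trans (by norm_num) (mul_ge (A := 3) (B := 35) (by omega)
      (le_trans (by norm_num) (mul_ge (A := 5) (B := 7) (by omega) (by omega) (by norm_num)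
        (by norm_num))) (by norm_num) (by norm_num))
  obtain ⟨h3, h4⟩ := bd (by omega) h1' h2'
  have hq4 : q ≤ 4 := by
    by_contra hcon
    push Not at hcon
    have h5 : 135 ≤ (2 * m - 1) * ((2 * p - 1) * (2 * q - 1)) :=
      le_trans (by norm_num) (mul_ge (A := 3) (B := 45) (by omega)
        (le_trans (by norm_num) (mul_ge (A := 5) (B := 9) (by omega) (by omega) (by norm_num)
          (by norm_num))) (by norm_num) (by norm_num))
    omega
  have hN : N = -1 := by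
    by_contra hcon
    have h5 : 2 * ((2 * m - 1) * ((2 * p - 1) * (2 * q - 1))) ≤
        -N * ((2 * m - 1) * ((2 * p - 1) * (2 * q - 1))) :=
      mul_le_mul_of_nonneg_right (by omega) (by omega)
    omega
  refine ⟨?_, hN⟩
  intro k
  fin_cases k
  · simp
  · simpa using h01
  · simp
    omega
  · simp
    omega
  · simp
    omega

theorem five_right (b : Fin (4 + 1) → ℤ) (N : ℤ) (hb : StrictMono b) (h34 : b 4 = b 3 + 1)
    (h : -4 < (N : ℝ) * ∏ k, ((b 3 : ℝ) + 1 / 2 - b k) ∧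
      (N : ℝ) * ∏ k, ((b 3 : ℝ) + 1 / 2 - b k) < 0) :
    (∀ k : Fin 5, b k = b 0 + (k : ℕ)) ∧ N = 1 := by
  obtain ⟨m, hm⟩ : ∃ m : ℤ, m = b 3 - b 2 := ⟨_, rfl⟩
  obtain ⟨p, hp⟩ : ∃ p : ℤ, p = b 3 - b 1 := ⟨_, rfl⟩
  obtain ⟨q, hq⟩ : ∃ q : ℤ, q = b 3 - b 0 := ⟨_, rfl⟩
  have h01 : b 0 < b 1 := hb (by decide)
  have h12 : b 1 < b 2 := hb (by decide)
  have h23 : b 2 < b 3 := hb (by decide)
  have hb2 : b 2 = b 3 - m := by omega
  have hb1 : b 1 = b 3 - p := by omega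
  have hb0 : b 0 = b 3 - q := by omega
  rw [Fin.prod_univ_five, h34, hb2, hb1, hb0] at h
  push_cast at h
  have h1 : (0 : ℝ) < N * ((2 * m + 1) * ((2 * p + 1) * (2 * q + 1))) := by nlinarith [h.2]
  have h2 : (N : ℝ) * ((2 * m + 1) * ((2 * p + 1) * (2 * q + 1))) < 128 := by nlinarith [h.1]
  have h1' : 0 < N * ((2 * m + 1) * ((2 * p + 1) * (2 * q + 1))) := by exact_mod_cast h1
  have h2' : N * ((2 * m + 1) * ((2 * p + 1) * (2 * q + 1))) < 128 := by exact_mod_cast h2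
  have hQ : 105 ≤ (2 * m + 1) * ((2 * p + 1) * (2 * q + 1)) :=
    le_trans (by norm_num) (mul_ge (A := 3) (B := 35) (by omega)
      (le_trans (by norm_num) (mul_ge (A := 5) (B := 7) (by omega) (by omega) (by norm_num)
        (by norm_num))) (by norm_num) (by norm_num))
  obtain ⟨h3, h4⟩ := bd (by omega) h1' h2'
  have hq4 : q ≤ 3 := by
    by_contra hcon
    push Not at hcon
    have h5 : 135 ≤ (2 * m + 1) * ((2 * p + 1) * (2 * q + 1)) :=
      le_trans (by norm_num) (mul_ge (A := 3) (B := 45) (by omega)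
        (le_trans (by norm_num) (mul_ge (A := 5) (B := 9) (by omega) (by omega) (by norm_num)
          (by norm_num))) (by norm_num) (by norm_num))
    omega
  have hN : N = 1 := by
    by_contra hcon
    have h5 : 2 * ((2 * m + 1) * ((2 * p + 1) * (2 * q + 1))) ≤
        N * ((2 * m + 1) * ((2 * p + 1) * (2 * q + 1))) :=
      mul_le_mul_of_nonneg_right (by omega) (by omega)
    omega
  refine ⟨?_, hN⟩
  intro k
  fin_cases k
  · simp
  · simp
    omega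
  · simp
    omega
  · simp
    omega
  · simp
    omega

theorem six_0 (b : Fin (5 + 1) → ℤ) (N : ℤ) (hb : StrictMono b) (h01 : b 1 = b 0 + 1)
    (h : -4 < (N : ℝ) * ∏ k, ((b 0 : ℝ) + 1 / 2 - b k) ∧
      (N : ℝ) * ∏ k, ((b 0 : ℝ) + 1 / 2 - b k) < 0) : False := by
  obtain ⟨m, hm⟩ : ∃ m : ℤ, m = b 2 - b 0 := ⟨_, rfl⟩
  obtain ⟨p, hp⟩ : ∃ p : ℤ, p = b 3 - b 0 := ⟨_, rfl⟩
  obtain ⟨q, hq⟩ : ∃ q : ℤ, q = b 4 - b 0 := ⟨_, rfl⟩
  obtain ⟨r, hr⟩ : ∃ r : ℤ, r = b 5 - b 0 := ⟨_, rfl⟩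
  have h12 : b 1 < b 2 := hb (by decide)
  have h23 : b 2 < b 3 := hb (by decide)
  have h34 : b 3 < b 4 := hb (by decide)
  have h45 : b 4 < b 5 := hb (by decide)
  have hb2 : b 2 = b 0 + m := by omega
  have hb3 : b 3 = b 0 + p := by omega
  have hb4 : b 4 = b 0 + q := by omega
  have hb5 : b 5 = b 0 + r := by omega
  rw [Fin.prod_univ_six, h01, hb2, hb3, hb4, hb5] at h
  push_cast at h
  have e : (N : ℝ) * (((b 0 : ℝ) + 1 / 2 - b 0) * (b 0 + 1 / 2 - (b 0 + 1)) *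
      (b 0 + 1 / 2 - (b 0 + m)) * (b 0 + 1 / 2 - (b 0 + p)) * (b 0 + 1 / 2 - (b 0 + q)) *
      (b 0 + 1 / 2 - (b 0 + r))) =
      -(N * (((2 * m - 1) * (2 * p - 1)) * ((2 * q - 1) * (2 * r - 1)))) / 64 := by ring
  rw [e] at h
  have h1 : (0 : ℝ) < N * (((2 * m - 1) * (2 * p - 1)) * ((2 * q - 1) * (2 * r - 1))) := by
    linarith [h.2]
  have h2 : (N : ℝ) * (((2 * m - 1) * (2 * p - 1)) * ((2 * q - 1) * (2 * r - 1))) < 256 := by
    linarith [h.1]
  have h1' : 0 < N * (((2 * m - 1) * (2 * p - 1)) * ((2 * q - 1) * (2 * r - 1))) := by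
    exact_mod_cast h1
  have h2' : N * (((2 * m - 1) * (2 * p - 1)) * ((2 * q - 1) * (2 * r - 1))) < 256 := by
    exact_mod_cast h2
  have hQ : 945 ≤ ((2 * m - 1) * (2 * p - 1)) * ((2 * q - 1) * (2 * r - 1)) :=
    le_trans (by norm_num) (mul_ge (A := 15) (B := 63)
      (le_trans (by norm_num) (mul_ge (A := 3) (B := 5) (by omega) (by omega) (by norm_num)
        (by norm_num)))
      (le_trans (by norm_num) (mul_ge (A := 7) (B := 9) (by omega) (by omega) (by norm_num)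
        (by norm_num))) (by norm_num) (by norm_num))
  obtain ⟨h3, h4⟩ := bd (by omega) h1' h2'
  omega

theorem six_4 (b : Fin (5 + 1) → ℤ) (N : ℤ) (hb : StrictMono b) (h45 : b 5 = b 4 + 1)
    (h : -4 < (N : ℝ) * ∏ k, ((b 4 : ℝ) + 1 / 2 - b k) ∧
      (N : ℝ) * ∏ k, ((b 4 : ℝ) + 1 / 2 - b k) < 0) : False := by
  obtain ⟨m, hm⟩ : ∃ m : ℤ, m = b 4 - b 3 := ⟨_, rfl⟩
  obtain ⟨p, hp⟩ : ∃ p : ℤ, p = b 4 - b 2 := ⟨_, rfl⟩
  obtain ⟨q, hq⟩ : ∃ q : ℤ, q = b 4 - b 1 := ⟨_, rfl⟩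
  obtain ⟨r, hr⟩ : ∃ r : ℤ, r = b 4 - b 0 := ⟨_, rfl⟩
  have h01 : b 0 < b 1 := hb (by decide)
  have h12 : b 1 < b 2 := hb (by decide)
  have h23 : b 2 < b 3 := hb (by decide)
  have h34 : b 3 < b 4 := hb (by decide)
  have hb3 : b 3 = b 4 - m := by omega
  have hb2 : b 2 = b 4 - p := by omega
  have hb1 : b 1 = b 4 - q := by omega
  have hb0 : b 0 = b 4 - r := by omega
  rw [Fin.prod_univ_six, h45, hb3, hb2, hb1, hb0] at h
  push_cast at h
  have e : (N : ℝ) * (((b 4 : ℝ) + 1 / 2 - (b 4 - r)) * (b 4 + 1 / 2 - (b 4 - q)) *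
      (b 4 + 1 / 2 - (b 4 - p)) * (b 4 + 1 / 2 - (b 4 - m)) * (b 4 + 1 / 2 - b 4) *
      (b 4 + 1 / 2 - (b 4 + 1))) =
      -(N * (((2 * m + 1) * (2 * p + 1)) * ((2 * q + 1) * (2 * r + 1)))) / 64 := by ring
  rw [e] at h
  have h1 : (0 : ℝ) < N * (((2 * m + 1) * (2 * p + 1)) * ((2 * q + 1) * (2 * r + 1))) := by
    linarith [h.2]
  have h2 : (N : ℝ) * (((2 * m + 1) * (2 * p + 1)) * ((2 * q + 1) * (2 * r + 1))) < 256 := by
    linarith [h.1]
  have h1' : 0 < N * (((2 * m + 1) * (2 * p + 1)) * ((2 * q + 1) * (2 * r + 1))) := by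
    exact_mod_cast h1
  have h2' : N * (((2 * m + 1) * (2 * p + 1)) * ((2 * q + 1) * (2 * r + 1))) < 256 := by
    exact_mod_cast h2
  have hQ : 945 ≤ ((2 * m + 1) * (2 * p + 1)) * ((2 * q + 1) * (2 * r + 1)) :=
    le_trans (by norm_num) (mul_ge (A := 15) (B := 63)
      (le_trans (by norm_num) (mul_ge (A := 3) (B := 5) (by omega) (by omega) (by norm_num)
        (by norm_num)))
      (le_trans (by norm_num) (mul_ge (A := 7) (B := 9) (by omega) (by omega) (by norm_num)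
        (by norm_num))) (by norm_num) (by norm_num))
  obtain ⟨h3, h4⟩ := bd (by omega) h1' h2'
  omega

theorem six_1 (b : Fin (5 + 1) → ℤ) (N : ℤ) (hb : StrictMono b) (h12 : b 2 = b 1 + 1)
    (h : -4 < (N : ℝ) * ∏ k, ((b 1 : ℝ) + 1 / 2 - b k) ∧
      (N : ℝ) * ∏ k, ((b 1 : ℝ) + 1 / 2 - b k) < 0) : False := by
  obtain ⟨m, hm⟩ : ∃ m : ℤ, m = b 1 - b 0 := ⟨_, rfl⟩
  obtain ⟨p, hp⟩ : ∃ p : ℤ, p = b 3 - b 1 := ⟨_, rfl⟩
  obtain ⟨q, hq⟩ : ∃ q : ℤ, q = b 4 - b 1 := ⟨_, rfl⟩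
  obtain ⟨r, hr⟩ : ∃ r : ℤ, r = b 5 - b 1 := ⟨_, rfl⟩
  have h01 : b 0 < b 1 := hb (by decide)
  have h23 : b 2 < b 3 := hb (by decide)
  have h34 : b 3 < b 4 := hb (by decide)
  have h45 : b 4 < b 5 := hb (by decide)
  have hb0 : b 0 = b 1 - m := by omega
  have hb3 : b 3 = b 1 + p := by omega
  have hb4 : b 4 = b 1 + q := by omega
  have hb5 : b 5 = b 1 + r := by omega
  rw [Fin.prod_univ_six, h12, hb0, hb3, hb4, hb5] at h
  push_cast at h
  have e : (N : ℝ) * (((b 1 : ℝ) + 1 / 2 - (b 1 - m)) * (b 1 + 1 / 2 - b 1) *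
      (b 1 + 1 / 2 - (b 1 + 1)) * (b 1 + 1 / 2 - (b 1 + p)) * (b 1 + 1 / 2 - (b 1 + q)) *
      (b 1 + 1 / 2 - (b 1 + r))) =
      (N * (((2 * m + 1) * (2 * p - 1)) * ((2 * q - 1) * (2 * r - 1)))) / 64 := by ring
  rw [e] at h
  have h1 : (0 : ℝ) < -N * (((2 * m + 1) * (2 * p - 1)) * ((2 * q - 1) * (2 * r - 1))) := by
    linarith [h.2]
  have h2 : -(N : ℝ) * (((2 * m + 1) * (2 * p - 1)) * ((2 * q - 1) * (2 * r - 1))) < 256 := by
    linarith [h.1]
  have h1' : 0 < -N * (((2 * m + 1) * (2 * p - 1)) * ((2 * q - 1) * (2 * r - 1))) := by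
    exact_mod_cast h1
  have h2' : -N * (((2 * m + 1) * (2 * p - 1)) * ((2 * q - 1) * (2 * r - 1))) < 256 := by
    exact_mod_cast h2
  have hQ : 315 ≤ ((2 * m + 1) * (2 * p - 1)) * ((2 * q - 1) * (2 * r - 1)) :=
    le_trans (by norm_num) (mul_ge (A := 9) (B := 35)
      (le_trans (by norm_num) (mul_ge (A := 3) (B := 3) (by omega) (by omega) (by norm_num)
        (by norm_num)))
      (le_trans (by norm_num) (mul_ge (A := 5) (B := 7) (by omega) (by omega) (by norm_num)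
        (by norm_num))) (by norm_num) (by norm_num))
  obtain ⟨h3, h4⟩ := bd (by omega) h1' h2'
  omega

end XClassAux

open XClassAux

/-- The classification of the curves with two type D gaps. -/
theorem two_gaps {g : ℕ} {b : Fin (g + 1) → ℤ} {N : ℤ} (hb : StrictMono b) (hN : N ≠ 0)
    (hs : ∀ x : ℝ, (PR b N).eval x = -4 → (derivative (PR b N)).eval x ≠ 0) (i i' : Fin g)
    (h : ∀ x ∈ Set.Ioo (b i.castSucc : ℝ) (b i.succ), -4 < (PR b N).eval x ∧ (PR b N).eval x < 0)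
    (h' : ∀ x ∈ Set.Ioo (b i'.castSucc : ℝ) (b i'.succ),
      -4 < (PR b N).eval x ∧ (PR b N).eval x < 0)
    (hlt : (i : ℕ) + 2 ≤ i') :
    (g = 3 ∧ (∀ k : Fin (g + 1), b k = b 0 + (k : ℕ)) ∧ (N = 1 ∨ N = 2 ∨ N = 3)) ∨
    (g = 3 ∧ N = 1 ∧ ∀ k : Fin (g + 1), b k = b 0 + (k : ℕ) + if (k : ℕ) < 2 then 0 else 1) ∨
    (g = 4 ∧ (∀ k : Fin (g + 1), b k = b 0 + (k : ℕ)) ∧ (N = 1 ∨ N = -1)) := by
  have hi' := i'.2
  have hg3 : 3 ≤ g := by omega
  have hg5 := (card_others hb hN i h).1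
  have hd := len_one hb hN hg3 i h
  have hd' := len_one hb hN hg3 i' h'
  have hm := at_mid i h hd
  have hm' := at_mid i' h' hd'
  obtain rfl | rfl | rfl : g = 3 ∨ g = 4 ∨ g = 5 := by omega
  · have e1 : i = 0 := by
      apply Fin.ext
      simp
      omega
    have e2 : i' = 2 := by
      apply Fin.ext
      simp
      omega
    subst e1 e2
    rcases four b N hb hs hd hd' hm with h1 | ⟨h1, h2, h3, h4⟩
    · exact Or.inl ⟨rfl, h1⟩
    · refine Or.inr (Or.inl ⟨rfl, h1, ?_⟩)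
      intro k
      fin_cases k
      · simp
      · simpa using h2
      · simp
        omega
      · simp
        omega
  · refine Or.inr (Or.inr ⟨rfl, ?_⟩)
    by_cases e1 : i = 0
    · subst e1
      obtain ⟨h1, h2⟩ := five_left b N hb hd hm
      exact ⟨h1, Or.inr h2⟩
    · have e2 : i' = 3 := by
        have : (i : ℕ) ≠ 0 := fun h => e1 (Fin.ext h)
        apply Fin.ext
        simp
        omega
      subst e2
      obtain ⟨h1, h2⟩ := five_right b N hb hd' hm'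
      exact ⟨h1, Or.inl h2⟩
  · exfalso
    by_cases e1 : i = 0
    · subst e1
      exact six_0 b N hb hd hm
    · by_cases e2 : i' = 4
      · subst e2
        exact six_4 b N hb hd' hm'
      · have e3 : i = 1 := by
          have h1 : (i : ℕ) ≠ 0 := fun h => e1 (Fin.ext h)
          have h2 : (i' : ℕ) ≠ 4 := fun h => e2 (Fin.ext h)
          apply Fin.ext
          simp
          omega
        subst e3
        exact six_1 b N hb hd hm

end P4a177d
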