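import Mathlib

/-!
# The exceptional curves with four roots: the final algebra
-/

set_option autoImplicit false

namespace P4a177d

/-- The equations for a kernel vector of a symmetric curve with the roots `c - be`, `c - al`,
`c + al`, `c + be`. -/
structure Ker4 (al be : ℝ) (la : ℝ → ℝ) (n : Fin 4 → ℝ) : Prop where
  d1 : ∀ l : ℝ, ∃ y, al < y ∧ y < be ∧ (n 0 - l) / (-y + be) + (n 1 - l) / (-y + al) +
    (n 2 - l) / (-y - al) + (n 3 - l) / (-y - be) = 0
  d3 : ∀ l : ℝ, ∃ y, al < y ∧ y < be ∧ (n 0 - l) / (y + be) + (n 1 - l) / (y + al) +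
    (n 2 - l) / (y - al) + (n 3 - l) / (y - be) = 0
  neg : ¬ ∀ y : ℝ, la y * ((n 0 - n 3) * be / (y ^ 2 + be ^ 2) +
    (n 1 - n 2) * al / (y ^ 2 + al ^ 2)) < 0
  pos : ¬ ∀ y : ℝ, 0 < la y * ((n 0 - n 3) * be / (y ^ 2 + be ^ 2) +
    (n 1 - n 2) * al / (y ^ 2 + al ^ 2))

theorem Ker4.negate {al be : ℝ} {la : ℝ → ℝ} {n : Fin 4 → ℝ} (h : Ker4 al be la n) :
    Ker4 al be la (fun k => - n k) := by
  refine ⟨?_, ?_, ?_, ?_⟩
  · intro l
    obtain ⟨y, h1, h2, h3⟩ := h.d1 (-l)
    refine ⟨y, h1, h2, ?_⟩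
    rw [← neg_eq_zero, ← h3]
    ring
  · intro l
    obtain ⟨y, h1, h2, h3⟩ := h.d3 (-l)
    refine ⟨y, h1, h2, ?_⟩
    rw [← neg_eq_zero, ← h3]
    ring
  · intro h1
    apply h.pos
    intro y
    have := h1 y
    have e : la y * ((- n 0 - - n 3) * be / (y ^ 2 + be ^ 2) +
        (- n 1 - - n 2) * al / (y ^ 2 + al ^ 2)) =
        - (la y * ((n 0 - n 3) * be / (y ^ 2 + be ^ 2) +
        (n 1 - n 2) * al / (y ^ 2 + al ^ 2))) := by ring
    rw [e] at this
    linarith
  · intro h1
    apply h.neg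
    intro y
    have := h1 y
    have e : la y * ((- n 0 - - n 3) * be / (y ^ 2 + be ^ 2) +
        (- n 1 - - n 2) * al / (y ^ 2 + al ^ 2)) =
        - (la y * ((n 0 - n 3) * be / (y ^ 2 + be ^ 2) +
        (n 1 - n 2) * al / (y ^ 2 + al ^ 2))) := by ring
    rw [e] at this
    linarith

theorem Ker4.aux {al be : ℝ} (ha : 0 < al) (hab : al < be) {la : ℝ → ℝ} (hla : ∀ y, 0 < la y)
    {n : Fin 4 → ℝ} (h : Ker4 al be la n) (h12 : n 2 < n 1) : False := by
  obtain ⟨y, y1, y2, hy⟩ := h.d3 (n 3)
  obtain ⟨x, x1, x2, hx⟩ := h.d1 (n 0)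
  have q1 : 0 < y + be := by linarith
  have q2 : 0 < y + al := by linarith
  have q3 : 0 < y - al := by linarith
  have p1 : 0 < x + be := by linarith
  have p2 : 0 < x + al := by linarith
  have p3 : 0 < x - al := by linarith
  have hy' : (n 0 - n 3) / (y + be) + (n 1 - n 3) / (y + al) + (n 2 - n 3) / (y - al) = 0 := by
    rw [sub_self, zero_div, add_zero] at hy
    exact hy
  have hx' : (n 1 - n 0) / (x - al) + (n 2 - n 0) / (x + al) + (n 3 - n 0) / (x + be) = 0 := by
    rw [sub_self, zero_div, zero_add, show -x + al = -(x - al) by ring,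
      show -x - al = -(x + al) by ring, show -x - be = -(x + be) by ring, div_neg, div_neg,
      div_neg] at hx
    linarith
  have key : n 3 < n 0 := by
    by_contra hc
    push Not at hc
    have h3 : n 2 < n 3 := by
      by_contra hc2
      push Not at hc2
      have a1 : 0 < (n 1 - n 0) / (x - al) := div_pos (by linarith) p3
      have a2 : 0 ≤ (n 2 - n 0) / (x + al) := div_nonneg (by linarith) p2.le
      have a3 : 0 ≤ (n 3 - n 0) / (x + be) := div_nonneg (by linarith) p1.le
      linarith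
    have h4 : n 3 - n 2 < n 1 - n 3 := by
      have a1 : 0 ≤ (n 3 - n 0) / (y + be) := div_nonneg (by linarith) q1.le
      have a2 : (n 3 - n 2) / (y - al) ≤ (n 1 - n 3) / (y + al) := by
        have e1 : (n 0 - n 3) / (y + be) = - ((n 3 - n 0) / (y + be)) := by ring
        have e2 : (n 2 - n 3) / (y - al) = - ((n 3 - n 2) / (y - al)) := by ring
        rw [e1, e2] at hy'
        linarith
      have a3 : (n 3 - n 2) / (y + al) < (n 3 - n 2) / (y - al) :=
        div_lt_div_of_pos_left (by linarith) q3 (by linarith)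
      have a4 := lt_of_lt_of_le a3 a2
      rwa [div_lt_div_iff_of_pos_right q2] at a4
    have a1 : 0 ≤ (n 3 - n 0) / (x + be) := div_nonneg (by linarith) p1.le
    have a2 : (n 1 - n 0) / (x - al) ≤ (n 0 - n 2) / (x + al) := by
      have e2 : (n 2 - n 0) / (x + al) = - ((n 0 - n 2) / (x + al)) := by ring
      rw [e2] at hx'
      linarith
    have a3 : 0 < (n 0 - n 2) / (x + al) :=
      lt_of_lt_of_le (div_pos (by linarith) p3) a2
    have a4 : 0 < n 0 - n 2 := by
      by_contra hc3
      push Not at hc3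
      exact absurd a3 (div_nonpos_of_nonpos_of_nonneg hc3 p2.le).not_gt
    have a5 : (n 0 - n 2) / (x + al) < (n 0 - n 2) / (x - al) :=
      div_lt_div_of_pos_left a4 p3 (by linarith)
    have a6 := lt_of_le_of_lt a2 a5
    rw [div_lt_div_iff_of_pos_right p3] at a6
    linarith
  have hbe : 0 < be := ha.trans hab
  apply h.pos
  intro y
  refine mul_pos (hla y) (add_pos ?_ ?_)
  · exact div_pos (mul_pos (by linarith) (by linarith)) (by positivity)
  · exact div_pos (mul_pos (by linarith) (by linarith)) (by positivity)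

/-- A kernel vector is constant. -/
theorem Ker4.const {al be : ℝ} (ha : 0 < al) (hab : al < be) {la : ℝ → ℝ} (hla : ∀ y, 0 < la y)
    {n : Fin 4 → ℝ} (h : Ker4 al be la n) : ∀ k, n k = n 0 := by
  have h12 : n 1 = n 2 := by
    rcases lt_trichotomy (n 1) (n 2) with h1 | h1 | h1
    · exact (h.negate.aux ha hab hla (by simpa using h1)).elim
    · exact h1
    · exact (h.aux ha hab hla h1).elim
  obtain ⟨y, y1, y2, hy⟩ := h.d3 (n 3)
  obtain ⟨x, x1, x2, hx⟩ := h.d1 (n 0)
  have q1 : 0 < y + be := by linarith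
  have q2 : 0 < y + al := by linarith
  have q3 : 0 < y - al := by linarith
  have p1 : 0 < x + be := by linarith
  have p2 : 0 < x + al := by linarith
  have p3 : 0 < x - al := by linarith
  have hy' : (n 0 - n 3) / (y + be) = (n 3 - n 2) * (1 / (y + al) + 1 / (y - al)) := by
    rw [sub_self, zero_div, add_zero, h12] at hy
    linear_combination hy
  have hx' : (n 3 - n 0) / (x + be) = (n 0 - n 2) * (1 / (x + al) + 1 / (x - al)) := by
    rw [sub_self, zero_div, zero_add, show -x + al = -(x - al) by ring,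
      show -x - al = -(x + al) by ring, show -x - be = -(x + be) by ring, div_neg, div_neg,
      div_neg, h12] at hx
    linear_combination -hx
  have w1 : 0 < 1 / (y + al) + 1 / (y - al) := by positivity
  have w2 : 0 < 1 / (x + al) + 1 / (x - al) := by positivity
  rw [div_eq_iff q1.ne'] at hy'
  rw [div_eq_iff p1.ne'] at hx'
  set A := 1 / (y + al) + 1 / (y - al)
  set B := 1 / (x + al) + 1 / (x - al)
  -- `a = c (1 + W1)`, `c = a (1 + W2)`
  have hW1 : 0 < A * (y + be) := by positivity
  have hW2 : 0 < B * (x + be) := by positivity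
  have e1 : n 0 - n 2 = (n 3 - n 2) * (1 + A * (y + be)) := by linear_combination hy'
  have e2 : n 3 - n 2 = (n 0 - n 2) * (1 + B * (x + be)) := by linear_combination hx'
  have e3 : (n 0 - n 2) * ((1 + A * (y + be)) * (1 + B * (x + be)) - 1) = 0 := by
    have : n 0 - n 2 = (n 0 - n 2) * (1 + B * (x + be)) * (1 + A * (y + be)) := by
      rw [← e2]; exact e1
    linear_combination -this
  have e4 : (1 + A * (y + be)) * (1 + B * (x + be)) - 1 ≠ 0 := by
    have : 0 < (1 + A * (y + be)) * (1 + B * (x + be)) - 1 := by nlinarith [mul_pos hW1 hW2]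
    exact this.ne'
  have e5 : n 0 - n 2 = 0 := (mul_eq_zero.1 e3).resolve_right e4
  have e6 : n 3 - n 2 = 0 := by rw [e2, e5, zero_mul]
  intro k
  fin_cases k
  · rfl
  · show n 1 = n 0
    linarith
  · show n 2 = n 0
    linarith
  · show n 3 = n 0
    linarith

end P4a177d
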