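import Pool.Agent.Lib.P4a177d.XLineC
import Pool.Agent.Lib.P4a177b.BW

/-!
# Integration by parts on the unit circle

Write `ζ = pt 1 θ = e^{iθ}`, `0 < θ < 2π`, `Φ θ = Complex.log (eL ζ)` (`eL ζ` is in the slit plane).
The function `K θ = H0 (pt 1 θ) * (Φ θ).im` is continuous on `[0, 2π]`, vanishes at `0` and at `2π`,
and `(Φ * SL ζ).re = gL ζ + K' θ` on `(0, 2π)`.
-/

set_option autoImplicit false

namespace P4a177d

open Filter Topology MeasureTheory
open scoped Real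

variable {g : ℕ} {b : Fin (g + 1) → ℤ} {N : ℤ} {c : ℝ}

namespace XLineDAux

theorem hasDerivAt_pt1 (θ : ℝ) : HasDerivAt (fun t : ℝ => pt 1 t) (Complex.I * pt 1 θ) θ := by
  unfold pt
  have h1 : HasDerivAt (fun t : ℝ => (t : ℂ) * Complex.I) Complex.I θ := by
    simpa using (Complex.ofRealCLM.hasDerivAt (x := θ)).mul_const Complex.I
  have h2 := (h1.cexp).const_mul ((1 : ℝ) : ℂ)
  refine h2.congr_deriv ?_
  ring

theorem hasDerivAt_comp_pt1 {f : ℂ → ℂ} {θ : ℝ} {f' : ℂ} (hf : HasDerivAt f f' (pt 1 θ)) :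
    HasDerivAt (fun t : ℝ => f (pt 1 t)) (Complex.I * pt 1 θ * f') θ := by
  have h := hf.scomp θ (hasDerivAt_pt1 θ)
  rw [smul_eq_mul] at h
  exact h

theorem continuousAt_SL (n : Fin (g + 1) → ℝ) {z : ℂ} (hz : z ∈ Om b N c) :
    ContinuousAt (SL b c n) z := by
  unfold SL
  refine tendsto_finsetSum _ fun k _ => ?_
  have h1 : ContinuousAt (fun z => z * (-((c : ℂ) - (b k : ℂ) - 1)) / Bz b c k z) z := by
    refine ContinuousAt.div (by fun_prop) (differentiable_Bz k z).continuousAt ?_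
    exact Bz_ne_zero hz.1 k
  exact h1.const_mul (n k : ℂ)

theorem hasDerivAt_H0 (n : Fin (g + 1) → ℝ) {θ : ℝ} (hz : pt 1 θ ∈ Om b N c) :
    HasDerivAt (fun t : ℝ => H0 b c n (pt 1 t)) (Complex.I * SL b c n (pt 1 θ)).re θ := by
  have h1 : ∀ k, HasDerivAt (fun t : ℝ => n k * Real.log ‖Bz b c k (pt 1 t)‖)
      (n k * (Complex.I * pt 1 θ * (-((c : ℂ) - (b k : ℂ) - 1)) / Bz b c k (pt 1 θ)).re) θ := by
    intro k
    have h2 := hasDerivAt_comp_pt1 (hasDerivAt_Bz (b := b) (c := c) k (pt 1 θ))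
    exact (P4a177b.hasDerivAt_log_norm h2 (Bz_ne_zero hz.1 k)).const_mul (n k)
  have h2 := HasDerivAt.fun_sum (u := Finset.univ) fun k _ => h1 k
  refine h2.congr_deriv ?_
  unfold SL
  rw [Finset.mul_sum, Complex.re_sum]
  refine Finset.sum_congr rfl fun k _ => ?_
  rw [← Complex.re_ofReal_mul]
  congr 1
  ring

theorem SL_re (n : Fin (g + 1) → ℝ) (z : ℂ) : (SL b c n z).re = H1 b c n z := by
  unfold SL H1
  rw [Complex.re_sum]
  refine Finset.sum_congr rfl fun k _ => ?_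
  rw [Complex.re_ofReal_mul]

end XLineDAux

open XLineCAux XLineDAux

theorem integral_SL {ρ : ℝ} (h0 : 1 / 2 ≤ ρ) (h1 : ρ < 1)
    (h : ∀ z : ℂ, ρ ≤ ‖z‖ → ‖z‖ ≤ 1 → z ∈ Om b N c)
    (he : ∀ z : ℂ, ‖z‖ = 1 → z ≠ 1 → eL b N c z ∈ Complex.slitPlane)
    (n : Fin (g + 1) → ℝ) (hn : ∑ k, n k = 0)
    (hi : IntervalIntegrable (fun θ => gL b N c n (pt 1 θ)) volume 0 (2 * π)) :
    IntervalIntegrable (fun θ => (Complex.log (eL b N c (pt 1 θ)) * SL b c n (pt 1 θ)).re)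
      volume 0 (2 * π) ∧
    ∫ θ in (0 : ℝ)..(2 * π), (Complex.log (eL b N c (pt 1 θ)) * SL b c n (pt 1 θ)).re =
      ∫ θ in (0 : ℝ)..(2 * π), gL b N c n (pt 1 θ) := by
  have hpi : (0 : ℝ) < 2 * π := by positivity
  have hnorm : ∀ θ : ℝ, ‖pt 1 θ‖ = 1 := fun θ => norm_pt zero_le_one θ
  have hmem : ∀ θ : ℝ, pt 1 θ ∈ Om b N c := fun θ =>
    h _ (by rw [hnorm]; exact h1.le) (by rw [hnorm])
  have hslit : ∀ θ ∈ Set.Ioo 0 (2 * π), eL b N c (pt 1 θ) ∈ Complex.slitPlane := fun θ hθ =>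
    he _ (hnorm θ) (pt_one_ne hθ.1 hθ.2)
  set Φ : ℝ → ℂ := fun θ => Complex.log (eL b N c (pt 1 θ)) with hΦ
  set S : ℝ → ℂ := fun θ => SL b c n (pt 1 θ) with hS
  set K : ℝ → ℝ := fun θ => H0 b c n (pt 1 θ) * (Φ θ).im with hK
  set K' : ℝ → ℝ := fun θ => (Complex.I * S θ).re * (Φ θ).im + H0 b c n (pt 1 θ) *
    (pt 1 θ * deriv (eL b N c) (pt 1 θ) / eL b N c (pt 1 θ)).re with hK'
  have hH0 : ∀ θ, HasDerivAt (fun θ => H0 b c n (pt 1 θ)) (Complex.I * S θ).re θ := fun θ =>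
    hasDerivAt_H0 n (hmem θ)
  have hΦd : ∀ θ ∈ Set.Ioo 0 (2 * π), HasDerivAt Φ
      (Complex.I * pt 1 θ * deriv (eL b N c) (pt 1 θ) / eL b N c (pt 1 θ)) θ := fun θ hθ =>
    (hasDerivAt_comp_pt1 (differentiableAt_eL (hmem θ)).hasDerivAt).clog_real (hslit θ hθ)
  have hΦi : ∀ θ ∈ Set.Ioo 0 (2 * π), HasDerivAt (fun θ => (Φ θ).im)
      (pt 1 θ * deriv (eL b N c) (pt 1 θ) / eL b N c (pt 1 θ)).re θ := by
    intro θ hθ
    have h2 := Complex.imCLM.hasFDerivAt.comp_hasDerivAt θ (hΦd θ hθ)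
    refine h2.congr_deriv ?_
    rw [Complex.imCLM_apply, mul_assoc, mul_div_assoc, Complex.I_mul_im]
  have hKd : ∀ θ ∈ Set.Ioo 0 (2 * π), HasDerivAt K (K' θ) θ := fun θ hθ =>
    (hH0 θ).mul (hΦi θ hθ)
  have heq : ∀ θ, (Φ θ * S θ).re = gL b N c n (pt 1 θ) + K' θ := by
    intro θ
    rw [hK']
    simp only
    rw [gL, Complex.mul_re, Complex.I_mul_re, hΦ]
    simp only
    rw [Complex.log_re, hS]
    simp only
    rw [SL_re]
    ring
  have hH0c : Continuous fun θ => H0 b c n (pt 1 θ) :=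
    continuous_iff_continuousAt.2 fun θ => (hH0 θ).continuousAt
  obtain ⟨C0, hC0, hC0'⟩ := H0_le h n hn
  have hH1 : H0 b c n 1 = 0 := by
    have h2 := hC0' 1 (by rw [norm_one]; exact h1.le) (by rw [norm_one])
    rw [sub_self, norm_zero, mul_zero] at h2
    exact abs_nonpos_iff.1 h2
  have hKz : ∀ θ : ℝ, pt 1 θ = 1 → K θ = 0 ∧ ContinuousAt K θ := by
    intro θ hθ
    have h2 : K θ = 0 := by
      rw [hK]
      simp only
      rw [hθ, hH1, zero_mul]
    refine ⟨h2, ?_⟩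
    rw [ContinuousAt, h2]
    have h3 : Tendsto (fun t => |H0 b c n (pt 1 t)| * π) (𝓝 θ) (𝓝 0) := by
      have h4 : Tendsto (fun t => |H0 b c n (pt 1 t)| * π) (𝓝 θ)
          (𝓝 (|H0 b c n (pt 1 θ)| * π)) := ((hH0c.abs).mul continuous_const).tendsto θ
      rwa [hθ, hH1, abs_zero, zero_mul] at h4
    refine squeeze_zero_norm (fun t => ?_) h3
    rw [hK]
    simp only
    rw [norm_mul, Real.norm_eq_abs, Real.norm_eq_abs]
    refine mul_le_mul_of_nonneg_left ?_ (abs_nonneg _)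
    rw [hΦ]
    simp only
    rw [Complex.log_im]
    exact Complex.abs_arg_le_pi _
  have hp0 : pt 1 0 = 1 := by simp [pt]
  have hp1 : pt 1 (2 * π) = 1 := by
    unfold pt
    push_cast
    rw [one_mul, Complex.exp_two_pi_mul_I]
  have hKc : ContinuousOn K (Set.Icc 0 (2 * π)) := by
    intro θ hθ
    refine ContinuousAt.continuousWithinAt ?_
    rcases eq_or_lt_of_le hθ.1 with e | e
    · rw [← e]
      exact (hKz 0 hp0).2
    · rcases eq_or_lt_of_le hθ.2 with e' | e'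
      · rw [e']
        exact (hKz _ hp1).2
      · exact (hKd θ ⟨e, e'⟩).continuousAt
  have hne : ∀ᵐ θ ∂(volume : Measure ℝ), θ ≠ 2 * π := by
    rw [ae_iff]
    simp
  have hIoc : Set.uIoc 0 (2 * π) = Set.Ioc 0 (2 * π) := Set.uIoc_of_le hpi.le
  have hint : IntervalIntegrable (fun θ => (Φ θ * S θ).re) volume 0 (2 * π) := by
    obtain ⟨C1, hC1, hC1'⟩ : ∃ C : ℝ, 0 ≤ C ∧ ∀ z ∈ An ρ, ‖SL b c n z‖ ≤ C :=
      bound_An fun z hz => (continuousAt_SL (N := N) n (h z hz.1 hz.2)).continuousWithinAt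
    obtain ⟨C2, hC2, hC2'⟩ : ∃ C : ℝ, 0 ≤ C ∧ ∀ z ∈ An ρ, ‖Real.log ‖EL b N c z‖‖ ≤ C :=
      bound_An fun z hz => ((differentiableAt_EL (h z hz.1 hz.2)).continuousAt.norm.log
        (norm_ne_zero_iff.2 (EL_ne_zero (h z hz.1 hz.2)))).continuousWithinAt
    have hbint : IntervalIntegrable (fun θ => ((((g + 1 : ℕ) : ℝ) * (Real.log 2 +
        |Real.log (|Real.sin (θ / 2)|)|) + C2) + π) * C1) volume 0 (2 * π) :=
      (((((intervalIntegrable_const (c := Real.log 2)).add integrable_log_half).const_mul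
        ((g + 1 : ℕ) : ℝ)).add (intervalIntegrable_const (c := C2))).add
        (intervalIntegrable_const (c := π))).mul_const C1
    have hmeas : AEStronglyMeasurable (fun θ => (Φ θ * S θ).re)
        (volume.restrict (Set.uIoc 0 (2 * π))) := by
      have hc : ContinuousOn (fun θ => (Φ θ * S θ).re) (Set.Ioo 0 (2 * π)) := by
        intro θ hθ
        refine ContinuousAt.continuousWithinAt ?_
        have h2 : ContinuousAt S θ := (continuousAt_SL n (hmem θ)).comp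
          (f := fun θ => pt 1 θ) (continuous_pt_right 1).continuousAt
        exact Complex.continuous_re.continuousAt.comp ((hΦd θ hθ).continuousAt.mul h2)
      have h2 := hc.aestronglyMeasurable (μ := volume) measurableSet_Ioo
      rw [hIoc, ← Measure.restrict_congr_set Ioo_ae_eq_Ioc]
      exact h2
    refine hbint.mono_fun' hmeas ?_
    rw [hIoc]
    filter_upwards [ae_restrict_of_ae hne, ae_restrict_mem measurableSet_Ioc] with θ h2 h3
    have h4 : θ < 2 * π := lt_of_le_of_ne h3.2 h2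
    have hz1 : pt 1 θ ≠ 1 := pt_one_ne h3.1 h4
    have hA : pt 1 θ ∈ An ρ := ⟨by rw [hnorm]; exact h1.le, by rw [hnorm]⟩
    have hlogb : |Real.log ‖1 - pt 1 θ‖| ≤ Real.log 2 + |Real.log (|Real.sin (θ / 2)|)| :=
      log_bound (by norm_num) le_rfl h3.1 h4
    have h1z : (1 : ℂ) - pt 1 θ ≠ 0 := sub_ne_zero.2 (Ne.symm hz1)
    have h1n : 0 < ‖1 - pt 1 θ‖ := norm_pos_iff.2 h1z
    have e1 : Real.log ‖eL b N c (pt 1 θ)‖ =
        ((g + 1 : ℕ) : ℝ) * Real.log ‖1 - pt 1 θ‖ + Real.log ‖EL b N c (pt 1 θ)‖ := by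
      rw [eL_eq_mul (hmem θ), norm_mul, norm_pow, Real.log_mul (by positivity)
        (norm_ne_zero_iff.2 (EL_ne_zero (hmem θ))), Real.log_pow]
    have e2 : |Real.log ‖eL b N c (pt 1 θ)‖| ≤ ((g + 1 : ℕ) : ℝ) * (Real.log 2 +
        |Real.log (|Real.sin (θ / 2)|)|) + C2 := by
      rw [e1]
      refine (abs_add_le _ _).trans (add_le_add ?_ ?_)
      · rw [abs_mul, abs_of_nonneg (Nat.cast_nonneg _)]
        exact mul_le_mul_of_nonneg_left hlogb (Nat.cast_nonneg _)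
      · exact hC2' _ hA
    have e3 : ‖Φ θ‖ ≤ (((g + 1 : ℕ) : ℝ) * (Real.log 2 +
        |Real.log (|Real.sin (θ / 2)|)|) + C2) + π := by
      refine (Complex.norm_le_abs_re_add_abs_im _).trans (add_le_add ?_ ?_)
      · rw [hΦ]
        simp only
        rw [Complex.log_re]
        exact e2
      · rw [hΦ]
        simp only
        rw [Complex.log_im]
        exact Complex.abs_arg_le_pi _
    rw [Real.norm_eq_abs]
    refine (Complex.abs_re_le_norm _).trans ?_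
    rw [norm_mul]
    exact mul_le_mul e3 (hC1' _ hA) (norm_nonneg _) ((norm_nonneg _).trans e3)
  have hK'int : IntervalIntegrable K' volume 0 (2 * π) := by
    have h2 := hint.sub hi
    refine h2.congr ?_
    intro θ _
    simp only
    rw [heq]
    ring
  have hzero : ∫ θ in (0 : ℝ)..(2 * π), K' θ = 0 := by
    rw [intervalIntegral.integral_eq_sub_of_hasDerivAt_of_le hpi.le hKc hKd hK'int,
      (hKz _ hp1).1, (hKz 0 hp0).1, sub_zero]
  refine ⟨hint, ?_⟩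
  have h2 : (∫ θ in (0 : ℝ)..(2 * π), (Φ θ * S θ).re) =
      ∫ θ in (0 : ℝ)..(2 * π), (gL b N c n (pt 1 θ) + K' θ) :=
    intervalIntegral.integral_congr fun θ _ => heq θ
  rw [h2, intervalIntegral.integral_add hi hK'int, hzero, add_zero]

end P4a177d
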