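import Pool.Agent.Lib.P4a177d.XLineB
import Pool.Agent.Lib.P4a177d.XLineD

/-!
# The lemma on vertical lines

PROOF. `xL_circle`: for `0 < θ < 2π`, `ζ = e^{iθ}`: `(1 + ζ) / (1 - ζ) = i cot (θ/2)`; take `y = cos (θ/2) / sin (θ/2)` (or: `(1 + ζ)/(1 - ζ)` is purely imaginary since its conjugate is
its negative, `y` its imaginary part).
`SL_circle`: `ζ B_k'/B_k = ζ x'(ζ) / (x - b_k) - ζ / (1 - ζ)` with `x = xL ζ`, `x' = 2 / (1 - ζ)^2`: `∑ n_k = 0` gives `SL ζ = 2 ζ / (1 - ζ)^2 * ∑ n_k / (x - b_k)`, and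
`2 ζ / (1 - ζ)^2 = 2 / (ζ⁻¹ - 2 + ζ) = -1 / (1 - cos θ)`.
`om_circle`: for `‖z‖ = 1`: `Qz z ≠ 0` because `B_k z = 2 + (d - 1)(1 - z)`, `d = c - b_k ≠ 0` real: for `z ≠ 1`, `B_k z = (1 - z)(x - b_k)`, `x - b_k = d + i y ≠ 0`; for `z = 1` it is `2`
(and `N ≠ 0`). `1 + 4 Uz z`: for `z ≠ 1` it is `1 + 4 / Pc (c + i y)` (`Uz_eq`), in the slit plane by `hP`; for `z = 1` it is `1`.
`line_lemma`: `exists_rho`; suppose the real part is negative for all `y`. For `r` near `1`, `r < 1`: `exists_loop_line` and `hk` give `∫ gL (pt r θ) = 0`; by `tendsto_line` the limit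
`∫ gL (pt 1 θ)` is `0` (uniqueness of limits, `𝓝[<] 1` is nontrivial). By `integral_SL`, `∫ (log (eL ζ) * SL ζ).re = 0`. But `eL ζ = eP (c + i y)` (`eL_eq`) and for `0 < θ < 2π`
`(log (eL ζ) * SL ζ).re = -(1 / (1 - cos θ)) * (log (eP (c + i y)) * ∑ n_k / (c + i y - b_k)).re > 0`: the integral is positive (`intervalIntegral.intervalIntegral_pos_of_pos_on`):
contradiction. The second part: the same with `-n` (or the negated function).
-/

set_option autoImplicit false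

namespace P4a177d

open P4a177h Filter Topology MeasureTheory
open scoped Real

variable {g : ℕ} {b : Fin (g + 1) → ℤ} {N : ℤ} {c : ℝ}

namespace XLineEAux

theorem pt_one_ne' {θ : ℝ} (h0 : 0 < θ) (h1 : θ < 2 * π) : 1 - Real.cos θ ≠ 0 := by
  intro h
  have h2 : Real.cos θ = 1 := by linarith
  rw [Real.cos_eq_one_iff_of_lt_of_lt (by linarith) h1] at h2
  exact h0.ne' h2

theorem pt_eq (θ : ℝ) : pt 1 θ = (Real.cos θ : ℂ) + (Real.sin θ : ℂ) * Complex.I := by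
  unfold pt
  rw [Complex.ofReal_one, one_mul, Complex.exp_mul_I, Complex.ofReal_cos, Complex.ofReal_sin]

theorem one_sub_sq (θ : ℝ) :
    (1 - pt 1 θ) ^ 2 = -2 * pt 1 θ * ((1 - Real.cos θ : ℝ) : ℂ) := by
  rw [pt_eq]
  have h : ((Real.cos θ : ℂ)) ^ 2 + (Real.sin θ : ℂ) ^ 2 = 1 := by
    exact_mod_cast Real.cos_sq_add_sin_sq θ
  push_cast at h ⊢
  linear_combination (Complex.sin θ ^ 2) * Complex.I_sq - h

end XLineEAux

open XLineEAux

theorem xL_circle (c : ℝ) {z : ℂ} (hz : ‖z‖ = 1) (h1 : z ≠ 1) :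
    ∃ y : ℝ, xL c z = (c : ℂ) + (y : ℂ) * Complex.I := by
  obtain ⟨q, hq⟩ : ∃ q : ℂ, q = (1 + z) / (1 - z) := ⟨_, rfl⟩
  have hz0 : z ≠ 0 := by
    rintro rfl
    norm_num at hz
  have h2 : (1 : ℂ) - z ≠ 0 := sub_ne_zero.2 (Ne.symm h1)
  have h3 : z - 1 ≠ 0 := sub_ne_zero.2 h1
  have hcz : (starRingEnd ℂ) z = z⁻¹ := (Complex.inv_eq_conj hz).symm
  have hc : (starRingEnd ℂ) q = -q := by
    rw [hq, map_div₀, map_add, map_sub, map_one, hcz]
    have h4 : (1 : ℂ) - z⁻¹ ≠ 0 := by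
      intro h5
      apply h3
      have h6 : z * (1 - z⁻¹) = 0 := by rw [h5, mul_zero]
      rwa [mul_sub, mul_one, mul_inv_cancel₀ hz0] at h6
    rw [← neg_div, div_eq_div_iff h4 h2]
    field_simp
    ring
  have hre : q.re = 0 := by
    have h4 := congrArg Complex.re hc
    rw [Complex.conj_re, Complex.neg_re] at h4
    linarith
  refine ⟨q.im, ?_⟩
  unfold xL
  rw [← hq]
  congr 1
  exact Complex.ext (by simp [hre]) (by simp)

theorem SL_circle (n : Fin (g + 1) → ℝ) (hn : ∑ k, n k = 0) (hc : ∀ k, (b k : ℝ) ≠ c) {θ : ℝ}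
    (h0 : 0 < θ) (h1 : θ < 2 * π) :
    SL b c n (pt 1 θ) = ((-(1 / (1 - Real.cos θ)) : ℝ) : ℂ) *
      ∑ k, (n k : ℂ) / (xL c (pt 1 θ) - (b k : ℂ)) := by
  have hcos := pt_one_ne' h0 h1
  have hcosC : ((1 - Real.cos θ : ℝ) : ℂ) ≠ 0 := by exact_mod_cast hcos
  obtain ⟨z, hz⟩ : ∃ z : ℂ, z = pt 1 θ := ⟨_, rfl⟩
  have hsq := one_sub_sq θ
  have hn1 := norm_pt zero_le_one θ
  rw [← hz] at hsq hn1 ⊢
  have hz0 : z ≠ 0 := by
    rintro rfl
    norm_num at hn1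
  have hz1 : z ≠ 1 := by
    rintro rfl
    rw [sub_self] at hsq
    have h2 : ((1 - Real.cos θ : ℝ) : ℂ) = 0 := by linear_combination hsq / 2
    exact hcosC h2
  have h2 : (1 : ℂ) - z ≠ 0 := sub_ne_zero.2 (Ne.symm hz1)
  obtain ⟨y, hy⟩ := xL_circle c hn1 hz1
  have hB : ∀ k, Bz b c k z ≠ 0 := by
    intro k hB0
    have h3 := xL_sub (b := b) (c := c) k hz1
    rw [hB0, zero_div, hy] at h3
    have h4 := congrArg Complex.re h3
    simp at h4
    exact hc k (by linarith)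
  have hfac : ((-(1 / (1 - Real.cos θ)) : ℝ) : ℂ) = 2 * z / (1 - z) ^ 2 := by
    rw [hsq]
    push_cast at hcosC ⊢
    field_simp
  have hterm : ∀ k, z * (-((c : ℂ) - (b k : ℂ) - 1)) / Bz b c k z =
      2 * z / (1 - z) ^ 2 * (1 / (xL c z - (b k : ℂ))) - z / (1 - z) := by
    intro k
    rw [xL_sub k hz1, one_div_div]
    have h3 := hB k
    have h4 : (c : ℂ) - (b k : ℂ) - 1 = (Bz b c k z - 2) / (1 - z) := by
      unfold Bz
      field_simp
      ring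
    rw [h4]
    field_simp
    ring
  unfold SL
  rw [hfac, Finset.mul_sum]
  have hn' : ∑ k, (n k : ℂ) = 0 := by exact_mod_cast hn
  calc ∑ k, (n k : ℂ) * (z * (-((c : ℂ) - (b k : ℂ) - 1)) / Bz b c k z)
      = ∑ k, (2 * z / (1 - z) ^ 2 * ((n k : ℂ) / (xL c z - (b k : ℂ))) -
          (n k : ℂ) * (z / (1 - z))) := by
        refine Finset.sum_congr rfl fun k _ => ?_
        rw [hterm k]
        ring
    _ = _ := by
        rw [Finset.sum_sub_distrib, ← Finset.sum_mul, hn', zero_mul, sub_zero]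

theorem om_circle (hN : N ≠ 0) (hc : ∀ k, (b k : ℝ) ≠ c)
    (hP : ∀ y : ℝ, 1 + 4 / Pc b N ((c : ℂ) + (y : ℂ) * Complex.I) ∈ Complex.slitPlane) {z : ℂ}
    (hz : ‖z‖ = 1) : z ∈ Om b N c := by
  have hN' : (N : ℂ) ≠ 0 := by exact_mod_cast hN
  rcases eq_or_ne z 1 with rfl | h1
  · refine ⟨?_, ?_⟩
    · unfold Qz
      refine mul_ne_zero hN' (Finset.prod_ne_zero_iff.2 fun k _ => ?_)
      unfold Bz
      norm_num
    · have h2 : Uz b N c 1 = 0 := by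
        unfold Uz
        rw [sub_self, zero_pow (Nat.succ_ne_zero g), zero_div]
      rw [h2, mul_zero, add_zero]
      exact Complex.one_mem_slitPlane
  · obtain ⟨y, hy⟩ := xL_circle c hz h1
    refine ⟨?_, ?_⟩
    · unfold Qz
      refine mul_ne_zero hN' (Finset.prod_ne_zero_iff.2 fun k _ => ?_)
      intro hB0
      have h3 := xL_sub (b := b) (c := c) k h1
      rw [hB0, zero_div, hy] at h3
      have h4 := congrArg Complex.re h3
      simp at h4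
      exact hc k (by linarith)
    · rw [Uz_eq h1, mul_one_div, hy]
      exact hP y

namespace XLineEAux

theorem line_aux (hN : N ≠ 0) (hc : ∀ k, (b k : ℝ) ≠ c)
    (hP : ∀ y : ℝ, 1 + 4 / Pc b N ((c : ℂ) + (y : ℂ) * Complex.I) ∈ Complex.slitPlane)
    (he : ∀ y : ℝ, eP b N ((c : ℂ) + (y : ℂ) * Complex.I) ∈ Complex.slitPlane)
    (n : Fin (g + 1) → ℝ) (hn : ∑ k, n k = 0)
    (hk : ∀ γ : Torus 1 (CoordRing b N), ∑ k, n k * regFun γ ![uF b N, uL b N k] = 0) {σ : ℝ}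
    (hσ : ∀ y : ℝ, 0 < σ * (Complex.log (eP b N ((c : ℂ) + (y : ℂ) * Complex.I)) *
      ∑ k, (n k : ℂ) / ((c : ℂ) + (y : ℂ) * Complex.I - (b k : ℂ))).re) : False := by
  obtain ⟨ρ, h0, h1, hρ⟩ := exists_rho (b := b) (N := N) (c := c) fun z hz =>
    om_circle hN hc hP hz
  obtain ⟨hi, hlim⟩ := tendsto_line h0 h1 hρ n hn
  have hzero : ∫ θ in (0 : ℝ)..(2 * π), gL b N c n (pt 1 θ) = 0 := by
    refine tendsto_nhds_unique hlim ?_
    refine tendsto_const_nhds.congr' ?_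
    filter_upwards [Ioo_mem_nhdsLT h1] with r hr
    obtain ⟨γ, hγ⟩ := exists_loop_line h0 hρ hr.1 hr.2 n hn
    rw [← hγ, hk γ]
  obtain ⟨hj, hint⟩ := integral_SL h0 h1 hρ (fun z hz hz1 => by
    obtain ⟨y, hy⟩ := xL_circle c hz hz1
    rw [eL_eq hz1, hy]
    exact he y) n hn hi
  rw [hzero] at hint
  have hpos : 0 < ∫ θ in (0 : ℝ)..(2 * π),
      (-σ) * (Complex.log (eL b N c (pt 1 θ)) * SL b c n (pt 1 θ)).re := by
    refine intervalIntegral.intervalIntegral_pos_of_pos_on (hj.const_mul _) ?_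
      (by positivity)
    intro θ hθ
    have hne : pt 1 θ ≠ 1 := pt_one_ne hθ.1 hθ.2
    obtain ⟨y, hy⟩ := xL_circle c (norm_pt zero_le_one θ) hne
    have hcos : 0 < 1 - Real.cos θ := lt_of_le_of_ne (by linarith [Real.cos_le_one θ])
      (pt_one_ne' hθ.1 hθ.2).symm
    rw [SL_circle n hn hc hθ.1 hθ.2, eL_eq hne, hy]
    have e1 : ∀ (L S : ℂ) (a : ℝ), (L * ((a : ℂ) * S)).re = a * (L * S).re := by
      intro L S a
      rw [mul_left_comm, Complex.re_ofReal_mul]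
    rw [e1]
    have h2 := hσ y
    have h3 : 0 < 1 / (1 - Real.cos θ) := by positivity
    have h4 := mul_pos h3 h2
    linarith
  rw [intervalIntegral.integral_const_mul, hint, mul_zero] at hpos
  exact lt_irrefl _ hpos

end XLineEAux

theorem line_lemma (hN : N ≠ 0) (hc : ∀ k, (b k : ℝ) ≠ c)
    (hP : ∀ y : ℝ, 1 + 4 / Pc b N ((c : ℂ) + (y : ℂ) * Complex.I) ∈ Complex.slitPlane)
    (he : ∀ y : ℝ, eP b N ((c : ℂ) + (y : ℂ) * Complex.I) ∈ Complex.slitPlane)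
    (n : Fin (g + 1) → ℝ) (hn : ∑ k, n k = 0)
    (hk : ∀ γ : Torus 1 (CoordRing b N), ∑ k, n k * regFun γ ![uF b N, uL b N k] = 0) :
    (¬ ∀ y : ℝ, (Complex.log (eP b N ((c : ℂ) + (y : ℂ) * Complex.I)) *
      ∑ k, (n k : ℂ) / ((c : ℂ) + (y : ℂ) * Complex.I - (b k : ℂ))).re < 0) ∧
    (¬ ∀ y : ℝ, 0 < (Complex.log (eP b N ((c : ℂ) + (y : ℂ) * Complex.I)) *
      ∑ k, (n k : ℂ) / ((c : ℂ) + (y : ℂ) * Complex.I - (b k : ℂ))).re) := by
  refine ⟨fun h => line_aux hN hc hP he n hn hk (σ := -1) fun y => ?_,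
    fun h => line_aux hN hc hP he n hn hk (σ := 1) fun y => ?_⟩
  · have := h y
    linarith
  · have := h y
    linarith

end P4a177d
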