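import Pool.Agent.Lib.P4a177d.LoopD
import Pool.Agent.Lib.P4a177d.ByPartsD
import Pool.Agent.Lib.P4a177d.XLineE
import Pool.Agent.Lib.P4a177d.XFour

/-!
# The exceptional curves with four roots

On the line `x = c + i y` the polynomial `P` is the positive real number
`N (y^2 + al^2) (y^2 + be^2)`.
-/

set_option autoImplicit false

namespace P4a177d

open P4a177h Filter Topology MeasureTheory
open scoped Real

namespace XEndFourAux

theorem re_div (a d y : ℝ) : ((a : ℂ) / ((d : ℂ) + (y : ℂ) * Complex.I)).re =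
    a * d / (y ^ 2 + d ^ 2) := by
  rw [Complex.div_re, Complex.normSq_add_mul_I]
  simp
  ring

/-- The value of the function `eP` at a point where `P` is a positive real number. -/
theorem eP_pos {g : ℕ} {b : Fin (g + 1) → ℤ} {N : ℤ} {x : ℂ} {p : ℝ} (hp : 0 < p)
    (h : Pc b N x = (p : ℂ)) :
    1 + 4 / Pc b N x ∈ Complex.slitPlane ∧ ∃ e : ℝ, 0 < e ∧ e < 1 ∧ eP b N x = (e : ℂ) := by
  have hw : 1 < 1 + 4 / p := by
    have : 0 < 4 / p := by positivity
    linarith
  have e1 : (1 : ℂ) + 4 / Pc b N x = ((1 + 4 / p : ℝ) : ℂ) := by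
    rw [h]
    push_cast
    rfl
  have hlog : 0 < Real.log (1 + 4 / p) := Real.log_pos hw
  have e2 : Complex.exp (Complex.log (1 + 4 / Pc b N x) / 2) =
      ((Real.exp (Real.log (1 + 4 / p) / 2) : ℝ) : ℂ) := by
    rw [e1, ← Complex.ofReal_log (by linarith)]
    push_cast
    rfl
  have hs : 1 < Real.exp (Real.log (1 + 4 / p) / 2) := Real.one_lt_exp_iff.2 (by linarith)
  set s := Real.exp (Real.log (1 + 4 / p) / 2) with hsdef
  constructor
  · rw [e1, Complex.ofReal_mem_slitPlane]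
    linarith
  · refine ⟨(s - 1) / (s + 1), div_pos (by linarith) (by linarith), ?_, ?_⟩
    · rw [div_lt_one (by linarith)]
      linarith
    · unfold eP
      rw [e2]
      push_cast
      rfl

theorem gap_zero {g : ℕ} {b : Fin (g + 1) → ℤ} {N : ℤ} (hN : N ≠ 0) (n : Fin (g + 1) → ℝ)
    (hkS : ∀ T : Seg (PR b N), ∑ k, n k * T.RR (b k) = 0) (S : Seg (PR b N)) {i j : Fin (g + 1)}
    (hi : S.p = b i) (hj : S.q = b j) (l : ℝ) :
    ∃ x : ℝ, (b i : ℝ) < x ∧ x < b j ∧ ∑ k, (n k - l) / (x - b k) = 0 := by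
  have h0 : ∀ k, (PR b N).eval (b k : ℝ) = 0 := by
    intro k
    rw [LoopDAux.eval_PR, Finset.prod_eq_zero (Finset.mem_univ k) (sub_self _), mul_zero]
  have hp : (PR b N).eval S.p = 0 := by
    rw [hi]
    exact h0 i
  have hq : (PR b N).eval S.q = 0 := by
    rw [hj]
    exact h0 j
  have h1 : ∑ k, (n k - l) * S.RR (b k) = 0 := by
    have h2 : ∀ k, (n k - l) * S.RR (b k) = n k * S.RR (b k) - l * S.RR (b k) := fun k => by ring
    rw [Finset.sum_congr rfl fun k _ => h2 k, Finset.sum_sub_distrib, hkS S, ← Finset.mul_sum,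
      sum_RR hN S, TT_eq_zero S hp hq]
    ring
  obtain ⟨x, hx, h2⟩ := exists_eval_D S hp hq (fun k => n k - l) (fun k => (b k : ℝ))
    (fun k => not_mem_Ioo S k) h1
  refine ⟨x, ?_, ?_, h2⟩
  · rw [← hi]
    exact hx.1
  · rw [← hj]
    exact hx.2

end XEndFourAux

open XEndFourAux

theorem end_four {b : Fin (3 + 1) → ℤ} {N : ℤ} (hb : StrictMono b) (hN : 0 < N) {al be c : ℝ}
    (ha : 0 < al) (hab : al < be) (h0 : (b 0 : ℝ) = c - be) (h1 : (b 1 : ℝ) = c - al)
    (h2 : (b 2 : ℝ) = c + al) (h3 : (b 3 : ℝ) = c + be)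
    (S S' : Seg (PR b N)) (hS : S.p = b 0 ∧ S.q = b 1) (hS' : S'.p = b 2 ∧ S'.q = b 3)
    (n : Fin (3 + 1) → ℝ) (hn : ∑ k, n k = 0)
    (hkS : ∀ T : Seg (PR b N), ∑ k, n k * T.RR (b k) = 0)
    (hk : ∀ γ : Torus 1 (CoordRing b N), ∑ k, n k * regFun γ ![uF b N, uL b N k] = 0) :
    n = 0 := by
  have hbe : 0 < be := ha.trans hab
  have hN' : (0 : ℝ) < N := by exact_mod_cast hN
  -- the differences
  have s0 : ∀ y : ℝ, (c : ℂ) + (y : ℂ) * Complex.I - (b 0 : ℂ) = (be : ℂ) + (y : ℂ) * Complex.I := by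
    intro y
    have : (b 0 : ℂ) = ((b 0 : ℝ) : ℂ) := by push_cast; rfl
    rw [this, h0]
    push_cast
    ring
  have s1 : ∀ y : ℝ, (c : ℂ) + (y : ℂ) * Complex.I - (b 1 : ℂ) = (al : ℂ) + (y : ℂ) * Complex.I := by
    intro y
    have : (b 1 : ℂ) = ((b 1 : ℝ) : ℂ) := by push_cast; rfl
    rw [this, h1]
    push_cast
    ring
  have s2 : ∀ y : ℝ, (c : ℂ) + (y : ℂ) * Complex.I - (b 2 : ℂ) =
      ((-al : ℝ) : ℂ) + (y : ℂ) * Complex.I := by
    intro y
    have : (b 2 : ℂ) = ((b 2 : ℝ) : ℂ) := by push_cast; rfl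
    rw [this, h2]
    push_cast
    ring
  have s3 : ∀ y : ℝ, (c : ℂ) + (y : ℂ) * Complex.I - (b 3 : ℂ) =
      ((-be : ℝ) : ℂ) + (y : ℂ) * Complex.I := by
    intro y
    have : (b 3 : ℂ) = ((b 3 : ℝ) : ℂ) := by push_cast; rfl
    rw [this, h3]
    push_cast
    ring
  have hPc : ∀ y : ℝ, Pc b N ((c : ℂ) + (y : ℂ) * Complex.I) =
      ((N * ((y ^ 2 + al ^ 2) * (y ^ 2 + be ^ 2)) : ℝ) : ℂ) := by
    intro y
    unfold Pc
    rw [Fin.prod_univ_four, s0, s1, s2, s3]
    push_cast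
    have hI : Complex.I ^ 2 = -1 := Complex.I_sq
    linear_combination ((N : ℂ) * ((y : ℂ) ^ 4 * (Complex.I ^ 2 - 1) -
      (y : ℂ) ^ 2 * ((al : ℂ) ^ 2 + (be : ℂ) ^ 2))) * hI
  have hpp : ∀ y : ℝ, 0 < (N : ℝ) * ((y ^ 2 + al ^ 2) * (y ^ 2 + be ^ 2)) := by
    intro y
    have : 0 < al ^ 2 := by positivity
    have : 0 < be ^ 2 := by positivity
    have := sq_nonneg y
    positivity
  have hE : ∀ y : ℝ, ∃ e : ℝ, 0 < e ∧ e < 1 ∧ eP b N ((c : ℂ) + (y : ℂ) * Complex.I) = (e : ℂ) :=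
    fun y => (eP_pos (hpp y) (hPc y)).2
  choose e e0 e1 he using hE
  have hla : ∀ y, 0 < -Real.log (e y) := fun y => by
    have := Real.log_neg (e0 y) (e1 y)
    linarith
  have hc : ∀ k, (b k : ℝ) ≠ c := by
    intro k
    fin_cases k
    · show (b 0 : ℝ) ≠ c
      rw [h0]
      intro h
      linarith
    · show (b 1 : ℝ) ≠ c
      rw [h1]
      intro h
      linarith
    · show (b 2 : ℝ) ≠ c
      rw [h2]
      intro h
      linarith
    · show (b 3 : ℝ) ≠ c
      rw [h3]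
      intro h
      linarith
  have hval : ∀ y : ℝ, (Complex.log (eP b N ((c : ℂ) + (y : ℂ) * Complex.I)) *
      ∑ k, (n k : ℂ) / ((c : ℂ) + (y : ℂ) * Complex.I - (b k : ℂ))).re =
      -(-Real.log (e y) * ((n 0 - n 3) * be / (y ^ 2 + be ^ 2) +
        (n 1 - n 2) * al / (y ^ 2 + al ^ 2))) := by
    intro y
    rw [he y, ← Complex.ofReal_log (e0 y).le, Complex.re_ofReal_mul, Complex.re_sum,
      Fin.sum_univ_four, s0, s1, s2, s3, re_div, re_div, re_div, re_div]
    ring
  obtain ⟨hneg, hpos⟩ := line_lemma (c := c) hN.ne' hc (fun y => (eP_pos (hpp y) (hPc y)).1)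
    (fun y => by
      rw [he y, Complex.ofReal_mem_slitPlane]
      exact e0 y) n hn hk
  have hker : Ker4 al be (fun y => -Real.log (e y)) n := by
    refine ⟨?_, ?_, ?_, ?_⟩
    · intro l
      obtain ⟨x, x1, x2, hx⟩ := gap_zero hN.ne' n hkS S hS.1 hS.2 l
      refine ⟨c - x, by linarith, by linarith, ?_⟩
      rw [Fin.sum_univ_four, h0, h1, h2, h3] at hx
      rw [← hx]
      congr 1
      · congr 1
        · congr 1
          · congr 1
            ring
          · congr 1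
            ring
        · congr 1
          ring
      · congr 1
        ring
    · intro l
      obtain ⟨x, x1, x2, hx⟩ := gap_zero hN.ne' n hkS S' hS'.1 hS'.2 l
      refine ⟨x - c, by linarith, by linarith, ?_⟩
      rw [Fin.sum_univ_four, h0, h1, h2, h3] at hx
      rw [← hx]
      congr 1
      · congr 1
        · congr 1
          · congr 1
            ring
          · congr 1
            ring
        · congr 1
          ring
      · congr 1
        ring
    · intro h
      refine hpos fun y => ?_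
      rw [hval]
      have := h y
      linarith
    · intro h
      refine hneg fun y => ?_
      rw [hval]
      have := h y
      linarith
  have hconst := hker.const ha hab hla
  have h4 : ∑ k, n k = 4 * n 0 := by
    rw [Finset.sum_congr rfl fun k _ => hconst k]
    simp
  funext k
  rw [hconst k, Pi.zero_apply]
  rw [hn] at h4
  linarith

end P4a177d
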