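import Mathlib

/-!
# The exceptional curve with five roots: the final inequalities

The three kinds of loops give, for a kernel vector `n`, point equations. They force `n` to be
constant.
-/

set_option autoImplicit false

namespace P4a177d

open Real

/-- `∑ (n_k - l) / (x - k)` -/
noncomputable def S5 (n : Fin 5 → ℝ) (l x : ℝ) : ℝ := ∑ k : Fin 5, (n k - l) / (x - (k : ℕ))

theorem S5_eq (n : Fin 5 → ℝ) (l x : ℝ) : S5 n l x = (n 0 - l) / x + (n 1 - l) / (x - 1) +
    (n 2 - l) / (x - 2) + (n 3 - l) / (x - 3) + (n 4 - l) / (x - 4) := by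
  unfold S5
  simp only [Fin.sum_univ_succ, Finset.univ_unique, Finset.sum_singleton]
  simp
  ring

/-- The integrand of the loop around the vertical line. -/
noncomputable def W5 (n : Fin 5 → ℝ) (la ph y : ℝ) : ℝ :=
  ∑ k : Fin 5, n k * (la * (5 / 2 - (k : ℕ)) + ph * y) / (y ^ 2 + (5 / 2 - (k : ℕ)) ^ 2)

theorem W5_eq (n : Fin 5 → ℝ) (la ph y : ℝ) : W5 n la ph y =
    n 0 * (la * (5 / 2) + ph * y) / (y ^ 2 + 25 / 4) +
    n 1 * (la * (3 / 2) + ph * y) / (y ^ 2 + 9 / 4) +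
    n 2 * (la * (1 / 2) + ph * y) / (y ^ 2 + 1 / 4) +
    n 3 * (- la * (1 / 2) + ph * y) / (y ^ 2 + 1 / 4) +
    n 4 * (- la * (3 / 2) + ph * y) / (y ^ 2 + 9 / 4) := by
  unfold W5
  simp only [Fin.sum_univ_succ, Finset.univ_unique, Finset.sum_singleton]
  simp
  norm_num
  ring

/-- The equations for a kernel vector. -/
structure Ker5 (la ph : ℝ → ℝ) (n : Fin 5 → ℝ) : Prop where
  e : ∃ t : ℝ, 0 < t ∧ t < 1 / 7 ∧
    (n 1 - n 0) * log (1 + t) + (n 2 - n 0) * log (2 + t) + (n 3 - n 0) * log (3 + t) +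
      (n 4 - n 0) * log (4 + t) = 0
  d1 : ∀ l : ℝ, ∃ x, 1 < x ∧ x < 2 ∧ S5 n l x = 0
  d3 : ∀ l : ℝ, ∃ x, 3 < x ∧ x < 4 ∧ S5 n l x = 0
  neg : ¬ ∀ y : ℝ, W5 (fun k => n k - (∑ j, n j) / 5) (la y) (ph y) y < 0
  pos : ¬ ∀ y : ℝ, 0 < W5 (fun k => n k - (∑ j, n j) / 5) (la y) (ph y) y

/-- The conditions on the logarithm of the unit on the line. -/
def Good5 (la ph : ℝ → ℝ) : Prop := ∀ y : ℝ, log 3 ≤ la y ∧ 0 ≤ ph y * y ∧ |ph y| ≤ π / 2

theorem S5_affine (n : Fin 5 → ℝ) (a b l x : ℝ) :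
    S5 (fun k => a * n k + b) (a * l + b) x = a * S5 n l x := by
  unfold S5
  rw [Finset.mul_sum]
  refine Finset.sum_congr rfl fun k _ => ?_
  ring

theorem W5_smul (n : Fin 5 → ℝ) (a la ph y : ℝ) :
    W5 (fun k => a * n k) la ph y = a * W5 n la ph y := by
  unfold W5
  rw [Finset.mul_sum]
  refine Finset.sum_congr rfl fun k _ => ?_
  ring

theorem mean_affine (n : Fin 5 → ℝ) (a b : ℝ) (k : Fin 5) :
    (a * n k + b) - (∑ j, (a * n j + b)) / 5 = a * (n k - (∑ j, n j) / 5) := by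
  rw [Finset.sum_add_distrib, ← Finset.mul_sum]
  simp
  ring

theorem Ker5.affine {la ph : ℝ → ℝ} {n : Fin 5 → ℝ} (h : Ker5 la ph n) {a : ℝ} (ha : a ≠ 0)
    (b : ℝ) : Ker5 la ph (fun k => a * n k + b) := by
  refine ⟨?_, ?_, ?_, ?_, ?_⟩
  · obtain ⟨t, h1, h2, h3⟩ := h.e
    refine ⟨t, h1, h2, ?_⟩
    have : a * ((n 1 - n 0) * log (1 + t) + (n 2 - n 0) * log (2 + t) + (n 3 - n 0) * log (3 + t) +
      (n 4 - n 0) * log (4 + t)) = 0 := by rw [h3, mul_zero]
    linear_combination this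
  · intro l
    obtain ⟨x, h1, h2, h3⟩ := h.d1 ((l - b) / a)
    refine ⟨x, h1, h2, ?_⟩
    have h4 := S5_affine n a b ((l - b) / a) x
    rw [mul_div_cancel₀ _ ha, sub_add_cancel, h3, mul_zero] at h4
    exact h4
  · intro l
    obtain ⟨x, h1, h2, h3⟩ := h.d3 ((l - b) / a)
    refine ⟨x, h1, h2, ?_⟩
    have h4 := S5_affine n a b ((l - b) / a) x
    rw [mul_div_cancel₀ _ ha, sub_add_cancel, h3, mul_zero] at h4
    exact h4
  · intro h1
    simp only [mean_affine, W5_smul] at h1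
    rcases lt_or_gt_of_ne ha with ha' | ha'
    · exact h.pos fun y => pos_of_mul_neg_right (h1 y) ha'.le
    · exact h.neg fun y => neg_of_mul_neg_right (h1 y) ha'.le
  · intro h1
    simp only [mean_affine, W5_smul] at h1
    rcases lt_or_gt_of_ne ha with ha' | ha'
    · exact h.neg fun y => by
        have := h1 y
        by_contra h2
        push Not at h2
        nlinarith
    · exact h.pos fun y => by
        have := h1 y
        by_contra h2
        push Not at h2
        nlinarith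

theorem log3_gt : (1.097 : ℝ) < log 3 := by
  have h1 : (19 : ℝ) * log 2 < 12 * log 3 := by
    have : log ((2 : ℝ) ^ 19) < log ((3 : ℝ) ^ 12) := log_lt_log (by positivity) (by norm_num)
    rwa [log_pow, log_pow] at this
  have := log_two_gt_d9
  norm_num at this ⊢
  linarith

theorem log3_lt : log 3 < (1.1091 : ℝ) := by
  have h1 : (5 : ℝ) * log 3 < 8 * log 2 := by
    have : log ((3 : ℝ) ^ 5) < log ((2 : ℝ) ^ 8) := log_lt_log (by positivity) (by norm_num)
    rwa [log_pow, log_pow] at this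
  have := log_two_lt_d9
  norm_num at this ⊢
  linarith

theorem log4_eq : log 4 = 2 * log 2 := by
  rw [show (4 : ℝ) = 2 ^ 2 by norm_num, log_pow]
  norm_num

/-- The bounds of the logarithms. -/
theorem logs {t : ℝ} (h0 : 0 < t) (h1 : t < 1 / 7) :
    0 < log (1 + t) ∧ log (1 + t) < 0.1429 ∧ 0.6931 < log (2 + t) ∧ log (2 + t) < 0.7646 ∧
    1.097 < log (3 + t) ∧ log (3 + t) < 1.1568 ∧ 1.3862 < log (4 + t) ∧ log (4 + t) < 1.4221 := by
  have hl2 := log_two_gt_d9
  have hl2' := log_two_lt_d9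
  have hl3 := log3_gt
  have hl3' := log3_lt
  have hl4 := log4_eq
  have key : ∀ c : ℝ, 0 < c → log (c + t) ≤ log c + t / c := by
    intro c hc
    have : c + t = c * (1 + t / c) := by field_simp
    rw [this, log_mul hc.ne' (by positivity)]
    have := log_le_sub_one_of_pos (show 0 < 1 + t / c by positivity)
    linarith
  refine ⟨log_pos (by linarith), ?_, ?_, ?_, ?_, ?_, ?_, ?_⟩
  · have := key 1 one_pos
    rw [log_one, div_one] at this
    norm_num at *
    linarith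
  · have : log 2 < log (2 + t) := log_lt_log (by norm_num) (by linarith)
    norm_num at *
    linarith
  · have := key 2 two_pos
    norm_num at *
    linarith
  · have : log 3 < log (3 + t) := log_lt_log (by norm_num) (by linarith)
    norm_num at *
    linarith
  · have := key 3 (by norm_num)
    norm_num at *
    linarith
  · have : log 4 < log (4 + t) := log_lt_log (by norm_num) (by linarith)
    rw [hl4] at this
    norm_num at *
    linarith
  · have := key 4 (by norm_num)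
    rw [hl4] at this
    norm_num at *
    linarith

/-- The case `n_1 = 0`. -/
theorem case1 {la ph : ℝ → ℝ} {n : Fin 5 → ℝ} (h : Ker5 la ph n) (hn : ∀ k, 0 ≤ n k ∧ n k ≤ 1)
    (h3 : n 3 = 1) (h1 : n 1 = 0) : False := by
  obtain ⟨t, t0, t1, he⟩ := h.e
  obtain ⟨a1, a2, a3, a4, a5, a6, a7, a8⟩ := logs t0 t1
  have a9 : log (3 + t) < log (4 + t) := log_lt_log (by linarith) (by linarith)
  obtain ⟨x, x1, x2, hx⟩ := h.d1 0
  rw [S5_eq, h1, h3] at hx
  rw [h1, h3] at he
  have b0 := hn 0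
  have b2 := hn 2
  have b4 := hn 4
  set A1 := log (1 + t)
  set A2 := log (2 + t)
  set A3 := log (3 + t)
  set A4 := log (4 + t)
  have hx' : n 0 = n 2 * (x / (2 - x)) + x / (3 - x) + n 4 * (x / (4 - x)) := by
    have e1 : x ≠ 0 := by linarith
    have e2 : x - 1 ≠ 0 := by linarith
    have e3 : x - 2 ≠ 0 := by linarith
    have e4 : x - 3 ≠ 0 := by linarith
    have e5 : x - 4 ≠ 0 := by linarith
    have e3' : 2 - x ≠ 0 := by linarith
    have e4' : 3 - x ≠ 0 := by linarith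
    have e5' : 4 - x ≠ 0 := by linarith
    have f3 : (n 2 - 0) / (x - 2) = - (n 2 / (2 - x)) := by
      rw [show x - 2 = -(2 - x) by ring, div_neg]; ring
    have f4 : (1 - 0) / (x - 3) = - (1 / (3 - x)) := by
      rw [show x - 3 = -(3 - x) by ring, div_neg]; ring
    have f5 : (n 4 - 0) / (x - 4) = - (n 4 / (4 - x)) := by
      rw [show x - 4 = -(4 - x) by ring, div_neg]; ring
    rw [f3, f4, f5] at hx
    have := congrArg (fun w => x * w) hx
    simp only [mul_zero] at this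
    have g1 : x * ((n 0 - 0) / x + (0 - 0) / (x - 1) + -(n 2 / (2 - x)) + -(1 / (3 - x)) +
      -(n 4 / (4 - x))) = n 0 - n 2 * (x / (2 - x)) - x / (3 - x) - n 4 * (x / (4 - x)) := by
      field_simp
      ring
    linarith
  have c2 : 1 ≤ x / (2 - x) := by rw [le_div_iff₀ (by linarith)]; linarith
  have c3 : 1 / 2 < x / (3 - x) := by rw [lt_div_iff₀ (by linarith)]; linarith
  have c4 : 1 / 3 ≤ x / (4 - x) := by rw [le_div_iff₀ (by linarith)]; linarith
  have d1 : n 2 + 1 / 2 + n 4 / 3 < n 0 := by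
    rw [hx']
    nlinarith [mul_le_mul_of_nonneg_left c2 b2.1, mul_le_mul_of_nonneg_left c4 b4.1]
  have d2 : n 0 * (A1 + A2 + A3 + A4) = A2 * n 2 + A3 + A4 * n 4 := by linear_combination -he
  have hS : 0 < A1 + A2 + A3 + A4 := by linarith
  have d3 : (n 2 + 1 / 2 + n 4 / 3) * (A1 + A2 + A3 + A4) < A2 * n 2 + A3 + A4 * n 4 := by
    rw [← d2]
    exact mul_lt_mul_of_pos_right d1 hS
  have d4 : A2 * n 2 ≤ n 2 * (A1 + A2 + A3 + A4) := by nlinarith
  have d5 : A3 + A4 * n 4 ≤ (1 / 2 + n 4 / 3) * (A1 + A2 + A3 + A4) := by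
    have e1 : 0 ≤ (1 - n 4) * (A1 + A2 + A4 - A3) := mul_nonneg (by linarith) (by linarith)
    have e2 : 0 ≤ n 4 * (5 * (A1 + A2) - A3 - A4) := mul_nonneg b4.1 (by norm_num at *; linarith)
    nlinarith
  nlinarith

/-- The pointwise inequality. -/
theorem point_neg {a b d la ph y : ℝ} (hd : 0 ≤ d) (ha : a ≤ 0.081 + 0.168 * d)
    (hb : b ≤ 0.209) (hla : (1.097 : ℝ) ≤ la) (hph0 : 0 ≤ ph * y) (hph : |ph| ≤ π / 2) :
    a * (la * (5 / 2) + ph * y) / (y ^ 2 + 25 / 4) - d * (la * (3 / 2)) / (y ^ 2 + 9 / 4) -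
      (la * (1 / 2)) / (y ^ 2 + 1 / 4) - (a + b) * (ph * y) / (y ^ 2 + 9 / 4) +
      b * (ph * y) / (y ^ 2 + 1 / 4) < 0 := by
  have hpi := pi_lt_d2
  -- `p = ph * y` is between `0` and `1.575 |y|`
  set p := ph * y with hp
  have hp1 : p ≤ 1.575 * |y| := by
    have : p ≤ |ph| * |y| := by rw [← abs_mul]; exact le_abs_self _
    have h2 : |ph| * |y| ≤ 1.575 * |y| := by
      apply mul_le_mul_of_nonneg_right _ (abs_nonneg y)
      norm_num at *
      linarith
    linarith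
  have hy2 : |y| ^ 2 = y ^ 2 := sq_abs y
  have hy0 : 0 ≤ |y| := abs_nonneg y
  have q1 : 0 < y ^ 2 + 25 / 4 := by positivity
  have q2 : 0 < y ^ 2 + 9 / 4 := by positivity
  have q3 : 0 < y ^ 2 + 1 / 4 := by positivity
  -- `p / (y ^ 2 + 9 / 4) ≤ 0.525`
  have hp2 : p ≤ 0.525 * (y ^ 2 + 9 / 4) := by nlinarith [sq_nonneg (|y| - 3 / 2)]
  have e1 : a * (la * (5 / 2) + p) / (y ^ 2 + 25 / 4) - d * (la * (3 / 2)) / (y ^ 2 + 9 / 4) -
      (la * (1 / 2)) / (y ^ 2 + 1 / 4) - (a + b) * p / (y ^ 2 + 9 / 4) +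
      b * p / (y ^ 2 + 1 / 4) =
      a * (la * (5 / 2) - 4 * (p / (y ^ 2 + 9 / 4))) / (y ^ 2 + 25 / 4) -
      d * (la * (3 / 2)) / (y ^ 2 + 9 / 4) -
      (la * (1 / 2)) / (y ^ 2 + 1 / 4) + b * (2 * (p / (y ^ 2 + 9 / 4))) / (y ^ 2 + 1 / 4) := by
    field_simp
    ring
  rw [e1]
  set w := p / (y ^ 2 + 9 / 4) with hw
  have hw0 : 0 ≤ w := div_nonneg hph0 q2.le
  have hw1 : w ≤ 0.525 := by rw [hw, div_le_iff₀ q2]; exact hp2
  -- the coefficient of `a`
  have c1 : 0 < la * (5 / 2) - 4 * w := by norm_num at *; linarith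
  have f1 : a * (la * (5 / 2) - 4 * w) / (y ^ 2 + 25 / 4) ≤
      (0.081 + 0.168 * d) * (la * (5 / 2)) / (y ^ 2 + 25 / 4) := by
    apply div_le_div_of_nonneg_right _ q1.le
    have g1 : a * (la * (5 / 2) - 4 * w) ≤ (0.081 + 0.168 * d) * (la * (5 / 2) - 4 * w) :=
      mul_le_mul_of_nonneg_right ha c1.le
    have g2 : (0.081 + 0.168 * d) * (la * (5 / 2) - 4 * w) ≤
        (0.081 + 0.168 * d) * (la * (5 / 2)) := by
      apply mul_le_mul_of_nonneg_left (by linarith)
      positivity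
    linarith
  have f2 : (0.168 * d) * (la * (5 / 2)) / (y ^ 2 + 25 / 4) ≤
      d * (la * (3 / 2)) / (y ^ 2 + 9 / 4) := by
    have hdl : 0 ≤ d * la := mul_nonneg hd (by linarith)
    calc (0.168 * d) * (la * (5 / 2)) / (y ^ 2 + 25 / 4)
        ≤ (0.168 * d) * (la * (5 / 2)) / (y ^ 2 + 9 / 4) := by
          apply div_le_div_of_nonneg_left _ q2 (by linarith)
          nlinarith
      _ ≤ d * (la * (3 / 2)) / (y ^ 2 + 9 / 4) := by
          apply div_le_div_of_nonneg_right _ q2.le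
          nlinarith
  have f3 : 0.081 * (la * (5 / 2)) / (y ^ 2 + 25 / 4) ≤
      0.081 * (la * (5 / 2)) / (y ^ 2 + 1 / 4) := by
    apply div_le_div_of_nonneg_left _ q3 (by linarith)
    nlinarith
  have f4 : b * (2 * w) / (y ^ 2 + 1 / 4) ≤ 0.2195 / (y ^ 2 + 1 / 4) := by
    apply div_le_div_of_nonneg_right _ q3.le
    have : b * (2 * w) ≤ 0.209 * (2 * w) := mul_le_mul_of_nonneg_right hb (by linarith)
    norm_num at *
    linarith
  have f5 : (0.081 + 0.168 * d) * (la * (5 / 2)) / (y ^ 2 + 25 / 4) =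
      0.081 * (la * (5 / 2)) / (y ^ 2 + 25 / 4) +
      (0.168 * d) * (la * (5 / 2)) / (y ^ 2 + 25 / 4) := by ring
  have f6 : 0.081 * (la * (5 / 2)) / (y ^ 2 + 1 / 4) - (la * (1 / 2)) / (y ^ 2 + 1 / 4) +
      0.2195 / (y ^ 2 + 1 / 4) < 0 := by
    have : 0.081 * (la * (5 / 2)) / (y ^ 2 + 1 / 4) - (la * (1 / 2)) / (y ^ 2 + 1 / 4) +
      0.2195 / (y ^ 2 + 1 / 4) = - ((0.2975 * la - 0.2195) / (y ^ 2 + 1 / 4)) := by
      field_simp
      ring
    rw [this]
    have : 0 < (0.2975 * la - 0.2195) / (y ^ 2 + 1 / 4) := by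
      apply div_pos _ q3
      norm_num at *
      linarith
    linarith
  linarith

/-- The case `n_2 = 0`. -/
theorem case2 {la ph : ℝ → ℝ} (hg : Good5 la ph) {n : Fin 5 → ℝ} (h : Ker5 la ph n)
    (hn : ∀ k, 0 ≤ n k ∧ n k ≤ 1) (h3 : n 3 = 1) (h2 : n 2 = 0) : False := by
  obtain ⟨t, t0, t1, he⟩ := h.e
  obtain ⟨a1, a2, a3, a4, a5, a6, a7, a8⟩ := logs t0 t1
  rw [h2, h3] at he
  have b0 := hn 0
  have b1 := hn 1
  have b4 := hn 4
  set A1 := log (1 + t)
  set A2 := log (2 + t)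
  set A3 := log (3 + t)
  set A4 := log (4 + t)
  have hS : 0 < A1 + A2 + A3 + A4 := by linarith
  have d2 : n 0 * (A1 + A2 + A3 + A4) = A1 * n 1 + A3 + A4 * n 4 := by linear_combination -he
  -- the lower bound of `n 4`
  have c4 : 12 / 25 ≤ n 4 := by
    obtain ⟨x, x1, x2, hx⟩ := h.d3 (n 4)
    rw [S5_eq, h2, h3] at hx
    have e0 : 0 < x := by linarith
    have e1 : 0 < x - 1 := by linarith
    have e2 : 0 < x - 2 := by linarith
    have e3 : 0 < x - 3 := by linarith
    have g : (1 - n 4) = n 4 * ((x - 3) / (x - 2)) + (n 4 - n 1) * ((x - 3) / (x - 1)) +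
        (n 4 - n 0) * ((x - 3) / x) := by
      have := congrArg (fun w => (x - 3) * w) hx
      simp only [mul_zero, sub_self, zero_div, add_zero] at this
      have g1 : (x - 3) * ((n 0 - n 4) / x + (n 1 - n 4) / (x - 1) + (0 - n 4) / (x - 2) +
        (1 - n 4) / (x - 3)) = (1 - n 4) - n 4 * ((x - 3) / (x - 2)) -
        (n 4 - n 1) * ((x - 3) / (x - 1)) - (n 4 - n 0) * ((x - 3) / x) := by
        field_simp
        ring
      linarith
    have r2 : (x - 3) / (x - 2) ≤ 1 / 2 := by rw [div_le_iff₀ e2]; linarith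
    have r1 : (x - 3) / (x - 1) ≤ 1 / 3 := by rw [div_le_iff₀ e1]; linarith
    have r0 : (x - 3) / x ≤ 1 / 4 := by rw [div_le_iff₀ e0]; linarith
    have s1 : 0 ≤ (x - 3) / (x - 1) := by positivity
    have s0 : 0 ≤ (x - 3) / x := by positivity
    have u2 : n 4 * ((x - 3) / (x - 2)) ≤ n 4 * (1 / 2) := mul_le_mul_of_nonneg_left r2 b4.1
    have u1 : (n 4 - n 1) * ((x - 3) / (x - 1)) ≤ n 4 * (1 / 3) := by
      calc (n 4 - n 1) * ((x - 3) / (x - 1)) ≤ n 4 * ((x - 3) / (x - 1)) :=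
            mul_le_mul_of_nonneg_right (by linarith) s1
        _ ≤ n 4 * (1 / 3) := mul_le_mul_of_nonneg_left r1 b4.1
    have u0 : (n 4 - n 0) * ((x - 3) / x) ≤ n 4 * (1 / 4) := by
      calc (n 4 - n 0) * ((x - 3) / x) ≤ n 4 * ((x - 3) / x) :=
            mul_le_mul_of_nonneg_right (by linarith) s0
        _ ≤ n 4 * (1 / 4) := mul_le_mul_of_nonneg_left r0 b4.1
    linarith
  -- the lower bound of `n 0`
  have c0 : 1 / 2 ≤ n 0 := by
    by_contra hc
    push Not at hc
    have e1 : n 0 * (A1 + A2 + A3 + A4) < 1 / 2 * (A1 + A2 + A3 + A4) :=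
      mul_lt_mul_of_pos_right hc hS
    have e2 : 0 ≤ A1 * n 1 := mul_nonneg a1.le b1.1
    have e3 : A4 * (12 / 25) ≤ A4 * n 4 := mul_le_mul_of_nonneg_left c4 (by linarith)
    norm_num at *
    linarith
  -- `n 1 ≤ n 4`
  have c1 : n 1 ≤ n 4 := by
    by_contra hc
    push Not at hc
    obtain ⟨x, x1, x2, hx⟩ := h.d1 (n 1)
    rw [S5_eq, h2, h3] at hx
    have e0 : 0 < x := by linarith
    have e2 : 0 < 2 - x := by linarith
    have e3 : 0 < 3 - x := by linarith
    have e4 : 0 < 4 - x := by linarith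
    have f2 : (0 - n 1) / (x - 2) = n 1 / (2 - x) := by
      rw [show x - 2 = -(2 - x) by ring, div_neg]; ring
    have f3 : (1 - n 1) / (x - 3) = - ((1 - n 1) / (3 - x)) := by
      rw [show x - 3 = -(3 - x) by ring, div_neg]
    have f4 : (n 4 - n 1) / (x - 4) = (n 1 - n 4) / (4 - x) := by
      rw [show x - 4 = -(4 - x) by ring, div_neg]; ring
    rw [f2, f3, f4, sub_self, zero_div, add_zero] at hx
    have g4 : 0 < (n 1 - n 4) / (4 - x) := by apply div_pos <;> linarith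
    have g : 0 < (n 0 - n 1) / x + n 1 / (2 - x) - (1 - n 1) / (3 - x) := by
      have k1 : (1 / 2 - n 1) / x ≤ (n 0 - n 1) / x :=
        div_le_div_of_nonneg_right (by linarith) e0.le
      have k2 : 0 < (1 / 2 - n 1) / x + n 1 / (2 - x) - (1 - n 1) / (3 - x) := by
        have k3 : (1 / 2 - n 1) / x + n 1 / (2 - x) - (1 - n 1) / (3 - x) =
            ((1 / 2 - n 1) * (2 - x) * (3 - x) + n 1 * x * (3 - x) - (1 - n 1) * x * (2 - x)) /
              (x * (2 - x) * (3 - x)) := by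
          field_simp
        rw [k3]
        apply div_pos _ (by positivity)
        have hx1 : 12 / 25 ≤ n 1 := by linarith
        -- linear in `n 1`
        have l1 : (1 / 2 - n 1) * (2 - x) * (3 - x) + n 1 * x * (3 - x) - (1 - n 1) * x * (2 - x) =
            1 / 2 * (2 - x) * (3 - x) - x * (2 - x) +
            n 1 * (x * (3 - x) + x * (2 - x) - (2 - x) * (3 - x)) := by ring
        rw [l1]
        have l2 : 0 ≤ x * (3 - x) + x * (2 - x) - (2 - x) * (3 - x) := by nlinarith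
        have l3 : 12 / 25 * (x * (3 - x) + x * (2 - x) - (2 - x) * (3 - x)) ≤
            n 1 * (x * (3 - x) + x * (2 - x) - (2 - x) * (3 - x)) :=
          mul_le_mul_of_nonneg_right hx1 l2
        nlinarith
      linarith
    linarith
  -- the weights
  have w1 : A1 ≤ 0.0431 * (A1 + A2 + A3 + A4) := by norm_num at *; linarith
  have w3 : A3 ≤ 0.3576 * (A1 + A2 + A3 + A4) := by norm_num at *; linarith
  have w4 : A4 ≤ 0.4428 * (A1 + A2 + A3 + A4) := by norm_num at *; linarith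
  have c5 : n 0 ≤ 0.0431 * n 1 + 0.3576 + 0.4428 * n 4 := by
    have e1 := mul_le_mul_of_nonneg_right w1 b1.1
    have e2 := mul_le_mul_of_nonneg_right w4 b4.1
    have : n 0 * (A1 + A2 + A3 + A4) ≤
        (0.0431 * n 1 + 0.3576 + 0.4428 * n 4) * (A1 + A2 + A3 + A4) := by
      rw [d2]
      nlinarith
    exact le_of_mul_le_mul_right this hS
  apply h.neg
  intro y
  obtain ⟨g1, g2, g3⟩ := hg y
  have hl3 := log3_gt
  have hsum : ∑ j, n j = n 0 + n 1 + n 4 + 1 := by
    simp only [Fin.sum_univ_succ, Finset.univ_unique, Finset.sum_singleton]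
    simp only [Fin.default_eq_zero, Fin.succ_zero_eq_one, Fin.succ_one_eq_two, Fin.isValue]
    have e3 : (Fin.succ 2 : Fin 4) = 3 := rfl
    rw [show ((2 : Fin 3).succ : Fin 4) = 3 from rfl] at *
    have f3 : n (Fin.succ (2 : Fin 4)) = 1 := h3
    have f4 : n (Fin.succ (3 : Fin 4)) = n 4 := rfl
    have f2 : n 2 = 0 := h2
    rw [f3, f4, f2]
    ring
  have hW := W5_eq (fun k => n k - (∑ j, n j) / 5) (la y) (ph y) y
  rw [hW, hsum, h2, h3]
  set m := (n 0 + n 1 + n 4 + 1) / 5 with hm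
  have k1 : n 0 - m ≤ 0.081 + 0.168 * (n 4 - n 1) := by
    rw [hm]
    norm_num at *
    linarith
  have k2 : 1 - 2 * m ≤ 0.209 := by
    rw [hm]
    norm_num at *
    linarith
  have key := point_neg (a := n 0 - m) (b := 1 - 2 * m) (d := n 4 - n 1) (la := la y)
    (ph := ph y) (y := y) (by linarith) k1 k2 (by linarith) g2 g3
  have hm5 : n 1 + n 4 - 2 * m = -((n 0 - m) + (1 - 2 * m)) := by rw [hm]; ring
  refine lt_of_eq_of_lt ?_ key
  have q1 : (y ^ 2 + 25 / 4 : ℝ) ≠ 0 := by positivity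
  have q2 : (y ^ 2 + 9 / 4 : ℝ) ≠ 0 := by positivity
  have q3 : (y ^ 2 + 1 / 4 : ℝ) ≠ 0 := by positivity
  have e1 : (n 1 - m) * (la y * (3 / 2) + ph y * y) / (y ^ 2 + 9 / 4) +
      (n 4 - m) * (- la y * (3 / 2) + ph y * y) / (y ^ 2 + 9 / 4) =
      - (n 4 - n 1) * (la y * (3 / 2)) / (y ^ 2 + 9 / 4) +
        (n 1 + n 4 - 2 * m) * (ph y * y) / (y ^ 2 + 9 / 4) := by ring
  rw [hm5] at e1
  have e2 : (0 - m) * (la y * (1 / 2) + ph y * y) / (y ^ 2 + 1 / 4) +
      (1 - m) * (- la y * (1 / 2) + ph y * y) / (y ^ 2 + 1 / 4) =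
      - (la y * (1 / 2)) / (y ^ 2 + 1 / 4) + (1 - 2 * m) * (ph y * y) / (y ^ 2 + 1 / 4) := by ring
  linear_combination e1 + e2

/-- The index `0` is not extreme. -/
theorem Ker5.zero {la ph : ℝ → ℝ} {n : Fin 5 → ℝ} (h : Ker5 la ph n) (hm : ∀ k, n k ≤ n 0) :
    ∀ k, n k = n 0 := by
  obtain ⟨t, t0, t1, he⟩ := h.e
  obtain ⟨a1, a2, a3, a4, a5, a6, a7, a8⟩ := logs t0 t1
  have b1 : (n 1 - n 0) * log (1 + t) ≤ 0 :=
    mul_nonpos_of_nonpos_of_nonneg (by linarith [hm 1]) a1.le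
  have b2 : (n 2 - n 0) * log (2 + t) ≤ 0 :=
    mul_nonpos_of_nonpos_of_nonneg (by linarith [hm 2]) (by linarith)
  have b3 : (n 3 - n 0) * log (3 + t) ≤ 0 :=
    mul_nonpos_of_nonpos_of_nonneg (by linarith [hm 3]) (by linarith)
  have b4 : (n 4 - n 0) * log (4 + t) ≤ 0 :=
    mul_nonpos_of_nonpos_of_nonneg (by linarith [hm 4]) (by linarith)
  have c1 : (n 1 - n 0) * log (1 + t) = 0 := by linarith
  have c2 : (n 2 - n 0) * log (2 + t) = 0 := by linarith
  have c3 : (n 3 - n 0) * log (3 + t) = 0 := by linarith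
  have c4 : (n 4 - n 0) * log (4 + t) = 0 := by linarith
  have d1 := (mul_eq_zero.1 c1).resolve_right a1.ne'
  have d2 := (mul_eq_zero.1 c2).resolve_right (by linarith)
  have d3 := (mul_eq_zero.1 c3).resolve_right (by linarith)
  have d4 := (mul_eq_zero.1 c4).resolve_right (by linarith)
  intro k
  fin_cases k
  · rfl
  · show n 1 = n 0
    linarith
  · show n 2 = n 0
    linarith
  · show n 3 = n 0
    linarith
  · show n 4 = n 0
    linarith

/-- The index `4` is not extreme. -/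
theorem Ker5.four {la ph : ℝ → ℝ} {n : Fin 5 → ℝ} (h : Ker5 la ph n) (hm : ∀ k, n k ≤ n 4) :
    ∀ k, n k = n 4 := by
  obtain ⟨x, x1, x2, hx⟩ := h.d3 (n 4)
  rw [S5_eq, sub_self, zero_div, add_zero] at hx
  have e0 : 0 < x := by linarith
  have e1 : 0 < x - 1 := by linarith
  have e2 : 0 < x - 2 := by linarith
  have e3 : 0 < x - 3 := by linarith
  have b0 : (n 0 - n 4) / x ≤ 0 := div_nonpos_of_nonpos_of_nonneg (by linarith [hm 0]) e0.le
  have b1 : (n 1 - n 4) / (x - 1) ≤ 0 := div_nonpos_of_nonpos_of_nonneg (by linarith [hm 1]) e1.le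
  have b2 : (n 2 - n 4) / (x - 2) ≤ 0 := div_nonpos_of_nonpos_of_nonneg (by linarith [hm 2]) e2.le
  have b3 : (n 3 - n 4) / (x - 3) ≤ 0 := div_nonpos_of_nonpos_of_nonneg (by linarith [hm 3]) e3.le
  have c0 : (n 0 - n 4) / x = 0 := by linarith
  have c1 : (n 1 - n 4) / (x - 1) = 0 := by linarith
  have c2 : (n 2 - n 4) / (x - 2) = 0 := by linarith
  have c3 : (n 3 - n 4) / (x - 3) = 0 := by linarith
  have d0 := (div_eq_zero_iff.1 c0).resolve_right e0.ne'
  have d1 := (div_eq_zero_iff.1 c1).resolve_right e1.ne'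
  have d2 := (div_eq_zero_iff.1 c2).resolve_right e2.ne'
  have d3 := (div_eq_zero_iff.1 c3).resolve_right e3.ne'
  intro k
  fin_cases k
  · show n 0 = n 4
    linarith
  · show n 1 = n 4
    linarith
  · show n 2 = n 4
    linarith
  · show n 3 = n 4
    linarith
  · rfl

/-- The indices `1` and `2` are not both extreme. -/
theorem Ker5.onetwo {la ph : ℝ → ℝ} {n : Fin 5 → ℝ} (h : Ker5 la ph n) {m M : ℝ}
    (hm : ∀ k, m ≤ n k ∧ n k ≤ M) (h1 : n 1 = M) (h2 : n 2 = m) : M ≤ m := by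
  obtain ⟨x, x1, x2, hx⟩ := h.d1 ((M + m) / 2)
  rw [S5_eq, h1, h2] at hx
  by_contra hc
  push Not at hc
  have e0 : 0 < x := by linarith
  have e1 : 0 < x - 1 := by linarith
  have e2 : 0 < 2 - x := by linarith
  have e3 : 0 < 3 - x := by linarith
  have e4 : 0 < 4 - x := by linarith
  set H := (M - m) / 2 with hH
  have hH0 : 0 < H := by rw [hH]; linarith
  have b0 : - H ≤ n 0 - (M + m) / 2 := by rw [hH]; linarith [(hm 0).1]
  have b3 : n 3 - (M + m) / 2 ≤ H := by rw [hH]; linarith [(hm 3).2]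
  have b4 : n 4 - (M + m) / 2 ≤ H := by rw [hH]; linarith [(hm 4).2]
  have f0 : - H ≤ (n 0 - (M + m) / 2) / x := by
    rw [le_div_iff₀ e0]
    nlinarith
  have f1 : (M - (M + m) / 2) / (x - 1) = H / (x - 1) := by rw [hH]; ring
  have f2 : (m - (M + m) / 2) / (x - 2) = H / (2 - x) := by
    rw [hH, show x - 2 = -(2 - x) by ring, div_neg]; ring
  have f3 : - H ≤ (n 3 - (M + m) / 2) / (x - 3) := by
    rw [show x - 3 = -(3 - x) by ring, div_neg, neg_le_neg_iff, div_le_iff₀ e3]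
    nlinarith
  have f4 : - H ≤ (n 4 - (M + m) / 2) / (x - 4) := by
    rw [show x - 4 = -(4 - x) by ring, div_neg, neg_le_neg_iff, div_le_iff₀ e4]
    nlinarith
  have f5 : 4 * H ≤ H / (x - 1) + H / (2 - x) := by
    rw [div_add_div _ _ e1.ne' e2.ne', le_div_iff₀ (by positivity)]
    nlinarith [sq_nonneg (2 * x - 3)]
  rw [f1, f2] at hx
  linarith

/-- A kernel vector is constant. -/
theorem Ker5.const {la ph : ℝ → ℝ} (hg : Good5 la ph) {n : Fin 5 → ℝ} (h : Ker5 la ph n) :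
    ∀ k k', n k = n k' := by
  by_contra hcon
  obtain ⟨j, hj⟩ := Finite.exists_max n
  obtain ⟨j', hj'⟩ := Finite.exists_min n
  have hlt : n j' < n j := by
    rcases lt_or_eq_of_le (hj j') with h1 | h1
    · exact h1
    · exact (hcon fun k k' => by linarith [hj k, hj' k, hj k', hj' k']).elim
  have hneg := h.affine (show (-1 : ℝ) ≠ 0 by norm_num) 0
  have hj0 : j ≠ 0 := by
    rintro rfl
    exact hcon fun k k' => by rw [h.zero hj k, h.zero hj k']
  have hj4 : j ≠ 4 := by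
    rintro rfl
    exact hcon fun k k' => by rw [h.four hj k, h.four hj k']
  have hj0' : j' ≠ 0 := by
    rintro rfl
    refine hcon fun k k' => ?_
    have h1 := hneg.zero (fun k => by linarith [hj' k])
    have h2 := h1 k
    have h3 := h1 k'
    linarith
  have hj4' : j' ≠ 4 := by
    rintro rfl
    refine hcon fun k k' => ?_
    have h1 := hneg.four (fun k => by linarith [hj' k])
    have h2 := h1 k
    have h3 := h1 k'
    linarith
  have hd : 0 < n j - n j' := by linarith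
  have hd' : n j - n j' ≠ 0 := hd.ne'
  -- `n 3` is extreme
  by_cases h3 : j = 3
  · have h3' : j' = 1 ∨ j' = 2 := by
      fin_cases j' <;> simp_all
    have hk := h.affine (inv_ne_zero hd') (-(n j' / (n j - n j')))
    have hb : ∀ k, 0 ≤ (n j - n j')⁻¹ * n k + -(n j' / (n j - n j')) ∧
        (n j - n j')⁻¹ * n k + -(n j' / (n j - n j')) ≤ 1 := by
      intro k
      have e : (n j - n j')⁻¹ * n k + -(n j' / (n j - n j')) = (n k - n j') / (n j - n j') := by
        field_simp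
        ring
      rw [e]
      exact ⟨div_nonneg (by linarith [hj' k]) hd.le, (div_le_one hd).2 (by linarith [hj k])⟩
    have h1 : (n j - n j')⁻¹ * n 3 + -(n j' / (n j - n j')) = 1 := by
      rw [← h3]
      field_simp
      ring
    have h0 : (n j - n j')⁻¹ * n j' + -(n j' / (n j - n j')) = 0 := by
      field_simp
      ring
    rcases h3' with h4 | h4
    · exact case1 hk hb h1 (by rw [← h4]; exact h0)
    · exact case2 hg hk hb h1 (by rw [← h4]; exact h0)
  by_cases h3' : j' = 3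
  · have h4' : j = 1 ∨ j = 2 := by
      fin_cases j <;> simp_all
    have hk := h.affine (neg_ne_zero.2 (inv_ne_zero hd')) (n j / (n j - n j'))
    have hb : ∀ k, 0 ≤ -(n j - n j')⁻¹ * n k + n j / (n j - n j') ∧
        -(n j - n j')⁻¹ * n k + n j / (n j - n j') ≤ 1 := by
      intro k
      have e : -(n j - n j')⁻¹ * n k + n j / (n j - n j') = (n j - n k) / (n j - n j') := by
        field_simp
        ring
      rw [e]
      exact ⟨div_nonneg (by linarith [hj k]) hd.le, (div_le_one hd).2 (by linarith [hj' k])⟩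
    have h1 : -(n j - n j')⁻¹ * n 3 + n j / (n j - n j') = 1 := by
      rw [← h3']
      field_simp
      ring
    have h0 : -(n j - n j')⁻¹ * n j + n j / (n j - n j') = 0 := by
      field_simp
      ring
    rcases h4' with h4 | h4
    · exact case1 hk hb h1 (by rw [← h4]; exact h0)
    · exact case2 hg hk hb h1 (by rw [← h4]; exact h0)
  -- the remaining case: the indices `1` and `2`
  have hj12 : j = 1 ∨ j = 2 := by
    fin_cases j <;> simp_all
  have hj12' : j' = 1 ∨ j' = 2 := by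
    fin_cases j' <;> simp_all
  rcases hj12 with h1 | h1 <;> rcases hj12' with h2 | h2
  · rw [h1, h2] at hlt
    exact lt_irrefl _ hlt
  · have := h.onetwo (m := n j') (M := n j) (fun k => ⟨hj' k, hj k⟩) (by rw [h1]) (by rw [h2])
    linarith
  · have := hneg.onetwo (m := -1 * n j + 0) (M := -1 * n j' + 0)
      (fun k => ⟨by linarith [hj k], by linarith [hj' k]⟩) (by rw [h2]) (by rw [h1])
    linarith
  · rw [h1, h2] at hlt
    exact lt_irrefl _ hlt

end P4a177d
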