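import Mathlib

/-!
# The unit on the line `Re x = 5/2` for `P = x (x-1) (x-2) (x-3) (x-4)`
-/

set_option autoImplicit false

namespace P4a177d

open scoped Real

noncomputable section

/-- `P(5/2 + i y)` for `P = x (x-1) (x-2) (x-3) (x-4)`. -/
def p5 (y : ℝ) : ℂ := (((y ^ 2 + 1 / 4) * (y ^ 2 + 9 / 4) : ℝ) : ℂ) * (5 / 2 + (y : ℂ) * Complex.I)

/-- The function `(s - 1) / (s + 1)`, `s = √(1 + 4 / P)`, on the line. -/
def E5 (y : ℝ) : ℂ := (Complex.exp (Complex.log (1 + 4 / p5 y) / 2) - 1) /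
  (Complex.exp (Complex.log (1 + 4 / p5 y) / 2) + 1)

namespace XUnit5Aux

theorem p5_re (y : ℝ) : (p5 y).re = (y ^ 2 + 1 / 4) * (y ^ 2 + 9 / 4) * (5 / 2) := by
  rw [p5, Complex.re_ofReal_mul]
  congr 1
  simp

theorem p5_im (y : ℝ) : (p5 y).im = (y ^ 2 + 1 / 4) * (y ^ 2 + 9 / 4) * y := by
  rw [p5, Complex.im_ofReal_mul]
  congr 1
  simp

theorem p5_re_ge (y : ℝ) : 45 / 32 ≤ (p5 y).re := by
  rw [p5_re]
  nlinarith [sq_nonneg y, sq_nonneg (y ^ 2)]

theorem w_re {p : ℂ} (hp : 45 / 32 ≤ p.re) : 1 < (1 + 4 / p).re := by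
  have h0 : p ≠ 0 := by
    intro h
    rw [h, Complex.zero_re] at hp
    norm_num at hp
  have h1 : 0 < (4 / p).re := by
    rw [Complex.div_re]
    have h2 : 0 < Complex.normSq p := Complex.normSq_pos.mpr h0
    have h3 : (4 : ℂ).re = 4 := by simp
    have h4 : (4 : ℂ).im = 0 := by simp
    rw [h3, h4]
    have h5 : 0 < 4 * p.re / Complex.normSq p := by
      apply div_pos _ h2
      linarith
    simpa using h5
  rw [Complex.add_re, Complex.one_re]
  linarith

theorem w_slit {p : ℂ} (hp : 45 / 32 ≤ p.re) : 1 + 4 / p ∈ Complex.slitPlane :=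
  Or.inl (by linarith [w_re hp])

theorem s_re {w : ℂ} (hw : w ∈ Complex.slitPlane) : 0 < (Complex.exp (Complex.log w / 2)).re := by
  rw [Complex.exp_re]
  apply mul_pos (Real.exp_pos _)
  have h1 : (Complex.log w / 2).im = w.arg / 2 := by
    rw [Complex.div_ofNat_im, Complex.log_im]
  rw [h1]
  have h2 := Complex.neg_pi_lt_arg w
  have h3 := Complex.arg_le_pi w
  have h4 : w.arg ≠ π := Complex.slitPlane_arg_ne_pi hw
  have h5 : w.arg < π := lt_of_le_of_ne h3 h4
  apply Real.cos_pos_of_mem_Ioo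
  constructor <;> linarith

theorem s_sq {w : ℂ} (hw : w ∈ Complex.slitPlane) : Complex.exp (Complex.log w / 2) ^ 2 = w := by
  rw [← Complex.exp_nat_mul]
  have : ((2 : ℕ) : ℂ) * (Complex.log w / 2) = Complex.log w := by
    push_cast
    ring
  rw [this, Complex.exp_log (Complex.slitPlane_ne_zero hw)]

/-- The properties of `E = (s - 1) / (s + 1)`. -/
theorem core {p s : ℂ} (hp : 45 / 32 ≤ p.re) (hs : 0 < s.re) (h2 : s ^ 2 = 1 + 4 / p) :
    (s - 1) / (s + 1) ≠ 0 ∧ ‖(s - 1) / (s + 1)‖ < 1 ∧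
      (s - 1) / (s + 1) + ((s - 1) / (s + 1))⁻¹ = p + 2 := by
  have h0 : p ≠ 0 := by
    intro h
    rw [h, Complex.zero_re] at hp
    norm_num at hp
  have h1 : s - 1 ≠ 0 := by
    intro h
    have h3 : s = 1 := sub_eq_zero.mp h
    rw [h3] at h2
    have h4 : (4 : ℂ) / p = 0 := by linear_combination -h2
    rw [div_eq_zero_iff] at h4
    rcases h4 with h4 | h4
    · norm_num at h4
    · exact h0 h4
  have h3 : s + 1 ≠ 0 := by
    intro h
    have h4 : (s + 1).re = 0 := by rw [h, Complex.zero_re]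
    rw [Complex.add_re, Complex.one_re] at h4
    linarith
  refine ⟨div_ne_zero h1 h3, ?_, ?_⟩
  · rw [norm_div, div_lt_one (norm_pos_iff.mpr h3)]
    rw [← sq_lt_sq₀ (norm_nonneg _) (norm_nonneg _), Complex.sq_norm, Complex.sq_norm,
      Complex.normSq_apply, Complex.normSq_apply]
    simp only [Complex.sub_re, Complex.add_re, Complex.one_re, Complex.sub_im, Complex.add_im,
      Complex.one_im]
    nlinarith
  · have h4 : p * (s ^ 2 - 1) = 4 := by
      rw [h2]
      field_simp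
      ring
    have h5 : s ^ 2 - 1 ≠ 0 := by
      intro h
      rw [h, mul_zero] at h4
      norm_num at h4
    rw [inv_div]
    field_simp
    have h6 : p * (s - 1) * (s + 1) = 4 := by linear_combination h4
    linear_combination -h6

/-- The position of `E`. -/
theorem pos {p E : ℂ} (hp : 45 / 32 ≤ p.re) (h0 : E ≠ 0) (h1 : ‖E‖ < 1) (h : E + E⁻¹ = p + 2) :
    0 < E.re ∧ ‖E‖ ≤ 1 / 3 ∧ (0 ≤ p.im → E.im ≤ 0) ∧ (p.im ≤ 0 → 0 ≤ E.im) := by
  have hn : 0 < ‖E‖ := norm_pos_iff.mpr h0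
  have hq : 0 < Complex.normSq E := Complex.normSq_pos.mpr h0
  have hq1 : Complex.normSq E < 1 := by
    rw [← Complex.sq_norm]
    nlinarith
  have hre : E.re + E.re / Complex.normSq E = p.re + 2 := by
    have := congrArg Complex.re h
    rw [Complex.add_re, Complex.add_re, Complex.inv_re] at this
    simpa using this
  have him : E.im - E.im / Complex.normSq E = p.im := by
    have := congrArg Complex.im h
    rw [Complex.add_im, Complex.add_im, Complex.inv_im] at this
    have h3 : (2 : ℂ).im = 0 := by simp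
    rw [h3] at this
    have h4 : -E.im / Complex.normSq E = -(E.im / Complex.normSq E) := by ring
    rw [h4] at this
    linarith
  have hr : E.re * (Complex.normSq E + 1) = (p.re + 2) * Complex.normSq E := by
    rw [← hre]
    field_simp
  have hi : E.im * (Complex.normSq E - 1) = p.im * Complex.normSq E := by
    rw [← him]
    field_simp
  refine ⟨?_, ?_, ?_, ?_⟩
  · have h5 : 0 < E.re * (Complex.normSq E + 1) := by
      rw [hr]
      apply mul_pos _ hq
      linarith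
    exact (pos_iff_pos_of_mul_pos h5).mpr (by linarith)
  · by_contra hc
    push Not at hc
    have h5 : 109 / 32 ≤ ‖E + E⁻¹‖ := by
      rw [h]
      refine le_trans ?_ (Complex.re_le_norm _)
      rw [Complex.add_re]
      have : (2 : ℂ).re = 2 := by simp
      rw [this]
      linarith
    have h6 : ‖E + E⁻¹‖ ≤ ‖E‖ + ‖E‖⁻¹ := by
      refine le_trans (norm_add_le _ _) ?_
      rw [norm_inv]
    have h7 : ‖E‖ + ‖E‖⁻¹ < 10 / 3 := by
      rw [← sub_neg]
      have h8 : ‖E‖ + ‖E‖⁻¹ - 10 / 3 = (‖E‖ - 3) * (‖E‖ - 1 / 3) / ‖E‖ := by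
        field_simp
        ring
      rw [h8]
      apply div_neg_of_neg_of_pos _ hn
      apply mul_neg_of_neg_of_pos <;> linarith
    linarith
  · intro h5
    by_contra hc
    push Not at hc
    have h6 : E.im * (Complex.normSq E - 1) < 0 := mul_neg_of_pos_of_neg hc (by linarith)
    rw [hi] at h6
    have h7 : 0 ≤ p.im * Complex.normSq E := mul_nonneg h5 hq.le
    linarith
  · intro h5
    by_contra hc
    push Not at hc
    have h6 : 0 < E.im * (Complex.normSq E - 1) := mul_pos_of_neg_of_neg hc (by linarith)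
    rw [hi] at h6
    have h7 : p.im * Complex.normSq E ≤ 0 := mul_nonpos_of_nonpos_of_nonneg h5 hq.le
    linarith

theorem E5_pos (y : ℝ) : E5 y ≠ 0 ∧ 0 < (E5 y).re ∧ ‖E5 y‖ ≤ 1 / 3 ∧
    (0 ≤ (p5 y).im → (E5 y).im ≤ 0) ∧ ((p5 y).im ≤ 0 → 0 ≤ (E5 y).im) := by
  have hp := p5_re_ge y
  have hw := w_slit hp
  obtain ⟨h1, h2, h3⟩ := core hp (s_re hw) (s_sq hw)
  exact ⟨h1, pos hp h1 h2 h3⟩

end XUnit5Aux

open XUnit5Aux

theorem p5_slit (y : ℝ) : 1 + 4 / p5 y ∈ Complex.slitPlane := w_slit (p5_re_ge y)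

theorem E5_slit (y : ℝ) : E5 y ∈ Complex.slitPlane := Or.inl (E5_pos y).2.1

theorem E5_good (y : ℝ) : Real.log 3 ≤ -(Complex.log (E5 y)).re ∧
    0 ≤ -(Complex.log (E5 y)).im * y ∧ |-(Complex.log (E5 y)).im| ≤ π / 2 := by
  obtain ⟨h0, h1, h2, h3, h4⟩ := E5_pos y
  have hn : 0 < ‖E5 y‖ := norm_pos_iff.mpr h0
  have hA : 0 < (y ^ 2 + 1 / 4) * (y ^ 2 + 9 / 4) := by positivity
  rw [Complex.log_re, Complex.log_im]
  refine ⟨?_, ?_, ?_⟩
  · have h5 : Real.log ‖E5 y‖ ≤ Real.log (1 / 3) := Real.log_le_log hn h2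
    rw [one_div, Real.log_inv] at h5
    linarith
  · rcases le_total 0 y with hy | hy
    · have h5 : 0 ≤ (p5 y).im := by
        rw [p5_im]
        exact mul_nonneg hA.le hy
      have h6 := h3 h5
      have h7 : (E5 y).arg ≤ 0 := by
        rcases lt_or_eq_of_le h6 with h8 | h8
        · exact (Complex.arg_neg_iff.mpr h8).le
        · exact le_of_eq (Complex.arg_eq_zero_iff.mpr ⟨h1.le, h8⟩)
      exact mul_nonneg (by linarith) hy
    · have h5 : (p5 y).im ≤ 0 := by
        rw [p5_im]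
        exact mul_nonpos_of_nonneg_of_nonpos hA.le hy
      have h6 := h4 h5
      have h7 : 0 ≤ (E5 y).arg := Complex.arg_nonneg_iff.mpr h6
      exact mul_nonneg_of_nonpos_of_nonpos (by linarith) hy
  · rw [abs_neg]
    exact Complex.abs_arg_le_pi_div_two_iff.mpr h1.le

end

end P4a177d
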