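import Pool.Agent.Lib.P4a177d.RowsD
import Pool.Agent.Lib.P4a177d.ByPartsD
import Pool.Agent.Lib.P4a177d.XLineE
import Pool.Agent.Lib.P4a177d.XFive
import Pool.Agent.Lib.P4a177d.XUnit5
import Pool.Agent.Lib.P4a177d.XEndFour

/-!
# The exceptional curves with five roots
-/

set_option autoImplicit false

namespace P4a177d

open P4a177h Filter Topology MeasureTheory
open scoped Real

namespace XEndFiveAux

/-- The values of `P` for five consecutive roots. -/
theorem eval5 {b : Fin (4 + 1) → ℤ} (hbk : ∀ k : Fin (4 + 1), b k = b 0 + (k : ℕ))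
    (N : ℤ) (m : ℝ) : (PR b N).eval ((b 0 : ℝ) + m) =
      N * (m * (m - 1) * (m - 2) * (m - 3) * (m - 4)) := by
  have h1 : ∀ k : Fin (4 + 1), (b 0 : ℝ) + m - b k = m - (k : ℕ) := by
    intro k
    rw [hbk k]
    push_cast
    ring
  rw [LoopDAux.eval_PR, Finset.prod_congr rfl fun k _ => h1 k, Fin.prod_univ_five]
  norm_num

theorem re_mul_div (L : ℂ) (a d y : ℝ) : (L * ((a : ℂ) / ((d : ℂ) + (y : ℂ) * Complex.I))).re =
    a * (L.re * d + L.im * y) / (y ^ 2 + d ^ 2) := by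
  rw [← mul_div_assoc, Complex.div_re, Complex.normSq_add_mul_I]
  simp
  ring

/-- The value of `P` on a segment is greater than `-4`. -/
theorem neg_four_lt {P : Polynomial ℝ} (S : Seg P) {x : ℝ} (hx : x ∈ Set.Ioo S.p S.q)
    (h : P.eval x < 0) : -4 < P.eval x := by
  have h1 := congrArg (Polynomial.eval x) S.hK
  rw [Polynomial.eval_mul, Polynomial.eval_mul, Polynomial.eval_mul, Polynomial.eval_add,
    Polynomial.eval_sub, Polynomial.eval_sub, Polynomial.eval_X, Polynomial.eval_C,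
    Polynomial.eval_C] at h1
  have h2 : (4 : Polynomial ℝ).eval x = 4 := by simp
  rw [h2] at h1
  have h3 := S.Kpos x ⟨hx.1.le, hx.2.le⟩
  have h4 : 0 < (x - S.p) * (S.q - x) * S.K.eval x :=
    mul_pos (mul_pos (sub_pos.2 hx.1) (sub_pos.2 hx.2)) h3
  by_contra hc
  push Not at hc
  have h5 : 0 ≤ (-P.eval x) * (-(P.eval x + 4)) := mul_nonneg (by linarith) (by linarith)
  nlinarith

/-- The bound for the point of the outer segment. -/
theorem t_lt {t : ℝ} (h : t * (t + 1) * (t + 2) * (t + 3) * (t + 4) < 4) : t < 1 / 7 := by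
  by_contra hc
  push Not at hc
  have e1 : 1 / 7 * (8 / 7) ≤ t * (t + 1) := by nlinarith
  have e2 : 1 / 7 * (8 / 7) * (15 / 7) ≤ t * (t + 1) * (t + 2) := by nlinarith
  have e3 : 1 / 7 * (8 / 7) * (15 / 7) * (22 / 7) ≤ t * (t + 1) * (t + 2) * (t + 3) := by nlinarith
  have e4 : 1 / 7 * (8 / 7) * (15 / 7) * (22 / 7) * (29 / 7) ≤
      t * (t + 1) * (t + 2) * (t + 3) * (t + 4) := by nlinarith
  norm_num at e4
  linarith

/-- The end of the argument. -/
theorem finish {n : Fin 5 → ℝ} (hn : ∑ k, n k = 0)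
    (h : Ker5 (fun y => -(Complex.log (E5 y)).re) (fun y => -(Complex.log (E5 y)).im) n) :
    ∀ k, n k = 0 := by
  have h1 := h.const fun y => E5_good y
  intro k
  have h2 : ∑ j, n j = 5 * n k := by
    rw [Finset.sum_congr rfl fun j _ => h1 j k]
    simp
  rw [hn] at h2
  linarith

theorem sub_mean {n : Fin 5 → ℝ} (hn : ∑ k, n k = 0) :
    (fun k => n k - (∑ j, n j) / 5) = n := by
  funext k
  rw [hn]
  ring

end XEndFiveAux

open XEndFourAux XEndFiveAux

theorem end_five_pos {b : Fin (4 + 1) → ℤ} (hb : StrictMono b)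
    (hbk : ∀ k : Fin (4 + 1), b k = b 0 + (k : ℕ))
    (hs : ∀ x : ℝ, (PR b 1).eval x = -4 → (Polynomial.derivative (PR b 1)).eval x ≠ 0)
    (S S' : Seg (PR b 1)) (hS : S.p = b 1 ∧ S.q = b 2) (hS' : S'.p = b 3 ∧ S'.q = b 4)
    (n : Fin (4 + 1) → ℝ) (hn : ∑ k, n k = 0)
    (hkS : ∀ T : Seg (PR b 1), ∑ k, n k * T.RR (b k) = 0)
    (hk : ∀ γ : Torus 1 (CoordRing b 1), ∑ k, n k * regFun γ ![uF b 1, uL b 1 k] = 0) :
    n = 0 := by
  have k1 : (b 1 : ℝ) = b 0 + 1 := by
    rw [hbk 1]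
    push_cast
    norm_num
  have k2 : (b 2 : ℝ) = b 0 + 2 := by
    rw [hbk 2]
    push_cast
    norm_num
  have k3 : (b 3 : ℝ) = b 0 + 3 := by
    rw [hbk 3]
    push_cast
    norm_num
  have k4 : (b 4 : ℝ) = b 0 + 4 := by
    rw [hbk 4]
    push_cast
    norm_num
  -- the line
  have hd : ∀ (y : ℝ) (k : Fin (4 + 1)), (((b 0 : ℝ) + 5 / 2 : ℝ) : ℂ) + (y : ℂ) * Complex.I -
      (b k : ℂ) = ((5 / 2 - (k : ℕ) : ℝ) : ℂ) + (y : ℂ) * Complex.I := by
    intro y k
    rw [hbk k]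
    push_cast
    ring
  have hPc : ∀ y : ℝ, Pc b 1 ((((b 0 : ℝ) + 5 / 2 : ℝ) : ℂ) + (y : ℂ) * Complex.I) = p5 y := by
    intro y
    have hI : Complex.I ^ 2 = -1 := Complex.I_sq
    have h1 : ((1 : ℤ) : ℂ) * ∏ k : Fin (4 + 1), (((5 / 2 - (k : ℕ) : ℝ) : ℂ) +
        (y : ℂ) * Complex.I) = (5 / 2 + (y : ℂ) * Complex.I) * (3 / 2 + (y : ℂ) * Complex.I) *
        (1 / 2 + (y : ℂ) * Complex.I) * (-1 / 2 + (y : ℂ) * Complex.I) *
        (-3 / 2 + (y : ℂ) * Complex.I) := by
      rw [Fin.prod_univ_five]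
      push_cast
      norm_num
    unfold Pc p5
    rw [Finset.prod_congr rfl fun k _ => hd y k, h1]
    push_cast
    linear_combination (5 / 2 + (y : ℂ) * Complex.I) * ((y : ℂ) ^ 4 * (Complex.I ^ 2 - 1) -
      (y : ℂ) ^ 2 * (1 / 4 + 9 / 4)) * hI
  have heP : ∀ y : ℝ, eP b 1 ((((b 0 : ℝ) + 5 / 2 : ℝ) : ℂ) + (y : ℂ) * Complex.I) = E5 y := by
    intro y
    unfold eP E5
    rw [hPc]
  have hval : ∀ y : ℝ, (Complex.log (eP b 1 ((((b 0 : ℝ) + 5 / 2 : ℝ) : ℂ) +
      (y : ℂ) * Complex.I)) * ∑ k, (n k : ℂ) / ((((b 0 : ℝ) + 5 / 2 : ℝ) : ℂ) +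
      (y : ℂ) * Complex.I - (b k : ℂ))).re =
      -W5 n (-(Complex.log (E5 y)).re) (-(Complex.log (E5 y)).im) y := by
    intro y
    rw [heP, Finset.mul_sum, Complex.re_sum]
    unfold W5
    rw [← Finset.sum_neg_distrib]
    refine Finset.sum_congr rfl fun k _ => ?_
    rw [hd, re_mul_div]
    ring
  obtain ⟨hneg, hpos⟩ := line_lemma (c := (b 0 : ℝ) + 5 / 2) one_ne_zero
    (fun k h => by
      rw [hbk k] at h
      push_cast at h
      have h1 : (2 : ℝ) * ((k : ℕ) : ℝ) = 5 := by linarith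
      have h2 : 2 * (k : ℕ) = 5 := by exact_mod_cast h1
      omega)
    (fun y => by rw [hPc]; exact p5_slit y) (fun y => by rw [heP]; exact E5_slit y) n hn hk
  have hker : Ker5 (fun y => -(Complex.log (E5 y)).re) (fun y => -(Complex.log (E5 y)).im) n := by
    refine ⟨?_, ?_, ?_, ?_, ?_⟩
    · have hP : ∀ x : ℝ, (PR b 1).eval x =
          -((b 0 - x) * (b 0 - x + 1) * (b 0 - x + 2) * (b 0 - x + 3) * (b 0 - x + 4)) := by
        intro x
        have h1 := eval5 hbk 1 (x - b 0)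
        rw [add_sub_cancel] at h1
        rw [h1]
        push_cast
        ring
      have hPn : ∀ x : ℝ, x < (b 0 : ℝ) → (PR b 1).eval x < 0 := by
        intro x hx
        rw [hP, neg_lt_zero]
        have : 0 < (b 0 : ℝ) - x := by linarith
        positivity
      obtain ⟨T, hT, hd⟩ := left_case hb one_ne_zero hs hPn
      obtain ⟨x, hx, h1⟩ := row_eval one_ne_zero T hd n (hkS T) (n 0)
      have hx0 : 0 < (b 0 : ℝ) - x := by
        have := hx.2
        rw [hT] at this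
        linarith
      refine ⟨b 0 - x, hx0, ?_, ?_⟩
      · have h2 := neg_four_lt T hx (hPn x (by linarith))
        rw [hP] at h2
        exact t_lt (by linarith)
      · have a1 : |x - (b 1 : ℝ)| = 1 + (b 0 - x) := by
          rw [k1, abs_of_neg (by linarith)]
          ring
        have a2 : |x - (b 2 : ℝ)| = 2 + (b 0 - x) := by
          rw [k2, abs_of_neg (by linarith)]
          ring
        have a3 : |x - (b 3 : ℝ)| = 3 + (b 0 - x) := by
          rw [k3, abs_of_neg (by linarith)]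
          ring
        have a4 : |x - (b 4 : ℝ)| = 4 + (b 0 - x) := by
          rw [k4, abs_of_neg (by linarith)]
          ring
        rw [Fin.sum_univ_five, a1, a2, a3, a4] at h1
        simp only [sub_self, zero_mul, zero_add, Int.cast_one, abs_one, Real.log_one, mul_zero,
          neg_zero] at h1
        linarith
    · intro l
      obtain ⟨x, x1, x2, hx⟩ := gap_zero one_ne_zero n hkS S hS.1 hS.2 l
      rw [k1] at x1
      rw [k2] at x2
      refine ⟨x - b 0, by linarith, by linarith, ?_⟩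
      rw [← hx]
      unfold S5
      refine Finset.sum_congr rfl fun k _ => ?_
      rw [hbk k]
      push_cast
      congr 1
      ring
    · intro l
      obtain ⟨x, x1, x2, hx⟩ := gap_zero one_ne_zero n hkS S' hS'.1 hS'.2 l
      rw [k3] at x1
      rw [k4] at x2
      refine ⟨x - b 0, by linarith, by linarith, ?_⟩
      rw [← hx]
      unfold S5
      refine Finset.sum_congr rfl fun k _ => ?_
      rw [hbk k]
      push_cast
      congr 1
      ring
    · intro h
      refine hpos fun y => ?_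
      rw [hval]
      have h1 := h y
      rw [sub_mean hn] at h1
      linarith
    · intro h
      refine hneg fun y => ?_
      rw [hval]
      have h1 := h y
      rw [sub_mean hn] at h1
      linarith
  funext k
  exact finish hn hker k

theorem end_five_neg {b : Fin (4 + 1) → ℤ} (hb : StrictMono b)
    (hbk : ∀ k : Fin (4 + 1), b k = b 0 + (k : ℕ))
    (hs : ∀ x : ℝ, (PR b (-1)).eval x = -4 → (Polynomial.derivative (PR b (-1))).eval x ≠ 0)
    (S S' : Seg (PR b (-1))) (hS : S.p = b 2 ∧ S.q = b 3) (hS' : S'.p = b 0 ∧ S'.q = b 1)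
    (n : Fin (4 + 1) → ℝ) (hn : ∑ k, n k = 0)
    (hkS : ∀ T : Seg (PR b (-1)), ∑ k, n k * T.RR (b k) = 0)
    (hk : ∀ γ : Torus 1 (CoordRing b (-1)), ∑ k, n k * regFun γ ![uF b (-1), uL b (-1) k] = 0) :
    n = 0 := by
  have hN : (-1 : ℤ) ≠ 0 := by norm_num
  have k1 : (b 1 : ℝ) = b 0 + 1 := by
    rw [hbk 1]
    push_cast
    norm_num
  have k2 : (b 2 : ℝ) = b 0 + 2 := by
    rw [hbk 2]
    push_cast
    norm_num
  have k3 : (b 3 : ℝ) = b 0 + 3 := by
    rw [hbk 3]
    push_cast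
    norm_num
  have k4 : (b 4 : ℝ) = b 0 + 4 := by
    rw [hbk 4]
    push_cast
    norm_num
  -- the reflected vector
  obtain ⟨m, m0, m1, m2, m3, m4⟩ : ∃ m : Fin 5 → ℝ, m 0 = n 4 ∧ m 1 = n 3 ∧ m 2 = n 2 ∧
      m 3 = n 1 ∧ m 4 = n 0 := ⟨![n 4, n 3, n 2, n 1, n 0], rfl, rfl, rfl, rfl, rfl⟩
  have hm : ∑ k, m k = 0 := by
    rw [← hn, Fin.sum_univ_five, Fin.sum_univ_five, m0, m1, m2, m3, m4]
    ring
  -- the line
  have hd : ∀ (y : ℝ) (k : Fin (4 + 1)), (((b 0 : ℝ) + 3 / 2 : ℝ) : ℂ) + (y : ℂ) * Complex.I -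
      (b k : ℂ) = ((3 / 2 - (k : ℕ) : ℝ) : ℂ) + (y : ℂ) * Complex.I := by
    intro y k
    rw [hbk k]
    push_cast
    ring
  have hPc : ∀ y : ℝ, Pc b (-1) ((((b 0 : ℝ) + 3 / 2 : ℝ) : ℂ) + (y : ℂ) * Complex.I) =
      p5 (-y) := by
    intro y
    have hI : Complex.I ^ 2 = -1 := Complex.I_sq
    have h1 : ((-1 : ℤ) : ℂ) * ∏ k : Fin (4 + 1), (((3 / 2 - (k : ℕ) : ℝ) : ℂ) +
        (y : ℂ) * Complex.I) = -((3 / 2 + (y : ℂ) * Complex.I) * (1 / 2 + (y : ℂ) * Complex.I) *
        (-1 / 2 + (y : ℂ) * Complex.I) * (-3 / 2 + (y : ℂ) * Complex.I) *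
        (-5 / 2 + (y : ℂ) * Complex.I)) := by
      rw [Fin.prod_univ_five]
      push_cast
      norm_num
    unfold Pc p5
    rw [Finset.prod_congr rfl fun k _ => hd y k, h1]
    push_cast
    linear_combination (5 / 2 - (y : ℂ) * Complex.I) * ((y : ℂ) ^ 4 * (Complex.I ^ 2 - 1) -
      (y : ℂ) ^ 2 * (1 / 4 + 9 / 4)) * hI
  have heP : ∀ y : ℝ, eP b (-1) ((((b 0 : ℝ) + 3 / 2 : ℝ) : ℂ) + (y : ℂ) * Complex.I) =
      E5 (-y) := by
    intro y
    unfold eP E5
    rw [hPc]
  have hval : ∀ y : ℝ, (Complex.log (eP b (-1) ((((b 0 : ℝ) + 3 / 2 : ℝ) : ℂ) +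
      (y : ℂ) * Complex.I)) * ∑ k, (n k : ℂ) / ((((b 0 : ℝ) + 3 / 2 : ℝ) : ℂ) +
      (y : ℂ) * Complex.I - (b k : ℂ))).re =
      W5 m (-(Complex.log (E5 (-y))).re) (-(Complex.log (E5 (-y))).im) (-y) := by
    intro y
    rw [heP, Finset.mul_sum, Complex.re_sum, W5_eq, Fin.sum_univ_five, hd, hd, hd, hd, hd,
      re_mul_div, re_mul_div, re_mul_div, re_mul_div, re_mul_div, m0, m1, m2, m3, m4]
    norm_num
    ring
  obtain ⟨hneg, hpos⟩ := line_lemma (c := (b 0 : ℝ) + 3 / 2) hN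
    (fun k h => by
      rw [hbk k] at h
      push_cast at h
      have h1 : (2 : ℝ) * ((k : ℕ) : ℝ) = 3 := by linarith
      have h2 : 2 * (k : ℕ) = 3 := by exact_mod_cast h1
      omega)
    (fun y => by rw [hPc]; exact p5_slit (-y)) (fun y => by rw [heP]; exact E5_slit (-y)) n hn hk
  have hS5 : ∀ l x : ℝ, ∑ k, (n k - l) / (x - b k) = 0 → S5 m l (b 0 + 4 - x) = 0 := by
    intro l x hx
    have e0 : x - (b 0 : ℝ) = -(b 0 + 4 - x - 4) := by ring
    have e1 : x - (b 1 : ℝ) = -(b 0 + 4 - x - 3) := by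
      rw [k1]
      ring
    have e2 : x - (b 2 : ℝ) = -(b 0 + 4 - x - 2) := by
      rw [k2]
      ring
    have e3 : x - (b 3 : ℝ) = -(b 0 + 4 - x - 1) := by
      rw [k3]
      ring
    have e4 : x - (b 4 : ℝ) = -(b 0 + 4 - x) := by
      rw [k4]
      ring
    rw [Fin.sum_univ_five, e0, e1, e2, e3, e4, div_neg, div_neg, div_neg, div_neg, div_neg] at hx
    rw [S5_eq, m0, m1, m2, m3, m4]
    linarith
  have hker : Ker5 (fun y => -(Complex.log (E5 y)).re) (fun y => -(Complex.log (E5 y)).im) m := by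
    refine ⟨?_, ?_, ?_, ?_, ?_⟩
    · have hP : ∀ x : ℝ, (PR b (-1)).eval x =
          -((x - b 4) * (x - b 4 + 1) * (x - b 4 + 2) * (x - b 4 + 3) * (x - b 4 + 4)) := by
        intro x
        have h1 := eval5 hbk (-1) (x - b 0)
        rw [add_sub_cancel] at h1
        rw [h1, k4]
        push_cast
        ring
      have hPn : ∀ x : ℝ, (b (Fin.last 4) : ℝ) < x → (PR b (-1)).eval x < 0 := by
        intro x hx
        have hx' : (b 4 : ℝ) < x := hx
        rw [hP, neg_lt_zero]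
        have : 0 < x - (b 4 : ℝ) := by linarith
        positivity
      obtain ⟨T, hT, hd⟩ := right_case hb hN hs hPn
      obtain ⟨x, hx, h1⟩ := row_eval hN T hd n (hkS T) (n 4)
      have hx0 : (b 4 : ℝ) < x := by
        have := hx.1
        rw [hT] at this
        exact this
      refine ⟨x - b 4, by linarith, ?_, ?_⟩
      · have h2 := neg_four_lt T hx (hPn x hx0)
        rw [hP] at h2
        exact t_lt (by linarith)
      · rw [k4] at hx0
        have a0 : |x - (b 0 : ℝ)| = 4 + (x - b 4) := by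
          rw [k4, abs_of_pos (by linarith)]
          ring
        have a1 : |x - (b 1 : ℝ)| = 3 + (x - b 4) := by
          rw [k4, k1, abs_of_pos (by linarith)]
          ring
        have a2 : |x - (b 2 : ℝ)| = 2 + (x - b 4) := by
          rw [k4, k2, abs_of_pos (by linarith)]
          ring
        have a3 : |x - (b 3 : ℝ)| = 1 + (x - b 4) := by
          rw [k4, k3, abs_of_pos (by linarith)]
          ring
        rw [Fin.sum_univ_five, a0, a1, a2, a3] at h1
        simp only [sub_self, zero_mul, add_zero, Int.cast_neg, Int.cast_one, abs_neg, abs_one,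
          Real.log_one, mul_zero, neg_zero] at h1
        rw [m0, m1, m2, m3, m4]
        linarith
    · intro l
      obtain ⟨x, x1, x2, hx⟩ := gap_zero hN n hkS S hS.1 hS.2 l
      rw [k2] at x1
      rw [k3] at x2
      exact ⟨b 0 + 4 - x, by linarith, by linarith, hS5 l x hx⟩
    · intro l
      obtain ⟨x, x1, x2, hx⟩ := gap_zero hN n hkS S' hS'.1 hS'.2 l
      rw [k1] at x2
      exact ⟨b 0 + 4 - x, by linarith, by linarith, hS5 l x hx⟩
    · intro h
      refine hneg fun y => ?_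
      rw [hval]
      have h1 := h (-y)
      rw [sub_mean hm] at h1
      exact h1
    · intro h
      refine hpos fun y => ?_
      rw [hval]
      have h1 := h (-y)
      rw [sub_mean hm] at h1
      exact h1
  have h1 := finish hm hker
  funext k
  fin_cases k
  · exact m4.symm.trans (h1 4)
  · exact m3.symm.trans (h1 3)
  · exact m2.symm.trans (h1 2)
  · exact m1.symm.trans (h1 1)
  · exact m0.symm.trans (h1 0)

end P4a177d
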