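import Pool.Agent.Lib.P4a177d.RealD
import Pool.Agent.Lib.P4a177d.XClass
import Pool.Agent.Lib.P4a177d.XEndFour
import Pool.Agent.Lib.P4a177d.XEndFive

/-!
# The kernel is zero for every smooth curve of the family
-/

set_option autoImplicit false

namespace P4a177d

open P4a177h Filter Topology MeasureTheory
open scoped Real

variable {g : ℕ} {b : Fin (g + 1) → ℤ} {N : ℤ}

/-- The sign of `P` on a gap, for four roots: on the first gap `P < 0` forces `N > 0`. -/
theorem pos_of_gap_zero {b : Fin (3 + 1) → ℤ} (hb : StrictMono b)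
    (h : ∀ x ∈ Set.Ioo (b (0 : Fin 3).castSucc : ℝ) (b (0 : Fin 3).succ), (PR b N).eval x < 0) :
    0 < N := by
  have h01 : (b 0 : ℝ) < b 1 := by exact_mod_cast hb (by decide)
  have h12 : (b 1 : ℝ) < b 2 := by exact_mod_cast hb (by decide)
  have h23 : (b 2 : ℝ) < b 3 := by exact_mod_cast hb (by decide)
  have h1 := h (((b 0 : ℝ) + b 1) / 2) ⟨by
    show (b 0 : ℝ) < _
    linarith, by
    show _ < (b 1 : ℝ)
    linarith⟩
  rw [eval_PR, Fin.prod_univ_four] at h1
  by_contra hc
  push Not at hc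
  have hc' : (N : ℝ) ≤ 0 := by exact_mod_cast hc
  have e1 : 0 < ((b 0 : ℝ) + b 1) / 2 - b 0 := by linarith
  have e2 : 0 < (b 1 : ℝ) - ((b 0 : ℝ) + b 1) / 2 := by linarith
  have e3 : 0 < (b 2 : ℝ) - ((b 0 : ℝ) + b 1) / 2 := by linarith
  have e4 : 0 < (b 3 : ℝ) - ((b 0 : ℝ) + b 1) / 2 := by linarith
  have e5 : 0 < (((b 0 : ℝ) + b 1) / 2 - b 0) * ((b 1 : ℝ) - ((b 0 : ℝ) + b 1) / 2) *
      ((b 2 : ℝ) - ((b 0 : ℝ) + b 1) / 2) * ((b 3 : ℝ) - ((b 0 : ℝ) + b 1) / 2) := by positivity
  nlinarith [mul_nonneg (neg_nonneg.2 hc') e5.le]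

/-- The value of `P` for five consecutive roots. -/
theorem five_eval {b : Fin (4 + 1) → ℤ} (hbk : ∀ k : Fin (4 + 1), b k = b 0 + (k : ℕ))
    (N : ℤ) (m : ℝ) : (PR b N).eval ((b 0 : ℝ) + m) =
      N * (m * (m - 1) * (m - 2) * (m - 3) * (m - 4)) := by
  have h1 : ∀ k : Fin (4 + 1), (b 0 : ℝ) + m - b k = m - (k : ℕ) := by
    intro k
    rw [hbk k]
    push_cast
    ring
  rw [eval_PR, Finset.prod_congr rfl fun k _ => h1 k, Fin.prod_univ_five]
  norm_num

/-- All the limits of the regulators vanish. -/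
theorem seg_of_loops (hN : N ≠ 0) (n : Fin (g + 1) → ℝ)
    (hk : ∀ γ : Torus 1 (CoordRing b N), ∑ k, n k * regFun γ ![uF b N, uL b N k] = 0)
    (S : Seg (PR b N)) : ∑ k, n k * S.RR (b k) = 0 := by
  by_contra hS
  obtain ⟨γ, hγ⟩ := exists_loop hN S n hS
  exact hγ (hk γ)

/-- The curves with two type D gaps. -/
theorem two_gap_case (hb : StrictMono b) (hN : N ≠ 0)
    (hs : ∀ x : ℝ, (PR b N).eval x = -4 → (Polynomial.derivative (PR b N)).eval x ≠ 0)
    (i i' : Fin g)
    (h : ∀ x ∈ Set.Ioo (b i.castSucc : ℝ) (b i.succ), -4 < (PR b N).eval x ∧ (PR b N).eval x < 0)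
    (h' : ∀ x ∈ Set.Ioo (b i'.castSucc : ℝ) (b i'.succ),
      -4 < (PR b N).eval x ∧ (PR b N).eval x < 0)
    (S S' : Seg (PR b N)) (hS : S.p = b i.castSucc ∧ S.q = b i.succ)
    (hS' : S'.p = b i'.castSucc ∧ S'.q = b i'.succ)
    (hlt : (i : ℕ) + 2 ≤ i') (n : Fin (g + 1) → ℝ) (hn : ∑ k, n k = 0)
    (hk : ∀ γ : Torus 1 (CoordRing b N), ∑ k, n k * regFun γ ![uF b N, uL b N k] = 0) :
    n = 0 := by
  have hkS := seg_of_loops hN n hk
  rcases two_gaps hb hN hs i i' h h' hlt with ⟨hg, hbk, -⟩ | ⟨hg, -, hbk⟩ | ⟨hg, hbk, hN1⟩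
  · subst hg
    have e1 : i = 0 := by
      apply Fin.ext
      have := i'.2
      simp
      omega
    have e2 : i' = 2 := by
      apply Fin.ext
      have := i'.2
      simp
      omega
    subst e1
    subst e2
    have hN0 : 0 < N := pos_of_gap_zero hb fun x hx => (h x hx).2
    have k1 : b 1 = b 0 + 1 := by simpa using hbk 1
    have k2 : b 2 = b 0 + 2 := by simpa using hbk 2
    have k3 : b 3 = b 0 + 3 := by simpa using hbk 3
    refine end_four hb hN0 (al := 1 / 2) (be := 3 / 2) (c := b 0 + 3 / 2) (by norm_num)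
      (by norm_num) ?_ ?_ ?_ ?_ S S' hS hS' n hn hkS hk
    · ring
    · rw [k1]; push_cast; ring
    · rw [k2]; push_cast; ring
    · rw [k3]; push_cast; ring
  · subst hg
    have e1 : i = 0 := by
      apply Fin.ext
      have := i'.2
      simp
      omega
    have e2 : i' = 2 := by
      apply Fin.ext
      have := i'.2
      simp
      omega
    subst e1
    subst e2
    have hN0 : 0 < N := pos_of_gap_zero hb fun x hx => (h x hx).2
    have k1 : b 1 = b 0 + 1 := by simpa using hbk 1
    have k2 : b 2 = b 0 + 3 := by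
      have := hbk 2
      simp at this
      omega
    have k3 : b 3 = b 0 + 4 := by
      have := hbk 3
      simp at this
      omega
    refine end_four hb hN0 (al := 1) (be := 2) (c := b 0 + 2) (by norm_num)
      (by norm_num) ?_ ?_ ?_ ?_ S S' hS hS' n hn hkS hk
    · ring
    · rw [k1]; push_cast; ring
    · rw [k2]; push_cast; ring
    · rw [k3]; push_cast; ring
  · subst hg
    have hi'3 : (i' : ℕ) ≤ 3 := by
      have := i'.2
      omega
    have k1 : b 1 = b 0 + 1 := by simpa using hbk 1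
    have k3 : b 3 = b 0 + 3 := by simpa using hbk 3
    have k4 : b 4 = b 0 + 4 := by simpa using hbk 4
    rcases hN1 with rfl | rfl
    · have hi0 : i ≠ 0 := by
        rintro rfl
        have h1 := (h ((b 0 : ℝ) + 1 / 2) ⟨by
          show (b 0 : ℝ) < _
          linarith, by
          show _ < ((b 1 : ℤ) : ℝ)
          rw [k1]
          push_cast
          linarith⟩).2
        rw [five_eval hbk] at h1
        norm_num at h1
      have e1 : i = 1 := by
        apply Fin.ext
        have h1 : (i : ℕ) ≠ 0 := fun h0 => hi0 (Fin.ext h0)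
        simp
        omega
      have e2 : i' = 3 := by
        apply Fin.ext
        have h1 : (i : ℕ) ≠ 0 := fun h0 => hi0 (Fin.ext h0)
        simp
        omega
      subst e1
      subst e2
      exact end_five_pos hb hbk hs S S' hS hS' n hn hkS hk
    · have hi0 : i' ≠ 3 := by
        rintro rfl
        have h1 := (h' ((b 0 : ℝ) + 7 / 2) ⟨by
          show ((b 3 : ℤ) : ℝ) < _
          rw [k3]
          push_cast
          linarith, by
          show _ < ((b 4 : ℤ) : ℝ)
          rw [k4]
          push_cast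
          linarith⟩).2
        rw [five_eval hbk] at h1
        norm_num at h1
      have h3 : (i' : ℕ) ≠ 3 := fun h0 => hi0 (Fin.ext h0)
      have e1 : i = 0 := by
        apply Fin.ext
        simp
        omega
      have e2 : i' = 2 := by
        apply Fin.ext
        simp
        omega
      subst e1
      subst e2
      exact end_five_neg hb hbk hs S' S hS' hS n hn hkS hk

/-- The kernel of the regulators is zero. -/
theorem ker_all (hb : StrictMono b) (hN : N ≠ 0)
    (hs : ∀ x : ℝ, (PR b N).eval x = -4 → (Polynomial.derivative (PR b N)).eval x ≠ 0)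
    (n : Fin (g + 1) → ℝ) (hn : ∑ k, n k = 0)
    (hk : ∀ γ : Torus 1 (CoordRing b N), ∑ k, n k * regFun γ ![uF b N, uL b N k] = 0) :
    n = 0 := by
  by_contra hn0
  have hkS := seg_of_loops hN n hk
  obtain ⟨j, hj⟩ := Finite.exists_max n
  obtain ⟨j', hj'⟩ := Finite.exists_min n
  obtain ⟨i, hi, hP, S, hS1, hS2⟩ := max_mem hb hN hs n hn hkS hn0 j hj
  obtain ⟨i', hi', hP', S', hS1', hS2'⟩ := max_mem hb hN hs (fun k => -n k)
    (by rw [Finset.sum_neg_distrib, hn, neg_zero])
    (fun S => by simp only [neg_mul]; rw [Finset.sum_neg_distrib, hkS S, neg_zero])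
    (fun h0 => hn0 (by
      funext k
      have := congrFun h0 k
      simpa using this)) j' (fun k => neg_le_neg (hj' k))
  have hadj := gap_not_adjacent hb hN (fun x hx => (hP x hx).2) fun x hx => (hP' x hx).2
  have hadj' := gap_not_adjacent hb hN (fun x hx => (hP' x hx).2) fun x hx => (hP x hx).2
  rcases lt_trichotomy (i : ℕ) (i' : ℕ) with hlt | heq | hlt
  · exact hn0 (two_gap_case hb hN hs i i' hP hP' S S' ⟨hS1, hS2⟩ ⟨hS1', hS2'⟩ (by omega) n hn hk)
  · have hii : i = i' := Fin.ext heq
    subst hii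
    have hjj : n j ≠ n j' := by
      intro h0
      have hc : ∀ k, n k = n j := fun k => le_antisymm (hj k) (h0 ▸ hj' k)
      have h1 : ∑ k, n k = (g + 1 : ℕ) * n j := by
        rw [Finset.sum_congr rfl fun k _ => hc k, Finset.sum_const, Finset.card_univ,
          Fintype.card_fin, nsmul_eq_mul]
      rw [hn] at h1
      have h2 : n j = 0 := by
        rcases mul_eq_zero.1 h1.symm with h3 | h3
        · exact absurd h3 (by positivity)
        · exact h3
      exact hn0 (funext fun k => (hc k).trans h2)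
    have hlam : ∀ k, |n k - (n i.castSucc + n i.succ) / 2| ≤ |n i.castSucc - n i.succ| / 2 := by
      intro k
      have a1 := hj k
      have a2 := hj' k
      rcases hi with hi | hi <;> rcases hi' with hi' | hi'
      · exact absurd (by rw [hi, hi']) hjj
      · rw [← hi, ← hi', abs_of_nonneg (sub_nonneg.2 (hj' j)), abs_le]
        constructor <;> linarith
      · rw [← hi, ← hi', abs_sub_comm (n j'), abs_of_nonneg (sub_nonneg.2 (hj' j)), abs_le]
        constructor <;> linarith
      · exact absurd (by rw [hi, hi']) hjj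
    have ht := typeD hb hN i hP S hS1 hS2 n (hkS S) hlam
    rcases hi with hi | hi <;> rcases hi' with hi' | hi'
    · exact hjj (by rw [hi, hi'])
    · exact hjj (by rw [hi, hi', ht])
    · exact hjj (by rw [hi, hi', ht])
    · exact hjj (by rw [hi, hi'])
  · exact hn0 (two_gap_case hb hN hs i' i hP' hP S' S ⟨hS1', hS2'⟩ ⟨hS1, hS2⟩ (by omega) n hn hk)

end P4a177d
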