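import Pool.Agent.Lib.P4a177d.CDefs

/-!
# The loops around a vertical line: the functions
-/

set_option autoImplicit false

namespace P4a177d

open Filter Topology
open scoped Real

noncomputable section

variable {g : ℕ} (b : Fin (g + 1) → ℤ) (N : ℤ) (c : ℝ)

/-- `P(x) = N ∏ (x - b_k)` for complex `x`. -/
def Pc (x : ℂ) : ℂ := (N : ℂ) * ∏ k, (x - (b k : ℂ))

/-- The function `(s - 1) / (s + 1)`, `s = √(1 + 4 / P)`. -/
def eP (x : ℂ) : ℂ := (Complex.exp (Complex.log (1 + 4 / Pc b N x) / 2) - 1) /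
  (Complex.exp (Complex.log (1 + 4 / Pc b N x) / 2) + 1)

/-- The numerator of `x(z) - b_k`, `x(z) = c + (1 + z) / (1 - z)`. -/
def Bz (k : Fin (g + 1)) (z : ℂ) : ℂ := 2 + ((c : ℂ) - (b k : ℂ) - 1) * (1 - z)

/-- The product `N ∏ B_k`. -/
def Qz (z : ℂ) : ℂ := (N : ℂ) * ∏ k, Bz b c k z

/-- The function `1 / P(x(z))`. -/
def Uz (z : ℂ) : ℂ := (1 - z) ^ (g + 1) / Qz b N c z

/-- The square root of `1 + 4 / P(x(z))`. -/
def sL (z : ℂ) : ℂ := Complex.exp (Complex.log (1 + 4 * Uz b N c z) / 2)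

/-- The function `t`. -/
def tL (z : ℂ) : ℂ := (1 + sL b N c z) / 2

/-- The function `x`. -/
def xL (z : ℂ) : ℂ := (c : ℂ) + (1 + z) / (1 - z)

/-- The function `(t - 1) / t`. -/
def eL (z : ℂ) : ℂ := (sL b N c z - 1) / (sL b N c z + 1)

/-- The function `e / (1 - z)^(g + 1)`. -/
def EL (z : ℂ) : ℂ := 4 / (Qz b N c z * (sL b N c z + 1) ^ 2)

/-- `∑ n_k (z B_k'(z) / B_k(z)).re` -/
def H1 (n : Fin (g + 1) → ℝ) (z : ℂ) : ℝ :=
  ∑ k, n k * (z * (-((c : ℂ) - (b k : ℂ) - 1)) / Bz b c k z).re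

/-- `∑ n_k log ‖B_k(z)‖` -/
def H0 (n : Fin (g + 1) → ℝ) (z : ℂ) : ℝ := ∑ k, n k * Real.log ‖Bz b c k z‖

/-- The integrand of the regulator. -/
def gL (n : Fin (g + 1) → ℝ) (z : ℂ) : ℝ := Real.log ‖eL b N c z‖ * H1 b c n z -
  H0 b c n z * (z * deriv (eL b N c) z / eL b N c z).re

/-- `∑ n_k z B_k'(z) / B_k(z)` -/
def SL (n : Fin (g + 1) → ℝ) (z : ℂ) : ℂ :=
  ∑ k, (n k : ℂ) * (z * (-((c : ℂ) - (b k : ℂ) - 1)) / Bz b c k z)

/-- The domain of the functions. -/
def Om : Set ℂ := {z | Qz b N c z ≠ 0 ∧ 1 + 4 * Uz b N c z ∈ Complex.slitPlane}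

variable {b N c}

theorem xL_sub (k : Fin (g + 1)) {z : ℂ} (hz : z ≠ 1) :
    xL c z - (b k : ℂ) = Bz b c k z / (1 - z) := by
  have h : (1 : ℂ) - z ≠ 0 := sub_ne_zero.2 (Ne.symm hz)
  unfold xL Bz
  field_simp
  ring

theorem Bz_ne_zero {z : ℂ} (hz : Qz b N c z ≠ 0) (k : Fin (g + 1)) : Bz b c k z ≠ 0 := by
  unfold Qz at hz
  exact Finset.prod_ne_zero_iff.1 (right_ne_zero_of_mul hz) k (Finset.mem_univ k)

theorem Pc_xL {z : ℂ} (hz : z ≠ 1) : Pc b N (xL c z) = Qz b N c z / (1 - z) ^ (g + 1) := by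
  unfold Pc Qz
  rw [Finset.prod_congr rfl fun k _ => xL_sub k hz, Finset.prod_div_distrib]
  simp
  ring

theorem Uz_eq {z : ℂ} (hz : z ≠ 1) : Uz b N c z = 1 / Pc b N (xL c z) := by
  rw [Pc_xL hz, one_div_div]
  rfl

theorem eL_eq {z : ℂ} (hz : z ≠ 1) : eL b N c z = eP b N (xL c z) := by
  unfold eL eP sL
  rw [Uz_eq hz, mul_one_div]

theorem sL_sq {z : ℂ} (hz : z ∈ Om b N c) : sL b N c z ^ 2 = 1 + 4 * Uz b N c z := by
  unfold sL
  rw [← Complex.exp_nat_mul]
  have : ((2 : ℕ) : ℂ) * (Complex.log (1 + 4 * Uz b N c z) / 2) =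
      Complex.log (1 + 4 * Uz b N c z) := by
    push_cast
    ring
  rw [this, Complex.exp_log (Complex.slitPlane_ne_zero hz.2)]

theorem sL_re {z : ℂ} (hz : z ∈ Om b N c) : 0 < (sL b N c z).re := by
  unfold sL
  rw [Complex.exp_re]
  refine mul_pos (Real.exp_pos _) (Real.cos_pos_of_mem_Ioo ?_)
  have h1 : (Complex.log (1 + 4 * Uz b N c z) / 2).im = Complex.arg (1 + 4 * Uz b N c z) / 2 := by
    rw [show (Complex.log (1 + 4 * Uz b N c z) / 2) =
      Complex.log (1 + 4 * Uz b N c z) / ((2 : ℝ) : ℂ) by push_cast; rfl, Complex.div_ofReal_im,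
      Complex.log_im]
  rw [h1]
  have h2 := Complex.neg_pi_lt_arg (1 + 4 * Uz b N c z)
  have h3 := (Complex.mem_slitPlane_iff_arg.1 hz.2).1
  have h4 := Complex.arg_le_pi (1 + 4 * Uz b N c z)
  have h5 : Complex.arg (1 + 4 * Uz b N c z) < π := lt_of_le_of_ne h4 h3
  constructor <;> linarith

theorem sL_add_one {z : ℂ} (hz : z ∈ Om b N c) : sL b N c z + 1 ≠ 0 := by
  intro h
  have h1 := sL_re hz
  have h2 := congrArg Complex.re h
  rw [Complex.add_re, Complex.one_re, Complex.zero_re] at h2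
  linarith

theorem eL_eq_mul {z : ℂ} (hz : z ∈ Om b N c) : eL b N c z = (1 - z) ^ (g + 1) * EL b N c z := by
  have h1 := sL_sq hz
  have h2 := sL_add_one hz
  have h3 := hz.1
  have h4 : (sL b N c z - 1) * (sL b N c z + 1) * Qz b N c z = 4 * (1 - z) ^ (g + 1) := by
    have : (sL b N c z - 1) * (sL b N c z + 1) = 4 * Uz b N c z := by linear_combination h1
    rw [this]
    unfold Uz
    field_simp
  unfold eL EL
  rw [div_eq_iff h2, mul_assoc, div_mul_eq_mul_div, ← mul_div_assoc, eq_div_iff (by positivity)]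
  linear_combination (sL b N c z + 1) * h4

theorem EL_ne_zero {z : ℂ} (hz : z ∈ Om b N c) : EL b N c z ≠ 0 := by
  unfold EL
  exact div_ne_zero (by norm_num) (mul_ne_zero hz.1 (pow_ne_zero 2 (sL_add_one hz)))

theorem eL_ne_zero {z : ℂ} (hz : z ∈ Om b N c) (h1 : z ≠ 1) : eL b N c z ≠ 0 := by
  rw [eL_eq_mul hz]
  exact mul_ne_zero (pow_ne_zero _ (sub_ne_zero.2 (Ne.symm h1))) (EL_ne_zero hz)

theorem tL_spec {z : ℂ} (hz : z ∈ Om b N c) (h1 : z ≠ 1) :
    (N : ℂ) * (tL b N c z * (tL b N c z - 1)) * ∏ k, (xL c z - (b k : ℂ)) = 1 := by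
  have h2 := sL_sq hz
  have h3 : tL b N c z * (tL b N c z - 1) = Uz b N c z := by
    unfold tL
    linear_combination (1 / 4 : ℂ) * h2
  have h4 : (N : ℂ) * Uz b N c z * ∏ k, (xL c z - (b k : ℂ)) = Uz b N c z * Pc b N (xL c z) := by
    unfold Pc
    ring
  rw [h3, h4, Uz_eq h1, one_div, inv_mul_cancel₀]
  rw [Pc_xL h1]
  exact div_ne_zero hz.1 (pow_ne_zero _ (sub_ne_zero.2 (Ne.symm h1)))

theorem tL_ne_zero {z : ℂ} (hz : z ∈ Om b N c) : tL b N c z ≠ 0 := by
  unfold tL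
  have := sL_add_one hz
  intro h
  apply this
  linear_combination 2 * h

theorem tL_div {z : ℂ} (hz : z ∈ Om b N c) :
    (tL b N c z - 1) / tL b N c z = eL b N c z := by
  have h1 := tL_ne_zero hz
  have h2 := sL_add_one hz
  unfold eL
  rw [div_eq_div_iff h1 h2]
  unfold tL
  ring

theorem differentiable_Bz (k : Fin (g + 1)) : Differentiable ℂ (Bz b c k) := by
  unfold Bz
  fun_prop

theorem hasDerivAt_Bz (k : Fin (g + 1)) (z : ℂ) :
    HasDerivAt (Bz b c k) (-((c : ℂ) - (b k : ℂ) - 1)) z := by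
  unfold Bz
  have h1 : HasDerivAt (fun z : ℂ => 1 - z) (-1) z := by
    simpa using (hasDerivAt_id z).const_sub 1
  exact ((h1.const_mul ((c : ℂ) - (b k : ℂ) - 1)).const_add 2).congr_deriv (by ring)

theorem differentiable_Qz : Differentiable ℂ (Qz b N c) := by
  unfold Qz
  refine (differentiable_const _).mul ?_
  exact Differentiable.fun_finsetProd fun k _ => differentiable_Bz k

theorem isOpen_Om : IsOpen (Om b N c) := by
  have h1 : IsOpen {z : ℂ | Qz b N c z ≠ 0} :=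
    isOpen_ne_fun differentiable_Qz.continuous continuous_const
  have h2 : ContinuousOn (fun z => 1 + 4 * Uz b N c z) {z : ℂ | Qz b N c z ≠ 0} := by
    unfold Uz
    refine continuousOn_const.add (continuousOn_const.mul (ContinuousOn.div ?_ ?_ ?_))
    · exact ((continuous_const.sub continuous_id).pow _).continuousOn
    · exact differentiable_Qz.continuous.continuousOn
    · exact fun z hz => hz
  exact h2.isOpen_inter_preimage h1 Complex.isOpen_slitPlane

theorem differentiableAt_sL {z : ℂ} (hz : z ∈ Om b N c) : DifferentiableAt ℂ (sL b N c) z := by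
  have h1 : DifferentiableAt ℂ (fun z => 1 + 4 * Uz b N c z) z := by
    unfold Uz
    refine (differentiableAt_const _).add ((differentiableAt_const _).mul ?_)
    exact DifferentiableAt.div (by fun_prop) (differentiable_Qz z) hz.1
  unfold sL
  exact ((h1.clog hz.2).div_const 2).cexp

theorem differentiableAt_tL {z : ℂ} (hz : z ∈ Om b N c) : DifferentiableAt ℂ (tL b N c) z := by
  unfold tL
  exact ((differentiableAt_const _).add (differentiableAt_sL hz)).div_const 2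

theorem differentiableAt_eL {z : ℂ} (hz : z ∈ Om b N c) : DifferentiableAt ℂ (eL b N c) z := by
  unfold eL
  exact ((differentiableAt_sL hz).sub (differentiableAt_const _)).div
    ((differentiableAt_sL hz).add (differentiableAt_const _)) (sL_add_one hz)

theorem differentiableAt_EL {z : ℂ} (hz : z ∈ Om b N c) : DifferentiableAt ℂ (EL b N c) z := by
  unfold EL
  exact (differentiableAt_const _).div ((differentiable_Qz z).mul
    (((differentiableAt_sL hz).add (differentiableAt_const _)).pow 2))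
    (mul_ne_zero hz.1 (pow_ne_zero 2 (sL_add_one hz)))

theorem differentiableAt_xL {z : ℂ} (hz : z ≠ 1) : DifferentiableAt ℂ (xL c) z := by
  unfold xL
  refine (differentiableAt_const _).add (DifferentiableAt.div (by fun_prop) (by fun_prop) ?_)
  exact sub_ne_zero.2 (Ne.symm hz)

/-- The logarithmic derivative of `e`. -/
theorem dlog_eL {z : ℂ} (hz : z ∈ Om b N c) (h1 : z ≠ 1) :
    deriv (eL b N c) z / eL b N c z =
      -((g + 1 : ℕ) : ℂ) / (1 - z) + deriv (EL b N c) z / EL b N c z := by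
  have h0 : (1 : ℂ) - z ≠ 0 := sub_ne_zero.2 (Ne.symm h1)
  have h2 : eL b N c =ᶠ[𝓝 z] fun z => (1 - z) ^ (g + 1) * EL b N c z := by
    filter_upwards [isOpen_Om.mem_nhds hz] with w hw using eL_eq_mul hw
  have h3 : HasDerivAt (fun z : ℂ => (1 - z) ^ (g + 1)) (-((g + 1 : ℕ) : ℂ) * (1 - z) ^ g) z := by
    have h4 : HasDerivAt (fun z : ℂ => 1 - z) (-1) z := by
      simpa using (hasDerivAt_id z).const_sub 1
    exact (h4.fun_pow (g + 1)).congr_deriv (by rw [Nat.add_sub_cancel]; ring)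
  have h4 := h3.mul (differentiableAt_EL hz).hasDerivAt
  rw [h2.deriv_eq, eL_eq_mul hz]
  rw [show (fun z => (1 - z) ^ (g + 1) * EL b N c z) = (fun z => (1 - z) ^ (g + 1)) * EL b N c from
    rfl, h4.deriv]
  have h5 := EL_ne_zero hz
  field_simp
  ring

end

end P4a177d
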