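import Pool.Agent.Lib.P4a177d.XLineA
import Pool.Agent.Lib.P4a177d.TorD
import Pool.Agent.Lib.P4a177d.Reg1D

/-!
# The loops around a vertical line

The unit circle is contained in the open set `Om`, hence so is an annulus `ρ ≤ ‖z‖ ≤ 1`. For `r` in
`(ρ, 1)` the functions `xL`, `tL` on the circle `‖z‖ = r` define a loop on the curve, and the
regulator is the integral of `gL`.
-/

set_option autoImplicit false

namespace P4a177d

open P4a177h Filter Topology MeasureTheory
open scoped Real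

variable {g : ℕ} {b : Fin (g + 1) → ℤ} {N : ℤ} {c : ℝ}

namespace XLineBAux

theorem hasDerivAt_pt (r θ : ℝ) : HasDerivAt (fun t : ℝ => pt r t) (Complex.I * pt r θ) θ := by
  unfold pt
  have h1 : HasDerivAt (fun t : ℝ => (t : ℂ) * Complex.I) Complex.I θ := by
    simpa using (Complex.ofRealCLM.hasDerivAt (x := θ)).mul_const Complex.I
  have h2 := (h1.cexp).const_mul (r : ℂ)
  refine h2.congr_deriv ?_
  ring

theorem contDiff_pt (r : ℝ) : ContDiff ℝ 2 (fun t : ℝ => pt r t) := by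
  unfold pt
  have h1 : ContDiff ℝ 2 (fun t : ℝ => (t : ℂ) * Complex.I) :=
    Complex.ofRealCLM.contDiff.mul contDiff_const
  exact contDiff_const.mul (h1.cexp)

theorem pt_add (r θ : ℝ) : pt r (θ + 2 * π) = pt r θ := by
  unfold pt
  congr 1
  push_cast
  rw [add_mul]
  exact Complex.exp_periodic (θ * Complex.I)

theorem contDiff_comp {U : Set ℂ} (hU : IsOpen U) {f : ℂ → ℂ} (hf : DifferentiableOn ℂ f U)
    {r : ℝ} (hr : ∀ θ, pt r θ ∈ U) : ContDiff ℝ 2 (fun θ => f (pt r θ)) := by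
  have h1 : ContDiffOn ℝ 2 f U := (hf.contDiffOn hU).restrict_scalars ℝ
  exact h1.comp_contDiff (contDiff_pt r) hr

theorem deriv_comp_pt {f : ℂ → ℂ} {r θ : ℝ} {f' : ℂ} (hf : HasDerivAt f f' (pt r θ)) :
    deriv (fun θ => f (pt r θ)) θ = Complex.I * (pt r θ * f') := by
  have h := hf.scomp θ (hasDerivAt_pt r θ)
  have h' : deriv (f ∘ fun t => pt r t) θ = _ := h.deriv
  rw [show (fun θ => f (pt r θ)) = f ∘ fun t => pt r t from rfl, h', smul_eq_mul]
  ring

theorem I_mul_im (z : ℂ) : (Complex.I * z).im = z.re := by simp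

theorem continuous_pt (r : ℝ) : Continuous (pt r) := by
  unfold pt
  fun_prop

end XLineBAux

open XLineBAux

theorem exists_rho (h : ∀ z : ℂ, ‖z‖ = 1 → z ∈ Om b N c) :
    ∃ ρ : ℝ, 1 / 2 ≤ ρ ∧ ρ < 1 ∧ ∀ z : ℂ, ρ ≤ ‖z‖ → ‖z‖ ≤ 1 → z ∈ Om b N c := by
  have hsub : Metric.sphere (0 : ℂ) 1 ⊆ Om b N c := fun z hz => h z (by simpa using hz)
  obtain ⟨δ, hδ, hδs⟩ := (isCompact_sphere (0 : ℂ) 1).exists_cthickening_subset_open isOpen_Om hsub
  refine ⟨max (1 / 2) (1 - δ), le_max_left _ _, max_lt (by norm_num) (by linarith),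
    fun z h1 h2 => hδs ?_⟩
  have h3 : 1 / 2 ≤ ‖z‖ := (le_max_left _ _).trans h1
  have h4 : 1 - δ ≤ ‖z‖ := (le_max_right _ _).trans h1
  have hz0 : 0 < ‖z‖ := by linarith
  refine Metric.mem_cthickening_of_dist_le z ((‖z‖⁻¹ : ℝ) • z) δ _ ?_ ?_
  · rw [mem_sphere_zero_iff_norm, norm_smul, norm_inv, norm_norm, inv_mul_cancel₀ hz0.ne']
  · have h5 : z - (‖z‖⁻¹ : ℝ) • z = (1 - ‖z‖⁻¹ : ℝ) • z := by rw [sub_smul, one_smul]
    rw [dist_eq_norm, h5, norm_smul, Real.norm_eq_abs]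
    have h6 : 1 ≤ ‖z‖⁻¹ := (one_le_inv₀ hz0).2 h2
    rw [abs_of_nonpos (by linarith)]
    have h7 : ‖z‖⁻¹ * ‖z‖ = 1 := inv_mul_cancel₀ hz0.ne'
    nlinarith

theorem exists_loop_line {ρ : ℝ} (h0 : 1 / 2 ≤ ρ)
    (h : ∀ z : ℂ, ρ ≤ ‖z‖ → ‖z‖ ≤ 1 → z ∈ Om b N c) {r : ℝ} (h1 : ρ < r) (h2 : r < 1)
    (n : Fin (g + 1) → ℝ) (hn : ∑ k, n k = 0) :
    ∃ γ : Torus 1 (CoordRing b N), ∑ k, n k * regFun γ ![uF b N, uL b N k] =
      ∫ θ in (0 : ℝ)..(2 * π), gL b N c n (pt r θ) := by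
  have hnorm : ∀ θ, ‖pt r θ‖ = r := norm_pt (by linarith)
  have hmem : ∀ θ, pt r θ ∈ Om b N c := fun θ => h _ (by rw [hnorm]; exact h1.le)
    (by rw [hnorm]; exact h2.le)
  have hne : ∀ θ, pt r θ ≠ 1 := by
    intro θ hθ
    have := hnorm θ
    rw [hθ, norm_one] at this
    linarith
  have hne' : ∀ θ, (1 : ℂ) - pt r θ ≠ 0 := fun θ => sub_ne_zero.2 (hne θ).symm
  have hB0 : ∀ k θ, Bz b c k (pt r θ) ≠ 0 := fun k θ => Bz_ne_zero (hmem θ).1 k
  have he0 : ∀ θ, eL b N c (pt r θ) ≠ 0 := fun θ => eL_ne_zero (hmem θ) (hne θ)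
  have hX : ContDiff ℝ 2 fun θ => xL c (pt r θ) :=
    contDiff_comp isOpen_compl_singleton
      (fun z hz => (differentiableAt_xL (c := c) hz).differentiableWithinAt) hne
  have hT : ContDiff ℝ 2 fun θ => tL b N c (pt r θ) :=
    contDiff_comp isOpen_Om (fun z hz => (differentiableAt_tL hz).differentiableWithinAt) hmem
  have hed : DifferentiableOn ℂ (eL b N c) (Om b N c) :=
    fun z hz => (differentiableAt_eL hz).differentiableWithinAt
  have hF : ContDiff ℝ 2 fun θ => eL b N c (pt r θ) := contDiff_comp isOpen_Om hed hmem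
  have hF' : ContDiff ℝ 2 fun θ => deriv (eL b N c) (pt r θ) :=
    contDiff_comp isOpen_Om (hed.deriv isOpen_Om) hmem
  obtain ⟨γ, hγX, hγT⟩ := exists_torus (b := b) (N := N) hX hT
    (fun θ => by simp only [pt_add]) (fun θ => by simp only [pt_add])
    (fun θ => tL_spec (hmem θ) (hne θ))
  have hγF : ∀ θ : Fin 1 → ℝ, γ.emb θ (uF b N : CoordRing b N) =
      (fun t : ℝ => eL b N c (pt r t)) (θ 0) := by
    intro θ
    have h1 : (uF b N : CoordRing b N) * (uT b N : CoordRing b N) = (uT1 b N : CoordRing b N) := by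
      rw [← Units.val_mul]
      unfold uF
      rw [div_mul_cancel]
    have h2 := congrArg (γ.emb θ) h1
    rw [map_mul, uT_val, uT1_val, map_sub, map_one, hγT] at h2
    show _ = eL b N c (pt r (θ 0))
    rw [← tL_div (hmem (θ 0)), eq_div_iff (tL_ne_zero (hmem (θ 0))), h2]
  have hγL : ∀ (k : Fin (g + 1)) (θ : Fin 1 → ℝ), γ.emb θ (uL b N k : CoordRing b N) =
      (fun t : ℝ => Bz b c k (pt r t) / (1 - pt r t)) (θ 0) := by
    intro k θ
    rw [uL_val, map_sub, hγX, map_intCast]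
    exact xL_sub k (hne (θ 0))
  have hdF : ∀ θ, (deriv (fun t => eL b N c (pt r t)) θ / eL b N c (pt r θ)).im =
      (pt r θ * deriv (eL b N c) (pt r θ) / eL b N c (pt r θ)).re := by
    intro θ
    rw [deriv_comp_pt (differentiableAt_eL (hmem θ)).hasDerivAt, mul_div_assoc, I_mul_im]
  have hdG : ∀ k θ, (deriv (fun t => Bz b c k (pt r t) / (1 - pt r t)) θ /
      (Bz b c k (pt r θ) / (1 - pt r θ))).im =
      (pt r θ * (-((c : ℂ) - (b k : ℂ) - 1)) / Bz b c k (pt r θ)).re +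
        (pt r θ / (1 - pt r θ)).re := by
    intro k θ
    have h3 : HasDerivAt (fun z : ℂ => 1 - z) (-1) (pt r θ) := by
      simpa using (hasDerivAt_id (pt r θ)).const_sub 1
    have h4 := (hasDerivAt_Bz (b := b) (c := c) k (pt r θ)).div h3 (hne' θ)
    have h5 : deriv (fun t => Bz b c k (pt r t) / (1 - pt r t)) θ = _ :=
      deriv_comp_pt (f := fun z => Bz b c k z / (1 - z)) h4
    rw [h5, mul_div_assoc, I_mul_im, ← Complex.add_re]
    congr 1
    have h6 := hB0 k θ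
    have h7 := hne' θ
    field_simp
    ring
  have hcF : Continuous fun θ => Real.log ‖eL b N c (pt r θ)‖ :=
    (hF.continuous.norm).log fun θ => norm_ne_zero_iff.2 (he0 θ)
  have hcB : ∀ k, Continuous fun θ => Bz b c k (pt r θ) := fun k =>
    (differentiable_Bz k).continuous.comp (continuous_pt r)
  have hc1 : Continuous fun θ => (1 : ℂ) - pt r θ := continuous_const.sub (continuous_pt r)
  have hcG : ∀ k, Continuous fun θ => Real.log ‖Bz b c k (pt r θ) / (1 - pt r θ)‖ := fun k =>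
    (((hcB k).div hc1 hne').norm).log fun θ =>
      norm_ne_zero_iff.2 (div_ne_zero (hB0 k θ) (hne' θ))
  have hcφ : Continuous fun θ =>
      (pt r θ * deriv (eL b N c) (pt r θ) / eL b N c (pt r θ)).re :=
    Complex.continuous_re.comp
      (((continuous_pt r).mul hF'.continuous).div hF.continuous he0)
  have hcψ : ∀ k, Continuous fun θ =>
      (pt r θ * (-((c : ℂ) - (b k : ℂ) - 1)) / Bz b c k (pt r θ)).re +
        (pt r θ / (1 - pt r θ)).re := fun k =>
    (Complex.continuous_re.comp (((continuous_pt r).mul continuous_const).div (hcB k)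
      (hB0 k))).add (Complex.continuous_re.comp ((continuous_pt r).div hc1 hne'))
  refine ⟨γ, ?_⟩
  have hreg : ∀ k, n k * regFun γ ![uF b N, uL b N k] = ∫ θ in (0 : ℝ)..(2 * π),
      n k * (Real.log ‖eL b N c (pt r θ)‖ *
        ((pt r θ * (-((c : ℂ) - (b k : ℂ) - 1)) / Bz b c k (pt r θ)).re +
          (pt r θ / (1 - pt r θ)).re) -
        Real.log ‖Bz b c k (pt r θ) / (1 - pt r θ)‖ *
          (pt r θ * deriv (eL b N c) (pt r θ) / eL b N c (pt r θ)).re) := by
    intro k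
    rw [regFun_one γ ![uF b N, uL b N k] (fun t => eL b N c (pt r t))
      (fun t => Bz b c k (pt r t) / (1 - pt r t)) hγF (hγL k),
      ← intervalIntegral.integral_const_mul]
    refine intervalIntegral.integral_congr fun θ _ => ?_
    simp only [hdF, hdG]
  rw [Finset.sum_congr rfl fun k _ => hreg k, ← intervalIntegral.integral_finsetSum]
  · refine intervalIntegral.integral_congr fun θ _ => ?_
    show ∑ k, n k * (_ - _) = gL b N c n (pt r θ)
    unfold gL H1 H0
    have e1 : ∀ k, Real.log ‖Bz b c k (pt r θ) / (1 - pt r θ)‖ =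
        Real.log ‖Bz b c k (pt r θ)‖ - Real.log ‖1 - pt r θ‖ := fun k => by
      rw [norm_div, Real.log_div (norm_ne_zero_iff.2 (hB0 k θ)) (norm_ne_zero_iff.2 (hne' θ))]
    simp only [e1]
    rw [Finset.mul_sum, Finset.sum_mul, ← Finset.sum_sub_distrib]
    have e2 : ∀ k, n k * (Real.log ‖eL b N c (pt r θ)‖ *
        ((pt r θ * (-((c : ℂ) - (b k : ℂ) - 1)) / Bz b c k (pt r θ)).re +
          (pt r θ / (1 - pt r θ)).re) -
        (Real.log ‖Bz b c k (pt r θ)‖ - Real.log ‖1 - pt r θ‖) *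
          (pt r θ * deriv (eL b N c) (pt r θ) / eL b N c (pt r θ)).re) =
        (Real.log ‖eL b N c (pt r θ)‖ *
          (n k * (pt r θ * (-((c : ℂ) - (b k : ℂ) - 1)) / Bz b c k (pt r θ)).re) -
          n k * Real.log ‖Bz b c k (pt r θ)‖ *
            (pt r θ * deriv (eL b N c) (pt r θ) / eL b N c (pt r θ)).re) +
        n k * (Real.log ‖eL b N c (pt r θ)‖ * (pt r θ / (1 - pt r θ)).re +
          Real.log ‖1 - pt r θ‖ *
            (pt r θ * deriv (eL b N c) (pt r θ) / eL b N c (pt r θ)).re) := fun k => by ring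
    rw [Finset.sum_congr rfl fun k _ => e2 k, Finset.sum_add_distrib, ← Finset.sum_mul, hn,
      zero_mul, add_zero]
  · intro k _
    refine Continuous.intervalIntegrable ?_ _ _
    exact continuous_const.mul ((hcF.mul (hcψ k)).sub ((hcG k).mul hcφ))

end P4a177d
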