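import Pool.Agent.Lib.P4a177d.XLineA

/-!
# The limit of the regulators of the loops around a vertical line

Put `A = {z | ρ ≤ ‖z‖ ≤ 1}`, a compact subset of the open set `Om`.
PROOF (dominated convergence, `intervalIntegral.tendsto_integral_filter_of_dominated_convergence`, filter `𝓝[<] 1`). For `z ∈ A`, `z ≠ 1`:
`log ‖eL z‖ = (g + 1) log ‖1 - z‖ + log ‖EL z‖` (`eL_eq_mul`), `z eL'/eL = -(g + 1) z / (1 - z) + z EL'/EL` (`dlog_eL`). On the compact set `A` the functions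
`H1`, `log ‖EL‖`, `z EL'/EL`, `1 / ‖B_k‖` are continuous (`EL_ne_zero`, `Bz_ne_zero`, `EL` is complex differentiable on the open set `Om`, so `deriv EL` is continuous there:
`DifferentiableOn.deriv`), so bounded by a constant.
`H0_le`: `|H0 z| ≤ C ‖1 - z‖` on `A`: `B_k z = 2 (1 + w)`, `w = (c - b_k - 1)(1 - z)/2`, and `∑ n_k = 0`, so `H0 z = ∑ n_k log ‖1 + w_k‖`; `log ‖1 + w‖ ≤ ‖w‖` and
`log ‖1 + w‖ ≥ 1 - 1 / ‖1 + w‖ ≥ - ‖w‖ / ‖1 + w‖`, `‖1 + w‖ = ‖B_k‖ / 2` is bounded from below on `A`.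
`log_bound`: for `1/2 ≤ r ≤ 1`: `‖1 - r e^{iθ}‖^2 = (1 - r)^2 + 4 r sin^2 (θ/2) ≥ sin^2 (θ/2)`, and `‖1 - z‖ ≤ 2`, so `|log ‖1 - z‖| ≤ log 2 + |log |sin (θ/2)||` for `0 < θ < 2π`.
So `|gL (pt r θ)| ≤ C (1 + |log |sin (θ/2)||)`, which is integrable on `[0, 2π]`. Pointwise: for `0 < θ < 2π` the point `pt 1 θ ≠ 1` is in `Om` and `gL` is continuous
there, `pt r θ → pt 1 θ`. Measurability: `gL` is continuous on `Om ∖ {1}`; for `r < 1` near `1` the function of `θ` is continuous; for `r = 1` it is continuous on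
`(0, 2π)`.
-/

set_option autoImplicit false

namespace P4a177d

open Filter Topology MeasureTheory
open scoped Real

variable {g : ℕ} {b : Fin (g + 1) → ℤ} {N : ℤ} {c : ℝ}

namespace XLineCAux

/-- The closed annulus. -/
def An (ρ : ℝ) : Set ℂ := {z | ρ ≤ ‖z‖ ∧ ‖z‖ ≤ 1}

theorem isCompact_An (ρ : ℝ) : IsCompact (An ρ) := by
  refine Metric.isCompact_of_isClosed_isBounded ?_ ?_
  · exact (isClosed_le continuous_const continuous_norm).inter
      (isClosed_le continuous_norm continuous_const)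
  · refine (Metric.isBounded_closedBall (x := (0 : ℂ)) (r := 1)).subset fun z hz => ?_
    rw [mem_closedBall_zero_iff]
    exact hz.2

theorem bound_An {ρ : ℝ} {E : Type} [SeminormedAddGroup E] {f : ℂ → E}
    (hf : ContinuousOn f (An ρ)) : ∃ C : ℝ, 0 ≤ C ∧ ∀ z ∈ An ρ, ‖f z‖ ≤ C := by
  obtain ⟨C, hC⟩ := (isCompact_An ρ).exists_bound_of_continuousOn hf
  exact ⟨max C 0, le_max_right _ _, fun z hz => (hC z hz).trans (le_max_left _ _)⟩

theorem continuous_pt_left (θ : ℝ) : Continuous fun r : ℝ => pt r θ := by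
  unfold pt
  fun_prop

theorem continuous_pt_right (r : ℝ) : Continuous fun θ : ℝ => pt r θ := by
  unfold pt
  fun_prop

theorem continuousAt_deriv {f : ℂ → ℂ} (hf : ∀ z ∈ Om b N c, DifferentiableAt ℂ f z) {z : ℂ}
    (hz : z ∈ Om b N c) : ContinuousAt (deriv f) z := by
  have h1 : DifferentiableOn ℂ f (Om b N c) := fun w hw => (hf w hw).differentiableWithinAt
  have h2 := h1.deriv isOpen_Om
  exact ((h2 z hz).differentiableAt (isOpen_Om.mem_nhds hz)).continuousAt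

theorem continuousAt_H1 (n : Fin (g + 1) → ℝ) {z : ℂ} (hz : z ∈ Om b N c) :
    ContinuousAt (H1 b c n) z := by
  unfold H1
  refine tendsto_finsetSum _ fun k _ => ?_
  have h1 : ContinuousAt (fun z => z * (-((c : ℂ) - (b k : ℂ) - 1)) / Bz b c k z) z := by
    refine ContinuousAt.div (by fun_prop) (differentiable_Bz k z).continuousAt ?_
    exact Bz_ne_zero hz.1 k
  exact (Complex.continuous_re.continuousAt.comp h1).const_mul (n k)

theorem continuousAt_H0 (n : Fin (g + 1) → ℝ) {z : ℂ} (hz : z ∈ Om b N c) :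
    ContinuousAt (H0 b c n) z := by
  unfold H0
  refine tendsto_finsetSum _ fun k _ => ?_
  have h1 : ContinuousAt (fun z => Real.log ‖Bz b c k z‖) z :=
    (differentiable_Bz k z).continuousAt.norm.log (norm_ne_zero_iff.2 (Bz_ne_zero hz.1 k))
  exact h1.const_mul (n k)

theorem abs_log_le {w : ℂ} (hw : 1 + w ≠ 0) :
    |Real.log ‖1 + w‖| ≤ ‖w‖ + ‖w‖ * ‖(1 + w)⁻¹‖ := by
  have h0 : 0 < ‖1 + w‖ := norm_pos_iff.2 hw
  have h1 : ‖1 + w‖ ≤ 1 + ‖w‖ := by
    have := norm_add_le (1 : ℂ) w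
    rwa [norm_one] at this
  have h2 : 1 - ‖w‖ ≤ ‖1 + w‖ := by
    have := norm_sub_le (1 + w) w
    rw [add_sub_cancel_right, norm_one] at this
    linarith
  have h3 := Real.log_le_sub_one_of_pos h0
  have h4 := Real.one_sub_inv_le_log_of_pos h0
  have h5 : 0 ≤ ‖w‖ * ‖(1 + w)⁻¹‖ := by positivity
  have h6 : -(‖w‖ * ‖(1 + w)⁻¹‖) ≤ 1 - ‖1 + w‖⁻¹ := by
    rw [norm_inv]
    have h7 : 1 - ‖1 + w‖⁻¹ = (‖1 + w‖ - 1) * ‖1 + w‖⁻¹ := by
      rw [sub_mul, mul_inv_cancel₀ h0.ne', one_mul]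
    rw [h7, ← neg_mul]
    exact mul_le_mul_of_nonneg_right (by linarith) (inv_nonneg.2 h0.le)
  rw [abs_le]
  constructor
  · have := norm_nonneg w
    linarith
  · linarith

end XLineCAux

open XLineCAux

theorem pt_one_ne {θ : ℝ} (h0 : 0 < θ) (h1 : θ < 2 * π) : pt 1 θ ≠ 1 := by
  unfold pt
  rw [Complex.ofReal_one, one_mul]
  intro h
  obtain ⟨n, hn⟩ := Complex.exp_eq_one_iff.1 h
  have h2 : (θ : ℂ) = ((n * (2 * π) : ℝ) : ℂ) := by
    have h3 : (θ : ℂ) * Complex.I = ((n * (2 * π) : ℝ) : ℂ) * Complex.I := by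
      rw [hn]
      push_cast
      ring
    exact mul_right_cancel₀ Complex.I_ne_zero h3
  have h3 : θ = n * (2 * π) := by exact_mod_cast h2
  have hpi : 0 < 2 * π := by positivity
  have h4 : (0 : ℝ) < n := by
    by_contra hc
    push Not at hc
    have : (n : ℝ) * (2 * π) ≤ 0 := mul_nonpos_of_nonpos_of_nonneg hc hpi.le
    linarith
  have h5 : (n : ℝ) < 1 := by
    by_contra hc
    push Not at hc
    have : 1 * (2 * π) ≤ (n : ℝ) * (2 * π) := mul_le_mul_of_nonneg_right hc hpi.le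
    linarith
  have h6 : 0 < n := by exact_mod_cast h4
  have h7 : n < 1 := by exact_mod_cast h5
  omega

theorem log_bound {r θ : ℝ} (h0 : 1 / 2 ≤ r) (h1 : r ≤ 1) (h2 : 0 < θ) (h3 : θ < 2 * π) :
    |Real.log ‖1 - pt r θ‖| ≤ Real.log 2 + |Real.log (|Real.sin (θ / 2)|)| := by
  have hs : 0 < Real.sin (θ / 2) := Real.sin_pos_of_pos_of_lt_pi (by linarith) (by linarith)
  have hcos : Real.cos θ = 1 - 2 * Real.sin (θ / 2) ^ 2 := by
    have h := Real.cos_two_mul (θ / 2)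
    rw [mul_div_cancel₀ θ (two_ne_zero)] at h
    rw [h]
    have := Real.sin_sq_add_cos_sq (θ / 2)
    linarith
  have hsq : ‖1 - pt r θ‖ ^ 2 = (1 - r) ^ 2 + 4 * r * Real.sin (θ / 2) ^ 2 := by
    have hre : (1 - pt r θ).re = 1 - r * Real.cos θ := by
      unfold pt
      rw [Complex.sub_re, Complex.one_re, Complex.re_ofReal_mul, Complex.exp_ofReal_mul_I_re]
    have him : (1 - pt r θ).im = -(r * Real.sin θ) := by
      unfold pt
      rw [Complex.sub_im, Complex.one_im, Complex.im_ofReal_mul, Complex.exp_ofReal_mul_I_im,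
        zero_sub]
    rw [Complex.sq_norm, Complex.normSq_apply, hre, him]
    have h := Real.sin_sq_add_cos_sq θ
    have h' : Real.sin θ ^ 2 = 1 - Real.cos θ ^ 2 := by linarith
    have e : (1 - r * Real.cos θ) * (1 - r * Real.cos θ) + -(r * Real.sin θ) * -(r * Real.sin θ) =
        1 - 2 * r * Real.cos θ + r ^ 2 * (Real.sin θ ^ 2 + Real.cos θ ^ 2) := by ring
    rw [e, h, hcos]
    ring
  have hlow : Real.sin (θ / 2) ≤ ‖1 - pt r θ‖ := by
    refine le_of_sq_le_sq ?_ (norm_nonneg _)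
    rw [hsq]
    have h4 : 0 ≤ (1 - r) ^ 2 := sq_nonneg _
    have h5 : 1 * Real.sin (θ / 2) ^ 2 ≤ 4 * r * Real.sin (θ / 2) ^ 2 :=
      mul_le_mul_of_nonneg_right (by linarith) (sq_nonneg _)
    linarith
  have hup : ‖1 - pt r θ‖ ≤ 2 := by
    have h4 := norm_sub_le (1 : ℂ) (pt r θ)
    rw [norm_one, norm_pt (by linarith)] at h4
    linarith
  have hpos : 0 < ‖1 - pt r θ‖ := lt_of_lt_of_le hs hlow
  have hlog2 : 0 ≤ Real.log 2 := Real.log_nonneg (by norm_num)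
  rw [abs_of_pos hs]
  have h4 : Real.log (Real.sin (θ / 2)) ≤ Real.log ‖1 - pt r θ‖ := Real.log_le_log hs hlow
  have h5 : Real.log ‖1 - pt r θ‖ ≤ Real.log 2 := Real.log_le_log hpos hup
  rw [abs_le]
  constructor
  · have := neg_abs_le (Real.log (Real.sin (θ / 2)))
    linarith
  · have := abs_nonneg (Real.log (Real.sin (θ / 2)))
    linarith

theorem integrable_log_half :
    IntervalIntegrable (fun θ => |Real.log (|Real.sin (θ / 2)|)|) volume 0 (2 * π) := by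
  have h := (intervalIntegrable_log_sin (a := 0) (b := π)).comp_mul_left (c := 1 / 2)
  have h1 : (0 : ℝ) / (1 / 2) = 0 := by norm_num
  have h2 : π / (1 / 2) = 2 * π := by ring
  rw [h1, h2] at h
  have h3 := h.abs
  refine h3.congr ?_
  intro θ _
  simp only [Function.comp, Real.log_abs]
  rw [show (1 / 2 : ℝ) * θ = θ / 2 by ring]

theorem H0_le {ρ : ℝ} (h : ∀ z : ℂ, ρ ≤ ‖z‖ → ‖z‖ ≤ 1 → z ∈ Om b N c)
    (n : Fin (g + 1) → ℝ) (hn : ∑ k, n k = 0) :
    ∃ C : ℝ, 0 ≤ C ∧ ∀ z : ℂ, ρ ≤ ‖z‖ → ‖z‖ ≤ 1 → |H0 b c n z| ≤ C * ‖1 - z‖ := by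
  have hb : ∀ k, ∃ C : ℝ, 0 ≤ C ∧ ∀ z ∈ An ρ, ‖(Bz b c k z)⁻¹‖ ≤ C := by
    intro k
    refine bound_An ?_
    refine ContinuousOn.inv₀ (differentiable_Bz k).continuous.continuousOn fun z hz => ?_
    exact Bz_ne_zero (h z hz.1 hz.2).1 k
  choose C hC0 hC using hb
  refine ⟨∑ k, |n k| * (‖(c : ℂ) - (b k : ℂ) - 1‖ / 2 * (1 + 2 * C k)), ?_, ?_⟩
  · refine Finset.sum_nonneg fun k _ => ?_
    have := hC0 k
    positivity
  · intro z hz1 hz2
    have hz := h z hz1 hz2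
    have h1 : H0 b c n z =
        ∑ k, n k * Real.log ‖1 + ((c : ℂ) - (b k : ℂ) - 1) * (1 - z) / 2‖ := by
      have h2 : ∀ k, n k * Real.log ‖Bz b c k z‖ = n k * Real.log 2 +
          n k * Real.log ‖1 + ((c : ℂ) - (b k : ℂ) - 1) * (1 - z) / 2‖ := by
        intro k
        have h3 : Bz b c k z = 2 * (1 + ((c : ℂ) - (b k : ℂ) - 1) * (1 - z) / 2) := by
          unfold Bz
          ring
        have h4 : (1 + ((c : ℂ) - (b k : ℂ) - 1) * (1 - z) / 2) ≠ 0 := by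
          intro h5
          rw [h5, mul_zero] at h3
          exact Bz_ne_zero hz.1 k h3
        rw [h3, norm_mul, Complex.norm_ofNat,
          Real.log_mul (by norm_num) (norm_ne_zero_iff.2 h4)]
        ring
      unfold H0
      rw [Finset.sum_congr rfl fun k _ => h2 k, Finset.sum_add_distrib, ← Finset.sum_mul, hn,
        zero_mul, zero_add]
    rw [h1, Finset.sum_mul]
    refine (Finset.abs_sum_le_sum_abs _ _).trans (Finset.sum_le_sum fun k _ => ?_)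
    rw [abs_mul, mul_assoc]
    refine mul_le_mul_of_nonneg_left ?_ (abs_nonneg _)
    set w : ℂ := ((c : ℂ) - (b k : ℂ) - 1) * (1 - z) / 2 with hw
    have h3 : Bz b c k z = 2 * (1 + w) := by
      rw [hw]
      unfold Bz
      ring
    have h4 : 1 + w ≠ 0 := by
      intro h5
      rw [h5, mul_zero] at h3
      exact Bz_ne_zero hz.1 k h3
    have h5 : ‖(1 + w)⁻¹‖ ≤ 2 * C k := by
      have h6 : (1 + w)⁻¹ = 2 * (Bz b c k z)⁻¹ := by
        rw [h3, mul_inv]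
        ring
      rw [h6, norm_mul, Complex.norm_ofNat]
      have := hC k z ⟨hz1, hz2⟩
      linarith
    have h6 : ‖w‖ = ‖(c : ℂ) - (b k : ℂ) - 1‖ / 2 * ‖1 - z‖ := by
      rw [hw, norm_div, norm_mul, Complex.norm_ofNat]
      ring
    refine (abs_log_le h4).trans ?_
    have h7 : ‖w‖ + ‖w‖ * ‖(1 + w)⁻¹‖ ≤ ‖w‖ + ‖w‖ * (2 * C k) := by
      have := mul_le_mul_of_nonneg_left h5 (norm_nonneg w)
      linarith
    refine h7.trans (le_of_eq ?_)
    rw [h6]
    ring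

theorem gL_bound {ρ : ℝ} (h0 : 1 / 2 ≤ ρ) (h : ∀ z : ℂ, ρ ≤ ‖z‖ → ‖z‖ ≤ 1 → z ∈ Om b N c)
    (n : Fin (g + 1) → ℝ) (hn : ∑ k, n k = 0) :
    ∃ C : ℝ, 0 ≤ C ∧ ∀ r θ : ℝ, ρ ≤ r → r ≤ 1 → 0 < θ → θ < 2 * π →
      |gL b N c n (pt r θ)| ≤ C * (1 + |Real.log (|Real.sin (θ / 2)|)|) := by
  obtain ⟨C0, hC0, hC0'⟩ := H0_le h n hn
  obtain ⟨C1, hC1, hC1'⟩ : ∃ C : ℝ, 0 ≤ C ∧ ∀ z ∈ An ρ, ‖H1 b c n z‖ ≤ C :=
    bound_An fun z hz => (continuousAt_H1 (N := N) n (h z hz.1 hz.2)).continuousWithinAt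
  obtain ⟨C2, hC2, hC2'⟩ : ∃ C : ℝ, 0 ≤ C ∧ ∀ z ∈ An ρ, ‖Real.log ‖EL b N c z‖‖ ≤ C :=
    bound_An fun z hz => ((differentiableAt_EL (h z hz.1 hz.2)).continuousAt.norm.log
      (norm_ne_zero_iff.2 (EL_ne_zero (h z hz.1 hz.2)))).continuousWithinAt
  obtain ⟨C3, hC3, hC3'⟩ : ∃ C : ℝ, 0 ≤ C ∧ ∀ z ∈ An ρ,
      ‖deriv (EL b N c) z / EL b N c z‖ ≤ C := by
    refine bound_An fun z hz => ContinuousAt.continuousWithinAt ?_
    have hz' := h z hz.1 hz.2
    exact (continuousAt_deriv (fun w hw => differentiableAt_EL hw) hz').div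
      (differentiableAt_EL hz').continuousAt (EL_ne_zero hz')
  refine ⟨((g + 1 : ℕ) : ℝ) * C1 + ((g + 1 : ℕ) * Real.log 2 + C2) * C1 +
    C0 * ((g + 1 : ℕ) + 2 * C3), by positivity, ?_⟩
  intro r θ hr1 hr2 hθ1 hθ2
  set z := pt r θ with hz
  set L := |Real.log (|Real.sin (θ / 2)|)| with hL
  have hL0 : 0 ≤ L := abs_nonneg _
  have hnorm : ‖z‖ = r := norm_pt (by linarith) θ
  have hA : z ∈ An ρ := ⟨by rw [hnorm]; exact hr1, by rw [hnorm]; exact hr2⟩
  have hO : z ∈ Om b N c := h z hA.1 hA.2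
  have hz1 : z ≠ 1 := by
    rcases eq_or_lt_of_le hr2 with he | hl
    · rw [hz, he]
      exact pt_one_ne hθ1 hθ2
    · intro he
      rw [he, norm_one] at hnorm
      linarith
  have h1z : (1 : ℂ) - z ≠ 0 := sub_ne_zero.2 (Ne.symm hz1)
  have h1n : 0 < ‖1 - z‖ := norm_pos_iff.2 h1z
  have h1n2 : ‖1 - z‖ ≤ 2 := by
    have := norm_sub_le (1 : ℂ) z
    rw [norm_one, hnorm] at this
    linarith
  have hlogb : |Real.log ‖1 - z‖| ≤ Real.log 2 + L := log_bound (by linarith) hr2 hθ1 hθ2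
  have hlog2 : 0 ≤ Real.log 2 := Real.log_nonneg (by norm_num)
  have e1 : Real.log ‖eL b N c z‖ =
      ((g + 1 : ℕ) : ℝ) * Real.log ‖1 - z‖ + Real.log ‖EL b N c z‖ := by
    rw [eL_eq_mul hO, norm_mul, norm_pow, Real.log_mul (by positivity)
      (norm_ne_zero_iff.2 (EL_ne_zero hO)), Real.log_pow]
  have e2 : |Real.log ‖eL b N c z‖| ≤ ((g + 1 : ℕ) : ℝ) * (Real.log 2 + L) + C2 := by
    rw [e1]
    refine (abs_add_le _ _).trans (add_le_add ?_ ?_)
    · rw [abs_mul, abs_of_nonneg (Nat.cast_nonneg _)]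
      exact mul_le_mul_of_nonneg_left hlogb (Nat.cast_nonneg _)
    · exact hC2' z hA
  have e3 : |H1 b c n z| ≤ C1 := hC1' z hA
  have e4 : |H0 b c n z| ≤ C0 * ‖1 - z‖ := hC0' z hA.1 hA.2
  have e5 : |(z * deriv (eL b N c) z / eL b N c z).re| ≤ ((g + 1 : ℕ) : ℝ) / ‖1 - z‖ + C3 := by
    refine (Complex.abs_re_le_norm _).trans ?_
    rw [mul_div_assoc, norm_mul, hnorm, dlog_eL hO hz1]
    have h1 : ‖-((g + 1 : ℕ) : ℂ) / (1 - z) + deriv (EL b N c) z / EL b N c z‖ ≤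
        ((g + 1 : ℕ) : ℝ) / ‖1 - z‖ + C3 := by
      refine (norm_add_le _ _).trans (add_le_add ?_ (hC3' z hA))
      rw [norm_div, norm_neg, Complex.norm_natCast]
    have h2 : 0 ≤ ‖-((g + 1 : ℕ) : ℂ) / (1 - z) + deriv (EL b N c) z / EL b N c z‖ := norm_nonneg _
    calc r * ‖-((g + 1 : ℕ) : ℂ) / (1 - z) + deriv (EL b N c) z / EL b N c z‖
        ≤ 1 * ‖-((g + 1 : ℕ) : ℂ) / (1 - z) + deriv (EL b N c) z / EL b N c z‖ :=
          mul_le_mul_of_nonneg_right hr2 h2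
      _ ≤ _ := by rw [one_mul]; exact h1
  unfold gL
  have t1 : |Real.log ‖eL b N c z‖ * H1 b c n z| ≤
      (((g + 1 : ℕ) : ℝ) * (Real.log 2 + L) + C2) * C1 := by
    rw [abs_mul]
    exact mul_le_mul e2 e3 (abs_nonneg _) (by positivity)
  have t2 : |H0 b c n z * (z * deriv (eL b N c) z / eL b N c z).re| ≤
      C0 * ((g + 1 : ℕ) + 2 * C3) := by
    rw [abs_mul]
    have h1 : |H0 b c n z| * |(z * deriv (eL b N c) z / eL b N c z).re| ≤
        (C0 * ‖1 - z‖) * (((g + 1 : ℕ) : ℝ) / ‖1 - z‖ + C3) :=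
      mul_le_mul e4 e5 (abs_nonneg _) (by positivity)
    refine h1.trans ?_
    have h2 : (C0 * ‖1 - z‖) * (((g + 1 : ℕ) : ℝ) / ‖1 - z‖ + C3) =
        C0 * (((g + 1 : ℕ) : ℝ) + ‖1 - z‖ * C3) := by
      field_simp
    rw [h2]
    refine mul_le_mul_of_nonneg_left ?_ hC0
    have := mul_le_mul_of_nonneg_right h1n2 hC3
    linarith
  have t3 : (((g + 1 : ℕ) : ℝ) * (Real.log 2 + L) + C2) * C1 + C0 * ((g + 1 : ℕ) + 2 * C3) ≤
      (((g + 1 : ℕ) : ℝ) * C1 + ((g + 1 : ℕ) * Real.log 2 + C2) * C1 +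
        C0 * ((g + 1 : ℕ) + 2 * C3)) * (1 + L) := by
    have h1 : 0 ≤ ((g + 1 : ℕ) : ℝ) * C1 := by positivity
    have h2 : 0 ≤ (((g + 1 : ℕ) * Real.log 2 + C2) * C1) * L := by positivity
    have h3 : 0 ≤ (C0 * ((g + 1 : ℕ) + 2 * C3)) * L := by positivity
    nlinarith
  exact ((abs_sub _ _).trans (add_le_add t1 t2)).trans t3

theorem continuousAt_gL (n : Fin (g + 1) → ℝ) {z : ℂ} (hz : z ∈ Om b N c) (h1 : z ≠ 1) :
    ContinuousAt (gL b N c n) z := by
  have he : ContinuousAt (eL b N c) z := (differentiableAt_eL hz).continuousAt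
  have hne := eL_ne_zero hz h1
  unfold gL
  refine ContinuousAt.sub ?_ ?_
  · exact (he.norm.log (norm_ne_zero_iff.2 hne)).mul (continuousAt_H1 n hz)
  · refine (continuousAt_H0 n hz).mul (Complex.continuous_re.continuousAt.comp ?_)
    exact (continuousAt_id.mul (continuousAt_deriv (fun w hw => differentiableAt_eL hw) hz)).div
      he hne

theorem tendsto_line {ρ : ℝ} (h0 : 1 / 2 ≤ ρ) (h1 : ρ < 1)
    (h : ∀ z : ℂ, ρ ≤ ‖z‖ → ‖z‖ ≤ 1 → z ∈ Om b N c)
    (n : Fin (g + 1) → ℝ) (hn : ∑ k, n k = 0) :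
    IntervalIntegrable (fun θ => gL b N c n (pt 1 θ)) volume 0 (2 * π) ∧
    Tendsto (fun r : ℝ => ∫ θ in (0 : ℝ)..(2 * π), gL b N c n (pt r θ)) (𝓝[<] 1)
      (𝓝 (∫ θ in (0 : ℝ)..(2 * π), gL b N c n (pt 1 θ))) := by
  obtain ⟨C, hC0, hC⟩ := gL_bound h0 h n hn
  have hpi : (0 : ℝ) < 2 * π := by positivity
  have hbint : IntervalIntegrable (fun θ => C * (1 + |Real.log (|Real.sin (θ / 2)|)|)) volume
      0 (2 * π) :=
    ((intervalIntegrable_const (c := (1 : ℝ))).add integrable_log_half).const_mul C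
  have hne : ∀ᵐ θ ∂(volume : Measure ℝ), θ ≠ 2 * π := by
    rw [ae_iff]
    simp
  have hIoc : Set.uIoc 0 (2 * π) = Set.Ioc 0 (2 * π) := Set.uIoc_of_le hpi.le
  have hmem : ∀ r θ : ℝ, ρ ≤ r → r ≤ 1 → pt r θ ∈ Om b N c := by
    intro r θ hr1 hr2
    have := norm_pt (show 0 ≤ r by linarith) θ
    exact h _ (by rw [this]; exact hr1) (by rw [this]; exact hr2)
  have hmeas1 : AEStronglyMeasurable (fun θ => gL b N c n (pt 1 θ))
      (volume.restrict (Set.uIoc 0 (2 * π))) := by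
    have hc : ContinuousOn (fun θ => gL b N c n (pt 1 θ)) (Set.Ioo 0 (2 * π)) := by
      intro θ hθ
      refine ContinuousAt.continuousWithinAt ?_
      exact (continuousAt_gL n (hmem 1 θ h1.le le_rfl) (pt_one_ne hθ.1 hθ.2)).comp
        (f := fun θ => pt 1 θ) (continuous_pt_right 1).continuousAt
    have h2 := hc.aestronglyMeasurable (μ := volume) measurableSet_Ioo
    rw [hIoc, ← Measure.restrict_congr_set Ioo_ae_eq_Ioc]
    exact h2
  constructor
  · refine hbint.mono_fun' hmeas1 ?_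
    rw [hIoc]
    filter_upwards [ae_restrict_of_ae hne, ae_restrict_mem measurableSet_Ioc] with θ h2 h3
    rw [Real.norm_eq_abs]
    exact hC 1 θ h1.le le_rfl h3.1 (lt_of_le_of_ne h3.2 h2)
  · refine intervalIntegral.tendsto_integral_filter_of_dominated_convergence
      (fun θ => C * (1 + |Real.log (|Real.sin (θ / 2)|)|)) ?_ ?_ hbint ?_
    · filter_upwards [Ioo_mem_nhdsLT h1] with r hr
      refine Continuous.aestronglyMeasurable ?_
      rw [continuous_iff_continuousAt]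
      intro θ
      have h3 : pt r θ ≠ 1 := by
        intro he
        have := norm_pt (show 0 ≤ r by linarith [hr.1]) θ
        rw [he, norm_one] at this
        linarith [hr.2]
      exact (continuousAt_gL n (hmem r θ hr.1.le hr.2.le) h3).comp
        (f := fun θ => pt r θ) (continuous_pt_right r).continuousAt
    · filter_upwards [Ioo_mem_nhdsLT h1] with r hr
      filter_upwards [hne] with θ h2 h3
      rw [hIoc] at h3
      rw [Real.norm_eq_abs]
      exact hC r θ hr.1.le hr.2.le h3.1 (lt_of_le_of_ne h3.2 h2)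
    · filter_upwards [hne] with θ h2 h3
      rw [hIoc] at h3
      have h4 := continuousAt_gL n (hmem 1 θ h1.le le_rfl)
        (pt_one_ne h3.1 (lt_of_le_of_ne h3.2 h2))
      have h5 : ContinuousAt (fun r : ℝ => gL b N c n (pt r θ)) 1 :=
        ContinuousAt.comp (f := fun r : ℝ => pt r θ) h4 (continuous_pt_left θ).continuousAt
      exact h5.tendsto.mono_left nhdsWithin_le_nhds

end P4a177d
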